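import Pool.Agent.Lib.MP_29b1bb_gt.SU.EllXb

/-!
Module EllMem (board SU, MP_29b1bb_gt). Rearrangement inside the blocks and the membership of the
linear profile, by separation from the closed convex set `B`.
-/

set_option autoImplicit false

open MeasureTheory Set

namespace Pool.Agent.Lib.MP_29b1bb_gt.SU

variable {d : ℕ} {ι : Type*}

/-- rearrangement inside the blocks -/
theorem rearr (c : Fin d → ι) (w v : Fin d → ℝ) (hv : v ∈ chamber c) (σ : Equiv.Perm (Fin d))
    (hσ : Blk c σ) (hw : (w ∘ σ) ∈ chamber c) : ∑ i, w i * v i ≤ ∑ i, w (σ i) * v i := by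
  classical
  have hblock : ∀ b : ι, ∑ i ∈ Finset.univ.filter (fun i => c i = b), w i * v i
      ≤ ∑ i ∈ Finset.univ.filter (fun i => c i = b), w (σ i) * v i := by
    intro b
    have hinv : ∀ x, c (σ.symm x) = c x := by
      intro x
      have h := hσ (σ.symm x)
      rw [Equiv.apply_symm_apply] at h
      exact h.symm
    have hp : ∀ x, (c (σ.symm x) = b) ↔ (c x = b) := by
      intro x
      rw [hinv x]
    have hτ : ∀ i, c i = b →
        (Equiv.Perm.ofSubtype (Equiv.Perm.subtypePerm (p := fun y => c y = b) σ.symm hp) : Equiv.Perm (Fin d)) i = σ.symm i := by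
      intro i hi
      exact Equiv.Perm.ofSubtype_apply_of_mem (p := fun y => c y = b)
        (Equiv.Perm.subtypePerm (p := fun y => c y = b) σ.symm hp) hi
    have hτ' : {x | (Equiv.Perm.ofSubtype (Equiv.Perm.subtypePerm (p := fun y => c y = b) σ.symm hp) : Equiv.Perm (Fin d)) x ≠ x}
        ⊆ ((Finset.univ.filter (fun i => c i = b) : Finset (Fin d)) : Set (Fin d)) := by
      intro x hx
      by_contra hnot
      apply hx
      apply Equiv.Perm.ofSubtype_apply_of_not_mem
      intro hxb
      apply hnot
      simpa using hxb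
    have hmono : MonovaryOn (fun i => w (σ i)) v
        ((Finset.univ.filter (fun i => c i = b) : Finset (Fin d)) : Set (Fin d)) := by
      intro i hi j hj hij
      have hi' : c i = b := by simpa using hi
      have hj' : c j = b := by simpa using hj
      rcases lt_trichotomy i j with h | h | h
      · exact hw i j h (hi'.trans hj'.symm)
      · subst h
        exact absurd hij (lt_irrefl _)
      · exact absurd hij (not_lt.mpr (hv j i h (hj'.trans hi'.symm)))
    have key := hmono.sum_comp_perm_mul_le_sum_mul hτ'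
    refine le_trans (le_of_eq ?_) key
    apply Finset.sum_congr rfl
    intro i hi
    have hi' : c i = b := by simpa using hi
    rw [hτ i hi', Equiv.apply_symm_apply]
  have h1 : ∀ g : Fin d → ℝ, ∑ i, g i
      = ∑ b ∈ Finset.univ.image c, ∑ i ∈ Finset.univ.filter (fun i => c i = b), g i := by
    intro g
    rw [Finset.sum_fiberwise_of_maps_to (fun i _ => Finset.mem_image_of_mem c (Finset.mem_univ i))]
  rw [h1 (fun i => w i * v i), h1 (fun i => w (σ i) * v i)]
  exact Finset.sum_le_sum (fun b _ => hblock b)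

private theorem suEllMem_ell_chamber (c : Fin d → ι) {B : Set (Fin d → ℝ)} (hB : Corner d B)
    (hI : Inv c B) : ell c B ∈ chamber c := by
  classical
  intro i j hij hc
  have hM : M1 B i = M1 B j := M1_inv c hB hI hc
  have hblk : blk c i = blk c j := by
    unfold blk
    rw [hc]
  have hrk : rk c i ≤ rk c j := by
    unfold rk
    apply Finset.card_le_card
    intro k hk
    simp only [Finset.mem_filter, Finset.mem_univ, true_and] at hk ⊢
    exact ⟨hk.1.trans hc, le_trans hk.2 hij.le⟩
  have hM0 : 0 ≤ M1 B j := by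
    unfold M1
    apply setIntegral_nonneg hB.measurable
    intro x hx
    exact hB.nonneg x hx j
  have hv := hB.vol_pos
  unfold ell
  rw [hM, hblk]
  have hrk' : (rk c i : ℝ) ≤ (rk c j : ℝ) := by exact_mod_cast hrk
  have h2 : 0 ≤ 2 * (M1 B j / vol B) := by positivity
  have h3 : (0 : ℝ) < ((blk c j).card : ℝ) + 1 := by positivity
  exact div_le_div_of_nonneg_right (mul_le_mul_of_nonneg_left hrk' h2) h3.le

/-- the linear profile is in `B` -/
theorem ell_mem (c : Fin d → ι) {B : Set (Fin d → ℝ)} (hB : Corner d B) (hI : Inv c B) :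
    ell c B ∈ B := by
  classical
  by_contra hnot
  obtain ⟨f, u, hf, hu⟩ := geometric_hahn_banach_closed_point hB.convex hB.compact.isClosed hnot
  have hfsum : ∀ x : Fin d → ℝ, f x = ∑ i, f (fun j => if i = j then 1 else 0) * x i := by
    intro x
    have h := LinearMap.pi_apply_eq_sum_univ f.toLinearMap x
    have h' : f x = ∑ i, x i • f (fun j => if i = j then 1 else 0) := h
    rw [h']
    apply Finset.sum_congr rfl
    intro i _
    rw [smul_eq_mul, mul_comm]
  set w : Fin d → ℝ := fun i => f (fun j => if i = j then 1 else 0) with hwdef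
  obtain ⟨σ, hσ, hw⟩ := exists_sort c w
  have h1 : ∑ i, w i * ell c B i ≤ ∑ i, w (σ i) * ell c B i :=
    rearr c w (ell c B) (suEllMem_ell_chamber c hB hI) σ hσ hw
  have h2 : ∑ i, w (σ i) * ell c B i ≤ ∑ i, w (σ i) * xb c B i :=
    ell_le_xb c hB hI (w ∘ σ) hw
  have hσ' : Blk c σ.symm := by
    intro x
    have h := hσ (σ.symm x)
    rw [Equiv.apply_symm_apply] at h
    exact h.symm
  have hmem : (xb c B ∘ (σ.symm : Equiv.Perm (Fin d))) ∈ B := hI σ.symm hσ' _ (xb_mem c hB hI)
  have h3 : ∑ i, w (σ i) * xb c B i = ∑ i, w i * (xb c B ∘ (σ.symm : Equiv.Perm (Fin d))) i := by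
    rw [← Equiv.sum_comp σ (fun i => w i * (xb c B ∘ (σ.symm : Equiv.Perm (Fin d))) i)]
    apply Finset.sum_congr rfl
    intro i _
    simp only [Function.comp_apply]
    rw [Equiv.symm_apply_apply]
  have h4 := hf _ hmem
  rw [hfsum] at h4
  rw [hfsum] at hu
  have h5 : ∑ i, w i * ell c B i < u := by
    calc ∑ i, w i * ell c B i ≤ ∑ i, w (σ i) * xb c B i := le_trans h1 h2
      _ = ∑ i, w i * (xb c B ∘ (σ.symm : Equiv.Perm (Fin d))) i := h3
      _ < u := h4
  exact absurd hu (not_lt.mpr h5.le)

end Pool.Agent.Lib.MP_29b1bb_gt.SU
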