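import Pool.Agent.Lib.MP_29b1bb_gt.SU.Tail

/-!
Proof sketch for module Mom2 (board SU, MP_29b1bb_gt, helper96).
Proof. G(t) = volume {x in B : t <= x i} (real). M1 = int_0^oo G(t) dt, M2 = 2 int_0^oo t G(t) dt (layer cake / Fubini on B x [0,oo);
e.g. x i = int_0^oo 1_{t <= x i} dt, (x i)^2 = int int 1_{s+t <= x i} ... = 2 int t 1_{t <= x i}). Note (x i)^2 / 2 = double integral over s,t >= 0 of 1_{s + t <= x i}.
So M2 vol(B) / 2 = int int_{s,t>=0} vol(B) G(s+t) <= int int G(s) G(t) = M1^2 by tail_mul.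
-/

set_option autoImplicit false

open MeasureTheory Set

namespace Pool.Agent.Lib.MP_29b1bb_gt.SU

private theorem suMom2_swap (G : ℝ → ENNReal) (hG : Measurable G) :
    ∫⁻ t in Ioi (0 : ℝ), G t * ENNReal.ofReal t =
      ∫⁻ s in Ioi (0 : ℝ), ∫⁻ r in Ioi (0 : ℝ), G (s + r) := by
  have hF : Measurable fun z : ℝ × ℝ => if z.2 < z.1 then G z.1 else 0 :=
    Measurable.ite (measurableSet_lt measurable_snd measurable_fst) (hG.comp measurable_fst)
      measurable_const
  have h1 : ∀ t ∈ Ioi (0 : ℝ), G t * ENNReal.ofReal t =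
      ∫⁻ s in Ioi (0 : ℝ), (if s < t then G t else 0) := by
    intro t _
    have e : (fun s : ℝ => if s < t then G t else 0) = (Iio t).indicator fun _ => G t := by
      funext s
      simp only [indicator, mem_Iio]
    rw [e, lintegral_indicator_const measurableSet_Iio, Measure.restrict_apply measurableSet_Iio,
      inter_comm, Ioi_inter_Iio, Real.volume_Ioo, sub_zero]
  have h2 : ∀ s ∈ Ioi (0 : ℝ), ∫⁻ t in Ioi (0 : ℝ), (if s < t then G t else 0) =
      ∫⁻ r in Ioi (0 : ℝ), G (s + r) := by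
    intro s hs
    have e : (fun t : ℝ => if s < t then G t else 0) = (Ioi s).indicator G := by
      funext t
      simp only [indicator, mem_Ioi]
    rw [e, lintegral_indicator measurableSet_Ioi, Measure.restrict_restrict measurableSet_Ioi,
      inter_eq_left.2 (Ioi_subset_Ioi (le_of_lt hs)), ← lintegral_indicator measurableSet_Ioi,
      ← lintegral_indicator measurableSet_Ioi, ← lintegral_add_left_eq_self _ s]
    refine lintegral_congr fun r => ?_
    simp only [indicator, mem_Ioi, lt_add_iff_pos_right]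
  rw [setLIntegral_congr_fun measurableSet_Ioi h1, lintegral_lintegral_swap hF.aemeasurable,
    setLIntegral_congr_fun measurableSet_Ioi h2]

/-- `E X² ≤ 2 (E X)²` for the coordinates of a corner. -/
theorem mom2 {n : ℕ} {B : Set (Fin n → ℝ)} (hB : Corner n B) (i : Fin n) :
    M2 B i * vol B ≤ 2 * (M1 B i) ^ 2 := by
  have hm : MeasurableSet B := hB.measurable
  set μ : Measure (Fin n → ℝ) := volume.restrict B with hμ
  set G : ℝ → ENNReal := fun t => μ {x | t ≤ x i} with hGd
  have hG : Measurable G := by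
    have : Antitone G := fun s t hst => measure_mono fun x hx => le_trans hst hx
    exact this.measurable
  have hGe : ∀ t, G t = volume {x | x ∈ B ∧ t ≤ x i} := by
    intro t
    simp only [hGd, hμ]
    rw [Measure.restrict_apply (measurableSet_le measurable_const (measurable_pi_apply i))]
    congr 1
    ext x
    exact and_comm
  have hnn : ∀ᵐ x ∂μ, 0 ≤ x i :=
    (ae_restrict_iff' hm).2 (Filter.Eventually.of_forall fun x hx => hB.nonneg x hx i)
  have hae : AEMeasurable (fun x : Fin n → ℝ => x i) μ := (measurable_pi_apply i).aemeasurable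
  have hint : Integrable (fun x : Fin n → ℝ => x i) μ :=
    (continuous_apply i).continuousOn.integrableOn_compact hB.compact
  have hL1 : ∫⁻ x, ENNReal.ofReal (x i) ∂μ = ∫⁻ t in Ioi (0 : ℝ), G t :=
    lintegral_eq_lintegral_meas_le μ hnn hae
  have hL2 : ∫⁻ x, ENNReal.ofReal ((x i) ^ 2) ∂μ =
      2 * ∫⁻ t in Ioi (0 : ℝ), G t * ENNReal.ofReal t := by
    have h := lintegral_comp_eq_lintegral_meas_le_mul μ hnn hae
      (g := fun t => 2 * t) (fun t _ => (by fun_prop : Continuous fun t : ℝ => 2 * t).intervalIntegrable _ _)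
      ((ae_restrict_iff' measurableSet_Ioi).2 (Filter.Eventually.of_forall fun t ht => by
        have : (0 : ℝ) < t := ht
        positivity))
    have e1 : ∀ a : ℝ, ∫ t in (0 : ℝ)..a, 2 * t = a ^ 2 := by
      intro a
      rw [intervalIntegral.integral_const_mul, integral_id]
      ring
    simp only [e1] at h
    have hGt : Measurable fun t : ℝ => G t * ENNReal.ofReal t := hG.mul ENNReal.measurable_ofReal
    rw [h, ← lintegral_const_mul _ hGt]
    refine lintegral_congr fun t => ?_
    rw [ENNReal.ofReal_mul (by norm_num : (0 : ℝ) ≤ 2), ENNReal.ofReal_ofNat]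
    ring
  have hkey : volume B * ∫⁻ t in Ioi (0 : ℝ), G t * ENNReal.ofReal t ≤
      (∫⁻ t in Ioi (0 : ℝ), G t) * ∫⁻ t in Ioi (0 : ℝ), G t := by
    have hG2 : Measurable fun z : ℝ × ℝ => G (z.1 + z.2) :=
      hG.comp (measurable_fst.add measurable_snd)
    rw [suMom2_swap G hG, ← lintegral_const_mul _ hG2.lintegral_prod_right',
      ← lintegral_mul_const _ hG]
    refine setLIntegral_mono (hG.mul_const _) fun s hs => ?_
    have hGs : Measurable fun r : ℝ => G (s + r) := hG.comp (measurable_const.add measurable_id)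
    rw [← lintegral_const_mul _ hGs, ← lintegral_const_mul _ hG]
    refine setLIntegral_mono (hG.const_mul _) fun r hr => ?_
    rw [hGe, hGe, hGe]
    exact tail_mul hB i s r (le_of_lt hs) (le_of_lt hr)
  have hM1 : M1 B i = (∫⁻ x, ENNReal.ofReal (x i) ∂μ).toReal := by
    rw [M1, ← hμ, integral_eq_lintegral_of_nonneg_ae hnn hae.aestronglyMeasurable]
  have hM2 : M2 B i = (∫⁻ x, ENNReal.ofReal ((x i) ^ 2) ∂μ).toReal := by
    have h0 : 0 ≤ᵐ[μ] fun x : Fin n → ℝ => (x i) ^ 2 :=
      Filter.Eventually.of_forall fun x => sq_nonneg (x i)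
    rw [M2, ← hμ, integral_eq_lintegral_of_nonneg_ae h0 (hae.pow_const 2).aestronglyMeasurable]
  have hfin : ∫⁻ x, ENNReal.ofReal (x i) ∂μ ≠ ⊤ := by
    have h := hint.hasFiniteIntegral
    rw [hasFiniteIntegral_iff_ofReal hnn] at h
    exact h.ne
  rw [hL1] at hfin
  rw [hM1, hM2, hL1, hL2, vol, ← ENNReal.toReal_mul]
  have h3 : 2 * ((∫⁻ t in Ioi (0 : ℝ), G t).toReal) ^ 2 =
      (2 * ((∫⁻ t in Ioi (0 : ℝ), G t) * ∫⁻ t in Ioi (0 : ℝ), G t)).toReal := by
    rw [ENNReal.toReal_mul, ENNReal.toReal_mul, ENNReal.toReal_ofNat]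
    ring
  rw [h3]
  refine ENNReal.toReal_mono (ENNReal.mul_ne_top (by norm_num) (ENNReal.mul_ne_top hfin hfin)) ?_
  rw [mul_assoc]
  refine mul_le_mul_right ?_ 2
  rw [mul_comm]
  exact hkey

end Pool.Agent.Lib.MP_29b1bb_gt.SU
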