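import Pool.Agent.Lib.MP_29b1bb_gt.SU.ParkVol
import Pool.Agent.Lib.MP_29b1bb_gt.SU.EllMem
import Pool.Agent.Lib.MP_29b1bb_gt.SU.Mom2
/-!
Module AAsm (board SU, MP_29b1bb_gt, helper96).
block_volume: g i = M1 B i/vol B > 0, h i = 2 g i/(card + 1), constant on blocks (M1_inv); rk * h = ell; under c ell is contained in B (ell_mem, down-closed, invariance under sigma^-1). under_volume.
symmetric_moments: mom2: M2/V <= 2 (M1/V)^2; prod (M2/V) <= 2^d prod (M1/V)^2 <= 2^-d N^2 V^2, N = prod over blocks (m+1), and (m+1)^2 <= 1.082^m for m >= 128, so N^2 <= 1.082^d (sum of the block sizes is d).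
-/

set_option autoImplicit false

open MeasureTheory Set

namespace Pool.Agent.Lib.MP_29b1bb_gt.SU

variable {d : ℕ} {ι : Type*}

private lemma suAAsm_integrable {B : Set (Fin d → ℝ)} (hB : Corner d B) (i : Fin d) :
    IntegrableOn (fun x : Fin d → ℝ => x i) B :=
  (continuous_apply i).continuousOn.integrableOn_compact hB.compact

private lemma suAAsm_M1_pos {B : Set (Fin d → ℝ)} (hB : Corner d B) (i : Fin d) :
    0 < M1 B i := by
  unfold M1
  have hnn : 0 ≤ᵐ[volume.restrict B] (fun x : Fin d → ℝ => x i) :=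
    (ae_restrict_iff' hB.measurable).2 (Filter.Eventually.of_forall fun x hx => hB.nonneg x hx i)
  rw [setIntegral_pos_iff_support_of_nonneg_ae hnn (suAAsm_integrable hB i)]
  have h0 : volume {x : Fin d → ℝ | x i = 0} = 0 := by
    rw [volume_pi]
    exact Measure.pi_hyperplane (fun _ : Fin d => (volume : Measure ℝ)) i 0
  have hsub : B ⊆ (Function.support (fun x : Fin d → ℝ => x i) ∩ B) ∪ {x | x i = 0} := by
    intro x hx
    by_cases hxi : x i = 0
    · exact Or.inr hxi
    · exact Or.inl ⟨hxi, hx⟩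
  have h1 := (measure_mono hsub).trans (measure_union_le (μ := volume) _ _)
  rw [h0, add_zero] at h1
  exact lt_of_lt_of_le hB.pos h1

open Classical in
private lemma suAAsm_blk_eq (c : Fin d → ι) (i : Fin d) :
    blk c i = Finset.univ.filter (fun j => c j = c i) := by
  unfold blk
  congr

private lemma suAAsm_blk_congr (c : Fin d → ι) {i j : Fin d} (h : c i = c j) :
    blk c i = blk c j := by
  unfold blk
  rw [h]

private lemma suAAsm_under_sub (c : Fin d → ι) {B : Set (Fin d → ℝ)} (hB : Corner d B)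
    (hI : Inv c B) {l : Fin d → ℝ} (hl : l ∈ B) : under c l ⊆ B := by
  rintro y ⟨hy0, σ, hσ, hy⟩
  have h1 : (y ∘ σ) ∈ B := hB.down l hl _ (fun i => hy0 _) hy
  have h2 : Blk c σ⁻¹ := by
    intro i
    have h := hσ (σ⁻¹ i)
    have h' : σ (σ⁻¹ i) = i := by simp
    rw [h'] at h
    exact h.symm
  have h3 := hI σ⁻¹ h2 _ h1
  have h4 : (y ∘ σ) ∘ (σ⁻¹ : Equiv.Perm (Fin d)) = y := by
    funext i
    simp
  rwa [h4] at h3

open Classical in
theorem block_volume (c : Fin d → ι) {B : Set (Fin d → ℝ)} (hB : Corner d B) (hI : Inv c B) :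
    ∏ i, (2 * (M1 B i / vol B)) ≤
      (∏ b ∈ Finset.univ.image c, (((Finset.univ.filter (fun j => c j = b)).card : ℝ) + 1)) *
        vol B := by
  set h : Fin d → ℝ := fun i => 2 * (M1 B i / vol B) / (((blk c i).card : ℝ) + 1) with hdef
  have hcard : ∀ i, (0 : ℝ) < ((blk c i).card : ℝ) + 1 := fun i => by positivity
  have hh : ∀ i, 0 < h i := by
    intro i
    have := div_pos (suAAsm_M1_pos hB i) hB.vol_pos
    exact div_pos (by linarith) (hcard i)
  have hc : ∀ i j, c i = c j → h i = h j := by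
    intro i j hij
    simp only [hdef]
    rw [suAAsm_blk_congr c hij, M1_inv c hB hI hij]
  have h1 := under_volume c h hh hc
  have h2 : ∀ i, (((blk c i).card : ℝ) + 1) * h i = 2 * (M1 B i / vol B) := by
    intro i
    simp only [hdef]
    field_simp
  have h3 : (fun i => (rk c i : ℝ) * h i) = ell c B := by
    funext i
    simp only [hdef, ell]
    ring
  rw [h3] at h1
  simp only [h2] at h1
  refine h1.trans ?_
  refine mul_le_mul_of_nonneg_left ?_ (Finset.prod_nonneg fun b _ => by positivity)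
  exact ENNReal.toReal_mono hB.finite
    (measure_mono (suAAsm_under_sub c hB hI (ell_mem c hB hI)))

private lemma suAAsm_num (m : ℕ) (hm : 128 ≤ m) :
    ((m : ℝ) + 1) ^ 2 ≤ (1082 / 1000 : ℝ) ^ m := by
  induction m, hm using Nat.le_induction with
  | base => norm_num
  | succ m hm ih =>
    rw [pow_succ (1082 / 1000 : ℝ) m]
    have hm' : (128 : ℝ) ≤ m := by exact_mod_cast hm
    push_cast
    have h1 : ((m : ℝ) + 1 + 1) ^ 2 ≤ ((m : ℝ) + 1) ^ 2 * (1082 / 1000) := by nlinarith
    exact h1.trans (mul_le_mul_of_nonneg_right ih (by norm_num))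

theorem symmetric_moments (c : Fin d → ι) {B : Set (Fin d → ℝ)} (hB : Corner d B) (hI : Inv c B)
    (hc : ∀ i, 128 ≤ (blk c i).card) :
    ∏ i, (M2 B i / vol B) ≤ (541 / 1000) ^ d * vol B ^ 2 := by
  classical
  have hV := hB.vol_pos
  have hM2 : ∀ i, 0 ≤ M2 B i := fun i => by
    unfold M2
    exact integral_nonneg fun x => sq_nonneg _
  have h1 : ∀ i, M2 B i / vol B ≤ (1 / 2) * (2 * (M1 B i / vol B)) ^ 2 := by
    intro i
    have := mom2 hB i
    rw [div_le_iff₀ hV]
    have h2 : (1 / 2 : ℝ) * (2 * (M1 B i / vol B)) ^ 2 * vol B = 2 * (M1 B i) ^ 2 / vol B := by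
      field_simp
    rw [h2, le_div_iff₀ hV]
    exact this
  have h3 : ∏ i, (M2 B i / vol B) ≤ (1 / 2) ^ d * (∏ i, (2 * (M1 B i / vol B))) ^ 2 := by
    calc ∏ i, (M2 B i / vol B) ≤ ∏ i : Fin d, ((1 / 2) * (2 * (M1 B i / vol B)) ^ 2) :=
          Finset.prod_le_prod (fun i _ => div_nonneg (hM2 i) hV.le) (fun i _ => h1 i)
      _ = (1 / 2) ^ d * (∏ i, (2 * (M1 B i / vol B))) ^ 2 := by
          rw [Finset.prod_mul_distrib, Finset.prod_pow]
          simp
  set N : ℝ := ∏ b ∈ Finset.univ.image c,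
    (((Finset.univ.filter (fun j => c j = b)).card : ℝ) + 1) with hN
  have hbv : ∏ i, (2 * (M1 B i / vol B)) ≤ N * vol B := by
    have := block_volume c hB hI
    rw [hN]
    convert this using 2
  have hN0 : 0 ≤ N := Finset.prod_nonneg fun b _ => by positivity
  have hP0 : 0 ≤ ∏ i, (2 * (M1 B i / vol B)) :=
    Finset.prod_nonneg fun i _ =>
      mul_nonneg (by norm_num) (div_nonneg (suAAsm_M1_pos hB i).le hV.le)
  have hN2 : N ^ 2 ≤ (1082 / 1000 : ℝ) ^ d := by
    have hsum : ∑ b ∈ Finset.univ.image c, (Finset.univ.filter (fun j => c j = b)).card = d := by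
      have := Finset.card_eq_sum_card_image c (Finset.univ : Finset (Fin d))
      rw [Finset.card_univ, Fintype.card_fin] at this
      exact this.symm
    rw [hN, ← Finset.prod_pow]
    calc ∏ b ∈ Finset.univ.image c,
          (((Finset.univ.filter (fun j => c j = b)).card : ℝ) + 1) ^ 2
        ≤ ∏ b ∈ Finset.univ.image c,
            (1082 / 1000 : ℝ) ^ (Finset.univ.filter (fun j => c j = b)).card := by
          refine Finset.prod_le_prod (fun b _ => by positivity) (fun b hb => ?_)
          obtain ⟨i, -, rfl⟩ := Finset.mem_image.1 hb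
          refine suAAsm_num _ ?_
          have := hc i
          unfold blk at this
          convert this using 2
      _ = (1082 / 1000 : ℝ) ^ d := by
          rw [Finset.prod_pow_eq_pow_sum, hsum]
  calc ∏ i, (M2 B i / vol B) ≤ (1 / 2) ^ d * (∏ i, (2 * (M1 B i / vol B))) ^ 2 := h3
    _ ≤ (1 / 2) ^ d * (N * vol B) ^ 2 := by
        refine mul_le_mul_of_nonneg_left ?_ (by positivity)
        exact pow_le_pow_left₀ hP0 hbv 2
    _ = (1 / 2) ^ d * N ^ 2 * vol B ^ 2 := by ring
    _ ≤ (1 / 2) ^ d * (1082 / 1000 : ℝ) ^ d * vol B ^ 2 := by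
        refine mul_le_mul_of_nonneg_right ?_ (by positivity)
        exact mul_le_mul_of_nonneg_left hN2 (by positivity)
    _ = (541 / 1000) ^ d * vol B ^ 2 := by
        rw [← mul_pow]
        norm_num

end Pool.Agent.Lib.MP_29b1bb_gt.SU
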