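import Pool.Agent.Lib.MP_29b1bb_gt.SU.Defs

set_option autoImplicit false

open MeasureTheory Set

namespace Pool.Agent.Lib.MP_29b1bb_gt.SU

variable {d : ℕ} {ι : Type*}

/-- the permutations preserving the blocks -/
def Blk (c : Fin d → ι) (σ : Equiv.Perm (Fin d)) : Prop := ∀ i, c (σ i) = c i

/-- invariance under all permutations inside the blocks -/
def Inv (c : Fin d → ι) (B : Set (Fin d → ℝ)) : Prop :=
  ∀ σ : Equiv.Perm (Fin d), Blk c σ → ∀ x ∈ B, (x ∘ σ) ∈ B

/-- the chamber: coordinates nondecreasing in every block -/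
def chamber (c : Fin d → ι) : Set (Fin d → ℝ) :=
  {x | ∀ i j, i < j → c i = c j → x i ≤ x j}

open Classical in
/-- the block of an index -/
noncomputable def blk (c : Fin d → ι) (i : Fin d) : Finset (Fin d) :=
  Finset.univ.filter (fun j => c j = c i)

open Classical in
/-- the rank of an index in its block, from `1` to the size of the block -/
noncomputable def rk (c : Fin d → ι) (i : Fin d) : ℕ :=
  (Finset.univ.filter (fun j => c j = c i ∧ j ≤ i)).card

/-- the centroid of the part of `B` in the chamber -/
noncomputable def xb (c : Fin d → ι) (B : Set (Fin d → ℝ)) (i : Fin d) : ℝ :=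
  (∫ x in B ∩ chamber c, x i) / vol (B ∩ chamber c)

/-- the linear profile with the same block means as `B` -/
noncomputable def ell (c : Fin d → ι) (B : Set (Fin d → ℝ)) (i : Fin d) : ℝ :=
  2 * (M1 B i / vol B) * (rk c i : ℝ) / (((blk c i).card : ℝ) + 1)

end Pool.Agent.Lib.MP_29b1bb_gt.SU
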