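import Pool.Agent.Lib.MP_29b1bb_gt.SU.PL1

/-!
Proof sketch for module BM (board SU, MP_29b1bb_gt, helper96).
Proof. Induction on n. n = 0: the space is a point: if A or B is empty the left side is 0, otherwise C is nonempty and
everything is <= 1 = volume C. Step n -> n+1: identify Fin (n+1) -> R with R x (Fin n -> R) by MeasurableEquiv.piFinSuccAbove (fun _ => R) 0
(volume_preserving_piFinSuccAbove). For t put A(t) = {y : Fin.cons t y in A} etc.: compact, nonnegative, down-closed; for t < 0 empty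
for A and B; t -> volume A(t) is antitone on [0,oo) (down-closed), finite at 0. volume A = lintegral over Ici 0 of volume A(t), volume C >= lintegral over Ici 0
of volume C(t) (measurable_measure_prodMk_left). For s,t >= 0: (1-l) A(s) + l B(t) in C((1-l)s + l t), so by induction
volume A(s)^(1-l) volume B(t)^l <= volume C((1-l)s+lt); apply pl_one.
-/

set_option autoImplicit false

open MeasureTheory Set

namespace Pool.Agent.Lib.MP_29b1bb_gt.SU

private def suBM_slice {n : ℕ} (A : Set (Fin (n + 1) → ℝ)) (t : ℝ) : Set (Fin n → ℝ) :=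
  {y | (Fin.cons t y : Fin (n + 1) → ℝ) ∈ A}

private theorem suBM_cont {n : ℕ} (t : ℝ) :
    Continuous (fun y : Fin n → ℝ => (Fin.cons t y : Fin (n + 1) → ℝ)) := by
  refine continuous_pi fun i => ?_
  refine Fin.cases ?_ (fun j => ?_) i
  · simpa using continuous_const
  · simpa using continuous_apply j

private theorem suBM_compact {n : ℕ} {A : Set (Fin (n + 1) → ℝ)} (hA : IsCompact A) (t : ℝ) :
    IsCompact (suBM_slice A t) := by
  have h1 : IsCompact ((fun x : Fin (n + 1) → ℝ => (Fin.tail x : Fin n → ℝ)) '' A) :=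
    hA.image (continuous_pi fun j => continuous_apply _)
  refine h1.of_isClosed_subset (hA.isClosed.preimage (suBM_cont t)) ?_
  intro y hy
  exact ⟨Fin.cons t y, hy, by simp⟩

private theorem suBM_symm {n : ℕ} (t : ℝ) (y : Fin n → ℝ) :
    (MeasurableEquiv.piFinSuccAbove (fun _ : Fin (n + 1) => ℝ) 0).symm (t, y) =
      (Fin.cons t y : Fin (n + 1) → ℝ) := by
  have : (MeasurableEquiv.piFinSuccAbove (fun _ : Fin (n + 1) => ℝ) 0).symm (t, y) =
      Fin.insertNth (α := fun _ : Fin (n + 1) => ℝ) 0 t y := rfl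
  rw [this, Fin.insertNth_zero']

private theorem suBM_pre {n : ℕ} (A : Set (Fin (n + 1) → ℝ)) (t : ℝ) :
    Prod.mk t ⁻¹' (⇑(MeasurableEquiv.piFinSuccAbove (fun _ : Fin (n + 1) => ℝ) 0).symm ⁻¹' A) =
      suBM_slice A t := by
  ext y
  rw [mem_preimage, mem_preimage, suBM_symm]
  exact Iff.rfl

private theorem suBM_vol {n : ℕ} {A : Set (Fin (n + 1) → ℝ)} (hA : IsCompact A) :
    volume A = ∫⁻ t : ℝ, volume (suBM_slice A t) := by
  have hmp := (volume_preserving_piFinSuccAbove (fun _ : Fin (n + 1) => ℝ) 0).symm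
  have hm : MeasurableSet A := hA.measurableSet
  rw [← hmp.measure_preimage hm.nullMeasurableSet, Measure.volume_eq_prod,
    Measure.prod_apply (hmp.measurable hm)]
  refine lintegral_congr fun t => ?_
  rw [suBM_pre]

/-- Brunn-Minkowski in multiplicative form for down-closed sets. -/
theorem bm (n : ℕ) (l : ℝ) (h0 : 0 < l) (h1 : l < 1) (A B C : Set (Fin n → ℝ))
    (hA : IsCompact A) (hB : IsCompact B) (hC : IsCompact C)
    (nA : ∀ x ∈ A, ∀ i, 0 ≤ x i) (nB : ∀ x ∈ B, ∀ i, 0 ≤ x i)
    (dA : ∀ x ∈ A, ∀ y : Fin n → ℝ, (∀ i, 0 ≤ y i) → (∀ i, y i ≤ x i) → y ∈ A)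
    (dB : ∀ x ∈ B, ∀ y : Fin n → ℝ, (∀ i, 0 ≤ y i) → (∀ i, y i ≤ x i) → y ∈ B)
    (h : ∀ x ∈ A, ∀ y ∈ B, (1 - l) • x + l • y ∈ C) :
    volume A ^ (1 - l) * volume B ^ l ≤ volume C := by
  induction n with
  | zero =>
    rcases A.eq_empty_or_nonempty with rfl | ⟨x, hx⟩
    · rw [measure_empty, ENNReal.zero_rpow_of_pos (by linarith), zero_mul]
      exact bot_le
    rcases B.eq_empty_or_nonempty with rfl | ⟨y, hy⟩
    · rw [measure_empty, ENNReal.zero_rpow_of_pos h0, mul_zero]
      exact bot_le
    have hz := h x hx y hy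
    have huniv : (volume : Measure (Fin 0 → ℝ)) univ = 1 := by
      rw [volume_pi, Measure.pi_of_empty]
      simp
    have hC1 : C = univ := by
      ext z
      simp only [mem_univ, iff_true]
      rwa [Subsingleton.elim z ((1 - l) • x + l • y)]
    rw [hC1, huniv]
    have hA1 : volume A ≤ 1 := huniv ▸ measure_mono (subset_univ A)
    have hB1 : volume B ≤ 1 := huniv ▸ measure_mono (subset_univ B)
    have e1 := ENNReal.rpow_le_one hA1 (by linarith : (0 : ℝ) ≤ 1 - l)
    have e2 := ENNReal.rpow_le_one hB1 h0.le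
    exact mul_le_one' e1 e2
  | succ n ih =>
    rw [suBM_vol hA, suBM_vol hB, suBM_vol hC]
    have hmC : Measurable fun t : ℝ => volume (suBM_slice C t) := by
      have hmp := (volume_preserving_piFinSuccAbove (fun _ : Fin (n + 1) => ℝ) 0).symm
      have h2 := measurable_measure_prodMk_left (ν := (volume : Measure (Fin n → ℝ)))
        (hmp.measurable hC.measurableSet)
      simpa only [suBM_pre] using h2
    have key : ∀ D : Set (Fin (n + 1) → ℝ), (∀ x ∈ D, ∀ i, 0 ≤ x i) →
        ∫⁻ t : ℝ, volume (suBM_slice D t) = ∫⁻ t in Ici (0 : ℝ), volume (suBM_slice D t) := by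
      intro D hD
      rw [← lintegral_indicator measurableSet_Ici]
      refine lintegral_congr fun t => ?_
      by_cases ht : t ∈ Ici (0 : ℝ)
      · rw [indicator_of_mem ht]
      · rw [indicator_of_notMem ht]
        have : suBM_slice D t = ∅ := by
          refine eq_empty_iff_forall_notMem.2 fun y hy => ht ?_
          have := hD _ hy 0
          simpa using this
        rw [this, measure_empty]
    have anti : ∀ D : Set (Fin (n + 1) → ℝ), (∀ x ∈ D, ∀ i, 0 ≤ x i) →
        (∀ x ∈ D, ∀ y : Fin (n + 1) → ℝ, (∀ i, 0 ≤ y i) → (∀ i, y i ≤ x i) → y ∈ D) →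
        AntitoneOn (fun t : ℝ => volume (suBM_slice D t)) (Ici 0) := by
      intro D hD dD s hs t _ hst
      refine measure_mono fun y hy => ?_
      refine dD _ hy _ (fun i => ?_) (fun i => ?_)
      · refine Fin.cases ?_ (fun j => ?_) i
        · simpa using hs
        · have := hD _ hy j.succ
          simpa using this
      · refine Fin.cases ?_ (fun j => ?_) i
        · simpa using hst
        · simp
    have hnn : ∀ D : Set (Fin (n + 1) → ℝ), (∀ x ∈ D, ∀ i, 0 ≤ x i) → ∀ t : ℝ,
        ∀ x ∈ suBM_slice D t, ∀ i, 0 ≤ x i := by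
      intro D hD t x hx i
      have := hD _ hx i.succ
      simpa using this
    have hdd : ∀ D : Set (Fin (n + 1) → ℝ), (∀ x ∈ D, ∀ i, 0 ≤ x i) →
        (∀ x ∈ D, ∀ y : Fin (n + 1) → ℝ, (∀ i, 0 ≤ y i) → (∀ i, y i ≤ x i) → y ∈ D) →
        ∀ t : ℝ, ∀ x ∈ suBM_slice D t, ∀ y : Fin n → ℝ, (∀ i, 0 ≤ y i) → (∀ i, y i ≤ x i) →
          y ∈ suBM_slice D t := by
      intro D hD dD t x hx y hy0 hyx
      refine dD _ hx _ (fun i => ?_) (fun i => ?_)
      · refine Fin.cases ?_ (fun j => ?_) i
        · have := hD _ hx 0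
          simpa using this
        · simpa using hy0 j
      · refine Fin.cases ?_ (fun j => ?_) i
        · simp
        · simpa using hyx j
    rw [key A nA, key B nB]
    refine (pl_one l h0 h1 (fun t => volume (suBM_slice A t)) (fun t => volume (suBM_slice B t))
      (fun t => volume (suBM_slice C t)) (anti A nA dA) (anti B nB dB) hmC
      (suBM_compact hA 0).measure_lt_top.ne (suBM_compact hB 0).measure_lt_top.ne ?_).trans
      (setLIntegral_le_lintegral _ _)
    intro s t _ _
    refine ih _ _ _ (suBM_compact hA s) (suBM_compact hB t) (suBM_compact hC _)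
      (hnn A nA s) (hnn B nB t) (hdd A nA dA s) (hdd B nB dB t) ?_
    intro x hx y hy
    have := h _ hx _ hy
    have e : (1 - l) • (Fin.cons s x : Fin (n + 1) → ℝ) + l • (Fin.cons t y : Fin (n + 1) → ℝ) =
        Fin.cons ((1 - l) * s + l * t) ((1 - l) • x + l • y) := by
      funext i
      refine Fin.cases ?_ (fun j => ?_) i
      · simp
      · simp
    rw [e] at this
    exact this

end Pool.Agent.Lib.MP_29b1bb_gt.SU
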