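import Pool.Agent.Lib.MP_29b1bb_gt.SU.ADefs

/-!
The chamber identity for block symmetric corners, and the centroid of the part of the corner in the
chamber (board SU, MP_29b1bb_gt, module Chamber).
-/

set_option autoImplicit false

open MeasureTheory Set

namespace Pool.Agent.Lib.MP_29b1bb_gt.SU

variable {d : ℕ} {ι : Type*}

theorem chamber_closed (c : Fin d → ι) : IsClosed (chamber c) := by
  have h : chamber c = ⋂ i, ⋂ j, ⋂ (_ : i < j), ⋂ (_ : c i = c j),
      {x : Fin d → ℝ | x i ≤ x j} := by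
    ext x
    simp [chamber]
  rw [h]
  exact isClosed_iInter fun i => isClosed_iInter fun j => isClosed_iInter fun _ =>
    isClosed_iInter fun _ => isClosed_le (continuous_apply i) (continuous_apply j)

theorem chamber_convex (c : Fin d → ι) : Convex ℝ (chamber c) := by
  intro x hx y hy a b ha hb hab i j hij hc
  have h1 := hx i j hij hc
  have h2 := hy i j hij hc
  simp only [Pi.add_apply, Pi.smul_apply, smul_eq_mul]
  exact add_le_add (mul_le_mul_of_nonneg_left h1 ha) (mul_le_mul_of_nonneg_left h2 hb)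

/-- every point is moved to the chamber by a permutation preserving the blocks -/
theorem exists_sort (c : Fin d → ι) (x : Fin d → ℝ) : ∃ σ, Blk c σ ∧ (x ∘ σ) ∈ chamber c := by
  have : Nonempty {σ : Equiv.Perm (Fin d) // Blk c σ} := ⟨⟨1, fun _ => rfl⟩⟩
  obtain ⟨⟨σ, hσ⟩, hmax⟩ := Finite.exists_max
    (fun σ : {σ : Equiv.Perm (Fin d) // Blk c σ} => ∑ k : Fin d, ((k : ℕ) : ℝ) * x (σ.1 k))
  refine ⟨σ, hσ, ?_⟩
  intro i j hij hc
  by_contra hlt
  have hlt' : x (σ j) < x (σ i) := not_le.mp hlt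
  have hτ : Blk c (σ * Equiv.swap i j) := by
    intro k
    rw [Equiv.Perm.mul_apply, hσ]
    rcases eq_or_ne k i with rfl | h1
    · rw [Equiv.swap_apply_left, hc]
    · rcases eq_or_ne k j with rfl | h2
      · rw [Equiv.swap_apply_right, hc]
      · rw [Equiv.swap_apply_of_ne_of_ne h1 h2]
  have hm := hmax ⟨σ * Equiv.swap i j, hτ⟩
  simp only [Equiv.Perm.mul_apply] at hm
  have h1 : ∑ k : Fin d, ((k : ℕ) : ℝ) * x (σ (Equiv.swap i j k)) =
      ∑ k : Fin d, ((Equiv.swap i j k : Fin d) : ℝ) * x (σ k) := by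
    rw [← Equiv.sum_comp (Equiv.swap i j)
      (fun k : Fin d => ((Equiv.swap i j k : Fin d) : ℝ) * x (σ k))]
    refine Finset.sum_congr rfl fun k _ => ?_
    rw [Equiv.swap_apply_self]
  have h2 : ∑ k : Fin d, ((Equiv.swap i j k : Fin d) : ℝ) * x (σ k) -
      ∑ k : Fin d, ((k : ℕ) : ℝ) * x (σ k) =
      (((j : ℕ) : ℝ) - ((i : ℕ) : ℝ)) * (x (σ i) - x (σ j)) := by
    rw [← Finset.sum_sub_distrib]
    rw [Finset.sum_eq_add i j hij.ne]
    · rw [Equiv.swap_apply_left, Equiv.swap_apply_right]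
      ring
    · intro k _ hk
      rw [Equiv.swap_apply_of_ne_of_ne hk.1 hk.2]
      ring
    · intro h
      exact absurd (Finset.mem_univ _) h
    · intro h
      exact absurd (Finset.mem_univ _) h
  have h3 : (0 : ℝ) < (((j : ℕ) : ℝ) - ((i : ℕ) : ℝ)) * (x (σ i) - x (σ j)) := by
    apply mul_pos
    · have : ((i : ℕ) : ℝ) < ((j : ℕ) : ℝ) := by exact_mod_cast hij
      linarith
    · linarith
  linarith

private theorem suChamber_eqv (σ : Equiv.Perm (Fin d)) :
    (fun x : Fin d → ℝ => x ∘ σ) =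
      MeasurableEquiv.piCongrLeft (fun _ : Fin d => ℝ) σ.symm := by
  ext x i
  have h := MeasurableEquiv.piCongrLeft_apply_apply (β := fun _ : Fin d => ℝ) σ.symm x (σ i)
  rw [Equiv.symm_apply_apply] at h
  simp only [Function.comp]
  exact h.symm

private theorem suChamber_mp (σ : Equiv.Perm (Fin d)) :
    MeasurePreserving (fun x : Fin d → ℝ => x ∘ σ) volume volume := by
  rw [suChamber_eqv σ]
  exact volume_measurePreserving_piCongrLeft (fun _ : Fin d => ℝ) σ.symm

private theorem suChamber_emb (σ : Equiv.Perm (Fin d)) :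
    MeasurableEmbedding (fun x : Fin d → ℝ => x ∘ σ) := by
  rw [suChamber_eqv σ]
  exact (MeasurableEquiv.piCongrLeft (fun _ : Fin d => ℝ) σ.symm).measurableEmbedding

private theorem suChamber_symm {c : Fin d → ι} {σ : Equiv.Perm (Fin d)} (h : Blk c σ) :
    Blk c σ⁻¹ := by
  intro i
  have h1 := h (σ⁻¹ i)
  have h2 : σ (σ⁻¹ i) = i := by simp
  rw [h2] at h1
  exact h1.symm

private theorem suChamber_pre {c : Fin d → ι} {B : Set (Fin d → ℝ)} (hI : Inv c B)
    {σ : Equiv.Perm (Fin d)} (h : Blk c σ) :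
    (fun x : Fin d → ℝ => x ∘ σ) ⁻¹' B = B := by
  ext x
  constructor
  · intro hx
    have h1 := hI σ⁻¹ (suChamber_symm h) _ hx
    have h2 : ((fun x : Fin d → ℝ => x ∘ σ) x) ∘ (σ⁻¹ : Equiv.Perm (Fin d)) = x := by
      ext i
      simp
    rwa [h2] at h1
  · intro hx
    exact hI σ h x hx

/-- the means of the coordinates in a block agree -/
theorem M1_inv (c : Fin d → ι) {B : Set (Fin d → ℝ)} (hB : Corner d B) (hI : Inv c B)
    {i j : Fin d} (h : c i = c j) : M1 B i = M1 B j := by
  have hσ : Blk c (Equiv.swap i j) := by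
    intro k
    rcases eq_or_ne k i with rfl | h1
    · rw [Equiv.swap_apply_left, h]
    · rcases eq_or_ne k j with rfl | h2
      · rw [Equiv.swap_apply_right, h]
      · rw [Equiv.swap_apply_of_ne_of_ne h1 h2]
  have h1 := (suChamber_mp (Equiv.swap i j)).setIntegral_preimage_emb
    (suChamber_emb (Equiv.swap i j)) (fun x : Fin d → ℝ => x j) B
  rw [suChamber_pre hI hσ] at h1
  unfold M1
  rw [← h1]
  refine integral_congr_ae (Filter.Eventually.of_forall fun x => ?_)
  simp [Function.comp]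

private theorem suChamber_null {i j : Fin d} (hij : i ≠ j) :
    volume {x : Fin d → ℝ | x i = x j} = 0 := by
  have h1 : {x : Fin d → ℝ | x i = x j} =
      ((LinearMap.ker ((LinearMap.proj i : (Fin d → ℝ) →ₗ[ℝ] ℝ) - LinearMap.proj j) :
        Submodule ℝ (Fin d → ℝ)) : Set (Fin d → ℝ)) := by
    ext x
    simp [sub_eq_zero]
  rw [h1]
  apply Measure.addHaar_submodule
  intro h2
  have h3 : (Pi.single i 1 : Fin d → ℝ) ∈
      LinearMap.ker ((LinearMap.proj i : (Fin d → ℝ) →ₗ[ℝ] ℝ) - LinearMap.proj j) := by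
    rw [h2]
    trivial
  simp [hij.symm] at h3

private theorem suChamber_rigid {c : Fin d → ι} {ρ : Equiv.Perm (Fin d)} (hρ : Blk c ρ)
    (hm : ∀ i j, i < j → c i = c j → ρ i < ρ j) : ∀ i, ρ i = i := by
  intro i
  induction i using WellFoundedLT.induction with
  | _ i ih =>
    by_contra hne
    have hci : c (ρ i) = c i := hρ i
    rcases lt_or_gt_of_ne hne with h1 | h1
    · have h2 : ρ (ρ i) = ρ i := ih (ρ i) h1
      exact hne (ρ.injective h2)
    · have hk : ρ (ρ⁻¹ i) = i := by simp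
      have hck : c (ρ⁻¹ i) = c i := suChamber_symm hρ i
      rcases lt_trichotomy (ρ⁻¹ i) i with h2 | h2 | h2
      · have h3 := ih _ h2
        rw [hk] at h3
        exact absurd h3.symm h2.ne
      · rw [h2] at hk
        exact hne hk
      · have h3 := hm i (ρ⁻¹ i) h2 hck.symm
        rw [hk] at h3
        exact absurd h1 (not_lt.mpr h3.le)

/-- if no two coordinates agree then only one permutation moves to the chamber -/
private theorem suChamber_unique {c : Fin d → ι} {σ τ : Equiv.Perm (Fin d)} (hσ : Blk c σ)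
    (hτ : Blk c τ) {x : Fin d → ℝ} (hx : ∀ i j, i ≠ j → x i ≠ x j)
    (h1 : x ∘ σ ∈ chamber c) (h2 : x ∘ τ ∈ chamber c) : σ = τ := by
  have hρ : Blk c (σ⁻¹ * τ) := by
    intro i
    rw [Equiv.Perm.mul_apply, suChamber_symm hσ, hτ]
  have hmono : ∀ i j, i < j → c i = c j → (σ⁻¹ * τ) i < (σ⁻¹ * τ) j := by
    intro i j hij hc
    by_contra hle
    have hle' : (σ⁻¹ * τ) j ≤ (σ⁻¹ * τ) i := not_lt.mp hle
    have hne : (σ⁻¹ * τ) j ≠ (σ⁻¹ * τ) i := by
      intro h
      exact hij.ne' ((σ⁻¹ * τ).injective h)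
    have hlt := lt_of_le_of_ne hle' hne
    have hc' : c ((σ⁻¹ * τ) j) = c ((σ⁻¹ * τ) i) := by
      rw [hρ, hρ, hc]
    have h3 := h1 _ _ hlt hc'
    have h4 := h2 i j hij hc
    simp only [Function.comp, Equiv.Perm.mul_apply] at h3 h4
    have h5 : σ (σ⁻¹ (τ j)) = τ j := by simp
    have h6 : σ (σ⁻¹ (τ i)) = τ i := by simp
    rw [h5, h6] at h3
    have h7 : τ i ≠ τ j := fun h => hij.ne (τ.injective h)
    exact hx _ _ h7 (le_antisymm h4 h3)
  have h := suChamber_rigid hρ hmono
  ext i
  have h8 := h i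
  rw [Equiv.Perm.mul_apply] at h8
  have h9 : σ (σ⁻¹ (τ i)) = σ i := by rw [h8]
  have h10 : σ (σ⁻¹ (τ i)) = τ i := by simp
  rw [h10] at h9
  rw [h9]

/-- the pieces -/
private def suPiece (c : Fin d → ι) (B : Set (Fin d → ℝ)) (σ : Equiv.Perm (Fin d)) :
    Set (Fin d → ℝ) := (fun x : Fin d → ℝ => x ∘ σ) ⁻¹' (B ∩ chamber c)

private theorem suPiece_meas (c : Fin d → ι) {B : Set (Fin d → ℝ)} (hB : Corner d B)
    (σ : Equiv.Perm (Fin d)) : MeasurableSet (suPiece c B σ) :=
  (suChamber_mp σ).measurable (hB.measurable.inter (chamber_closed c).measurableSet)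

private theorem suPiece_cover (c : Fin d → ι) {B : Set (Fin d → ℝ)} (hI : Inv c B) :
    B = ⋃ σ : {σ : Equiv.Perm (Fin d) // Blk c σ}, suPiece c B σ.1 := by
  ext x
  simp only [mem_iUnion]
  constructor
  · intro hx
    obtain ⟨σ, hσ, hc⟩ := exists_sort c x
    exact ⟨⟨σ, hσ⟩, hI σ hσ x hx, hc⟩
  · rintro ⟨⟨σ, hσ⟩, h⟩
    have h1 : x ∈ (fun x : Fin d → ℝ => x ∘ σ) ⁻¹' B := h.1
    rwa [suChamber_pre hI hσ] at h1

private theorem suPiece_disj (c : Fin d → ι) (B : Set (Fin d → ℝ)) :
    Pairwise (Function.onFun (AEDisjoint volume)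
      (fun σ : {σ : Equiv.Perm (Fin d) // Blk c σ} => suPiece c B σ.1)) := by
  rintro ⟨σ, hσ⟩ ⟨τ, hτ⟩ hne
  have hne' : σ ≠ τ := fun h => hne (Subtype.ext h)
  have hsub : suPiece c B σ ∩ suPiece c B τ ⊆
      ⋃ i : Fin d, ⋃ j : Fin d, ⋃ _ : i ≠ j, {x : Fin d → ℝ | x i = x j} := by
    rintro x ⟨h1, h2⟩
    by_contra hx
    apply hne'
    refine suChamber_unique hσ hτ ?_ h1.2 h2.2
    intro i j hij heq
    apply hx
    simp only [mem_iUnion]
    exact ⟨i, j, hij, heq⟩
  refine measure_mono_null hsub ?_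
  rw [measure_iUnion_null_iff]
  intro i
  rw [measure_iUnion_null_iff]
  intro j
  rw [measure_iUnion_null_iff]
  intro hij
  exact suChamber_null hij

private theorem suPiece_vol (c : Fin d → ι) {B : Set (Fin d → ℝ)} (hB : Corner d B)
    (σ : Equiv.Perm (Fin d)) : volume (suPiece c B σ) = volume (B ∩ chamber c) :=
  (suChamber_mp σ).measure_preimage
    (hB.measurable.inter (chamber_closed c).measurableSet).nullMeasurableSet

open Classical in
/-- the chamber identity -/
theorem chamber_identity (c : Fin d → ι) {B : Set (Fin d → ℝ)} (hB : Corner d B) (hI : Inv c B)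
    (F : (Fin d → ℝ) → ℝ) (hF : IntegrableOn F B)
    (hinv : ∀ σ, Blk c σ → ∀ x, F (x ∘ σ) = F x) :
    ∫ x in B, F x =
      (Fintype.card {σ : Equiv.Perm (Fin d) // Blk c σ} : ℝ) * ∫ x in B ∩ chamber c, F x := by
  have hcov := suPiece_cover c hI
  have h1 : ∫ x in B, F x =
      ∫ x in ⋃ σ : {σ : Equiv.Perm (Fin d) // Blk c σ}, suPiece c B σ.1, F x := by
    rw [← hcov]
  have h2 : IntegrableOn F (⋃ σ : {σ : Equiv.Perm (Fin d) // Blk c σ}, suPiece c B σ.1) := by
    rw [← hcov]
    exact hF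
  have h3 : ∀ σ : {σ : Equiv.Perm (Fin d) // Blk c σ},
      ∫ x in suPiece c B σ.1, F x = ∫ x in B ∩ chamber c, F x := by
    rintro ⟨σ, hσ⟩
    have h4 := (suChamber_mp σ).setIntegral_preimage_emb (suChamber_emb σ) F (B ∩ chamber c)
    rw [← h4]
    refine integral_congr_ae (Filter.Eventually.of_forall fun x => ?_)
    exact (hinv σ hσ x).symm
  have h5 := integral_iUnion_ae (fun σ : {σ : Equiv.Perm (Fin d) // Blk c σ} =>
    (suPiece_meas c hB σ.1).nullMeasurableSet) (suPiece_disj c B) h2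
  rw [h1, h5, tsum_congr h3, tsum_const, nsmul_eq_mul, Nat.card_eq_fintype_card]

theorem chamber_pos (c : Fin d → ι) {B : Set (Fin d → ℝ)} (hB : Corner d B) (hI : Inv c B) :
    0 < volume (B ∩ chamber c) := by
  rw [pos_iff_ne_zero]
  intro h0
  have h1 : volume B = 0 := by
    rw [suPiece_cover c hI, measure_iUnion_null_iff]
    intro σ
    rw [suPiece_vol c hB, h0]
  exact hB.pos.ne' h1

private theorem suChamber_coord {B : Set (Fin d → ℝ)} (hB : Corner d B) (i : Fin d) :
    IntegrableOn (fun x : Fin d → ℝ => x i) B :=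
  (continuous_apply i).continuousOn.integrableOn_compact hB.compact

/-- the centroid of the part of `B` in the chamber is in `B` -/
theorem xb_mem (c : Fin d → ι) {B : Set (Fin d → ℝ)} (hB : Corner d B) (hI : Inv c B) :
    xb c B ∈ B := by
  have hpos := chamber_pos c hB hI
  have hfin : volume (B ∩ chamber c) ≠ ⊤ :=
    ((measure_mono inter_subset_left).trans_lt hB.compact.measure_lt_top).ne
  have hmeas : MeasurableSet (B ∩ chamber c) :=
    hB.measurable.inter (chamber_closed c).measurableSet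
  have hint : IntegrableOn (fun x : Fin d → ℝ => x) (B ∩ chamber c) :=
    (continuous_id.continuousOn.integrableOn_compact hB.compact).mono_set inter_subset_left
  have h1 := hB.convex.set_average_mem (f := fun x : Fin d → ℝ => x) hB.compact.isClosed
    hpos.ne' hfin ?_ hint
  · have h2 : (⨍ x in B ∩ chamber c, x) = xb c B := by
      rw [setAverage_eq]
      ext i
      rw [Pi.smul_apply, eval_integral, xb, vol, smul_eq_mul, div_eq_inv_mul]
      · rfl
      · intro j
        exact (suChamber_coord hB j).mono_set inter_subset_left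
    rwa [h2] at h1
  · exact (ae_restrict_mem hmeas).mono fun x hx => hx.1

theorem xb_sum (c : Fin d → ι) {B : Set (Fin d → ℝ)} (hB : Corner d B) (hI : Inv c B)
    (i : Fin d) : ∑ j ∈ blk c i, xb c B j = ((blk c i).card : ℝ) * (M1 B i / vol B) := by
  classical
  have hpos := chamber_pos c hB hI
  have hfin : volume (B ∩ chamber c) ≠ ⊤ :=
    ((measure_mono inter_subset_left).trans_lt hB.compact.measure_lt_top).ne
  have hV : 0 < vol (B ∩ chamber c) := ENNReal.toReal_pos hpos.ne' hfin
  have hVB := hB.vol_pos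
  have h1 := chamber_identity c hB hI (fun x => ∑ j ∈ blk c i, x j)
    (integrable_finsetSum _ fun j _ => suChamber_coord hB j) (by
      intro σ hσ x
      simp only [Function.comp]
      refine Finset.sum_bij (fun j _ => σ j) ?_ ?_ ?_ ?_
      · intro j hj
        simp only [blk, Finset.mem_filter, Finset.mem_univ, true_and] at hj ⊢
        rw [hσ, hj]
      · intro a _ b _ hab
        exact σ.injective hab
      · intro b hb
        refine ⟨σ⁻¹ b, ?_, by simp⟩
        simp only [blk, Finset.mem_filter, Finset.mem_univ, true_and] at hb ⊢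
        rw [suChamber_symm hσ, hb]
      · intro j _
        rfl)
  have h2 := chamber_identity c hB hI (fun _ => (1 : ℝ))
    (continuous_const.continuousOn.integrableOn_compact hB.compact) (fun _ _ _ => rfl)
  have h3 : ∫ x in B, (1 : ℝ) = vol B := by
    rw [setIntegral_const, smul_eq_mul, mul_one]
    rfl
  have h4 : ∫ x in B ∩ chamber c, (1 : ℝ) = vol (B ∩ chamber c) := by
    rw [setIntegral_const, smul_eq_mul, mul_one]
    rfl
  rw [h3, h4] at h2
  have h5 : ∫ x in B, (∑ j ∈ blk c i, x j) = ((blk c i).card : ℝ) * M1 B i := by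
    rw [integral_finsetSum _ fun j _ => suChamber_coord hB j]
    have h6 : ∀ j ∈ blk c i, ∫ x in B, x j = M1 B i := by
      intro j hj
      simp only [blk, Finset.mem_filter, Finset.mem_univ, true_and] at hj
      exact M1_inv c hB hI hj
    rw [Finset.sum_congr rfl h6, Finset.sum_const, nsmul_eq_mul]
  have h7 : ∫ x in B ∩ chamber c, (∑ j ∈ blk c i, x j) =
      (∑ j ∈ blk c i, xb c B j) * vol (B ∩ chamber c) := by
    rw [integral_finsetSum _ fun j _ => (suChamber_coord hB j).mono_set inter_subset_left,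
      Finset.sum_mul]
    refine Finset.sum_congr rfl fun j _ => ?_
    rw [xb, div_mul_cancel₀ _ hV.ne']
  rw [h5, h7] at h1
  rw [← mul_div_assoc, eq_div_iff hVB.ne', h1, h2]
  ring

end Pool.Agent.Lib.MP_29b1bb_gt.SU
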