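import Pool.Agent.Lib.MP_29b1bb_gt.SU.Unc
import Pool.Agent.Lib.MP_29b1bb_gt.SC.Main

set_option autoImplicit false

open MeasureTheory Set

namespace Pool.Agent.Lib.MP_29b1bb_gt.SU

private theorem su_vol {d : ℕ} {K : Set (EuclideanSpace ℝ (Fin d))} (hK : IsCompact K)
    (hu : Uncond K) : (volume K).toReal = 2 ^ d * vol (posPart K) := by
  rw [volume_posPart hK.measurableSet hu, ENNReal.toReal_mul]
  simp [vol]

private theorem su_cov {d : ℕ} {K : Set (EuclideanSpace ℝ (Fin d))} (hK : IsCompact K)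
    (hc : Convex ℝ K) (hi : (interior K).Nonempty) (hu : Uncond K) :
    (scCov d K).det = ∏ i, (M2 (posPart K) i / vol (posPart K)) := by
  have hB := posPart_corner hK hc hi hu
  have hv := hB.vol_pos
  have hvol := su_vol hK hu
  have hreal : (volume.restrict K).real univ = 2 ^ d * vol (posPart K) := by
    rw [measureReal_def, Measure.restrict_apply MeasurableSet.univ, univ_inter, hvol]
  have e1 : ∀ i, (⨍ x in K, x i) = 0 := by
    intro i
    rw [average_eq, moment_one hK hu i, smul_zero]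
  have e2 : ∀ i, (⨍ x in K, x i * x i) = M2 (posPart K) i / vol (posPart K) := by
    intro i
    have h : (∫ x in K, x i * x i) = 2 ^ d * M2 (posPart K) i := by
      rw [← moment_two hK hu i]
      simp only [sq]
    rw [average_eq, h, hreal, smul_eq_mul]
    have h2 : (2 : ℝ) ^ d ≠ 0 := by positivity
    field_simp
  have e3 : ∀ i j, i ≠ j → (⨍ x in K, x i * x j) = 0 := by
    intro i j hij
    rw [average_eq, moment_cross hK hu hij, smul_zero]
  have hd : scCov d K = Matrix.diagonal (fun i => M2 (posPart K) i / vol (posPart K)) := by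
    ext i j
    rw [scCov, Matrix.of_apply, e1, e1]
    by_cases hij : i = j
    · subst hij
      rw [e2, Matrix.diagonal_apply_eq]
      simp
    · rw [e3 i j hij, Matrix.diagonal_apply_ne _ hij]
      simp
  rw [hd, Matrix.det_diagonal]

private theorem su_const : (541 / 1000 : ℝ) / 4 ≤ ((1 - 1 / 5000) / Real.exp 1) ^ 2 := by
  have h1 : Real.exp 1 < 2.7182818286 := Real.exp_one_lt_d9
  have h0 : 0 < Real.exp 1 := Real.exp_pos 1
  rw [div_pow, le_div_iff₀ (by positivity)]
  have h2 : Real.exp 1 ^ 2 ≤ 2.7182818286 ^ 2 := pow_le_pow_left₀ h0.le h1.le 2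
  nlinarith

/-- The criterion for unconditional bodies, in high dimensions. -/
theorem crit_unc : ∃ d₀ : ℕ, ∀ d, d₀ ≤ d → ∀ (K : Set (EuclideanSpace ℝ (Fin d)))
    (p : Fin (d + 1) → EuclideanSpace ℝ (Fin d)),
    IsCompact K → Convex ℝ K → (interior K).Nonempty → Uncond K →
    ∏ i, (M2 (posPart K) i / vol (posPart K)) ≤ (541 / 1000) ^ d * vol (posPart K) ^ 2 →
    AffineIndependent ℝ p → volume K = volume (convexHull ℝ (Set.range p)) →
    (∫ x in Set.pi Set.univ (fun _ : Fin (d + 1) => K), (volume (convexHull ℝ (Set.range x))).toReal)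
        / (volume K).toReal ^ (d + 1) ≤
      (∫ x in Set.pi Set.univ (fun _ : Fin (d + 1) => convexHull ℝ (Set.range p)),
        (volume (convexHull ℝ (Set.range x))).toReal)
        / (volume (convexHull ℝ (Set.range p))).toReal ^ (d + 1) := by
  obtain ⟨d₀, h⟩ := sc_criterion (1 / 5000) (by norm_num) (by norm_num)
  refine ⟨d₀, fun d hd K p hK hc hi hu hprod hp hvol => h d hd K p hK hi hp hvol ?_⟩
  rw [su_cov hK hc hi hu, su_vol hK hu]
  refine hprod.trans ?_
  have h4 : ((541 / 1000 : ℝ)) ^ d * vol (posPart K) ^ 2 =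
      ((541 / 1000 : ℝ) / 4) ^ d * (2 ^ d * vol (posPart K)) ^ 2 := by
    have h5 : ((541 / 1000 : ℝ)) ^ d = ((541 / 1000 : ℝ) / 4) ^ d * (2 ^ d) ^ 2 := by
      rw [← pow_mul, mul_comm d 2, pow_mul, ← mul_pow]
      norm_num
    rw [h5]
    ring
  rw [h4, pow_mul]
  refine mul_le_mul_of_nonneg_right ?_ (sq_nonneg _)
  exact pow_le_pow_left₀ (by norm_num) su_const d

end Pool.Agent.Lib.MP_29b1bb_gt.SU
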