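import Pool.Agent.Lib.MP_29b1bb_gt.SU.GaussLog

/-!
Proof sketch for module Cross (board SU, MP_29b1bb_gt, helper96).
Proof. Scale so that int f = 1; s2 = int t^2 f > 0. gam(t) = sqrt(2/pi)/s exp(-t^2/(2 s2)), s = sqrt s2: int gam = 1, int t^2 gam = s2. D = f - gam, int D = 0, int t^2 D = 0 on [0,oo).
The set T = {r >= 0 : f(sqrt r) >= gam(sqrt r)} is convex (log-concavity h2 of r -> f(sqrt r), and log gam(sqrt r) is affine; gam > 0). T is nonempty bounded (f = 0 beyond R). Let r1 = inf T, r2 = sup T.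
D < 0 outside [r1,r2] and D >= 0 on (r1,r2) (as functions of r = t^2). If r1 = r2 then D < 0 a.e., contradiction with int D = 0.
If r1 = 0: (t^2 - r2) D <= 0 everywhere with integral 0, so D = 0 a.e. and the claim is equality by gauss_log (scaled). If 0 < r1 < r2: let q(r) = alpha + beta r agree with (1/2) log r at r1 and r2; (1/2) log r - q(r) is >= 0 on
[r1,r2] and <= 0 outside by concavity, so (log t - q(t^2)) D >= 0 and int log t D = int (log t - q(t^2)) D >= 0. Finally int log t gam = (1/2) log s2 - (gamma + log 2)/2.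
-/

set_option autoImplicit false

open MeasureTheory Set

namespace Pool.Agent.Lib.MP_29b1bb_gt.SU

private theorem suCross_secant {a b r : ℝ} (ha : 0 < a) (hab : a < b) (hr : 0 < r) :
    (a ≤ r → r ≤ b → 0 ≤ (Real.log r - Real.log a) / 2 -
      (Real.log b - Real.log a) / (b - a) / 2 * (r - a)) ∧
    (r ≤ a ∨ b ≤ r → (Real.log r - Real.log a) / 2 -
      (Real.log b - Real.log a) / (b - a) / 2 * (r - a) ≤ 0) := by
  have hb : 0 < b := ha.trans hab
  have hcv : ConvexOn ℝ (Ioi 0) (-Real.log) := strictConcaveOn_log_Ioi.concaveOn.neg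
  by_cases hra : r = a
  · subst hra
    simp
  have key1 : r ≤ b → (Real.log b - Real.log a) / (b - a) ≤ (Real.log r - Real.log a) / (r - a) := by
    intro h
    have := hcv.secant_mono (mem_Ioi.2 ha) (mem_Ioi.2 hr) (mem_Ioi.2 hb) hra hab.ne' h
    simp only [Pi.neg_apply] at this
    have e1 : (-Real.log r - -Real.log a) / (r - a) = -((Real.log r - Real.log a) / (r - a)) := by
      rw [← neg_div]; congr 1; ring
    have e2 : (-Real.log b - -Real.log a) / (b - a) = -((Real.log b - Real.log a) / (b - a)) := by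
      rw [← neg_div]; congr 1; ring
    rw [e1, e2] at this
    linarith
  have key2 : b ≤ r → (Real.log r - Real.log a) / (r - a) ≤ (Real.log b - Real.log a) / (b - a) := by
    intro h
    have := hcv.secant_mono (mem_Ioi.2 ha) (mem_Ioi.2 hb) (mem_Ioi.2 hr) hab.ne' hra h
    simp only [Pi.neg_apply] at this
    have e1 : (-Real.log r - -Real.log a) / (r - a) = -((Real.log r - Real.log a) / (r - a)) := by
      rw [← neg_div]; congr 1; ring
    have e2 : (-Real.log b - -Real.log a) / (b - a) = -((Real.log b - Real.log a) / (b - a)) := by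
      rw [← neg_div]; congr 1; ring
    rw [e1, e2] at this
    linarith
  have hra' : r - a ≠ 0 := sub_ne_zero.2 hra
  have e : (Real.log r - Real.log a) / 2 - (Real.log b - Real.log a) / (b - a) / 2 * (r - a) =
      (r - a) * ((Real.log r - Real.log a) / (r - a) - (Real.log b - Real.log a) / (b - a)) / 2 := by
    have h : (r - a) * ((Real.log r - Real.log a) / (r - a)) = Real.log r - Real.log a := by
      field_simp
    linear_combination -(1 / 2) * h
  rw [e]
  constructor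
  · intro h1 h2
    have := key1 h2
    have h3 : 0 ≤ r - a := by linarith
    have h4 : 0 ≤ (Real.log r - Real.log a) / (r - a) - (Real.log b - Real.log a) / (b - a) := by
      linarith
    positivity
  · rintro (h1 | h1)
    · have := key1 (h1.trans hab.le)
      have h3 : r - a ≤ 0 := by linarith
      have h4 : 0 ≤ (Real.log r - Real.log a) / (r - a) - (Real.log b - Real.log a) / (b - a) := by
        linarith
      have := mul_nonpos_of_nonpos_of_nonneg h3 h4
      linarith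
    · have := key2 h1
      have h3 : 0 ≤ r - a := by linarith
      have h4 : (Real.log r - Real.log a) / (r - a) - (Real.log b - Real.log a) / (b - a) ≤ 0 := by
        linarith
      have := mul_nonpos_of_nonneg_of_nonpos h3 h4
      linarith

private theorem suCross_neg (φ : ℝ → ℝ) (hi : IntegrableOn φ (Ioi 0)) (t0 : ℝ)
    (h : ∀ t, 0 < t → t ≠ t0 → φ t ≤ 0) (R : ℝ) (hR : ∀ t, 0 < t → R < t → φ t < 0) :
    ∫ t in Ioi (0 : ℝ), φ t < 0 := by
  have h1 : 0 ≤ᵐ[volume.restrict (Ioi 0)] (fun t => -φ t) := by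
    have h2 : ∀ᵐ t : ℝ ∂(volume.restrict (Ioi 0)), t ≠ t0 := by
      refine ae_restrict_of_ae (ae_iff.2 ?_)
      simp
    have h3 : ∀ᵐ t : ℝ ∂(volume.restrict (Ioi 0)), t ∈ Ioi (0 : ℝ) := ae_restrict_mem measurableSet_Ioi
    filter_upwards [h2, h3] with t h4 h5
    have := h t h5 h4
    simp only [Pi.zero_apply]
    linarith
  have h2 := (setIntegral_pos_iff_support_of_nonneg_ae h1 hi.neg).2 (by
    have h3 : Ioi (max 0 R) ⊆ Function.support (fun t => -φ t) ∩ Ioi 0 := by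
      intro t ht
      have h4 : 0 < t := lt_of_le_of_lt (le_max_left _ _) ht
      have h5 : R < t := lt_of_le_of_lt (le_max_right _ _) ht
      refine ⟨?_, h4⟩
      rw [Function.mem_support]
      have := hR t h4 h5
      exact (neg_pos.2 this).ne'
    refine lt_of_lt_of_le ?_ (measure_mono h3)
    rw [Real.volume_Ioi]
    exact ENNReal.zero_lt_top)
  rw [integral_neg] at h2
  linarith

/-- integrability against a bounded function vanishing beyond `R` -/
private theorem suCross_int (f : ℝ → ℝ) (hm : Measurable f) (hf : AntitoneOn f (Ici 0))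
    (h0 : ∀ t, 0 ≤ t → 0 ≤ f t) (R : ℝ) (hR : ∀ t, R < t → f t = 0) (u : ℝ → ℝ)
    (hu : IntegrableOn u (Ioc 0 R)) : IntegrableOn (fun t => u t * f t) (Ioi 0) := by
  have h1 : IntegrableOn (fun t => f t * u t) (Ioc 0 R) := by
    refine Integrable.bdd_mul hu hm.aestronglyMeasurable (c := f 0) ?_
    refine (ae_restrict_iff' measurableSet_Ioc).2 (Filter.Eventually.of_forall fun t ht => ?_)
    rw [Real.norm_of_nonneg (h0 t ht.1.le)]
    exact hf (mem_Ici.2 le_rfl) (mem_Ici.2 ht.1.le) ht.1.le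
  have h2 : IntegrableOn (fun t => u t * f t) (Ioc 0 R) := by
    refine h1.congr_fun (fun t _ => mul_comm _ _) measurableSet_Ioc
  have h3 : IntegrableOn (fun t => u t * f t) (Ioi R) := by
    refine (integrableOn_zero).congr_fun (fun t ht => ?_) measurableSet_Ioi
    simp only [hR t ht, mul_zero]
  refine (h2.union h3).mono_set ?_
  intro t ht
  by_cases h : t ≤ R
  · exact Or.inl ⟨ht, h⟩
  · exact Or.inr (not_le.1 h)

private theorem suCross_gauss (s : ℝ) (hs : 0 < s) :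
    (IntegrableOn (fun t : ℝ => Real.exp (-((s⁻¹ * t) ^ 2 / 2))) (Ioi 0) ∧
      ∫ t in Ioi (0 : ℝ), Real.exp (-((s⁻¹ * t) ^ 2 / 2)) = s * Real.sqrt (Real.pi / 2)) ∧
    (IntegrableOn (fun t : ℝ => t ^ 2 * Real.exp (-((s⁻¹ * t) ^ 2 / 2))) (Ioi 0) ∧
      ∫ t in Ioi (0 : ℝ), t ^ 2 * Real.exp (-((s⁻¹ * t) ^ 2 / 2)) =
        s ^ 3 * Real.sqrt (Real.pi / 2)) ∧
    (IntegrableOn (fun t : ℝ => Real.log t * Real.exp (-((s⁻¹ * t) ^ 2 / 2))) (Ioi 0) ∧
      ∫ t in Ioi (0 : ℝ), Real.log t * Real.exp (-((s⁻¹ * t) ^ 2 / 2)) =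
        s * Real.sqrt (Real.pi / 2) *
          (Real.log s - (Real.eulerMascheroniConstant + Real.log 2) / 2)) := by
  have hs' : 0 < s⁻¹ := inv_pos.2 hs
  -- the case `s = 1`
  have a0 : IntegrableOn (fun u : ℝ => Real.exp (-(u ^ 2 / 2))) (Ioi 0) := by
    have := (integrable_exp_neg_mul_sq (show (0 : ℝ) < 1 / 2 by norm_num)).integrableOn (s := Ioi 0)
    refine this.congr_fun (fun u _ => ?_) measurableSet_Ioi
    change Real.exp (-(1 / 2) * u ^ 2) = Real.exp (-(u ^ 2 / 2))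
    congr 1
    ring
  have b0 : ∫ u in Ioi (0 : ℝ), Real.exp (-(u ^ 2 / 2)) = Real.sqrt (Real.pi / 2) := by
    have h1 := integral_gaussian_Ioi (1 / 2)
    have h2 : ∫ u in Ioi (0 : ℝ), Real.exp (-(u ^ 2 / 2)) =
        ∫ u in Ioi (0 : ℝ), Real.exp (-(1 / 2) * u ^ 2) := by
      refine setIntegral_congr_fun measurableSet_Ioi fun u _ => ?_
      change Real.exp (-(u ^ 2 / 2)) = Real.exp (-(1 / 2) * u ^ 2)
      congr 1
      ring
    rw [h2, h1, show Real.pi / (1 / 2) = 2 ^ 2 * (Real.pi / 2) by ring,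
      Real.sqrt_mul (by norm_num), Real.sqrt_sq (by norm_num)]
    ring
  have a2 : IntegrableOn (fun u : ℝ => u ^ 2 * Real.exp (-(u ^ 2 / 2))) (Ioi 0) := by
    have := integrableOn_rpow_mul_exp_neg_mul_sq (show (0 : ℝ) < 1 / 2 by norm_num)
      (show (-1 : ℝ) < 2 by norm_num)
    refine this.congr_fun (fun u _ => ?_) measurableSet_Ioi
    change u ^ (2 : ℝ) * Real.exp (-(1 / 2) * u ^ 2) = u ^ 2 * Real.exp (-(u ^ 2 / 2))
    rw [Real.rpow_two]
    congr 2
    ring
  have b2 : ∫ u in Ioi (0 : ℝ), u ^ 2 * Real.exp (-(u ^ 2 / 2)) = Real.sqrt (Real.pi / 2) := by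
    have h1 := integral_rpow_mul_exp_neg_mul_rpow (p := 2) (q := 2) (b := 1 / 2) (by norm_num)
      (by norm_num) (by norm_num)
    have h2 : ∫ u in Ioi (0 : ℝ), u ^ 2 * Real.exp (-(u ^ 2 / 2)) =
        ∫ u in Ioi (0 : ℝ), u ^ (2 : ℝ) * Real.exp (-(1 / 2) * u ^ (2 : ℝ)) := by
      refine setIntegral_congr_fun measurableSet_Ioi fun u _ => ?_
      change u ^ 2 * Real.exp (-(u ^ 2 / 2)) =
        u ^ (2 : ℝ) * Real.exp (-(1 / 2) * u ^ (2 : ℝ))
      rw [Real.rpow_two]
      congr 2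
      ring
    rw [h2, h1]
    have h3 : Real.Gamma ((2 + 1) / 2) = Real.sqrt Real.pi / 2 := by
      have h4 : ((2 : ℝ) + 1) / 2 = 1 / 2 + 1 := by norm_num
      rw [h4, Real.Gamma_add_one (by norm_num), Real.Gamma_one_half_eq]
      ring
    have h5 : ((1 : ℝ) / 2) ^ (-((2 : ℝ) + 1) / 2) = 2 * Real.sqrt 2 := by
      rw [one_div, Real.inv_rpow (by norm_num), ← Real.rpow_neg (by norm_num)]
      have : -(-((2 : ℝ) + 1) / 2) = 1 + 1 / 2 := by norm_num
      rw [this, Real.rpow_add (by norm_num), Real.rpow_one, ← Real.sqrt_eq_rpow]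
    rw [h3, h5, Real.sqrt_div Real.pi_pos.le]
    have h6 : Real.sqrt 2 * Real.sqrt 2 = 2 := Real.mul_self_sqrt (by norm_num)
    have h7 : Real.sqrt 2 ≠ 0 := by positivity
    field_simp
    linarith
  obtain ⟨aL, bL⟩ := gauss_log
  -- scaling
  have m0 : s⁻¹ * 0 = 0 := mul_zero _
  have c0 : IntegrableOn (fun t : ℝ => Real.exp (-((s⁻¹ * t) ^ 2 / 2))) (Ioi 0) := by
    have := (integrableOn_Ioi_comp_mul_left_iff (fun u : ℝ => Real.exp (-(u ^ 2 / 2))) 0 hs').2
      (by rw [m0]; exact a0)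
    exact this
  have d0 : ∫ t in Ioi (0 : ℝ), Real.exp (-((s⁻¹ * t) ^ 2 / 2)) = s * Real.sqrt (Real.pi / 2) := by
    have := integral_comp_mul_left_Ioi (fun u : ℝ => Real.exp (-(u ^ 2 / 2))) 0 hs'
    rw [this, m0, b0, inv_inv, smul_eq_mul]
  have c2 : IntegrableOn (fun t : ℝ => t ^ 2 * Real.exp (-((s⁻¹ * t) ^ 2 / 2))) (Ioi 0) := by
    have h1 := (integrableOn_Ioi_comp_mul_left_iff
      (fun u : ℝ => u ^ 2 * Real.exp (-(u ^ 2 / 2))) 0 hs').2 (by rw [m0]; exact a2)
    have h3 : IntegrableOn (fun t : ℝ => s ^ 2 * ((s⁻¹ * t) ^ 2 *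
        Real.exp (-((s⁻¹ * t) ^ 2 / 2)))) (Ioi 0) := Integrable.const_mul h1 (s ^ 2)
    refine h3.congr_fun (fun t _ => ?_) measurableSet_Ioi
    change s ^ 2 * ((s⁻¹ * t) ^ 2 * Real.exp (-((s⁻¹ * t) ^ 2 / 2))) =
      t ^ 2 * Real.exp (-((s⁻¹ * t) ^ 2 / 2))
    have h4 : s ^ 2 * (s⁻¹ * t) ^ 2 = t ^ 2 := by field_simp
    rw [← mul_assoc, h4]
  have d2 : ∫ t in Ioi (0 : ℝ), t ^ 2 * Real.exp (-((s⁻¹ * t) ^ 2 / 2)) =
      s ^ 3 * Real.sqrt (Real.pi / 2) := by
    have h1 := integral_comp_mul_left_Ioi (fun u : ℝ => u ^ 2 * Real.exp (-(u ^ 2 / 2))) 0 hs'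
    rw [m0, b2, inv_inv, smul_eq_mul] at h1
    have h2 : ∫ t in Ioi (0 : ℝ), t ^ 2 * Real.exp (-((s⁻¹ * t) ^ 2 / 2)) =
        ∫ t in Ioi (0 : ℝ), s ^ 2 * ((s⁻¹ * t) ^ 2 * Real.exp (-((s⁻¹ * t) ^ 2 / 2))) := by
      refine setIntegral_congr_fun measurableSet_Ioi fun t _ => ?_
      change t ^ 2 * Real.exp (-((s⁻¹ * t) ^ 2 / 2)) =
        s ^ 2 * ((s⁻¹ * t) ^ 2 * Real.exp (-((s⁻¹ * t) ^ 2 / 2)))
      have h4 : s ^ 2 * (s⁻¹ * t) ^ 2 = t ^ 2 := by field_simp
      rw [← mul_assoc (s ^ 2), h4]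
    rw [h2, integral_const_mul, h1]
    ring
  have cL : IntegrableOn (fun t : ℝ => Real.log (s⁻¹ * t) * Real.exp (-((s⁻¹ * t) ^ 2 / 2)))
      (Ioi 0) := by
    have := (integrableOn_Ioi_comp_mul_left_iff
      (fun u : ℝ => Real.log u * Real.exp (-(u ^ 2 / 2))) 0 hs').2 (by rw [m0]; exact aL)
    exact this
  have dL : ∫ t in Ioi (0 : ℝ), Real.log (s⁻¹ * t) * Real.exp (-((s⁻¹ * t) ^ 2 / 2)) =
      s * (-((Real.eulerMascheroniConstant + Real.log 2) / 2) * Real.sqrt (Real.pi / 2)) := by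
    have := integral_comp_mul_left_Ioi (fun u : ℝ => Real.log u * Real.exp (-(u ^ 2 / 2))) 0 hs'
    rw [this, m0, bL, inv_inv, smul_eq_mul]
  have hsplit : ∀ t ∈ Ioi (0 : ℝ), Real.log (s⁻¹ * t) * Real.exp (-((s⁻¹ * t) ^ 2 / 2)) +
      Real.log s * Real.exp (-((s⁻¹ * t) ^ 2 / 2)) =
      Real.log t * Real.exp (-((s⁻¹ * t) ^ 2 / 2)) := by
    intro t ht
    have ht' : (0 : ℝ) < t := ht
    rw [Real.log_mul hs'.ne' ht'.ne', Real.log_inv]
    ring
  refine ⟨⟨c0, d0⟩, ⟨c2, d2⟩, ?_, ?_⟩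
  · exact (cL.add (c0.const_mul (Real.log s))).congr_fun hsplit measurableSet_Ioi
  · rw [← setIntegral_congr_fun measurableSet_Ioi hsplit,
      integral_add cL (c0.const_mul (Real.log s)), dL, integral_const_mul, d0]
    ring

/-- Among decreasing functions which are log-concave as functions of `t²`, the half Gaussian has the
smallest logarithmic moment, for a given second moment. -/
theorem cross (f : ℝ → ℝ) (hm : Measurable f) (hf : AntitoneOn f (Ici 0))
    (h0 : ∀ t, 0 ≤ t → 0 ≤ f t) (R : ℝ) (hR : ∀ t, R < t → f t = 0)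
    (h2 : ∀ l s t : ℝ, 0 < l → l < 1 → 0 ≤ s → 0 ≤ t →
      f s ^ (1 - l) * f t ^ l ≤ f (Real.sqrt ((1 - l) * s ^ 2 + l * t ^ 2)))
    (hpos : 0 < ∫ t in Ici (0 : ℝ), f t) :
    (1 / 2) * Real.log ((∫ t in Ici (0 : ℝ), t ^ 2 * f t) / (∫ t in Ici (0 : ℝ), f t)) -
        (Real.eulerMascheroniConstant + Real.log 2) / 2 ≤
      (∫ t in Ici (0 : ℝ), Real.log t * f t) / (∫ t in Ici (0 : ℝ), f t) := by
  rw [integral_Ici_eq_integral_Ioi] at hpos
  simp_rw [integral_Ici_eq_integral_Ioi]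
  have i0 : IntegrableOn f (Ioi 0) := by
    have := suCross_int f hm hf h0 R hR (fun _ => 1) (by
      exact integrableOn_const (by simp) (by simp))
    simpa using this
  have i2 : IntegrableOn (fun t => t ^ 2 * f t) (Ioi 0) :=
    suCross_int f hm hf h0 R hR (fun t => t ^ 2)
      ((continuous_id.pow 2).integrableOn_Icc.mono_set Ioc_subset_Icc_self)
  have iL : IntegrableOn (fun t => Real.log t * f t) (Ioi 0) := by
    refine suCross_int f hm hf h0 R hR Real.log ?_
    by_cases h : 0 ≤ R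
    · exact (intervalIntegrable_iff_integrableOn_Ioc_of_le h).1
        intervalIntegral.intervalIntegrable_log'
    · rw [Ioc_eq_empty (by linarith)]
      exact integrableOn_empty
  obtain ⟨m, hmdef⟩ : ∃ m : ℝ, m = ∫ t in Ioi (0 : ℝ), f t := ⟨_, rfl⟩
  obtain ⟨M, hMdef⟩ : ∃ M : ℝ, M = ∫ t in Ioi (0 : ℝ), t ^ 2 * f t := ⟨_, rfl⟩
  obtain ⟨Lf, hLdef⟩ : ∃ Lf : ℝ, Lf = ∫ t in Ioi (0 : ℝ), Real.log t * f t := ⟨_, rfl⟩
  rw [← hmdef, ← hMdef, ← hLdef]
  rw [← hmdef] at hpos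
  have hM : 0 < M := by
    have e1 : 0 ≤ᵐ[volume.restrict (Ioi 0)] f :=
      (ae_restrict_iff' measurableSet_Ioi).2 (Filter.Eventually.of_forall fun t ht => h0 t (le_of_lt ht))
    have e2 : 0 ≤ᵐ[volume.restrict (Ioi 0)] (fun t => t ^ 2 * f t) :=
      (ae_restrict_iff' measurableSet_Ioi).2 (Filter.Eventually.of_forall fun t ht =>
        mul_nonneg (sq_nonneg t) (h0 t (le_of_lt ht)))
    rw [hMdef, setIntegral_pos_iff_support_of_nonneg_ae e2 i2]
    rw [hmdef, setIntegral_pos_iff_support_of_nonneg_ae e1 i0] at hpos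
    refine lt_of_lt_of_le hpos (measure_mono ?_)
    rintro t ⟨h1, h2⟩
    refine ⟨?_, h2⟩
    rw [Function.mem_support] at h1 ⊢
    have h2' : (0 : ℝ) < t := h2
    positivity
  obtain ⟨s, hsdef⟩ : ∃ s : ℝ, s = Real.sqrt (M / m) := ⟨_, rfl⟩
  have hs : 0 < s := by rw [hsdef]; exact Real.sqrt_pos.2 (div_pos hM hpos)
  have hs2 : s ^ 2 = M / m := by rw [hsdef]; exact Real.sq_sqrt (div_pos hM hpos).le
  obtain ⟨⟨c0, d0⟩, ⟨c2, d2⟩, ⟨cL, dL⟩⟩ := suCross_gauss s hs
  obtain ⟨K, hK⟩ : ∃ K : ℝ, K = Real.sqrt (Real.pi / 2) := ⟨_, rfl⟩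
  have hK0 : 0 < K := by rw [hK]; exact Real.sqrt_pos.2 (by positivity)
  rw [← hK] at d0 d2 dL
  obtain ⟨κ, hκ⟩ : ∃ κ : ℝ, κ = (Real.eulerMascheroniConstant + Real.log 2) / 2 := ⟨_, rfl⟩
  rw [← hκ] at dL ⊢
  obtain ⟨c, hc⟩ : ∃ c : ℝ, c = m / (s * K) := ⟨_, rfl⟩
  have hc0 : 0 < c := by rw [hc]; positivity
  obtain ⟨G, hG⟩ : ∃ G : ℝ → ℝ, G = fun t => c * Real.exp (-((s⁻¹ * t) ^ 2 / 2)) := ⟨_, rfl⟩
  have hGpos : ∀ t, 0 < G t := fun t => by rw [hG]; positivity
  have j0 : IntegrableOn G (Ioi 0) := by rw [hG]; exact c0.const_mul c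
  have j2 : IntegrableOn (fun t => t ^ 2 * G t) (Ioi 0) := by
    have q : IntegrableOn (fun t : ℝ => c * (t ^ 2 * Real.exp (-((s⁻¹ * t) ^ 2 / 2)))) (Ioi 0) :=
      Integrable.const_mul c2 c
    refine q.congr_fun (fun t _ => ?_) measurableSet_Ioi
    change c * (t ^ 2 * Real.exp (-((s⁻¹ * t) ^ 2 / 2))) = t ^ 2 * G t
    rw [hG]
    ring
  have jL : IntegrableOn (fun t => Real.log t * G t) (Ioi 0) := by
    have q : IntegrableOn (fun t : ℝ => c * (Real.log t * Real.exp (-((s⁻¹ * t) ^ 2 / 2))))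
      (Ioi 0) := Integrable.const_mul cL c
    refine q.congr_fun (fun t _ => ?_) measurableSet_Ioi
    change c * (Real.log t * Real.exp (-((s⁻¹ * t) ^ 2 / 2))) = Real.log t * G t
    rw [hG]
    ring
  have k0 : ∫ t in Ioi (0 : ℝ), G t = m := by
    rw [hG, integral_const_mul, d0, hc]
    field_simp
  have k2 : ∫ t in Ioi (0 : ℝ), t ^ 2 * G t = M := by
    have : ∫ t in Ioi (0 : ℝ), t ^ 2 * G t =
        ∫ t in Ioi (0 : ℝ), c * (t ^ 2 * Real.exp (-((s⁻¹ * t) ^ 2 / 2))) := by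
      refine setIntegral_congr_fun measurableSet_Ioi fun t _ => ?_
      rw [hG]
      ring
    rw [this, integral_const_mul, d2, hc]
    have e1 : m / (s * K) * (s ^ 3 * K) = m * s ^ 2 := by field_simp
    rw [e1, hs2]
    field_simp
  have kL : ∫ t in Ioi (0 : ℝ), Real.log t * G t = m * (Real.log s - κ) := by
    have : ∫ t in Ioi (0 : ℝ), Real.log t * G t =
        ∫ t in Ioi (0 : ℝ), c * (Real.log t * Real.exp (-((s⁻¹ * t) ^ 2 / 2))) := by
      refine setIntegral_congr_fun measurableSet_Ioi fun t _ => ?_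
      rw [hG]
      ring
    rw [this, integral_const_mul, dL, hc]
    field_simp
  -- the difference
  have hD0 : ∫ t in Ioi (0 : ℝ), (f t - G t) = 0 := by
    rw [integral_sub i0 j0, k0, ← hmdef, sub_self]
  have hD2 : ∫ t in Ioi (0 : ℝ), t ^ 2 * (f t - G t) = 0 := by
    simp_rw [mul_sub]
    rw [integral_sub i2 j2, k2, ← hMdef, sub_self]
  have hDL : ∫ t in Ioi (0 : ℝ), Real.log t * (f t - G t) = Lf - m * (Real.log s - κ) := by
    simp_rw [mul_sub]
    rw [integral_sub iL jL, kL, ← hLdef]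
    ring
  have l0 : IntegrableOn (fun t => f t - G t) (Ioi 0) := i0.sub j0
  have l2 : IntegrableOn (fun t => t ^ 2 * (f t - G t)) (Ioi 0) := by
    have := i2.sub j2
    refine this.congr_fun (fun t _ => ?_) measurableSet_Ioi
    simp only [Pi.sub_apply]
    ring
  have lL : IntegrableOn (fun t => Real.log t * (f t - G t)) (Ioi 0) := by
    have := iL.sub jL
    refine this.congr_fun (fun t _ => ?_) measurableSet_Ioi
    simp only [Pi.sub_apply]
    ring
  -- the set where `f` is above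
  obtain ⟨T, hT⟩ : ∃ T : Set ℝ, T = {r : ℝ | 0 ≤ r ∧ G (Real.sqrt r) ≤ f (Real.sqrt r)} := ⟨_, rfl⟩
  have hGlog : ∀ l a b : ℝ, 0 ≤ a → 0 ≤ b → 0 < l → l < 1 →
      G (Real.sqrt ((1 - l) * a ^ 2 + l * b ^ 2)) = G a ^ (1 - l) * G b ^ l := by
    intro l a b ha hb hl0 hl1
    have e1 : 0 ≤ (1 - l) * a ^ 2 + l * b ^ 2 := by
      have : 0 ≤ 1 - l := by linarith
      positivity
    have e2 : ∀ x, G x = Real.exp (Real.log c - (s⁻¹ * x) ^ 2 / 2) := by
      intro x
      rw [hG]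
      simp only
      rw [sub_eq_add_neg, Real.exp_add, Real.exp_log hc0]
    rw [e2, e2, e2, ← Real.exp_mul, ← Real.exp_mul, ← Real.exp_add]
    congr 1
    rw [mul_pow, Real.sq_sqrt e1]
    ring
  have hconv : ∀ a ∈ T, ∀ b ∈ T, ∀ l : ℝ, 0 < l → l < 1 → (1 - l) * a + l * b ∈ T := by
    intro a ha b hb l hl0 hl1
    rw [hT] at ha hb ⊢
    obtain ⟨ha0, ha1⟩ := ha
    obtain ⟨hb0, hb1⟩ := hb
    have hl' : 0 ≤ 1 - l := by linarith
    refine ⟨by positivity, ?_⟩
    have e1 := h2 l (Real.sqrt a) (Real.sqrt b) hl0 hl1 (Real.sqrt_nonneg _) (Real.sqrt_nonneg _)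
    have e2 := hGlog l (Real.sqrt a) (Real.sqrt b) (Real.sqrt_nonneg _) (Real.sqrt_nonneg _) hl0 hl1
    rw [Real.sq_sqrt ha0, Real.sq_sqrt hb0] at e1 e2
    rw [e2]
    refine le_trans ?_ e1
    have g1 : G (Real.sqrt a) ^ (1 - l) ≤ f (Real.sqrt a) ^ (1 - l) :=
      Real.rpow_le_rpow (hGpos _).le ha1 hl'
    have g2 : G (Real.sqrt b) ^ l ≤ f (Real.sqrt b) ^ l :=
      Real.rpow_le_rpow (hGpos _).le hb1 hl0.le
    exact mul_le_mul g1 g2 (Real.rpow_nonneg (hGpos _).le _)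
      (Real.rpow_nonneg ((hGpos _).le.trans ha1) _)
  have hnotT : ∀ t, 0 < t → t ^ 2 ∉ T → f t - G t < 0 := by
    intro t ht h
    rw [hT] at h
    have : ¬ (G t ≤ f t) := by
      intro h'
      refine h ⟨by positivity, ?_⟩
      rw [Real.sqrt_sq ht.le]
      exact h'
    linarith [not_le.1 this]
  have hinT : ∀ t, 0 < t → t ^ 2 ∈ T → 0 ≤ f t - G t := by
    intro t ht h
    rw [hT] at h
    have := h.2
    rw [Real.sqrt_sq ht.le] at this
    linarith
  have hbig : ∀ t, 0 < t → R < t → f t - G t < 0 := by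
    intro t _ h
    rw [hR t h]
    linarith [hGpos t]
  have hne : T.Nonempty := by
    by_contra hcon
    rw [not_nonempty_iff_eq_empty] at hcon
    have := suCross_neg (fun t => f t - G t) l0 0 (fun t ht _ => (hnotT t ht (by
      rw [hcon]; exact notMem_empty _)).le) R hbig
    rw [hD0] at this
    exact lt_irrefl _ this
  have hbdd : BddAbove T := by
    refine ⟨R ^ 2, fun r hr => ?_⟩
    rw [hT] at hr
    by_contra hcon
    push Not at hcon
    have e1 : R < Real.sqrt r := by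
      by_cases hR0 : 0 ≤ R
      · exact (Real.lt_sqrt hR0).2 hcon
      · push Not at hR0
        exact lt_of_lt_of_le hR0 (Real.sqrt_nonneg _)
    have := hr.2
    rw [hR _ e1] at this
    linarith [hGpos (Real.sqrt r)]
  have hbdd' : BddBelow T := ⟨0, fun r hr => by rw [hT] at hr; exact hr.1⟩
  obtain ⟨r1, hr1⟩ : ∃ r1 : ℝ, r1 = sInf T := ⟨_, rfl⟩
  obtain ⟨r2, hr2⟩ : ∃ r2 : ℝ, r2 = sSup T := ⟨_, rfl⟩
  have hTr : ∀ r ∈ T, r1 ≤ r ∧ r ≤ r2 := fun r hr =>
    ⟨by rw [hr1]; exact csInf_le hbdd' hr, by rw [hr2]; exact le_csSup hbdd hr⟩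
  have hr10 : 0 ≤ r1 := by
    rw [hr1]
    exact le_csInf hne fun r hr => by rw [hT] at hr; exact hr.1
  have hmid : ∀ r, r1 < r → r < r2 → r ∈ T := by
    intro r h1 h2
    rw [hr1] at h1
    rw [hr2] at h2
    obtain ⟨a, ha, har⟩ := exists_lt_of_csInf_lt hne h1
    obtain ⟨b, hb, hbr⟩ := exists_lt_of_lt_csSup hne h2
    have hab : 0 < b - a := by linarith
    have e1 := hconv a ha b hb ((r - a) / (b - a)) (div_pos (by linarith) hab)
      ((div_lt_one hab).2 (by linarith))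
    have e2 : (1 - (r - a) / (b - a)) * a + (r - a) / (b - a) * b = r := by
      field_simp
      ring
    rwa [e2] at e1
  -- `r1 > 0`
  have hr1pos : 0 < r1 := by
    rcases hr10.lt_or_eq with h | h
    · exact h
    exfalso
    have l3 : IntegrableOn (fun t => (t ^ 2 - r2) * (f t - G t)) (Ioi 0) := by
      refine (l2.sub (l0.const_mul r2)).congr_fun (fun t _ => ?_) measurableSet_Ioi
      simp only [Pi.sub_apply]
      ring
    have e3 : ∫ t in Ioi (0 : ℝ), (t ^ 2 - r2) * (f t - G t) = 0 := by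
      have : ∫ t in Ioi (0 : ℝ), (t ^ 2 - r2) * (f t - G t) =
          ∫ t in Ioi (0 : ℝ), (t ^ 2 * (f t - G t) - r2 * (f t - G t)) := by
        refine setIntegral_congr_fun measurableSet_Ioi fun t _ => ?_
        ring
      rw [this, integral_sub l2 (l0.const_mul r2), hD2, integral_const_mul, hD0]
      ring
    have := suCross_neg (fun t => (t ^ 2 - r2) * (f t - G t)) l3 0 (by
      intro t ht _
      by_cases h3 : t ^ 2 ∈ T
      · exact mul_nonpos_of_nonpos_of_nonneg (by linarith [(hTr _ h3).2]) (hinT t ht h3)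
      · have h4 : r2 ≤ t ^ 2 := by
          by_contra h5
          push Not at h5
          exact h3 (hmid _ (by rw [← h]; positivity) h5)
        exact mul_nonpos_of_nonneg_of_nonpos (by linarith) (hnotT t ht h3).le) (max R (r2 + 1)) (by
      intro t ht h3
      have h4 : R < t := lt_of_le_of_lt (le_max_left _ _) h3
      have h5 : r2 + 1 < t := lt_of_le_of_lt (le_max_right _ _) h3
      have h6 : 0 ≤ r2 := by
        obtain ⟨r, hr⟩ := hne
        have := hTr r hr
        linarith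
      have h7 : r2 < t ^ 2 := by nlinarith
      exact mul_neg_of_pos_of_neg (by linarith) (hbig t ht h4))
    rw [e3] at this
    exact lt_irrefl _ this
  -- `r1 < r2`
  have hr12 : r1 < r2 := by
    have h1 : r1 ≤ r2 := by
      obtain ⟨r, hr⟩ := hne
      have := hTr r hr
      linarith
    rcases h1.lt_or_eq with h | h
    · exact h
    exfalso
    have := suCross_neg (fun t => f t - G t) l0 (Real.sqrt r1) (by
      intro t ht hne'
      refine (hnotT t ht fun h3 => hne' ?_).le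
      have := hTr _ h3
      have e1 : t ^ 2 = r1 := by linarith
      rw [← e1, Real.sqrt_sq ht.le]) R hbig
    rw [hD0] at this
    exact lt_irrefl _ this
  -- the main comparison
  obtain ⟨β, hβ⟩ : ∃ β : ℝ, β = (Real.log r2 - Real.log r1) / (r2 - r1) / 2 := ⟨_, rfl⟩
  have hpt : ∀ t ∈ Ioi (0 : ℝ), 0 ≤ (Real.log t - Real.log r1 / 2 + β * r1 - β * t ^ 2) *
      (f t - G t) := by
    intro t ht
    have ht' : (0 : ℝ) < t := ht
    have e0 : Real.log (t ^ 2) = 2 * Real.log t := by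
      rw [Real.log_pow]; push_cast; ring
    have e1 := suCross_secant hr1pos hr12 (show 0 < t ^ 2 by positivity)
    rw [← hβ, e0] at e1
    have e2 : Real.log t - Real.log r1 / 2 + β * r1 - β * t ^ 2 =
        (2 * Real.log t - Real.log r1) / 2 - β * (t ^ 2 - r1) := by ring
    rw [e2]
    by_cases h3 : t ^ 2 ∈ T
    · exact mul_nonneg (e1.1 (hTr _ h3).1 (hTr _ h3).2) (hinT t ht' h3)
    · refine mul_nonneg_of_nonpos_of_nonpos (e1.2 ?_) (hnotT t ht' h3).le
      by_contra h4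
      push Not at h4
      exact h3 (hmid _ h4.1 h4.2)
  have hint := setIntegral_nonneg (μ := volume) measurableSet_Ioi hpt
  have hval : ∫ t in Ioi (0 : ℝ), (Real.log t - Real.log r1 / 2 + β * r1 - β * t ^ 2) *
      (f t - G t) = Lf - m * (Real.log s - κ) := by
    have e1 : ∫ t in Ioi (0 : ℝ), (Real.log t - Real.log r1 / 2 + β * r1 - β * t ^ 2) *
        (f t - G t) = ∫ t in Ioi (0 : ℝ), (Real.log t * (f t - G t) -
          ((Real.log r1 / 2 - β * r1) * (f t - G t) + β * (t ^ 2 * (f t - G t)))) := by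
      refine setIntegral_congr_fun measurableSet_Ioi fun t _ => ?_
      ring
    have lA : IntegrableOn (fun t => (Real.log r1 / 2 - β * r1) * (f t - G t)) (Ioi 0) :=
      l0.const_mul _
    have lB : IntegrableOn (fun t => β * (t ^ 2 * (f t - G t))) (Ioi 0) := l2.const_mul _
    have lC : IntegrableOn (fun t => (Real.log r1 / 2 - β * r1) * (f t - G t) +
        β * (t ^ 2 * (f t - G t))) (Ioi 0) := lA.add lB
    rw [e1, integral_sub lL lC, integral_add lA lB, integral_const_mul, integral_const_mul,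
      hD0, hD2, hDL]
    ring
  rw [hval] at hint
  have hls : Real.log s = 1 / 2 * Real.log (M / m) := by
    rw [hsdef, Real.log_sqrt (div_pos hM hpos).le]
    ring
  rw [← hls, le_div_iff₀ hpos]
  linarith

end Pool.Agent.Lib.MP_29b1bb_gt.SU
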