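import Mathlib

/-!
# Corners: compact convex down-closed subsets of the orthant

Shared definitions for the three classes of unconditional bodies.
-/

set_option autoImplicit false

open MeasureTheory Set

namespace Pool.Agent.Lib.MP_29b1bb_gt.SU

/-- A corner: a compact convex down-closed subset of the orthant, of positive volume. -/
structure Corner (n : ℕ) (B : Set (Fin n → ℝ)) : Prop where
  compact : IsCompact B
  convex : Convex ℝ B
  nonneg : ∀ x ∈ B, ∀ i, 0 ≤ x i
  down : ∀ x ∈ B, ∀ y : Fin n → ℝ, (∀ i, 0 ≤ y i) → (∀ i, y i ≤ x i) → y ∈ B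
  pos : 0 < volume B

/-- the volume as a real number -/
noncomputable def vol {n : ℕ} (B : Set (Fin n → ℝ)) : ℝ := (volume B).toReal

/-- first moments -/
noncomputable def M1 {n : ℕ} (B : Set (Fin n → ℝ)) (i : Fin n) : ℝ := ∫ x in B, x i

/-- second moments -/
noncomputable def M2 {n : ℕ} (B : Set (Fin n → ℝ)) (i : Fin n) : ℝ := ∫ x in B, (x i) ^ 2

/-- the volume of the section of `B` by the hyperplane where the coordinate `i` equals `t` -/
noncomputable def sec {n : ℕ} (B : Set (Fin (n + 1) → ℝ)) (i : Fin (n + 1)) (t : ℝ) : ℝ :=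
  (volume {y : Fin n → ℝ | (i.insertNth t y : Fin (n + 1) → ℝ) ∈ B}).toReal

theorem Corner.measurable {n : ℕ} {B : Set (Fin n → ℝ)} (hB : Corner n B) : MeasurableSet B :=
  hB.compact.measurableSet

theorem Corner.finite {n : ℕ} {B : Set (Fin n → ℝ)} (hB : Corner n B) : volume B ≠ ⊤ :=
  hB.compact.measure_lt_top.ne

theorem Corner.vol_pos {n : ℕ} {B : Set (Fin n → ℝ)} (hB : Corner n B) : 0 < vol B :=
  ENNReal.toReal_pos hB.pos.ne' hB.finite

/-- A data set defining an intersection of `m` generalized Orlicz balls in dimension `d`. -/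
structure OData (d m : ℕ) where
  a : Fin d → ℝ
  f : Fin m → Fin d → ℝ → ℝ
  ha : ∀ i, 0 < a i
  hconv : ∀ k i, ConvexOn ℝ (Ici 0) (f k i)
  hmono : ∀ k i, MonotoneOn (f k i) (Ici 0)
  hzero : ∀ k i, f k i 0 = 0

namespace OData

variable {d m : ℕ} (D : OData d m)

/-- the box -/
def box : Set (Fin d → ℝ) := {x | ∀ i, 0 ≤ x i ∧ x i ≤ D.a i}

/-- the gauge functions -/
def S (k : Fin m) (x : Fin d → ℝ) : ℝ := ∑ i, D.f k i (x i)

/-- the positive part of the body -/
def body : Set (Fin d → ℝ) := {x | x ∈ D.box ∧ ∀ k, D.S k x ≤ 1}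

/-- the potential of a coordinate -/
def phi (β : Fin m → ℝ) (i : Fin d) (t : ℝ) : ℝ := ∑ k, β k * D.f k i t

/-- the total potential -/
def Phi (β : Fin m → ℝ) (x : Fin d → ℝ) : ℝ := ∑ k, β k * D.S k x

end OData

end Pool.Agent.Lib.MP_29b1bb_gt.SU
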