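import Pool.Agent.Lib.MP_29b1bb_gt.SU.Defs

/-!
Proof sketch for module Major (board SU, MP_29b1bb_gt, helper96).
Proof. y k = u k - 2 g k/(m+1): y 0 = 0, 2 y k <= y(k-1)+y(k+1) for 1 <= k <= m-1, sum_{1..m} y = 0 (sum of k is m(m+1)/2). Partial sums P k = sum_{1..k} y satisfy P k <= 0 for k <= m:
the increments y(k+1)-y(k) are nondecreasing; if P k > 0 for some k < m then some y j > 0 with j <= k, hence (convexity from y 0 = 0) y is positive and nondecreasing from the first positive index on, so P m > 0, contradiction.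
Abel summation: sum w k y k = sum_{k<m} (w k - w(k+1)) P k + w m P m >= 0.
-/

set_option autoImplicit false

open MeasureTheory Set

namespace Pool.Agent.Lib.MP_29b1bb_gt.SU

/-- A convex sequence with value `0` at `0` has a single crossing. -/
private lemma suMajor_cross (m : ℕ) (y : ℕ → ℝ) (hy0 : y 0 = 0)
    (hyc : ∀ k, 1 ≤ k → k + 1 ≤ m → 2 * y k ≤ y (k - 1) + y (k + 1)) (hm : 1 ≤ m) :
    ∃ c, 1 ≤ c ∧ c ≤ m ∧ (∀ k, 1 ≤ k → k < c → y k ≤ 0) ∧
      (∀ k, c < k → k ≤ m → 0 ≤ y k) ∧ (y c ≤ 0 ∨ 0 ≤ y c) := by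
  classical
  by_cases h : ∃ k, 1 ≤ k ∧ k ≤ m ∧ 0 < y k
  · refine ⟨Nat.find h, (Nat.find_spec h).1, (Nat.find_spec h).2.1, ?_, ?_,
      Or.inr (Nat.find_spec h).2.2.le⟩
    · intro k hk1 hkc
      by_contra hpos
      exact Nat.find_min h hkc ⟨hk1, (hkc.le.trans (Nat.find_spec h).2.1), not_le.mp hpos⟩
    · have key : ∀ j, Nat.find h + j ≤ m →
          0 < y (Nat.find h + j) ∧ y (Nat.find h + j - 1) ≤ y (Nat.find h + j) := by
        intro j
        induction j with
        | zero =>
          intro _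
          refine ⟨(Nat.find_spec h).2.2, ?_⟩
          have hc1 := (Nat.find_spec h).1
          have hpos := (Nat.find_spec h).2.2
          simp only [Nat.add_zero]
          rcases Nat.eq_or_lt_of_le hc1 with h1 | h1
          · rw [← h1]
            rw [← h1] at hpos
            simp only [Nat.sub_self, hy0]
            exact hpos.le
          · have h2 : y (Nat.find h - 1) ≤ 0 := by
              by_contra hp
              exact Nat.find_min h (m := Nat.find h - 1) (by omega)
                ⟨by omega, by have := (Nat.find_spec h).2.1; omega, not_le.mp hp⟩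
            exact h2.trans hpos.le
        | succ j ih =>
          intro hj
          obtain ⟨h1, h2⟩ := ih (by omega)
          have hc1 := (Nat.find_spec h).1
          have h3 := hyc (Nat.find h + j) (by omega) (by omega)
          have h4 : Nat.find h + (j + 1) - 1 = Nat.find h + j := by omega
          rw [h4]
          have h5 : Nat.find h + (j + 1) = Nat.find h + j + 1 := by omega
          rw [h5]
          constructor <;> linarith
      intro k hk hkm
      have := (key (k - Nat.find h) (by omega)).1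
      rw [Nat.add_sub_cancel' hk.le] at this
      exact this.le
  · push Not at h
    exact ⟨m, hm, le_refl m, fun k hk hkm => h k hk hkm.le,
      fun k hk hkm => absurd hk (by omega), Or.inl (h m hm (le_refl m))⟩

/-- A convex sequence starting at `0` majorizes the linear sequence with the same sum. -/
theorem major (m : ℕ) (u w : ℕ → ℝ) (g : ℝ) (hu0 : u 0 = 0)
    (huc : ∀ k, 1 ≤ k → k + 1 ≤ m → 2 * u k ≤ u (k - 1) + u (k + 1))
    (hsum : ∑ k ∈ Finset.Icc 1 m, u k = m * g)
    (hw : ∀ j k, 1 ≤ j → j ≤ k → k ≤ m → w j ≤ w k) :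
    ∑ k ∈ Finset.Icc 1 m, w k * (2 * g * k / ((m : ℝ) + 1)) ≤ ∑ k ∈ Finset.Icc 1 m, w k * u k := by
  rcases Nat.eq_zero_or_pos m with hm0 | hm
  · subst hm0; simp
  have hm1 : (0 : ℝ) < (m : ℝ) + 1 := by positivity
  set y : ℕ → ℝ := fun k => u k - 2 * g * k / ((m : ℝ) + 1) with hy
  have hy0 : y 0 = 0 := by simp [hy, hu0]
  have hyc : ∀ k, 1 ≤ k → k + 1 ≤ m → 2 * y k ≤ y (k - 1) + y (k + 1) := by
    intro k hk hkm
    have h1 := huc k hk hkm
    have h2 : ((k - 1 : ℕ) : ℝ) = (k : ℝ) - 1 := by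
      rw [Nat.cast_sub hk]; simp
    simp only [hy, h2, Nat.cast_add, Nat.cast_one]
    have h3 : 2 * (2 * g * (k : ℝ) / ((m : ℝ) + 1)) =
        2 * g * ((k : ℝ) - 1) / ((m : ℝ) + 1) + 2 * g * ((k : ℝ) + 1) / ((m : ℝ) + 1) := by
      field_simp
      ring
    linarith
  have hysum : ∑ k ∈ Finset.Icc 1 m, y k = 0 := by
    have hgauss : ∀ n : ℕ, ∑ k ∈ Finset.Icc 1 n, (k : ℝ) = n * ((n : ℝ) + 1) / 2 := by
      intro n
      induction n with
      | zero => simp
      | succ n ih =>
        rw [Finset.sum_Icc_succ_top (by omega), ih]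
        push_cast
        ring
    simp only [hy, Finset.sum_sub_distrib, hsum]
    have : ∑ k ∈ Finset.Icc 1 m, 2 * g * (k : ℝ) / ((m : ℝ) + 1) = m * g := by
      rw [← Finset.sum_div, ← Finset.mul_sum, hgauss]
      field_simp
    rw [this]; ring
  obtain ⟨c, hc1, hcm, hlow, hhigh, -⟩ := suMajor_cross m y hy0 hyc hm
  have hterm : ∀ k ∈ Finset.Icc 1 m, 0 ≤ (w k - w c) * y k := by
    intro k hk
    rw [Finset.mem_Icc] at hk
    rcases lt_trichotomy k c with h | h | h
    · exact mul_nonneg_of_nonpos_of_nonpos (by have := hw k c hk.1 h.le hcm; linarith)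
        (hlow k hk.1 h)
    · rw [h]; simp
    · exact mul_nonneg (by have := hw c k hc1 h.le hk.2; linarith) (hhigh k h hk.2)
  have hs := Finset.sum_nonneg hterm
  have he : ∑ k ∈ Finset.Icc 1 m, (w k - w c) * y k =
      ∑ k ∈ Finset.Icc 1 m, w k * u k
        - ∑ k ∈ Finset.Icc 1 m, w k * (2 * g * k / ((m : ℝ) + 1)) := by
    have h1 : ∑ k ∈ Finset.Icc 1 m, (w k - w c) * y k =
        ∑ k ∈ Finset.Icc 1 m, w k * y k - w c * ∑ k ∈ Finset.Icc 1 m, y k := by
      rw [Finset.mul_sum, ← Finset.sum_sub_distrib]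
      exact Finset.sum_congr rfl fun k _ => by ring
    rw [h1, hysum, mul_zero, sub_zero, ← Finset.sum_sub_distrib]
    exact Finset.sum_congr rfl fun k _ => by simp only [hy]; ring
  linarith

end Pool.Agent.Lib.MP_29b1bb_gt.SU
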