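import Pool.Agent.Lib.MP_29b1bb_gt.SU.Rank
import Pool.Agent.Lib.MP_29b1bb_gt.SU.Major
/-!
Proof sketch for module EllXb (board SU, MP_29b1bb_gt, helper96).
Proof. Split the sum over Finset.univ into blocks (Finset.sum_fiberwise or over representatives). In the block b of size m enumerate the indices increasingly (Finset.orderEmbOfFin): e_1 < ... < e_m, rk c e_k = k.
Put u k = xb (e_k) (u 0 = 0), w k = w (e_k); rank_first and rank_convex give the convexity, xb_sum the sum with g = M1/vol (the same on the block by M1_inv, so ell (e_k) = 2 g k/(m+1)); apply major.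
-/

set_option autoImplicit false

open MeasureTheory Set

namespace Pool.Agent.Lib.MP_29b1bb_gt.SU

variable {d : ℕ} {ι : Type*}

open Classical in
private theorem suEllXb_rk_pos (c : Fin d → ι) (i : Fin d) : 1 ≤ rk c i := by
  unfold rk
  refine Finset.card_pos.2 ⟨i, ?_⟩
  simp

open Classical in
private theorem suEllXb_rk_le (c : Fin d → ι) (i : Fin d) : rk c i ≤ (blk c i).card := by
  unfold rk blk
  refine Finset.card_le_card ?_
  intro j hj
  rw [Finset.mem_filter] at hj ⊢
  exact ⟨hj.1, hj.2.1⟩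

open Classical in
private theorem suEllXb_rk_lt (c : Fin d → ι) {i j : Fin d} (hc : c i = c j) (h : i < j) :
    rk c i < rk c j := by
  unfold rk
  refine Finset.card_lt_card ?_
  rw [Finset.ssubset_iff_of_subset]
  · refine ⟨j, ?_, ?_⟩
    · simp
    · simp only [Finset.mem_filter, Finset.mem_univ, true_and, not_and, not_le]
      intro _
      exact h
  · intro k hk
    rw [Finset.mem_filter] at hk ⊢
    exact ⟨hk.1, hk.2.1.trans hc, hk.2.2.trans h.le⟩

private theorem suEllXb_lt (c : Fin d → ι) {i j : Fin d} (hc : c i = c j)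
    (h : rk c i < rk c j) : i < j := by
  by_contra hn
  rcases (not_lt.1 hn).lt_or_eq with h1 | h1
  · exact absurd (suEllXb_rk_lt c hc.symm h1) (by omega)
  · rw [h1] at h
    exact lt_irrefl _ h

private theorem suEllXb_inj (c : Fin d → ι) {i j : Fin d} (hc : c i = c j)
    (h : rk c i = rk c j) : i = j := by
  rcases lt_trichotomy i j with h1 | h1 | h1
  · exact absurd (suEllXb_rk_lt c hc h1) (by omega)
  · exact h1
  · exact absurd (suEllXb_rk_lt c hc.symm h1) (by omega)

private theorem suEllXb_mem (c : Fin d → ι) {i j : Fin d} : j ∈ blk c i ↔ c j = c i := by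
  unfold blk
  simp

private theorem suEllXb_blk (c : Fin d → ι) {i j : Fin d} (h : c j = c i) : blk c j = blk c i := by
  ext k
  rw [suEllXb_mem, suEllXb_mem, h]

open Classical in
private theorem suEllXb_image (c : Fin d → ι) (i : Fin d) :
    (blk c i).image (rk c) = Finset.Icc 1 (blk c i).card := by
  refine Finset.eq_of_subset_of_card_le ?_ ?_
  · intro k hk
    obtain ⟨j, hj, rfl⟩ := Finset.mem_image.1 hk
    rw [Finset.mem_Icc]
    refine ⟨suEllXb_rk_pos c j, ?_⟩
    have h1 := suEllXb_rk_le c j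
    rwa [suEllXb_blk c ((suEllXb_mem c).1 hj)] at h1
  · rw [Nat.card_Icc, Nat.add_sub_cancel, Finset.card_image_of_injOn]
    intro j hj k hk he
    have h1 := (suEllXb_mem c).1 (Finset.mem_coe.1 hj)
    have h2 := (suEllXb_mem c).1 (Finset.mem_coe.1 hk)
    exact suEllXb_inj c (h1.trans h2.symm) he

open Classical in
private theorem suEllXb_sum (c : Fin d → ι) (i : Fin d) (F : ℕ → ℝ) :
    ∑ k ∈ Finset.Icc 1 (blk c i).card, F k = ∑ j ∈ blk c i, F (rk c j) := by
  rw [← suEllXb_image, Finset.sum_image]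
  intro j hj k hk he
  have h1 := (suEllXb_mem c).1 (Finset.mem_coe.1 hj)
  have h2 := (suEllXb_mem c).1 (Finset.mem_coe.1 hk)
  exact suEllXb_inj c (h1.trans h2.symm) he

open Classical in
private theorem suEllXb_block (c : Fin d → ι) {B : Set (Fin d → ℝ)} (hB : Corner d B)
    (hI : Inv c B) (w : Fin d → ℝ) (hw : w ∈ chamber c) (i : Fin d) :
    ∑ j ∈ blk c i, w j * ell c B j ≤ ∑ j ∈ blk c i, w j * xb c B j := by
  have hsurj : ∀ k, 1 ≤ k → k ≤ (blk c i).card → ∃ j, j ∈ blk c i ∧ rk c j = k := by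
    intro k h1 h2
    have h3 : k ∈ (blk c i).image (rk c) := by
      rw [suEllXb_image, Finset.mem_Icc]
      exact ⟨h1, h2⟩
    obtain ⟨j, hj, he⟩ := Finset.mem_image.1 h3
    exact ⟨j, hj, he⟩
  set P : ℕ → Prop := fun k => ∃ j, j ∈ blk c i ∧ rk c j = k with hP
  set u : ℕ → ℝ := fun k => if h : P k then xb c B h.choose else 0 with hu
  set v : ℕ → ℝ := fun k => if h : P k then w h.choose else 0 with hv
  have hch : ∀ k (h : P k) j, j ∈ blk c i → rk c j = k → h.choose = j := by
    intro k h j hj hk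
    have h1 := (suEllXb_mem c).1 h.choose_spec.1
    have h2 := (suEllXb_mem c).1 hj
    exact suEllXb_inj c (h1.trans h2.symm) (h.choose_spec.2.trans hk.symm)
  have hu1 : ∀ j, j ∈ blk c i → u (rk c j) = xb c B j := by
    intro j hj
    have h : P (rk c j) := ⟨j, hj, rfl⟩
    simp only [hu]
    rw [dif_pos h, hch _ h j hj rfl]
  have hv1 : ∀ j, j ∈ blk c i → v (rk c j) = w j := by
    intro j hj
    have h : P (rk c j) := ⟨j, hj, rfl⟩
    simp only [hv]
    rw [dif_pos h, hch _ h j hj rfl]
  have hu0 : u 0 = 0 := by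
    simp only [hu]
    rw [dif_neg]
    rintro ⟨j, -, h⟩
    have := suEllXb_rk_pos c j
    omega
  have key := major (blk c i).card u v (M1 B i / vol B) hu0 ?_ ?_ ?_
  · rw [suEllXb_sum, suEllXb_sum] at key
    refine le_trans (le_of_eq ?_) (key.trans (le_of_eq ?_))
    · refine Finset.sum_congr rfl fun j hj => ?_
      have h1 := (suEllXb_mem c).1 hj
      rw [hv1 j hj]
      unfold ell
      rw [M1_inv c hB hI h1, suEllXb_blk c h1]
    · refine Finset.sum_congr rfl fun j hj => ?_
      rw [hv1 j hj, hu1 j hj]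
  · intro k hk1 hk2
    obtain ⟨j, hj, rfl⟩ := hsurj k hk1 (by omega)
    obtain ⟨l, hl, hl2⟩ := hsurj (rk c j + 1) (by omega) hk2
    have hcj := (suEllXb_mem c).1 hj
    have hcl := (suEllXb_mem c).1 hl
    have hjl : j < l := suEllXb_lt c (hcj.trans hcl.symm) (by omega)
    rw [← hl2, hu1 j hj, hu1 l hl]
    by_cases h0 : rk c j = 1
    · rw [h0, Nat.sub_self, hu0, zero_add]
      exact rank_first c hB hI hjl (hcj.trans hcl.symm) h0 (by omega)
    · obtain ⟨n, hn, hn2⟩ := hsurj (rk c j - 1) (by omega) (by omega)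
      have hcn := (suEllXb_mem c).1 hn
      have hnj : n < j := suEllXb_lt c (hcn.trans hcj.symm) (by omega)
      rw [← hn2, hu1 n hn]
      exact rank_convex c hB hI hnj hjl (hcn.trans hcj.symm) (hcj.trans hcl.symm) (by omega) hl2
  · rw [suEllXb_sum, ← xb_sum c hB hI i]
    exact Finset.sum_congr rfl fun j hj => hu1 j hj
  · intro j k h1 h2 h3
    obtain ⟨a, ha, rfl⟩ := hsurj j h1 (by omega)
    obtain ⟨b, hb, rfl⟩ := hsurj k (by omega) h3
    rw [hv1 a ha, hv1 b hb]
    have hca := (suEllXb_mem c).1 ha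
    have hcb := (suEllXb_mem c).1 hb
    rcases h2.lt_or_eq with h | h
    · exact hw a b (suEllXb_lt c (hca.trans hcb.symm) h) (hca.trans hcb.symm)
    · rw [suEllXb_inj c (hca.trans hcb.symm) h]

/-- for weights sorted in the blocks, the linear profile is dominated by the centroid -/
theorem ell_le_xb (c : Fin d → ι) {B : Set (Fin d → ℝ)} (hB : Corner d B) (hI : Inv c B)
    (w : Fin d → ℝ) (hw : w ∈ chamber c) : ∑ i, w i * ell c B i ≤ ∑ i, w i * xb c B i := by
  classical
  rw [← Finset.sum_fiberwise_of_maps_to (s := Finset.univ) (t := Finset.univ.image c) (g := c)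
      (fun i _ => Finset.mem_image_of_mem c (Finset.mem_univ i)) (fun i => w i * ell c B i),
    ← Finset.sum_fiberwise_of_maps_to (s := Finset.univ) (t := Finset.univ.image c) (g := c)
      (fun i _ => Finset.mem_image_of_mem c (Finset.mem_univ i)) (fun i => w i * xb c B i)]
  refine Finset.sum_le_sum fun b hb => ?_
  obtain ⟨i, -, rfl⟩ := Finset.mem_image.1 hb
  have h := suEllXb_block c hB hI w hw i
  unfold blk at h
  exact h

end Pool.Agent.Lib.MP_29b1bb_gt.SU
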