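import Pool.Agent.Lib.MP_29b1bb_gt.SU.OBody

/-!
Proof sketch for module KKT (board SU, MP_29b1bb_gt, helper96).
Proof. F(b) = int_box exp(sum_k b_k ((1-e) - S_k x)) dx, continuous in b (dominated convergence: S is bounded on the box). On V = {x in box : S_k x <= (1-e)/2 all k}, vol V = v > 0 (small_ball),
the exponent is >= (1-e)/2 * sum b_k for b >= 0, so F(b) >= v exp((1-e)/2 sum b): F tends to infinity on the closed orthant, a minimizer b >= 0 exists (if m = 0 trivial).
F is differentiable in each b_k with derivative int ((1-e) - S_k) exp(...). Minimality over the orthant: derivative >= 0, and = 0 if b_k > 0. As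
exp(sum b_k((1-e)-S_k)) = exp((1-e) sum b) exp(-Phi b x), dividing by the constant gives (1-e) int exp(-Phi) - int S_k exp(-Phi) >= 0, = 0 if b_k > 0; multiply by b_k and sum for the last claim.
-/

set_option autoImplicit false

open MeasureTheory Set

namespace Pool.Agent.Lib.MP_29b1bb_gt.SU

namespace OData

variable {d m : ℕ} (D : OData d m)

private theorem suKKT_integrable {g : (Fin d → ℝ) → ℝ} (hg : ContinuousOn g D.box) :
    IntegrableOn g D.box :=
  hg.integrableOn_compact D.box_compact

/-- the function to be minimized -/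
private noncomputable def suKKT_F (c : ℝ) (b : Fin m → ℝ) : ℝ :=
  ∫ x in D.box, Real.exp (c * (∑ k, b k) - D.Phi b x)

private theorem suKKT_cont (c : ℝ) (b : Fin m → ℝ) :
    ContinuousOn (fun x => Real.exp (c * (∑ k, b k) - D.Phi b x)) D.box :=
  Real.continuous_exp.comp_continuousOn (continuousOn_const.sub (D.Phi_continuousOn b))

private theorem suKKT_Phi_nonneg {b : Fin m → ℝ} (hb : ∀ k, 0 ≤ b k) {x : Fin d → ℝ}
    (hx : x ∈ D.box) : 0 ≤ D.Phi b x :=
  Finset.sum_nonneg fun k _ => mul_nonneg (hb k) (D.S_nonneg k hx)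

private theorem suKKT_min (c : ℝ) (hc : 0 < c) :
    ∃ β : Fin m → ℝ, (∀ k, 0 ≤ β k) ∧ ∀ b : Fin m → ℝ, (∀ k, 0 ≤ b k) →
      D.suKKT_F c β ≤ D.suKKT_F c b := by
  classical
  set V : Set (Fin d → ℝ) := {x | x ∈ D.box ∧ ∀ k, D.S k x ≤ c / 2} with hV
  have hVpos : 0 < volume V := D.small_ball (c / 2) (half_pos hc)
  have hVsub : V ⊆ D.box := fun x hx => hx.1
  have hVt : volume V ≠ ⊤ := ne_top_of_le_ne_top D.box_compact.measure_lt_top.ne (measure_mono hVsub)
  have hVm : MeasurableSet V := by
    have h1 : V = D.box ∩ ⋂ k, (D.box ∩ D.S k ⁻¹' Iic (c / 2)) := by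
      ext x
      simp only [hV, mem_ofPred_eq, mem_inter_iff, mem_iInter, mem_preimage, mem_Iic]
      constructor
      · rintro ⟨h1, h2⟩
        exact ⟨h1, fun k => ⟨h1, h2 k⟩⟩
      · rintro ⟨h1, h2⟩
        exact ⟨h1, fun k => (h2 k).2⟩
    rw [h1]
    exact D.box_compact.measurableSet.inter (MeasurableSet.iInter fun k =>
      ((D.S_continuousOn k).preimage_isClosed_of_isClosed D.box_compact.isClosed
        isClosed_Iic).measurableSet)
  set v : ℝ := (volume V).toReal with hv
  have hv0 : 0 < v := ENNReal.toReal_pos hVpos.ne' hVt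
  have hlow : ∀ b : Fin m → ℝ, (∀ k, 0 ≤ b k) →
      v * Real.exp (c / 2 * ∑ k, b k) ≤ D.suKKT_F c b := by
    intro b hb
    have h1 : ∫ x in V, Real.exp (c / 2 * ∑ k, b k) ≤
        ∫ x in V, Real.exp (c * (∑ k, b k) - D.Phi b x) := by
      refine setIntegral_mono_on (integrableOn_const hVt)
        ((D.suKKT_integrable (D.suKKT_cont c b)).mono_set hVsub) hVm ?_
      intro x hx
      apply Real.exp_le_exp.2
      have h2 : D.Phi b x ≤ c / 2 * ∑ k, b k := by
        unfold Phi
        rw [Finset.mul_sum]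
        refine Finset.sum_le_sum fun k _ => ?_
        rw [mul_comm (c / 2)]
        exact mul_le_mul_of_nonneg_left (hx.2 k) (hb k)
      linarith
    have h3 : ∫ x in V, Real.exp (c * (∑ k, b k) - D.Phi b x) ≤ D.suKKT_F c b := by
      unfold suKKT_F
      exact setIntegral_mono_set (D.suKKT_integrable (D.suKKT_cont c b))
        (Filter.Eventually.of_forall fun x => (Real.exp_pos _).le)
        (Filter.Eventually.of_forall hVsub)
    rw [setIntegral_const, smul_eq_mul] at h1
    exact h1.trans h3
  -- the compact set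
  set F0 := D.suKKT_F c 0 with hF0
  obtain ⟨R, hR0, hR⟩ : ∃ R : ℝ, 0 ≤ R ∧ F0 < v * Real.exp (c / 2 * R) := by
    have h1 : Filter.Tendsto (fun R : ℝ => v * Real.exp (c / 2 * R)) Filter.atTop Filter.atTop :=
      (Real.tendsto_exp_atTop.comp
        (Filter.tendsto_id.const_mul_atTop (half_pos hc))).const_mul_atTop hv0
    obtain ⟨R, hR1, hR2⟩ := ((h1.eventually_gt_atTop F0).and (Filter.eventually_ge_atTop 0)).exists
    exact ⟨R, hR2, hR1⟩
  set Q : Set (Fin m → ℝ) := {b | (∀ k, 0 ≤ b k) ∧ ∑ k, b k ≤ R} with hQ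
  have hQc : IsCompact Q := by
    have hcl : IsClosed Q := by
      have h1 : Q = (⋂ k, {b : Fin m → ℝ | 0 ≤ b k}) ∩ {b | ∑ k, b k ≤ R} := by
        ext b
        simp [hQ]
      rw [h1]
      exact (isClosed_iInter fun k => isClosed_le continuous_const (continuous_apply k)).inter
        (isClosed_le (by fun_prop) continuous_const)
    refine IsCompact.of_isClosed_subset
      (isCompact_univ_pi fun _ : Fin m => (isCompact_Icc : IsCompact (Icc (0 : ℝ) R))) hcl ?_
    intro b hb k _
    exact ⟨hb.1 k, (Finset.single_le_sum (f := b) (fun j _ => hb.1 j) (Finset.mem_univ k)).trans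
      hb.2⟩
  have h0Q : (0 : Fin m → ℝ) ∈ Q := by
    refine ⟨fun k => le_rfl, ?_⟩
    simpa using hR0
  have hcont : ContinuousOn (D.suKKT_F c) Q := by
    unfold suKKT_F
    refine continuousOn_of_dominated (bound := fun _ => Real.exp (c * R)) ?_ ?_ ?_ ?_
    · intro b _
      exact ((D.suKKT_cont c b).aestronglyMeasurable D.box_compact.measurableSet)
    · intro b hb
      filter_upwards [ae_restrict_mem D.box_compact.measurableSet] with x hx
      rw [Real.norm_eq_abs, abs_of_pos (Real.exp_pos _)]
      apply Real.exp_le_exp.2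
      have h1 := D.suKKT_Phi_nonneg hb.1 hx
      have h2 := mul_le_mul_of_nonneg_left hb.2 hc.le
      linarith
    · exact integrableOn_const D.box_compact.measure_lt_top.ne
    · refine Filter.Eventually.of_forall fun x => ?_
      apply Continuous.continuousOn
      unfold Phi
      fun_prop
  obtain ⟨β, hβQ, hβ⟩ := hQc.exists_isMinOn ⟨0, h0Q⟩ hcont
  refine ⟨β, hβQ.1, fun b hb => ?_⟩
  by_cases hbR : ∑ k, b k ≤ R
  · exact hβ (show b ∈ Q from ⟨hb, hbR⟩)
  · have h1 : D.suKKT_F c β ≤ F0 := hβ h0Q
    have h2 : v * Real.exp (c / 2 * R) ≤ v * Real.exp (c / 2 * ∑ k, b k) := by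
      refine mul_le_mul_of_nonneg_left (Real.exp_le_exp.2 ?_) hv0.le
      exact mul_le_mul_of_nonneg_left (le_of_lt (not_le.1 hbR)) (half_pos hc).le
    exact h1.trans (hR.le.trans (h2.trans (hlow b hb)))

private theorem suKKT_quad {u : ℝ} (hu : |u| ≤ 1) : Real.exp u ≤ 1 + u + u ^ 2 := by
  have h := Real.abs_exp_sub_one_sub_id_le hu
  have h2 := (abs_le.1 h).2
  linarith

/-- first order condition in the direction `t` -/
private theorem suKKT_first (c : ℝ) (β : Fin m → ℝ) (k : Fin m) :
    ∃ M : ℝ, 0 ≤ M ∧ ∃ δ : ℝ, 0 < δ ∧ ∀ t : ℝ, |t| ≤ δ →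
      D.suKKT_F c (Function.update β k (β k + t)) ≤ D.suKKT_F c β +
        t * (∫ x in D.box, (c - D.S k x) * Real.exp (c * (∑ k, β k) - D.Phi β x)) + t ^ 2 * M := by
  classical
  obtain ⟨N, hN⟩ := D.box_compact.exists_bound_of_continuousOn
    (continuousOn_const.sub (D.S_continuousOn k) : ContinuousOn (fun x => c - D.S k x) D.box)
  set N' : ℝ := max N 1 with hN'
  have hN'1 : 1 ≤ N' := le_max_right _ _
  have hN'0 : 0 < N' := by linarith
  have hbd : ∀ x ∈ D.box, |c - D.S k x| ≤ N' := fun x hx => (hN x hx).trans (le_max_left _ _)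
  set E : (Fin d → ℝ) → ℝ := fun x => Real.exp (c * (∑ k, β k) - D.Phi β x) with hE
  have hEc : ContinuousOn E D.box := D.suKKT_cont c β
  have hSc : ContinuousOn (fun x => c - D.S k x) D.box :=
    continuousOn_const.sub (D.S_continuousOn k)
  refine ⟨∫ x in D.box, (c - D.S k x) ^ 2 * E x, ?_, 1 / N', by positivity, ?_⟩
  · exact integral_nonneg fun x => mul_nonneg (sq_nonneg _) (Real.exp_pos _).le
  · intro t ht
    have hsum : ∑ j, Function.update β k (β k + t) j = (∑ j, β j) + t := by
      have h1 := Finset.sum_update_of_mem (Finset.mem_univ k) β (β k + t)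
      rw [h1, ← Finset.add_sum_erase Finset.univ β (Finset.mem_univ k), Finset.sdiff_singleton_eq_erase]
      ring
    have hPhi : ∀ x, D.Phi (Function.update β k (β k + t)) x = D.Phi β x + t * D.S k x := by
      intro x
      unfold Phi
      rw [← Finset.add_sum_erase Finset.univ _ (Finset.mem_univ k),
        ← Finset.add_sum_erase Finset.univ (fun j => β j * D.S j x) (Finset.mem_univ k),
        Function.update_self]
      have h2 : ∑ j ∈ Finset.univ.erase k, Function.update β k (β k + t) j * D.S j x =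
          ∑ j ∈ Finset.univ.erase k, β j * D.S j x := by
        refine Finset.sum_congr rfl fun j hj => ?_
        rw [Function.update_of_ne (Finset.ne_of_mem_erase hj)]
      rw [h2]
      ring
    have hexp : ∀ x, Real.exp (c * (∑ j, Function.update β k (β k + t) j) -
        D.Phi (Function.update β k (β k + t)) x) = E x * Real.exp (t * (c - D.S k x)) := by
      intro x
      rw [hE, ← Real.exp_add, hsum, hPhi]
      congr 1
      ring
    have hle : D.suKKT_F c (Function.update β k (β k + t)) ≤
        ∫ x in D.box, (E x + t * ((c - D.S k x) * E x) + t ^ 2 * ((c - D.S k x) ^ 2 * E x)) := by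
      unfold suKKT_F
      refine setIntegral_mono_on (D.suKKT_integrable (D.suKKT_cont c _)) ?_
        D.box_compact.measurableSet ?_
      · exact D.suKKT_integrable ((hEc.add (continuousOn_const.mul (hSc.mul hEc))).add
          (continuousOn_const.mul ((hSc.pow 2).mul hEc)))
      · intro x hx
        rw [hexp]
        have h3 : |t * (c - D.S k x)| ≤ 1 := by
          rw [abs_mul]
          calc |t| * |c - D.S k x| ≤ 1 / N' * N' :=
                mul_le_mul ht (hbd x hx) (abs_nonneg _) (by positivity)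
            _ = 1 := by field_simp
        have h4 := mul_le_mul_of_nonneg_left (suKKT_quad h3) (Real.exp_pos
          (c * (∑ k, β k) - D.Phi β x)).le
        calc E x * Real.exp (t * (c - D.S k x))
            ≤ E x * (1 + t * (c - D.S k x) + (t * (c - D.S k x)) ^ 2) := h4
          _ = _ := by ring
    refine hle.trans (le_of_eq ?_)
    have i1 : IntegrableOn E D.box := D.suKKT_integrable hEc
    have i2 : IntegrableOn (fun x => t * ((c - D.S k x) * E x)) D.box :=
      D.suKKT_integrable (continuousOn_const.mul (hSc.mul hEc))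
    have i3 : IntegrableOn (fun x => t ^ 2 * ((c - D.S k x) ^ 2 * E x)) D.box :=
      D.suKKT_integrable (continuousOn_const.mul ((hSc.pow 2).mul hEc))
    have h12 : IntegrableOn (fun x => E x + t * ((c - D.S k x) * E x)) D.box := i1.add i2
    rw [integral_add h12 i3, integral_add i1 i2, integral_const_mul, integral_const_mul]
    rfl

end OData

/-- The multipliers: minimize `∫ exp (∑ βₖ ((1 - e) - Sₖ))` over the box. -/
theorem kkt {d m : ℕ} (D : OData d m) (e : ℝ) (he : 0 < e) (he1 : e < 1) :
    ∃ β : Fin m → ℝ, (∀ k, 0 ≤ β k) ∧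
      (∀ k, ∫ x in D.box, D.S k x * Real.exp (-(D.Phi β x)) ≤
        (1 - e) * ∫ x in D.box, Real.exp (-(D.Phi β x))) ∧
      ∫ x in D.box, D.Phi β x * Real.exp (-(D.Phi β x)) =
        (1 - e) * (∑ k, β k) * ∫ x in D.box, Real.exp (-(D.Phi β x)) := by
  classical
  have _ := he
  set c : ℝ := 1 - e with hc
  have hc0 : 0 < c := by rw [hc]; linarith
  obtain ⟨β, hβ, hmin⟩ := D.suKKT_min c hc0
  have hexp : ∀ x, Real.exp (c * (∑ k, β k) - D.Phi β x) =
      Real.exp (c * (∑ k, β k)) * Real.exp (-(D.Phi β x)) := by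
    intro x
    rw [← Real.exp_add]
    congr 1
  have hec : ContinuousOn (fun x => Real.exp (-(D.Phi β x))) D.box :=
    Real.continuous_exp.comp_continuousOn (D.Phi_continuousOn β).neg
  have hSe : ∀ k, IntegrableOn (fun x => D.S k x * Real.exp (-(D.Phi β x))) D.box := fun k =>
    D.suKKT_integrable ((D.S_continuousOn k).mul hec)
  -- the partial derivatives
  have hD : ∀ k, (∫ x in D.box, (c - D.S k x) * Real.exp (c * (∑ k, β k) - D.Phi β x)) =
      Real.exp (c * (∑ k, β k)) * (c * (∫ x in D.box, Real.exp (-(D.Phi β x))) -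
        ∫ x in D.box, D.S k x * Real.exp (-(D.Phi β x))) := by
    intro k
    rw [← integral_const_mul, ← integral_sub ((D.suKKT_integrable hec).const_mul c) (hSe k),
      ← integral_const_mul]
    congr 1
    funext x
    rw [hexp]
    ring
  have hpos : 0 < Real.exp (c * (∑ k, β k)) := Real.exp_pos _
  have hge : ∀ k, 0 ≤ ∫ x in D.box, (c - D.S k x) * Real.exp (c * (∑ k, β k) - D.Phi β x) := by
    intro k
    obtain ⟨M, hM, δ, hδ, h⟩ := D.suKKT_first c β k
    by_contra hneg
    push Not at hneg
    set I := ∫ x in D.box, (c - D.S k x) * Real.exp (c * (∑ k, β k) - D.Phi β x) with hI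
    set t : ℝ := min δ (-I / (2 * (M + 1))) with ht
    have ht0 : 0 < t := lt_min hδ (div_pos (by linarith) (by linarith))
    have h1 := h t (by rw [abs_of_pos ht0]; exact min_le_left _ _)
    have h2 := hmin (Function.update β k (β k + t)) (by
      intro j
      by_cases hj : j = k
      · rw [hj, Function.update_self]
        linarith [hβ k]
      · rw [Function.update_of_ne hj]
        exact hβ j)
    have h3 : t ≤ -I / (2 * (M + 1)) := min_le_right _ _
    have h4 : t * (2 * (M + 1)) ≤ -I := (le_div_iff₀ (by linarith)).1 h3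
    have h5 : 0 ≤ t * I + t ^ 2 * M := by linarith
    have h6 : 0 ≤ t * (I + t * M) := by nlinarith
    have h7 : 0 ≤ I + t * M := nonneg_of_mul_nonneg_right h6 ht0
    nlinarith
  have hle : ∀ k, 0 < β k →
      (∫ x in D.box, (c - D.S k x) * Real.exp (c * (∑ k, β k) - D.Phi β x)) ≤ 0 := by
    intro k hk
    obtain ⟨M, hM, δ, hδ, h⟩ := D.suKKT_first c β k
    by_contra hneg
    push Not at hneg
    set I := ∫ x in D.box, (c - D.S k x) * Real.exp (c * (∑ k, β k) - D.Phi β x) with hI
    set t : ℝ := min (min δ (β k)) (I / (2 * (M + 1))) with ht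
    have ht0 : 0 < t := lt_min (lt_min hδ hk) (div_pos hneg (by linarith))
    have h1 := h (-t) (by
      rw [abs_neg, abs_of_pos ht0]
      exact (min_le_left _ _).trans (min_le_left _ _))
    have htb : t ≤ β k := (min_le_left _ _).trans (min_le_right _ _)
    have h2 := hmin (Function.update β k (β k + -t)) (by
      intro j
      by_cases hj : j = k
      · rw [hj, Function.update_self]
        linarith
      · rw [Function.update_of_ne hj]
        exact hβ j)
    have h3 : t ≤ I / (2 * (M + 1)) := min_le_right _ _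
    have h4 : t * (2 * (M + 1)) ≤ I := (le_div_iff₀ (by linarith)).1 h3
    have h5 : 0 ≤ -t * I + (-t) ^ 2 * M := by linarith
    have h6 : 0 ≤ t * (-I + t * M) := by nlinarith
    have h7 : 0 ≤ -I + t * M := nonneg_of_mul_nonneg_right h6 ht0
    nlinarith
  have hfirst : ∀ k, ∫ x in D.box, D.S k x * Real.exp (-(D.Phi β x)) ≤
      c * ∫ x in D.box, Real.exp (-(D.Phi β x)) := by
    intro k
    have h1 := hge k
    rw [hD k] at h1
    have h2 := nonneg_of_mul_nonneg_right h1 hpos
    linarith
  have heq : ∀ k, β k * ∫ x in D.box, D.S k x * Real.exp (-(D.Phi β x)) =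
      β k * (c * ∫ x in D.box, Real.exp (-(D.Phi β x))) := by
    intro k
    rcases (hβ k).eq_or_lt with h | h
    · rw [← h, zero_mul, zero_mul]
    · have h1 := hle k h
      rw [hD k] at h1
      have h2 : c * (∫ x in D.box, Real.exp (-(D.Phi β x))) -
          ∫ x in D.box, D.S k x * Real.exp (-(D.Phi β x)) ≤ 0 := by
        by_contra h3
        push Not at h3
        have := mul_pos hpos h3
        linarith
      have h3 := hfirst k
      have h4 : ∫ x in D.box, D.S k x * Real.exp (-(D.Phi β x)) =
          c * ∫ x in D.box, Real.exp (-(D.Phi β x)) := le_antisymm h3 (by linarith)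
      rw [h4]
  refine ⟨β, hβ, hfirst, ?_⟩
  have h1 : ∫ x in D.box, D.Phi β x * Real.exp (-(D.Phi β x)) =
      ∑ k, β k * ∫ x in D.box, D.S k x * Real.exp (-(D.Phi β x)) := by
    have h2 : ∀ x, D.Phi β x * Real.exp (-(D.Phi β x)) =
        ∑ k, β k * (D.S k x * Real.exp (-(D.Phi β x))) := by
      intro x
      have h3 : D.Phi β x = ∑ k, β k * D.S k x := rfl
      conv_lhs => rw [h3]
      rw [Finset.sum_mul]
      refine Finset.sum_congr rfl fun k _ => ?_
      rw [← h3]
      ring
    simp_rw [h2]
    rw [integral_finsetSum _ fun k _ => (hSe k).const_mul (β k)]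
    refine Finset.sum_congr rfl fun k _ => ?_
    rw [integral_const_mul]
  rw [h1]
  simp_rw [heq]
  rw [← Finset.sum_mul]
  ring

end Pool.Agent.Lib.MP_29b1bb_gt.SU
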