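import Pool.Agent.Lib.MP_29b1bb_gt.SU.Defs

/-!
Proof sketch for module Harris (board SU, MP_29b1bb_gt, helper96).
Proof of harris: induction on d through MeasurableEquiv.piFinSuccAbove / measurePreserving_piFinSuccAbove (or MeasureTheory.Measure.pi for Fin (d+1)).
d = 0: the measure is a Dirac mass. Step: for fixed t the functions y -> f(cons t y), g(cons t y) satisfy the hypotheses, so with F t = int f(cons t .), H t = int g(cons t .):
int f g >= int F(t) H(t) dnu_0(t); F and H are antitone with values in [0,1]; Chebyshev in one variable: int int (F s - F t)(H s - H t) >= 0 gives int F H >= int F int H.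
harris_inter: induction on m with f = indicator of A k, g = indicator of the intersection of the others (indicators of lower sets are antitone).
-/

set_option autoImplicit false

open MeasureTheory Set

namespace Pool.Agent.Lib.MP_29b1bb_gt.SU

private theorem suHarris_int {α : Type*} [MeasurableSpace α] (μ : Measure α) [IsProbabilityMeasure μ]
    (F : α → ℝ) (hm : Measurable F) (bF : ∀ t, F t ∈ Icc (0 : ℝ) 1) : Integrable F μ := by
  refine Integrable.of_bound hm.aestronglyMeasurable 1 (Filter.Eventually.of_forall fun t => ?_)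
  rw [Real.norm_eq_abs, abs_of_nonneg (bF t).1]
  exact (bF t).2

private theorem suHarris_mem {a b : ℝ} (ha : a ∈ Icc (0 : ℝ) 1) (hb : b ∈ Icc (0 : ℝ) 1) :
    a * b ∈ Icc (0 : ℝ) 1 :=
  ⟨mul_nonneg ha.1 hb.1, mul_le_one₀ ha.2 hb.1 hb.2⟩

private theorem suHarris_integral_mem {α : Type*} [MeasurableSpace α] (μ : Measure α)
    [IsProbabilityMeasure μ] (F : α → ℝ) (hm : Measurable F) (bF : ∀ t, F t ∈ Icc (0 : ℝ) 1) :
    (∫ t, F t ∂μ) ∈ Icc (0 : ℝ) 1 := by
  refine ⟨integral_nonneg fun t => (bF t).1, ?_⟩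
  calc (∫ t, F t ∂μ) ≤ ∫ _t, (1 : ℝ) ∂μ :=
        integral_mono (suHarris_int μ F hm bF) (integrable_const _) fun t => (bF t).2
    _ = 1 := by simp

private theorem suHarris_cheb (μ : Measure ℝ) [IsProbabilityMeasure μ] (F H : ℝ → ℝ)
    (mF : Antitone F) (mH : Antitone H) (bF : ∀ t, F t ∈ Icc (0 : ℝ) 1)
    (bH : ∀ t, H t ∈ Icc (0 : ℝ) 1) :
    (∫ t, F t ∂μ) * (∫ t, H t ∂μ) ≤ ∫ t, F t * H t ∂μ := by
  have iF := suHarris_int μ F mF.measurable bF
  have iH := suHarris_int μ H mH.measurable bH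
  have iFH := suHarris_int μ (fun t => F t * H t) (mF.measurable.mul mH.measurable)
    fun t => suHarris_mem (bF t) (bH t)
  have hnn : ∀ s t : ℝ, 0 ≤ (F s - F t) * (H s - H t) := by
    intro s t
    rcases le_total s t with h | h
    · exact mul_nonneg (sub_nonneg.2 (mF h)) (sub_nonneg.2 (mH h))
    · exact mul_nonneg_of_nonpos_of_nonpos (sub_nonpos.2 (mF h)) (sub_nonpos.2 (mH h))
  have h1 : ∀ t : ℝ, 0 ≤ (∫ s, F s * H s ∂μ) - H t * (∫ s, F s ∂μ) - F t * (∫ s, H s ∂μ)
      + F t * H t := by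
    intro t
    have e : (∫ s, (F s - F t) * (H s - H t) ∂μ) = (∫ s, F s * H s ∂μ) - H t * (∫ s, F s ∂μ)
        - F t * (∫ s, H s ∂μ) + F t * H t := by
      have e1 : (fun s => (F s - F t) * (H s - H t))
          = fun s => (F s * H s - H t * F s - F t * H s) + F t * H t := by
        funext s; ring
      have i1 : Integrable (fun s => F s * H s - H t * F s) μ := iFH.sub (iF.const_mul _)
      have i2 : Integrable (fun s => F s * H s - H t * F s - F t * H s) μ :=
        i1.sub (iH.const_mul _)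
      rw [e1, integral_add i2 (integrable_const _), integral_sub i1 (iH.const_mul _),
        integral_sub iFH (iF.const_mul _), integral_const_mul, integral_const_mul]
      simp
    rw [← e]
    exact integral_nonneg fun s => hnn s t
  have h2 := integral_nonneg (μ := μ) (f := fun t => (∫ s, F s * H s ∂μ) - H t * (∫ s, F s ∂μ)
      - F t * (∫ s, H s ∂μ) + F t * H t) h1
  have e2 : (∫ t, ((∫ s, F s * H s ∂μ) - H t * (∫ s, F s ∂μ) - F t * (∫ s, H s ∂μ)
      + F t * H t) ∂μ) = 2 * ((∫ s, F s * H s ∂μ) - (∫ s, F s ∂μ) * (∫ s, H s ∂μ)) := by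
    have c1 : Integrable (fun _ : ℝ => ∫ s, F s * H s ∂μ) μ := integrable_const _
    have c2 : Integrable (fun t : ℝ => (∫ s, F s * H s ∂μ) - H t * (∫ s, F s ∂μ)) μ :=
      c1.sub (iH.mul_const _)
    have c3 : Integrable (fun t : ℝ => (∫ s, F s * H s ∂μ) - H t * (∫ s, F s ∂μ)
        - F t * (∫ s, H s ∂μ)) μ := c2.sub (iF.mul_const _)
    rw [integral_add c3 iFH, integral_sub c2 (iF.mul_const _),
      integral_sub c1 (iH.mul_const _), integral_mul_const, integral_mul_const]
    simp
    ring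
  rw [e2] at h2
  linarith

private theorem suHarris_symm_mono {d : ℕ} (p q : ℝ × (Fin d → ℝ)) (h : p ≤ q) :
    (MeasurableEquiv.piFinSuccAbove (fun _ : Fin (d + 1) => ℝ) 0).symm p
      ≤ (MeasurableEquiv.piFinSuccAbove (fun _ : Fin (d + 1) => ℝ) 0).symm q := by
  intro i
  refine Fin.cases ?_ (fun j => ?_) i
  · exact h.1
  · exact h.2 j

/-- Harris' inequality for a product of probability measures on the line. -/
theorem harris {d : ℕ} (ν : Fin d → Measure ℝ) [∀ i, IsProbabilityMeasure (ν i)]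
    (f g : (Fin d → ℝ) → ℝ) (hf : Measurable f) (hg : Measurable g)
    (mf : Antitone f) (mg : Antitone g) (bf : ∀ x, f x ∈ Icc (0 : ℝ) 1)
    (bg : ∀ x, g x ∈ Icc (0 : ℝ) 1) :
    (∫ x, f x ∂Measure.pi ν) * (∫ x, g x ∂Measure.pi ν) ≤ ∫ x, f x * g x ∂Measure.pi ν := by
  induction d with
  | zero =>
    have h0 : ∀ φ : (Fin 0 → ℝ) → ℝ, (∫ x, φ x ∂Measure.pi ν) = φ default := by
      intro φ
      have : φ = fun _ => φ default := by
        funext x
        rw [Subsingleton.elim x default]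
      rw [this]
      simp
    rw [h0 f, h0 g, h0 fun x => f x * g x]
  | succ d ih =>
    have mp := measurePreserving_piFinSuccAbove ν 0
    have key : ∀ φ : (Fin (d + 1) → ℝ) → ℝ, Measurable φ → (∀ x, φ x ∈ Icc (0 : ℝ) 1) →
        (∫ x, φ x ∂Measure.pi ν) = ∫ t, (∫ y, φ ((MeasurableEquiv.piFinSuccAbove
          (fun _ : Fin (d + 1) => ℝ) 0).symm (t, y)) ∂Measure.pi fun j => ν ((0 : Fin (d + 1)).succAbove j)) ∂ν 0 := by
      intro φ hφ bφ
      have e1 : (∫ x, φ x ∂Measure.pi ν) = ∫ z, φ ((MeasurableEquiv.piFinSuccAbove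
          (fun _ : Fin (d + 1) => ℝ) 0).symm z) ∂((ν 0).prod (Measure.pi fun j => ν ((0 : Fin (d + 1)).succAbove j))) := by
        rw [← mp.integral_comp' (fun z => φ ((MeasurableEquiv.piFinSuccAbove
          (fun _ : Fin (d + 1) => ℝ) 0).symm z))]
        refine integral_congr_ae (Filter.Eventually.of_forall fun x => ?_)
        exact congrArg φ (MeasurableEquiv.symm_apply_apply _ x).symm
      rw [e1, integral_prod]
      exact suHarris_int _ _ (hφ.comp (MeasurableEquiv.measurable _)) fun z => bφ _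
    have mfc : ∀ φ : (Fin (d + 1) → ℝ) → ℝ, Measurable φ → Measurable (fun z : ℝ × (Fin d → ℝ) =>
        φ ((MeasurableEquiv.piFinSuccAbove (fun _ : Fin (d + 1) => ℝ) 0).symm z)) :=
      fun φ hφ => hφ.comp (MeasurableEquiv.measurable _)
    have mcomp : ∀ φ : (Fin (d + 1) → ℝ) → ℝ, Antitone φ → ∀ p q : ℝ × (Fin d → ℝ), p ≤ q →
        φ ((MeasurableEquiv.piFinSuccAbove (fun _ : Fin (d + 1) => ℝ) 0).symm q)
          ≤ φ ((MeasurableEquiv.piFinSuccAbove (fun _ : Fin (d + 1) => ℝ) 0).symm p) :=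
      fun φ hφ p q hpq => hφ (suHarris_symm_mono p q hpq)
    rw [key f hf bf, key g hg bg, key (fun x => f x * g x) (hf.mul hg)
      fun x => suHarris_mem (bf x) (bg x)]
    have anti : ∀ φ : (Fin (d + 1) → ℝ) → ℝ, Measurable φ → Antitone φ → (∀ x, φ x ∈ Icc (0 : ℝ) 1) →
        Antitone (fun t : ℝ => ∫ y, φ ((MeasurableEquiv.piFinSuccAbove
          (fun _ : Fin (d + 1) => ℝ) 0).symm (t, y)) ∂Measure.pi fun j => ν ((0 : Fin (d + 1)).succAbove j)) := by
      intro φ hφ aφ bφ s t hst
      refine integral_mono ?_ ?_ fun y => mcomp φ aφ (s, y) (t, y) ⟨hst, le_rfl⟩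
      · exact suHarris_int _ _ ((mfc φ hφ).comp measurable_prodMk_left) fun y => bφ _
      · exact suHarris_int _ _ ((mfc φ hφ).comp measurable_prodMk_left) fun y => bφ _
    have bnd : ∀ φ : (Fin (d + 1) → ℝ) → ℝ, Measurable φ → (∀ x, φ x ∈ Icc (0 : ℝ) 1) → ∀ t : ℝ,
        (∫ y, φ ((MeasurableEquiv.piFinSuccAbove
          (fun _ : Fin (d + 1) => ℝ) 0).symm (t, y)) ∂Measure.pi fun j => ν ((0 : Fin (d + 1)).succAbove j))
          ∈ Icc (0 : ℝ) 1 := by
      intro φ hφ bφ t
      exact suHarris_integral_mem _ _ ((mfc φ hφ).comp measurable_prodMk_left) fun y => bφ _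
    refine (suHarris_cheb (ν 0) _ _ (anti f hf mf bf) (anti g hg mg bg) (bnd f hf bf)
      (bnd g hg bg)).trans ?_
    refine integral_mono ?_ ?_ fun t => ?_
    · exact suHarris_int _ _ ((anti f hf mf bf).measurable.mul (anti g hg mg bg).measurable)
        fun t => suHarris_mem (bnd f hf bf t) (bnd g hg bg t)
    · refine suHarris_int _ _ ?_ fun t => bnd (fun x => f x * g x) (hf.mul hg)
        (fun x => suHarris_mem (bf x) (bg x)) t
      refine (anti (fun x => f x * g x) (hf.mul hg) ?_ fun x => suHarris_mem (bf x) (bg x)).measurable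
      intro x y hxy
      exact mul_le_mul (mf hxy) (mg hxy) (bg y).1 (bf x).1
    · exact ih (fun j => ν ((0 : Fin (d + 1)).succAbove j)) _ _
        ((mfc f hf).comp measurable_prodMk_left) ((mfc g hg).comp measurable_prodMk_left)
        (fun y z hyz => mcomp f mf (t, y) (t, z) ⟨le_rfl, hyz⟩)
        (fun y z hyz => mcomp g mg (t, y) (t, z) ⟨le_rfl, hyz⟩)
        (fun y => bf _) (fun y => bg _)

theorem harris_inter {d m : ℕ} (ν : Fin d → Measure ℝ) [∀ i, IsProbabilityMeasure (ν i)]
    (A : Fin m → Set (Fin d → ℝ)) (hA : ∀ k, MeasurableSet (A k))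
    (hd : ∀ k, ∀ x ∈ A k, ∀ y, y ≤ x → y ∈ A k) :
    ∏ k, (Measure.pi ν).real (A k) ≤ (Measure.pi ν).real (⋂ k, A k) := by
  induction m with
  | zero => simp
  | succ m ih =>
    have ih' := ih (fun k => A k.succ) (fun k => hA k.succ) (fun k => hd k.succ)
    have e : (⋂ k, A k) = A 0 ∩ ⋂ k : Fin m, A k.succ := by
      ext x
      simp only [mem_iInter, mem_inter_iff]
      exact Fin.forall_fin_succ
    have hB : MeasurableSet (⋂ k : Fin m, A k.succ) := MeasurableSet.iInter fun k => hA k.succ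
    have ind : ∀ B : Set (Fin d → ℝ), (∀ x ∈ B, ∀ y, y ≤ x → y ∈ B) →
        Antitone (B.indicator (1 : (Fin d → ℝ) → ℝ)) := by
      intro B hB x y hxy
      by_cases hy : y ∈ B
      · rw [indicator_of_mem hy, indicator_of_mem (hB y hy x hxy)]
        simp
      · rw [indicator_of_notMem hy]
        exact indicator_nonneg (fun _ _ => zero_le_one) x
    have bnd : ∀ B : Set (Fin d → ℝ), ∀ x, B.indicator (1 : (Fin d → ℝ) → ℝ) x ∈ Icc (0 : ℝ) 1 := by
      intro B x
      by_cases hx : x ∈ B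
      · rw [indicator_of_mem hx]; simp
      · rw [indicator_of_notMem hx]; simp
    have h := harris ν ((A 0).indicator 1) ((⋂ k : Fin m, A k.succ).indicator 1)
      (measurable_one.indicator (hA 0)) (measurable_one.indicator hB)
      (ind _ (hd 0)) (ind _ fun x hx y hyx => mem_iInter.2 fun k =>
        hd k.succ x (mem_iInter.1 hx k) y hyx) (bnd _) (bnd _)
    rw [integral_indicator_one (hA 0), integral_indicator_one hB] at h
    have e2 : (fun x => (A 0).indicator (1 : (Fin d → ℝ) → ℝ) x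
        * (⋂ k : Fin m, A k.succ).indicator (1 : (Fin d → ℝ) → ℝ) x)
        = (A 0 ∩ ⋂ k : Fin m, A k.succ).indicator 1 := by
      funext x
      rw [inter_indicator_one]
      rfl
    rw [e2, integral_indicator_one ((hA 0).inter hB)] at h
    rw [e, Fin.prod_univ_succ]
    exact (mul_le_mul_of_nonneg_left ih' measureReal_nonneg).trans h

end Pool.Agent.Lib.MP_29b1bb_gt.SU
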