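import Pool.Agent.Lib.MP_29b1bb_gt.SU.OProd
import Pool.Agent.Lib.MP_29b1bb_gt.SU.Harris
/-!
Proof sketch for module OMark (board SU, MP_29b1bb_gt, helper96).
Proof. nu i = probability measure on R with density exp(-phi i t)/Zi on Icc 0 (a i) (cond / withDensity / smul); Measure.pi nu has density exp(-Phi)/prod Zi on the box (box_exp with c = 1).
A k = {x : sum_i f k i (max (x i) 0) <= 1}: measurable lower set. Markov: (Measure.pi nu).real (A k) >= e because nu(S_k > 1) <= E S_k <= 1 - e (hk divided by the mass). harris_inter: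
e^m <= prod nu(A k) <= nu(intersection), and the intersection meets the box in D.body.
-/

set_option autoImplicit false

open MeasureTheory Set

namespace Pool.Agent.Lib.MP_29b1bb_gt.SU

variable {d m : ℕ}

/-- the density of one coordinate -/
private noncomputable def suOMark_psi (D : OData d m) (β : Fin m → ℝ) (i : Fin d) (t : ℝ) : ℝ :=
  Real.exp (-(D.phi β i (max t 0))) / Zi D β i

/-- the Gibbs measure of one coordinate -/
private noncomputable def suOMark_nu (D : OData d m) (β : Fin m → ℝ) (i : Fin d) : Measure ℝ :=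
  ((volume : Measure ℝ).restrict (Icc 0 (D.a i))).withDensity
    (fun t => ENNReal.ofReal (suOMark_psi D β i t))

private theorem suOMark_meas (D : OData d m) (β : Fin m → ℝ) (hβ : ∀ k, 0 ≤ β k) (i : Fin d) :
    Measurable (suOMark_psi D β i) := by
  have h : Monotone (fun t : ℝ => D.phi β i (max t 0)) := by
    intro s t hst
    exact OData.phi_mono D hβ i (mem_Ici.2 (le_max_right s 0)) (mem_Ici.2 (le_max_right t 0))
      (max_le_max hst le_rfl)
  exact (h.measurable.neg.exp).div_const _

private theorem suOMark_nonneg (D : OData d m) (β : Fin m → ℝ) (i : Fin d) (t : ℝ) :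
    0 ≤ suOMark_psi D β i t :=
  div_nonneg (Real.exp_pos _).le (Zi_pos D β i).le

private theorem suOMark_phi_nonneg (D : OData d m) (β : Fin m → ℝ) (hβ : ∀ k, 0 ≤ β k) (i : Fin d)
    {t : ℝ} (ht : 0 ≤ t) : 0 ≤ D.phi β i t := by
  rw [← OData.phi_zero D β i]
  exact OData.phi_mono D hβ i (mem_Ici.2 le_rfl) (mem_Ici.2 ht) ht

private theorem suOMark_bound (D : OData d m) (β : Fin m → ℝ) (hβ : ∀ k, 0 ≤ β k) (i : Fin d)
    (t : ℝ) : suOMark_psi D β i t ≤ 1 / Zi D β i := by
  refine div_le_div_of_nonneg_right ?_ (Zi_pos D β i).le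
  rw [Real.exp_le_one_iff]
  have := suOMark_phi_nonneg D β hβ i (le_max_right t 0)
  linarith

private theorem suOMark_int (D : OData d m) (β : Fin m → ℝ) (hβ : ∀ k, 0 ≤ β k) (i : Fin d)
    (μ : Measure ℝ) [IsFiniteMeasure μ] : Integrable (suOMark_psi D β i) μ := by
  refine Integrable.of_bound (suOMark_meas D β hβ i).aestronglyMeasurable (1 / Zi D β i)
    (Filter.Eventually.of_forall fun t => ?_)
  rw [Real.norm_eq_abs, abs_of_nonneg (suOMark_nonneg D β i t)]
  exact suOMark_bound D β hβ i t

private theorem suOMark_prob (D : OData d m) (β : Fin m → ℝ) (hβ : ∀ k, 0 ≤ β k) (i : Fin d) :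
    IsProbabilityMeasure (suOMark_nu D β i) := by
  refine ⟨?_⟩
  unfold suOMark_nu
  rw [withDensity_apply _ MeasurableSet.univ, Measure.restrict_univ,
    ← ofReal_integral_eq_lintegral_ofReal (suOMark_int D β hβ i _)
      (Filter.Eventually.of_forall (suOMark_nonneg D β i))]
  have h : ∫ t in Icc 0 (D.a i), suOMark_psi D β i t = 1 := by
    have h1 : ∫ t in Icc 0 (D.a i), suOMark_psi D β i t =
        ∫ t in Icc 0 (D.a i), Real.exp (-(D.phi β i t)) / Zi D β i := by
      refine setIntegral_congr_fun measurableSet_Icc fun t ht => ?_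
      unfold suOMark_psi
      rw [max_eq_left ht.1]
    rw [h1, integral_div]
    exact div_self (Zi_pos D β i).ne'
  rw [h, ENNReal.ofReal_one]

private theorem suOMark_box (D : OData d m) :
    (volume : Measure (Fin d → ℝ)).restrict D.box =
      Measure.pi (fun i => (volume : Measure ℝ).restrict (Icc 0 (D.a i))) := by
  rw [D.box_eq, volume_pi, Measure.restrict_pi_pi]

private theorem suOMark_pi (D : OData d m) (β : Fin m → ℝ) (hβ : ∀ k, 0 ≤ β k) :
    Measure.pi (suOMark_nu D β) =
      ((volume : Measure (Fin d → ℝ)).restrict D.box).withDensity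
        (fun x => ENNReal.ofReal (∏ i, suOMark_psi D β i (x i))) := by
  have hP : ∀ i, IsProbabilityMeasure (suOMark_nu D β i) := suOMark_prob D β hβ
  have hF : ∀ i, IsFiniteMeasure ((volume : Measure ℝ).restrict (Icc 0 (D.a i))) := fun i =>
    ⟨by rw [Measure.restrict_apply_univ]; exact measure_Icc_lt_top⟩
  refine Measure.pi_eq fun s hs => ?_
  have hnn : ∀ x : Fin d → ℝ, 0 ≤ ∏ i, suOMark_psi D β i (x i) := fun x =>
    Finset.prod_nonneg fun i _ => suOMark_nonneg D β i _
  rw [withDensity_apply _ (MeasurableSet.univ_pi hs), suOMark_box D, Measure.restrict_pi_pi]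
  have hint : Integrable (fun x : Fin d → ℝ => ∏ i, suOMark_psi D β i (x i))
      (Measure.pi fun i => ((volume : Measure ℝ).restrict (Icc 0 (D.a i))).restrict (s i)) :=
    Integrable.fintype_prod fun i => suOMark_int D β hβ i _
  rw [← ofReal_integral_eq_lintegral_ofReal hint (Filter.Eventually.of_forall hnn),
    integral_fintype_prod_eq_prod (fun i => suOMark_psi D β i),
    ENNReal.ofReal_prod_of_nonneg fun i _ => integral_nonneg (suOMark_nonneg D β i)]
  refine Finset.prod_congr rfl fun i _ => ?_
  unfold suOMark_nu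
  rw [withDensity_apply _ (hs i), ofReal_integral_eq_lintegral_ofReal (suOMark_int D β hβ i _)
    (Filter.Eventually.of_forall (suOMark_nonneg D β i))]

private theorem suOMark_real (D : OData d m) (β : Fin m → ℝ) (hβ : ∀ k, 0 ≤ β k)
    (A : Set (Fin d → ℝ)) (hA : MeasurableSet A) :
    (Measure.pi (suOMark_nu D β)).real A =
      (∫ x in A ∩ D.box, Real.exp (-(D.Phi β x))) / ∫ x in D.box, Real.exp (-(D.Phi β x)) := by
  have hbm : MeasurableSet D.box := D.box_compact.measurableSet
  have hnn : ∀ x : Fin d → ℝ, 0 ≤ ∏ i, suOMark_psi D β i (x i) := fun x =>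
    Finset.prod_nonneg fun i _ => suOMark_nonneg D β i _
  have hZ : ∫ x in D.box, Real.exp (-(D.Phi β x)) = ∏ i, Zi D β i := by
    have h := box_exp D β 1
    simp only [one_mul] at h
    exact h
  have heq : ∀ x ∈ A ∩ D.box, ∏ i, suOMark_psi D β i (x i) =
      Real.exp (-(D.Phi β x)) / ∏ i, Zi D β i := by
    intro x hx
    have h1 : ∀ i, suOMark_psi D β i (x i) = Real.exp (-(D.phi β i (x i))) / Zi D β i := by
      intro i
      unfold suOMark_psi
      rw [max_eq_left (hx.2 i).1]
    rw [Finset.prod_congr rfl fun i _ => h1 i, Finset.prod_div_distrib, ← Real.exp_sum,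
      Finset.sum_neg_distrib, D.Phi_eq]
  have hmeas : Measurable fun x : Fin d → ℝ => ∏ i, suOMark_psi D β i (x i) :=
    Finset.measurable_prod _ fun i _ => (suOMark_meas D β hβ i).comp (measurable_pi_apply i)
  rw [measureReal_def, suOMark_pi D β hβ, withDensity_apply _ hA, Measure.restrict_restrict hA,
    ← integral_eq_lintegral_of_nonneg_ae (Filter.Eventually.of_forall hnn)
      hmeas.aestronglyMeasurable, setIntegral_congr_fun (hA.inter hbm) heq, integral_div, hZ]

/-- The body carries at least the mass `e ^ m` of the Gibbs measure. -/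
theorem body_mass {d m : ℕ} (D : OData d m) (e : ℝ) (he : 0 < e) (he1 : e < 1) (β : Fin m → ℝ)
    (hβ : ∀ k, 0 ≤ β k)
    (hk : ∀ k, ∫ x in D.box, D.S k x * Real.exp (-(D.Phi β x)) ≤
        (1 - e) * ∫ x in D.box, Real.exp (-(D.Phi β x))) :
    e ^ m * ∫ x in D.box, Real.exp (-(D.Phi β x)) ≤ ∫ x in D.body, Real.exp (-(D.Phi β x)) := by
  set E : (Fin d → ℝ) → ℝ := fun x => Real.exp (-(D.Phi β x)) with hE
  have hbm : MeasurableSet D.box := D.box_compact.measurableSet
  have hEc : ContinuousOn E D.box := (D.Phi_continuousOn β).neg.rexp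
  have hEi : IntegrableOn E D.box := hEc.integrableOn_compact D.box_compact
  have hSi : ∀ k, IntegrableOn (fun x => D.S k x * E x) D.box := fun k =>
    ((D.S_continuousOn k).mul hEc).integrableOn_compact D.box_compact
  have hE0 : ∀ x, 0 ≤ E x := fun x => (Real.exp_pos _).le
  have hZ : 0 < ∫ x in D.box, E x := by
    have h := box_exp D β 1
    simp only [one_mul] at h
    rw [hE]
    simp only
    rw [h]
    exact Finset.prod_pos fun i _ => Zi_pos D β i
  set A : Fin m → Set (Fin d → ℝ) := fun k => {x | ∑ i, D.f k i (max (x i) 0) ≤ 1} with hA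
  have hmon : ∀ k i, Monotone (fun t : ℝ => D.f k i (max t 0)) := by
    intro k i s t hst
    exact D.hmono k i (mem_Ici.2 (le_max_right s 0)) (mem_Ici.2 (le_max_right t 0))
      (max_le_max hst le_rfl)
  have hAm : ∀ k, MeasurableSet (A k) := by
    intro k
    refine measurableSet_le ?_ measurable_const
    exact Finset.measurable_sum _ fun i _ => (hmon k i).measurable.comp (measurable_pi_apply i)
  have hAd : ∀ k, ∀ x ∈ A k, ∀ y, y ≤ x → y ∈ A k := by
    intro k x hx y hyx
    exact (Finset.sum_le_sum fun i _ => hmon k i (hyx i)).trans hx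
  have hAS : ∀ k, ∀ x ∈ D.box, ∑ i, D.f k i (max (x i) 0) = D.S k x := by
    intro k x hx
    unfold OData.S
    exact Finset.sum_congr rfl fun i _ => by rw [max_eq_left (hx i).1]
  have hP : ∀ i, IsProbabilityMeasure (suOMark_nu D β i) := suOMark_prob D β hβ
  have hmark : ∀ k, e ≤ (Measure.pi (suOMark_nu D β)).real (A k) := by
    intro k
    rw [suOMark_real D β hβ (A k) (hAm k), le_div_iff₀ hZ]
    have h1 : ∫ x in D.box, E x = (∫ x in A k ∩ D.box, E x) + ∫ x in D.box \ A k, E x := by
      rw [← integral_inter_add_sdiff (hAm k) hEi, inter_comm]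
    have h2 : ∫ x in D.box \ A k, E x ≤ ∫ x in D.box, D.S k x * E x := by
      calc ∫ x in D.box \ A k, E x ≤ ∫ x in D.box \ A k, D.S k x * E x := by
            refine setIntegral_mono_on (hEi.mono_set sdiff_subset) ((hSi k).mono_set sdiff_subset)
              (hbm.diff (hAm k)) fun x hx => ?_
            have h3 : 1 < D.S k x := by
              have h4 := hx.2
              rw [hA] at h4
              simp only [mem_ofPred_eq, not_le] at h4
              rwa [hAS k x hx.1] at h4
            nlinarith [hE0 x]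
        _ ≤ ∫ x in D.box, D.S k x * E x := by
            refine setIntegral_mono_set (hSi k) ?_ (Filter.Eventually.of_forall sdiff_subset)
            filter_upwards [ae_restrict_mem hbm] with x hx
            exact mul_nonneg (D.S_nonneg k hx) (hE0 x)
    have h3 := hk k
    change e * ∫ x in D.box, E x ≤ ∫ x in A k ∩ D.box, E x
    have h4 : ∫ x in D.box, D.S k x * E x ≤ (1 - e) * ∫ x in D.box, E x := h3
    nlinarith
  have hprod : e ^ m ≤ ∏ k, (Measure.pi (suOMark_nu D β)).real (A k) := by
    have h1 : ∏ _k : Fin m, e ≤ ∏ k, (Measure.pi (suOMark_nu D β)).real (A k) :=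
      Finset.prod_le_prod (fun _ _ => he.le) fun k _ => hmark k
    rwa [Finset.prod_const, Finset.card_univ, Fintype.card_fin] at h1
  have hfin := hprod.trans (harris_inter (suOMark_nu D β) A hAm hAd)
  rw [suOMark_real D β hβ _ (MeasurableSet.iInter hAm), le_div_iff₀ hZ] at hfin
  have hbody : (⋂ k, A k) ∩ D.box = D.body := by
    ext x
    constructor
    · rintro ⟨h1, h2⟩
      refine ⟨h2, fun k => ?_⟩
      have h3 : ∑ i, D.f k i (max (x i) 0) ≤ 1 := mem_iInter.1 h1 k
      rwa [hAS k x h2] at h3
    · rintro ⟨h1, h2⟩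
      refine ⟨mem_iInter.2 fun k => ?_, h1⟩
      change ∑ i, D.f k i (max (x i) 0) ≤ 1
      rw [hAS k x h1]
      exact h2 k
  rw [hbody] at hfin
  exact hfin

end Pool.Agent.Lib.MP_29b1bb_gt.SU
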