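import Pool.Agent.Lib.MP_29b1bb_gt.SU.OBody

/-!
Proof sketch for module Phi1 (board SU, MP_29b1bb_gt, helper96).
Proof. phi_expm: int_0^a exp(-phi) >= int_0^(l a) exp(-phi t) dt = l int_0^a exp(-phi(l t)) dt >= l int_0^a exp(-l phi t) dt, as phi(l t) <= l phi(t) (cf_scale).
So with E = mean for the density exp(-phi)/Z: E exp((1-l) phi) <= 1/l. phi_mean: 1 + (1-l) E phi <= 1/l for all l < 1, so E phi <= 1/l for all l in (0,1), so E phi <= 1.
phi_tilt: l = 1/2: 2 >= E exp(phi/2) >= 1 + E phi/2 + E phi^2/8, so E phi^2 <= 8. For x >= 0, exp(-x) <= 1 - x + x^2/2, so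
E exp(-tau phi) <= 1 - tau E phi + 4 tau^2 <= exp(-tau E phi + 4 tau^2). Continuity of phi on [0,oo): cf_continuous; integrability on Icc 0 a.
-/

set_option autoImplicit false

open MeasureTheory Set

namespace Pool.Agent.Lib.MP_29b1bb_gt.SU

private theorem suPhi1_cont {a : ℝ} {φ : ℝ → ℝ} (hc : ConvexOn ℝ (Ici 0) φ)
    (hm : MonotoneOn φ (Ici 0)) (h0 : φ 0 = 0) : ContinuousOn φ (Icc 0 a) :=
  (cf_continuous hc hm h0).mono fun _ hx => mem_Ici.2 hx.1

private theorem suPhi1_int {a : ℝ} {g : ℝ → ℝ} (hg : ContinuousOn g (Icc 0 a)) :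
    IntegrableOn g (Icc 0 a) := hg.integrableOn_compact isCompact_Icc

/-- exponential moments of a convex potential -/
theorem phi_expm (a : ℝ) (ha : 0 < a) (φ : ℝ → ℝ) (hc : ConvexOn ℝ (Ici 0) φ)
    (hm : MonotoneOn φ (Ici 0)) (h0 : φ 0 = 0) (l : ℝ) (hl : 0 < l) (hl1 : l ≤ 1) :
    l * ∫ t in Icc 0 a, Real.exp (-(l * φ t)) ≤ ∫ t in Icc 0 a, Real.exp (-φ t) := by
  have hφ : ContinuousOn φ (Icc 0 a) := suPhi1_cont hc hm h0
  have hla : l * a ≤ a := by nlinarith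
  have hla0 : 0 ≤ l * a := by positivity
  have h1 : ∫ t in Icc 0 (l * a), Real.exp (-φ t) ≤ ∫ t in Icc 0 a, Real.exp (-φ t) := by
    refine setIntegral_mono_set (suPhi1_int hφ.neg.rexp) ?_ ?_
    · exact Filter.Eventually.of_forall fun t => (Real.exp_pos _).le
    · exact (Icc_subset_Icc_right hla).eventuallyLE
  have hφl : ContinuousOn (fun t => φ (l * t)) (Icc 0 a) := by
    refine hφ.comp (by fun_prop) ?_
    intro t ht
    refine ⟨mul_nonneg hl.le ht.1, ?_⟩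
    nlinarith [ht.1, ht.2]
  have h2 : ∫ t in Icc 0 (l * a), Real.exp (-φ t) = l * ∫ t in Icc 0 a, Real.exp (-φ (l * t)) := by
    rw [integral_Icc_eq_integral_Ioc, integral_Icc_eq_integral_Ioc,
      ← intervalIntegral.integral_of_le hla0, ← intervalIntegral.integral_of_le ha.le]
    have h3 := intervalIntegral.integral_comp_mul_left (a := 0) (b := a)
      (fun t => Real.exp (-φ t)) hl.ne'
    rw [h3, mul_zero, smul_eq_mul, ← mul_assoc, mul_inv_cancel₀ hl.ne', one_mul]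
  have h4 : ∫ t in Icc 0 a, Real.exp (-(l * φ t)) ≤ ∫ t in Icc 0 a, Real.exp (-φ (l * t)) := by
    refine setIntegral_mono_on (suPhi1_int ((hφ.const_smul l).neg.rexp))
      (suPhi1_int hφl.neg.rexp) measurableSet_Icc ?_
    intro t ht
    apply Real.exp_le_exp.2
    have := cf_scale hc h0 (l := l) (t := t) ⟨hl.le, hl1⟩ ht.1
    linarith
  calc l * ∫ t in Icc 0 a, Real.exp (-(l * φ t))
      ≤ l * ∫ t in Icc 0 a, Real.exp (-φ (l * t)) := mul_le_mul_of_nonneg_left h4 hl.le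
    _ = ∫ t in Icc 0 (l * a), Real.exp (-φ t) := h2.symm
    _ ≤ _ := h1

private theorem suPhi1_Z {a : ℝ} (ha : 0 < a) {φ : ℝ → ℝ} (hc : ConvexOn ℝ (Ici 0) φ)
    (hm : MonotoneOn φ (Ici 0)) (h0 : φ 0 = 0) : 0 < ∫ t in Icc 0 a, Real.exp (-φ t) := by
  have hφ : ContinuousOn φ (Icc 0 a) := suPhi1_cont hc hm h0
  rw [integral_Icc_eq_integral_Ioc, ← intervalIntegral.integral_of_le ha.le]
  refine intervalIntegral.intervalIntegral_pos_of_pos_on ?_ (fun t _ => Real.exp_pos _) ha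
  rw [intervalIntegrable_iff_integrableOn_Icc_of_le ha.le]
  exact suPhi1_int hφ.neg.rexp

private theorem suPhi1_A {a : ℝ} {φ : ℝ → ℝ} (hm : MonotoneOn φ (Ici 0)) (h0 : φ 0 = 0) :
    0 ≤ ∫ t in Icc 0 a, φ t * Real.exp (-φ t) :=
  setIntegral_nonneg measurableSet_Icc fun t ht =>
    mul_nonneg (cf_nonneg hm h0 ht.1) (Real.exp_pos _).le

theorem phi_mean (a : ℝ) (ha : 0 < a) (φ : ℝ → ℝ) (hc : ConvexOn ℝ (Ici 0) φ)
    (hm : MonotoneOn φ (Ici 0)) (h0 : φ 0 = 0) :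
    ∫ t in Icc 0 a, φ t * Real.exp (-φ t) ≤ ∫ t in Icc 0 a, Real.exp (-φ t) := by
  have hφ : ContinuousOn φ (Icc 0 a) := suPhi1_cont hc hm h0
  have hZ := suPhi1_Z ha hc hm h0
  have hA := suPhi1_A (a := a) hm h0
  set Z := ∫ t in Icc 0 a, Real.exp (-φ t) with hZd
  set A := ∫ t in Icc 0 a, φ t * Real.exp (-φ t) with hAd
  have i1 : IntegrableOn (fun t => Real.exp (-φ t)) (Icc 0 a) := suPhi1_int hφ.neg.rexp
  have i2 : IntegrableOn (fun t => φ t * Real.exp (-φ t)) (Icc 0 a) :=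
    suPhi1_int (hφ.mul hφ.neg.rexp)
  have key : ∀ l : ℝ, 0 < l → l < 1 → l * A ≤ Z := by
    intro l hl hl1
    have h1 := phi_expm a ha φ hc hm h0 l hl hl1.le
    have h2 : Z + (1 - l) * A ≤ ∫ t in Icc 0 a, Real.exp (-(l * φ t)) := by
      rw [hZd, hAd, ← integral_const_mul, ← integral_add i1 (i2.const_mul _)]
      refine setIntegral_mono_on (i1.add (i2.const_mul _))
        (suPhi1_int ((hφ.const_smul l).neg.rexp)) measurableSet_Icc ?_
      intro t _
      have h3 : Real.exp (-(l * φ t)) = Real.exp (-φ t) * Real.exp ((1 - l) * φ t) := by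
        rw [← Real.exp_add]
        congr 1
        ring
      rw [h3]
      have h4 := Real.add_one_le_exp ((1 - l) * φ t)
      have h5 := Real.exp_pos (-φ t)
      nlinarith
    have h6 : l * (Z + (1 - l) * A) ≤ Z := (mul_le_mul_of_nonneg_left h2 hl.le).trans h1
    have h7 : (1 - l) * (l * A) ≤ (1 - l) * Z := by nlinarith
    exact le_of_mul_le_mul_left h7 (by linarith)
  by_contra hcon
  rw [not_le] at hcon
  have hA0 : 0 < A := hZ.trans hcon
  have h8 := key ((Z + A) / (2 * A)) (by positivity) (by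
    rw [div_lt_one (by positivity)]
    linarith)
  have h9 : (Z + A) / (2 * A) * A = (Z + A) / 2 := by
    field_simp
  rw [h9] at h8
  linarith

private theorem suPhi1_exp {x : ℝ} (hx : 0 ≤ x) : Real.exp (-x) ≤ 1 - x + x ^ 2 / 2 := by
  have h1 := Real.quadratic_le_exp_of_nonneg hx
  have h2 : Real.exp (-x) * Real.exp x = 1 := by
    rw [← Real.exp_add]
    simp
  have h3 := Real.exp_pos (-x)
  have h4 : Real.exp (-x) * (1 + x + x ^ 2 / 2) ≤ 1 := by
    calc Real.exp (-x) * (1 + x + x ^ 2 / 2) ≤ Real.exp (-x) * Real.exp x :=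
          mul_le_mul_of_nonneg_left h1 h3.le
      _ = 1 := h2
  have h5 : (0 : ℝ) < 1 + x + x ^ 2 / 2 := by positivity
  have h6 : 1 ≤ (1 - x + x ^ 2 / 2) * (1 + x + x ^ 2 / 2) := by nlinarith [sq_nonneg (x ^ 2)]
  exact le_of_mul_le_mul_right (h4.trans h6) h5

theorem phi_tilt (a : ℝ) (ha : 0 < a) (φ : ℝ → ℝ) (hc : ConvexOn ℝ (Ici 0) φ)
    (hm : MonotoneOn φ (Ici 0)) (h0 : φ 0 = 0) (τ : ℝ) (hτ : 0 ≤ τ) :
    ∫ t in Icc 0 a, Real.exp (-((1 + τ) * φ t)) ≤
      (∫ t in Icc 0 a, Real.exp (-φ t)) *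
        Real.exp (-(τ * ((∫ t in Icc 0 a, φ t * Real.exp (-φ t)) /
          ∫ t in Icc 0 a, Real.exp (-φ t))) + 4 * τ ^ 2) := by
  have hφ : ContinuousOn φ (Icc 0 a) := suPhi1_cont hc hm h0
  have hZ := suPhi1_Z ha hc hm h0
  have hA := suPhi1_A (a := a) hm h0
  have i1 : IntegrableOn (fun t => Real.exp (-φ t)) (Icc 0 a) := suPhi1_int hφ.neg.rexp
  have i2 : IntegrableOn (fun t => φ t * Real.exp (-φ t)) (Icc 0 a) :=
    suPhi1_int (hφ.mul hφ.neg.rexp)
  have i3 : IntegrableOn (fun t => φ t ^ 2 * Real.exp (-φ t)) (Icc 0 a) :=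
    suPhi1_int ((hφ.pow 2).mul hφ.neg.rexp)
  set B := ∫ t in Icc 0 a, φ t ^ 2 * Real.exp (-φ t) with hBd
  have hE := phi_expm a ha φ hc hm h0 (1 / 2) (by norm_num) (by norm_num)
  have i12 : ∀ c : ℝ, IntegrableOn (fun t => Real.exp (-φ t) + c * (φ t * Real.exp (-φ t)))
      (Icc 0 a) := fun c => i1.add (i2.const_mul c)
  have i123 : ∀ c e : ℝ, IntegrableOn (fun t => Real.exp (-φ t) + c * (φ t * Real.exp (-φ t)) +
      e * (φ t ^ 2 * Real.exp (-φ t))) (Icc 0 a) := fun c e => (i12 c).add (i3.const_mul e)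
  have hlow : (∫ t in Icc 0 a, Real.exp (-φ t)) + (1 / 2) * (∫ t in Icc 0 a, φ t * Real.exp (-φ t)) +
      (1 / 8) * B ≤ ∫ t in Icc 0 a, Real.exp (-(1 / 2 * φ t)) := by
    rw [hBd, ← integral_const_mul, ← integral_const_mul, ← integral_add i1 (i2.const_mul _),
      ← integral_add (i12 _) (i3.const_mul _)]
    refine setIntegral_mono_on (i123 _ _)
      (suPhi1_int ((hφ.const_smul (1 / 2 : ℝ)).neg.rexp)) measurableSet_Icc ?_
    intro t ht
    have h3 : Real.exp (-(1 / 2 * φ t)) = Real.exp (-φ t) * Real.exp (φ t / 2) := by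
      rw [← Real.exp_add]
      congr 1
      ring
    rw [h3]
    have hp : 0 ≤ φ t := cf_nonneg hm h0 ht.1
    have h4 := Real.quadratic_le_exp_of_nonneg (x := φ t / 2) (by positivity)
    have h5 := Real.exp_pos (-φ t)
    nlinarith
  have hB8 : B ≤ 8 * ∫ t in Icc 0 a, Real.exp (-φ t) := by linarith
  have hup : ∫ t in Icc 0 a, Real.exp (-((1 + τ) * φ t)) ≤
      (∫ t in Icc 0 a, Real.exp (-φ t)) + (-τ) * (∫ t in Icc 0 a, φ t * Real.exp (-φ t)) +
        (τ ^ 2 / 2) * B := by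
    rw [hBd, ← integral_const_mul, ← integral_const_mul, ← integral_add i1 (i2.const_mul _),
      ← integral_add (i12 _) (i3.const_mul _)]
    refine setIntegral_mono_on (suPhi1_int ((hφ.const_smul (1 + τ)).neg.rexp))
      (i123 _ _) measurableSet_Icc ?_
    intro t ht
    have h3 : Real.exp (-((1 + τ) * φ t)) = Real.exp (-φ t) * Real.exp (-(τ * φ t)) := by
      rw [← Real.exp_add]
      congr 1
      ring
    rw [h3]
    have hp : 0 ≤ φ t := cf_nonneg hm h0 ht.1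
    have h4 := suPhi1_exp (x := τ * φ t) (by positivity)
    have h5 := Real.exp_pos (-φ t)
    nlinarith
  set Z := ∫ t in Icc 0 a, Real.exp (-φ t) with hZd
  set A := ∫ t in Icc 0 a, φ t * Real.exp (-φ t) with hAd
  have h6 : Z + (-τ) * A + (τ ^ 2 / 2) * B ≤ Z * (1 + (-(τ * (A / Z)) + 4 * τ ^ 2)) := by
    have h7 : Z * (1 + (-(τ * (A / Z)) + 4 * τ ^ 2)) = Z + (-τ) * A + 4 * τ ^ 2 * Z := by
      field_simp
      ring
    rw [h7]
    nlinarith [sq_nonneg τ]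
  refine hup.trans (h6.trans ?_)
  refine mul_le_mul_of_nonneg_left ?_ hZ.le
  have h8 := Real.add_one_le_exp (-(τ * (A / Z)) + 4 * τ ^ 2)
  linarith

end Pool.Agent.Lib.MP_29b1bb_gt.SU
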