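import Pool.Agent.Lib.MP_29b1bb_gt.SU.OZ
import Pool.Agent.Lib.MP_29b1bb_gt.SU.OMark
import Pool.Agent.Lib.MP_29b1bb_gt.SU.KKT
import Pool.Agent.Lib.MP_29b1bb_gt.SU.Phi1
import Pool.Agent.Lib.MP_29b1bb_gt.SU.Mom2
/-!
Proof sketch for module OAsm (board SU, MP_29b1bb_gt, helper96).
body_jensen: w = exp(-Phi), I = int_body w, avg = (int_body w Phi)/I. vol = int_body w exp(Phi) >= I exp(avg) (Jensen), and for tau > 0:
I exp(-tau avg) <= int_body w exp(-tau Phi) <= int_box exp(-(1+tau) Phi) = prod int exp(-(1+tau) phi_i) <= prod (Zi exp(-(tau Ei) + 4 tau^2)) (box_exp, phi_tilt).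
So avg >= sum Ei - 4 tau d - (1/tau) log(prod Zi / I) >= sum Ei - 4 tau d - (m/tau) log(1/e), as I >= e^m prod Zi; and I exp(avg) >= prod Zi exp(-m log(1/e)) exp(avg).
body_volume: e = 1/50, tau = 3/1000, beta from kkt, body_mass with box_exp (c = 1). box_mean + kkt: sum Ei = (1-e) sum beta; phi_mean: Ei <= 1, so sum beta <= d/(1-e) (d = n+1).
Z_lower for B = D.body, multiply over i: prod Zi >= prod (2 M1/V) exp(-(int_body Phi)/V), and int_body Phi <= (sum beta) V since S_k <= 1 on the body (Phi_eq).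
Exponent >= (1-e) sum beta - sum beta - 4 tau d - m (1+1/tau) log 50 >= -(d/49) - .012 d - 10^-6 * 334.4 * 3.92 d >= -.039 d.
orlicz_moments: d = n+1; mom2: M2/V <= 2 (M1/V)^2; prod (M2/V) <= 2^d (prod M1/V)^2 and 2^d prod(M1/V) <= exp(.039 d) V, so prod (M2/V) <= 2^(-d) exp(.078 d) V^2, exp(.078) <= 1.082.
-/

set_option autoImplicit false

open MeasureTheory Set

namespace Pool.Agent.Lib.MP_29b1bb_gt.SU

/-- the box is contained in the integration domain and the body is a part of it -/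
private theorem suOAsm_sub {d m : ℕ} (D : OData d m) : D.body ⊆ D.box := fun _ hx => hx.1

/-- integrability on the body of a function that is continuous on the box -/
private theorem suOAsm_int {d m : ℕ} (D : OData d m) {g : (Fin d → ℝ) → ℝ}
    (hg : ContinuousOn g D.box) : IntegrableOn g D.body :=
  (hg.integrableOn_compact D.box_compact).mono_set (suOAsm_sub D)

/-- the tangent line inequality for the exponential, integrated against a weight -/
private theorem suOAsm_tangent {d m : ℕ} (D : OData d m) (β : Fin m → ℝ) (c : ℝ)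
    (hI : 0 < ∫ x in D.body, Real.exp (-(D.Phi β x))) :
    (∫ x in D.body, Real.exp (-(D.Phi β x))) *
        Real.exp (c * ((∫ x in D.body, D.Phi β x * Real.exp (-(D.Phi β x))) /
          ∫ x in D.body, Real.exp (-(D.Phi β x)))) ≤
      ∫ x in D.body, Real.exp (-(D.Phi β x)) * Real.exp (c * D.Phi β x) := by
  have hPc : ContinuousOn (D.Phi β) D.box := D.Phi_continuousOn β
  have hWc : ContinuousOn (fun x => Real.exp (-(D.Phi β x))) D.box := hPc.neg.rexp
  have hW : IntegrableOn (fun x => Real.exp (-(D.Phi β x))) D.body := suOAsm_int D hWc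
  have hPW : IntegrableOn (fun x => D.Phi β x * Real.exp (-(D.Phi β x))) D.body :=
    suOAsm_int D (hPc.mul hWc)
  have hE : IntegrableOn (fun x => Real.exp (-(D.Phi β x)) * Real.exp (c * D.Phi β x)) D.body :=
    suOAsm_int D (hWc.mul (continuousOn_const.mul hPc).rexp)
  set I : ℝ := ∫ x in D.body, Real.exp (-(D.Phi β x)) with hId
  set J : ℝ := ∫ x in D.body, D.Phi β x * Real.exp (-(D.Phi β x)) with hJd
  set A : ℝ := Real.exp (c * (J / I)) with hAd
  have h1 : ∫ x in D.body, (A * (1 - c * (J / I)) * Real.exp (-(D.Phi β x)) +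
      A * c * (D.Phi β x * Real.exp (-(D.Phi β x)))) = I * A := by
    rw [integral_add (hW.const_mul _) (hPW.const_mul _), integral_const_mul, integral_const_mul,
      ← hId, ← hJd]
    have : J = (J / I) * I := by field_simp
    rw [this]
    have h2 : J / I * I / I = J / I := by field_simp
    rw [h2]
    ring
  rw [← h1]
  refine integral_mono ((hW.const_mul _).add (hPW.const_mul _)) hE fun x => ?_
  have h3 : c * D.Phi β x - c * (J / I) + 1 ≤ Real.exp (c * D.Phi β x - c * (J / I)) :=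
    Real.add_one_le_exp _
  have h4 : Real.exp (c * D.Phi β x) = A * Real.exp (c * D.Phi β x - c * (J / I)) := by
    rw [hAd, ← Real.exp_add]
    congr 1
    ring
  have h5 : 0 < A := Real.exp_pos _
  have h6 : 0 < Real.exp (-(D.Phi β x)) := Real.exp_pos _
  simp only
  rw [h4]
  have h7 : 0 ≤ Real.exp (-(D.Phi β x)) * A := by positivity
  have h8 := mul_le_mul_of_nonneg_left h3 h7
  calc A * (1 - c * (J / I)) * Real.exp (-(D.Phi β x)) +
        A * c * (D.Phi β x * Real.exp (-(D.Phi β x)))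
      = Real.exp (-(D.Phi β x)) * A * (c * D.Phi β x - c * (J / I) + 1) := by ring
    _ ≤ Real.exp (-(D.Phi β x)) * A * Real.exp (c * D.Phi β x - c * (J / I)) := h8
    _ = Real.exp (-(D.Phi β x)) * (A * Real.exp (c * D.Phi β x - c * (J / I))) := by ring

private theorem suOAsm_prod_pos {d m : ℕ} (D : OData d m) (β : Fin m → ℝ) :
    0 < ∏ i, Zi D β i :=
  Finset.prod_pos fun i _ => Zi_pos D β i

/-- Jensen on the body, and comparison with the box. -/
theorem body_jensen {d m : ℕ} (D : OData d m) (β : Fin m → ℝ) (hβ : ∀ k, 0 ≤ β k) (e τ : ℝ)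
    (he : 0 < e) (he1 : e < 1) (hτ : 0 < τ)
    (hmass : e ^ m * ∏ i, Zi D β i ≤ ∫ x in D.body, Real.exp (-(D.Phi β x))) :
    (∏ i, Zi D β i) * Real.exp ((∑ i, Ei D β i) - 4 * τ * d - m * (1 + 1 / τ) * Real.log (1 / e)) ≤
      vol D.body := by
  have hP : 0 < ∏ i, Zi D β i := suOAsm_prod_pos D β
  have hI : 0 < ∫ x in D.body, Real.exp (-(D.Phi β x)) :=
    lt_of_lt_of_le (mul_pos (pow_pos he m) hP) hmass
  have hv := suOAsm_tangent D β 1 hI
  have ht := suOAsm_tangent D β (-τ) hI
  set I : ℝ := ∫ x in D.body, Real.exp (-(D.Phi β x)) with hId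
  set J : ℝ := ∫ x in D.body, D.Phi β x * Real.exp (-(D.Phi β x)) with hJd
  set P : ℝ := ∏ i, Zi D β i with hPd
  -- the volume
  have h1 : ∫ x in D.body, Real.exp (-(D.Phi β x)) * Real.exp (1 * D.Phi β x) = vol D.body := by
    have : ∀ x, Real.exp (-(D.Phi β x)) * Real.exp (1 * D.Phi β x) = 1 := fun x => by
      rw [← Real.exp_add, one_mul, neg_add_cancel, Real.exp_zero]
    simp only [this]
    rw [integral_const, smul_eq_mul, mul_one]
    simp [vol, Measure.real]
  rw [h1, one_mul] at hv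
  -- the box
  have h2 : ∫ x in D.body, Real.exp (-(D.Phi β x)) * Real.exp (-τ * D.Phi β x) ≤
      P * Real.exp (-(τ * ∑ i, Ei D β i) + 4 * τ ^ 2 * d) := by
    have ha : ∀ x, Real.exp (-(D.Phi β x)) * Real.exp (-τ * D.Phi β x) =
        Real.exp (-((1 + τ) * D.Phi β x)) := fun x => by
      rw [← Real.exp_add]
      congr 1
      ring
    have hPc : ContinuousOn (D.Phi β) D.box := D.Phi_continuousOn β
    have hc : ContinuousOn (fun x => Real.exp (-((1 + τ) * D.Phi β x))) D.box :=
      (continuousOn_const.mul hPc).neg.rexp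
    have hb : ∫ x in D.body, Real.exp (-((1 + τ) * D.Phi β x)) ≤
        ∫ x in D.box, Real.exp (-((1 + τ) * D.Phi β x)) := by
      refine setIntegral_mono_set (hc.integrableOn_compact D.box_compact) ?_ ?_
      · exact Filter.Eventually.of_forall fun x => (Real.exp_pos _).le
      · exact (suOAsm_sub D).eventuallyLE
    simp only [ha]
    refine hb.trans ?_
    rw [box_exp D β (1 + τ)]
    have hd : ∏ i : Fin d, (Zi D β i * Real.exp (-(τ * Ei D β i) + 4 * τ ^ 2)) =
        P * Real.exp (-(τ * ∑ i, Ei D β i) + 4 * τ ^ 2 * d) := by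
      rw [Finset.prod_mul_distrib, ← Real.exp_sum, Finset.sum_add_distrib]
      congr 2
      rw [Finset.sum_neg_distrib, ← Finset.mul_sum, Finset.sum_const, Finset.card_univ,
        Fintype.card_fin, nsmul_eq_mul]
      ring
    rw [← hd]
    refine Finset.prod_le_prod (fun i _ => ?_) (fun i _ => ?_)
    · exact integral_nonneg fun t => (Real.exp_pos _).le
    · exact phi_tilt (D.a i) (D.ha i) (D.phi β i) (D.phi_convex hβ i) (D.phi_mono hβ i)
        (D.phi_zero β i) τ hτ.le
  -- the average is large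
  have h3 : e ^ m * P * Real.exp (-τ * (J / I)) ≤
      P * Real.exp (-(τ * ∑ i, Ei D β i) + 4 * τ ^ 2 * d) :=
    ((mul_le_mul_of_nonneg_right hmass (Real.exp_pos _).le).trans ht).trans h2
  have hem : e ^ m = Real.exp (-(m * Real.log (1 / e))) := by
    rw [one_div, Real.log_inv, mul_neg, neg_neg, mul_comm, Real.exp_mul, Real.exp_log he,
      Real.rpow_natCast]
  have h4 : -(m * Real.log (1 / e)) + -τ * (J / I) ≤
      -(τ * ∑ i, Ei D β i) + 4 * τ ^ 2 * d := by
    rw [hem] at h3
    have h5 : P * Real.exp (-(m * Real.log (1 / e)) + -τ * (J / I)) ≤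
        P * Real.exp (-(τ * ∑ i, Ei D β i) + 4 * τ ^ 2 * d) := by
      rw [Real.exp_add]
      calc P * (Real.exp (-(m * Real.log (1 / e))) * Real.exp (-τ * (J / I)))
          = Real.exp (-(m * Real.log (1 / e))) * P * Real.exp (-τ * (J / I)) := by ring
        _ ≤ _ := h3
    exact Real.exp_le_exp.1 (le_of_mul_le_mul_left h5 hP)
  have h6 : (∑ i, Ei D β i) - 4 * τ * d - m * (1 / τ) * Real.log (1 / e) ≤ J / I := by
    have h7 : τ * ((∑ i, Ei D β i) - 4 * τ * d - m * (1 / τ) * Real.log (1 / e)) ≤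
        τ * (J / I) := by
      have h8 : τ * ((∑ i, Ei D β i) - 4 * τ * d - m * (1 / τ) * Real.log (1 / e)) =
          τ * (∑ i, Ei D β i) - 4 * τ ^ 2 * d - m * Real.log (1 / e) := by
        field_simp
      rw [h8]
      linarith
    exact le_of_mul_le_mul_left h7 hτ
  refine le_trans ?_ hv
  refine le_trans ?_ (mul_le_mul_of_nonneg_right hmass (Real.exp_pos _).le)
  rw [hem]
  calc P * Real.exp ((∑ i, Ei D β i) - 4 * τ * d - m * (1 + 1 / τ) * Real.log (1 / e))
      ≤ P * Real.exp (-(m * Real.log (1 / e)) + J / I) := by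
        refine mul_le_mul_of_nonneg_left (Real.exp_le_exp.2 ?_) hP.le
        have : m * (1 + 1 / τ) * Real.log (1 / e) =
          m * (1 / τ) * Real.log (1 / e) + m * Real.log (1 / e) := by ring
        rw [this]
        linarith
    _ = Real.exp (-(m * Real.log (1 / e))) * P * Real.exp (J / I) := by
        rw [Real.exp_add]
        ring

private theorem suOAsm_box_one {d m : ℕ} (D : OData d m) (β : Fin m → ℝ) :
    ∫ x in D.box, Real.exp (-(D.Phi β x)) = ∏ i, Zi D β i := by
  have h := box_exp D β 1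
  simp only [one_mul] at h
  exact h

private theorem suOAsm_log50 : Real.log (1 / (1 / 50 : ℝ)) ≤ 4 := by
  have h : (1 / (1 / 50 : ℝ)) = 50 := by norm_num
  rw [h, Real.log_le_iff_le_exp (by norm_num)]
  have h1 : Real.exp 4 = Real.exp 1 ^ 4 := by
    rw [← Real.exp_nat_mul]
    norm_num
  rw [h1]
  have h2 := Real.exp_one_gt_d9
  have h3 : (2.7 : ℝ) ^ 4 ≤ Real.exp 1 ^ 4 :=
    pow_le_pow_left₀ (by norm_num) (by linarith) 4
  refine le_trans ?_ h3
  norm_num

/-- The lower bound for the volume of the body. -/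
theorem body_volume {n m : ℕ} (D : OData (n + 1) m) (hm : (m : ℝ) ≤ (1 / 1000000) * ((n : ℝ) + 1)) :
    (∏ i, (2 * (M1 D.body i / vol D.body))) * Real.exp (-(39 / 1000 * ((n : ℝ) + 1))) ≤
      vol D.body := by
  obtain ⟨β, hβ, hk, hkm⟩ := kkt D (1 / 50) (by norm_num) (by norm_num)
  have hP : 0 < ∏ i, Zi D β i := suOAsm_prod_pos D β
  have hmass := body_mass D (1 / 50) (by norm_num) (by norm_num) β hβ hk
  rw [suOAsm_box_one] at hmass hkm
  rw [box_mean] at hkm
  have hE : ∑ i, Ei D β i = (1 - 1 / 50) * ∑ k, β k := by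
    have : (∏ i, Zi D β i) * ∑ i, Ei D β i =
        (∏ i, Zi D β i) * ((1 - 1 / 50) * ∑ k, β k) := by
      rw [hkm]
      ring
    exact mul_left_cancel₀ hP.ne' this
  have hE1 : ∀ i, Ei D β i ≤ 1 := fun i => by
    unfold Ei
    rw [div_le_one (Zi_pos D β i)]
    exact phi_mean (D.a i) (D.ha i) (D.phi β i) (D.phi_convex hβ i) (D.phi_mono hβ i)
      (D.phi_zero β i)
  have hEs : ∑ i, Ei D β i ≤ (n : ℝ) + 1 := by
    calc ∑ i, Ei D β i ≤ ∑ _i : Fin (n + 1), (1 : ℝ) := Finset.sum_le_sum fun i _ => hE1 i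
      _ = (n : ℝ) + 1 := by simp
  have hj := body_jensen D β hβ (1 / 50) (3 / 1000) (by norm_num) (by norm_num) (by norm_num) hmass
  have hC := D.body_corner
  have hV : 0 < vol D.body := hC.vol_pos
  -- the product of the partition functions
  have hZ : (∏ i, (2 * (M1 D.body i / vol D.body))) * Real.exp (-(∑ k, β k)) ≤
      ∏ i, Zi D β i := by
    have h1 : ∏ i, (2 * (M1 D.body i / vol D.body) *
        Real.exp (-((∫ x in D.body, D.phi β i (x i)) / vol D.body))) ≤ ∏ i, Zi D β i := by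
      refine Finset.prod_le_prod (fun i _ => ?_) (fun i _ => ?_)
      · have hM : 0 ≤ M1 D.body i :=
          setIntegral_nonneg hC.measurable fun x hx => hC.nonneg x hx i
        positivity
      · exact Z_lower D β hβ i D.body hC (suOAsm_sub D)
    refine le_trans ?_ h1
    rw [Finset.prod_mul_distrib (s := Finset.univ)
      (f := fun i : Fin (n + 1) => 2 * (M1 D.body i / vol D.body))
      (g := fun i : Fin (n + 1) =>
        Real.exp (-((∫ x in D.body, D.phi β i (x i)) / vol D.body))), ← Real.exp_sum]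
    refine mul_le_mul_of_nonneg_left (Real.exp_le_exp.2 ?_) ?_
    · rw [Finset.sum_neg_distrib, neg_le_neg_iff, ← Finset.sum_div]
      rw [div_le_iff₀ hV]
      have hint : ∀ i ∈ (Finset.univ : Finset (Fin (n + 1))),
          Integrable (fun x : Fin (n + 1) → ℝ => D.phi β i (x i)) (volume.restrict D.body) := by
        intro i _
        refine suOAsm_int D ?_
        exact (cf_continuous (D.phi_convex hβ i) (D.phi_mono hβ i) (D.phi_zero β i)).comp
          (continuous_apply i).continuousOn fun x hx => mem_Ici.2 (hx i).1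
      rw [← integral_finsetSum _ hint]
      have h2 : ∀ x ∈ D.body, ∑ i, D.phi β i (x i) ≤ ∑ k, β k := by
        intro x hx
        rw [← D.Phi_eq β x]
        unfold OData.Phi
        refine Finset.sum_le_sum fun k _ => ?_
        have := mul_le_mul_of_nonneg_left (hx.2 k) (hβ k)
        rwa [mul_one] at this
      have h3 : ∫ x in D.body, ∑ i, D.phi β i (x i) ≤ ∫ _x in D.body, ∑ k, β k := by
        refine setIntegral_mono_on (integrable_finsetSum _ hint) ?_ hC.measurable h2
        exact integrableOn_const hC.finite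
      refine h3.trans (le_of_eq ?_)
      rw [integral_const, smul_eq_mul, mul_comm]
      simp [vol, Measure.real]
    · refine Finset.prod_nonneg fun i _ => ?_
      have hM : 0 ≤ M1 D.body i :=
        setIntegral_nonneg hC.measurable fun x hx => hC.nonneg x hx i
      positivity
  -- the exponents
  have hβs : 49 / 50 * ∑ k, β k ≤ (n : ℝ) + 1 := by
    rw [hE] at hEs
    linarith
  have hlog := suOAsm_log50
  have hlog0 : 0 ≤ Real.log (1 / (1 / 50 : ℝ)) := Real.log_nonneg (by norm_num)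
  have hm0 : (0 : ℝ) ≤ m := Nat.cast_nonneg m
  have hml : (m : ℝ) * (1 + 1 / (3 / 1000)) * Real.log (1 / (1 / 50 : ℝ)) ≤
      (m : ℝ) * (1 + 1 / (3 / 1000)) * 4 :=
    mul_le_mul_of_nonneg_left hlog (by positivity)
  have hexp : ∑ k, β k + -(39 / 1000 * ((n : ℝ) + 1)) ≤
      (∑ i, Ei D β i) - 4 * (3 / 1000) * ((n + 1 : ℕ) : ℝ) -
        m * (1 + 1 / (3 / 1000)) * Real.log (1 / (1 / 50 : ℝ)) := by
    rw [hE]
    push_cast
    norm_num at hml ⊢
    nlinarith
  calc (∏ i, (2 * (M1 D.body i / vol D.body))) * Real.exp (-(39 / 1000 * ((n : ℝ) + 1)))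
      = ((∏ i, (2 * (M1 D.body i / vol D.body))) * Real.exp (-(∑ k, β k))) *
          Real.exp (∑ k, β k + -(39 / 1000 * ((n : ℝ) + 1))) := by
        rw [mul_assoc, ← Real.exp_add]
        congr 2
        ring
    _ ≤ (∏ i, Zi D β i) * Real.exp (∑ k, β k + -(39 / 1000 * ((n : ℝ) + 1))) :=
        mul_le_mul_of_nonneg_right hZ (Real.exp_pos _).le
    _ ≤ (∏ i, Zi D β i) * Real.exp ((∑ i, Ei D β i) - 4 * (3 / 1000) * ((n + 1 : ℕ) : ℝ) -
          m * (1 + 1 / (3 / 1000)) * Real.log (1 / (1 / 50 : ℝ))) :=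
        mul_le_mul_of_nonneg_left (Real.exp_le_exp.2 hexp) hP.le
    _ ≤ vol D.body := hj

private theorem suOAsm_exp078 : Real.exp (78 / 1000) ≤ 1082 / 1000 := by
  have h := Real.exp_bound' (x := 78 / 1000) (by norm_num) (by norm_num) (n := 3) (by norm_num)
  refine h.trans ?_
  norm_num [Finset.sum_range_succ, Nat.factorial]

theorem orlicz_moments {d m : ℕ} (hd : 0 < d) (D : OData d m)
    (hm : (m : ℝ) ≤ (1 / 1000000) * (d : ℝ)) :
    ∏ i, (M2 D.body i / vol D.body) ≤ (541 / 1000) ^ d * vol D.body ^ 2 := by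
  obtain ⟨n, rfl⟩ : ∃ n, d = n + 1 := ⟨d - 1, by omega⟩
  have hC := D.body_corner
  have hV : 0 < vol D.body := hC.vol_pos
  have hb := body_volume D (by rw [Nat.cast_add, Nat.cast_one] at hm; exact hm)
  have hM : ∀ i, 0 ≤ M1 D.body i := fun i =>
    setIntegral_nonneg hC.measurable fun x hx => hC.nonneg x hx i
  have hM2 : ∀ i, 0 ≤ M2 D.body i := fun i =>
    setIntegral_nonneg hC.measurable fun x _ => sq_nonneg _
  set V : ℝ := vol D.body with hVd
  set Q : ℝ := ∏ i, (2 * (M1 D.body i / V)) with hQd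
  have hQ0 : 0 ≤ Q := Finset.prod_nonneg fun i _ =>
    mul_nonneg (by norm_num) (div_nonneg (hM i) hV.le)
  have h1 : ∏ i, (M2 D.body i / V) ≤ ∏ i, ((1 / 2) * (2 * (M1 D.body i / V)) ^ 2) := by
    refine Finset.prod_le_prod (fun i _ => div_nonneg (hM2 i) hV.le) (fun i _ => ?_)
    have h2 := mom2 hC i
    rw [div_le_iff₀ hV]
    have h3 : (1 / 2) * (2 * (M1 D.body i / V)) ^ 2 * V = 2 * (M1 D.body i) ^ 2 / V := by
      field_simp
    rw [h3, le_div_iff₀ hV]
    exact h2
  have h4 : ∏ i, ((1 / 2) * (2 * (M1 D.body i / V)) ^ 2) = (1 / 2) ^ (n + 1) * Q ^ 2 := by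
    rw [Finset.prod_mul_distrib, Finset.prod_const, Finset.card_univ, Fintype.card_fin,
      Finset.prod_pow]
  rw [h4] at h1
  refine h1.trans ?_
  have h5 : Q ≤ Real.exp (39 / 1000 * ((n : ℝ) + 1)) * V := by
    have h6 : Real.exp (39 / 1000 * ((n : ℝ) + 1)) * (Q * Real.exp (-(39 / 1000 * ((n : ℝ) + 1)))) =
        Q := by
      rw [mul_comm, mul_assoc, ← Real.exp_add, neg_add_cancel, Real.exp_zero, mul_one]
    rw [← h6]
    exact mul_le_mul_of_nonneg_left hb (Real.exp_pos _).le
  have h7 : Q ^ 2 ≤ (1082 / 1000) ^ (n + 1) * V ^ 2 := by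
    have h8 : Q ^ 2 ≤ (Real.exp (39 / 1000 * ((n : ℝ) + 1)) * V) ^ 2 := pow_le_pow_left₀ hQ0 h5 2
    refine h8.trans ?_
    rw [mul_pow]
    refine mul_le_mul_of_nonneg_right ?_ (sq_nonneg _)
    have h9 : Real.exp (39 / 1000 * ((n : ℝ) + 1)) ^ 2 = Real.exp (78 / 1000) ^ (n + 1) := by
      rw [← Real.exp_nat_mul, ← Real.exp_nat_mul]
      congr 1
      push_cast
      ring
    rw [h9]
    exact pow_le_pow_left₀ (Real.exp_pos _).le suOAsm_exp078 (n + 1)
  calc (1 / 2 : ℝ) ^ (n + 1) * Q ^ 2 ≤ (1 / 2) ^ (n + 1) * ((1082 / 1000) ^ (n + 1) * V ^ 2) :=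
        mul_le_mul_of_nonneg_left h7 (by positivity)
    _ = (541 / 1000) ^ (n + 1) * V ^ 2 := by
        rw [← mul_assoc, ← mul_pow]
        norm_num

end Pool.Agent.Lib.MP_29b1bb_gt.SU
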