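import Pool.Agent.Lib.MP_29b1bb_gt.SU.LogDens

/-!
Proof sketch for module LogVol (board SU, MP_29b1bb_gt, helper96).
log_integrable: B is inside a cube [0,R]^d, Fubini in one coordinate (log integrable on [0,R]); for d = n+1 use sec_integrable with the bound sec <= sec 0.
log_vol: induction on d. d = 0: vol B = 1. Step: for t >= 0 with sec B 0 t > 0 the section B(t) = {y : Fin.insertNth 0 t y in B} is a Corner; induction:
n sec(t) + sum_j int_{B(t)} log y_j <= sec(t) log sec(t). Integrate over t (Fubini): n V + sum_{j >= 1} int_B log x_j <= int sec log sec. log_dens for f = sec/V: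
int_B log x_0 + int sec log sec <= V log V - V. Add.
-/

set_option autoImplicit false

open MeasureTheory Set

namespace Pool.Agent.Lib.MP_29b1bb_gt.SU

/-- the section at height `t` of the coordinate `0` -/
private def suLogVol_sl {n : ℕ} (B : Set (Fin (n + 1) → ℝ)) (t : ℝ) : Set (Fin n → ℝ) :=
  {y : Fin n → ℝ | ((0 : Fin (n + 1)).insertNth t y : Fin (n + 1) → ℝ) ∈ B}

private theorem suLogVol_compact {n : ℕ} {B : Set (Fin (n + 1) → ℝ)} (hB : Corner (n + 1) B)
    (t : ℝ) : IsCompact (suLogVol_sl B t) := by
  have hc : Continuous fun y : Fin n → ℝ =>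
      ((0 : Fin (n + 1)).insertNth t y : Fin (n + 1) → ℝ) :=
    continuous_const.finInsertNth 0 continuous_id
  have hp : Continuous fun (x : Fin (n + 1) → ℝ) (j : Fin n) => x ((0 : Fin (n + 1)).succAbove j) :=
    continuous_pi fun j => continuous_apply _
  refine (hB.compact.image hp).of_isClosed_subset (hB.compact.isClosed.preimage hc) ?_
  intro y hy
  refine ⟨(0 : Fin (n + 1)).insertNth t y, hy, ?_⟩
  funext j
  simp

private theorem suLogVol_corner {n : ℕ} {B : Set (Fin (n + 1) → ℝ)} (hB : Corner (n + 1) B)
    (t : ℝ) (hpos : 0 < volume (suLogVol_sl B t)) : Corner n (suLogVol_sl B t) := by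
  refine ⟨suLogVol_compact hB t, ?_, ?_, ?_, hpos⟩
  · intro x hx y hy a b ha hb hab
    have h := hB.convex hx hy ha hb hab
    have e : ((0 : Fin (n + 1)).insertNth t (a • x + b • y) : Fin (n + 1) → ℝ) =
        a • ((0 : Fin (n + 1)).insertNth t x : Fin (n + 1) → ℝ) +
          b • ((0 : Fin (n + 1)).insertNth t y) := by
      funext k
      refine Fin.succAboveCases (0 : Fin (n + 1)) ?_ (fun j => ?_) k
      · simp [← add_mul, hab]
      · simp
    change ((0 : Fin (n + 1)).insertNth t (a • x + b • y) : Fin (n + 1) → ℝ) ∈ B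
    rw [e]
    exact h
  · intro y hy j
    have h := hB.nonneg _ hy ((0 : Fin (n + 1)).succAbove j)
    simpa using h
  · intro y hy z hz hzy
    have ht : 0 ≤ t := by
      have h := hB.nonneg _ hy 0
      simpa using h
    refine hB.down _ hy _ ?_ ?_
    · intro k
      refine Fin.succAboveCases (0 : Fin (n + 1)) ?_ (fun j => ?_) k
      · simpa using ht
      · simpa using hz j
    · intro k
      refine Fin.succAboveCases (0 : Fin (n + 1)) ?_ (fun j => ?_) k
      · simp
      · simpa using hzy j

private theorem suLogVol_fub {n : ℕ} {B : Set (Fin (n + 1) → ℝ)} (hB : Corner (n + 1) B)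
    (g : (Fin (n + 1) → ℝ) → ℝ) (hg : IntegrableOn g B) :
    IntegrableOn (fun t : ℝ => ∫ y in suLogVol_sl B t,
      g ((0 : Fin (n + 1)).insertNth t y : Fin (n + 1) → ℝ)) (Ici 0) ∧
    ∫ x in B, g x = ∫ t in Ici (0 : ℝ), ∫ y in suLogVol_sl B t,
      g ((0 : Fin (n + 1)).insertNth t y : Fin (n + 1) → ℝ) := by
  set e := MeasurableEquiv.piFinSuccAbove (fun _ : Fin (n + 1) => ℝ) 0 with he
  have mp : MeasurePreserving e.symm volume volume :=
    (volume_preserving_piFinSuccAbove (fun _ : Fin (n + 1) => ℝ) 0).symm e
  have hint : Integrable (fun z : ℝ × (Fin n → ℝ) => B.indicator g (e.symm z)) volume :=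
    (mp.integrable_comp_emb e.symm.measurableEmbedding).2
      ((integrable_indicator_iff hB.measurable).2 hg)
  rw [Measure.volume_eq_prod] at hint
  have hinner : ∀ t : ℝ, ∫ y, B.indicator g (e.symm (t, y)) =
      ∫ y in suLogVol_sl B t, g ((0 : Fin (n + 1)).insertNth t y : Fin (n + 1) → ℝ) := by
    intro t
    rw [← integral_indicator (suLogVol_compact hB t).measurableSet]
    congr 1
  have hneg : ∀ t : ℝ, t ∉ Ici (0 : ℝ) →
      ∫ y in suLogVol_sl B t, g ((0 : Fin (n + 1)).insertNth t y : Fin (n + 1) → ℝ) = 0 := by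
    intro t ht
    have h0 : suLogVol_sl B t = ∅ := by
      rw [eq_empty_iff_forall_notMem]
      intro y hy
      have h := hB.nonneg _ hy 0
      apply ht
      simpa using h
    rw [h0]
    simp
  have h1 : Integrable (fun t : ℝ => ∫ y in suLogVol_sl B t,
      g ((0 : Fin (n + 1)).insertNth t y : Fin (n + 1) → ℝ)) volume := by
    have h := hint.integral_prod_left
    simpa only [hinner] using h
  refine ⟨h1.integrableOn, ?_⟩
  rw [← integral_indicator hB.measurable, ← mp.integral_comp' (fun x => B.indicator g x),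
    Measure.volume_eq_prod, integral_prod _ hint]
  simp only [hinner]
  exact (setIntegral_eq_integral_of_forall_compl_eq_zero hneg).symm

private theorem suLogVol_one {n : ℕ} {B : Set (Fin (n + 1) → ℝ)} (hB : Corner (n + 1) B)
    (i : Fin (n + 1)) : ∫ t in Ici (0 : ℝ), sec B i t = vol B := by
  have h := sec_integral hB i (fun _ => 1) measurable_const
  simp only [one_mul] at h
  rw [← h]
  simp [vol, Measure.real]

/-- consequences of `log_dens` for the section function -/
private theorem suLogVol_dens {n : ℕ} {B : Set (Fin (n + 1) → ℝ)} (hB : Corner (n + 1) B)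
    (i : Fin (n + 1)) :
    IntegrableOn (sec B i) (Ici 0) ∧
    IntegrableOn (fun t => Real.log t * sec B i t) (Ici 0) ∧
    IntegrableOn (fun t => sec B i t * Real.log (sec B i t)) (Ici 0) ∧
    (∫ t in Ici (0 : ℝ), Real.log t * sec B i t) +
      (∫ t in Ici (0 : ℝ), sec B i t * Real.log (sec B i t)) ≤
      vol B * Real.log (vol B) - vol B := by
  have hV := hB.vol_pos
  obtain ⟨R, hR, hR0⟩ := sec_bdd hB i
  have h1 : ∫ t in Ici (0 : ℝ), sec B i t / vol B = 1 := by
    rw [integral_div, suLogVol_one hB i]
    exact div_self hV.ne'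
  obtain ⟨I1, I2, I3⟩ := log_dens (fun t => sec B i t / vol B)
    (fun x hx y hy hxy => div_le_div_of_nonneg_right (sec_antitone hB i hx hy hxy) hV.le)
    (fun t _ => div_nonneg (sec_nonneg B i t) hV.le) R
    (fun t ht => by rw [hR0 t ht, zero_div]) h1
  have hs : IntegrableOn (sec B i) (Ici 0) := by
    have h := (sec_integrable hB i (fun _ => 1) measurable_const).1
      (integrableOn_const hB.finite)
    simpa using h
  have J1 : IntegrableOn (fun t => Real.log t * sec B i t) (Ici 0) := by
    have h := I1.mul_const (vol B)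
    refine h.congr (Filter.Eventually.of_forall fun t => ?_)
    simp only
    field_simp
  have hid : ∀ t, sec B i t * Real.log (sec B i t) =
      Real.log (sec B i t / vol B) * (sec B i t / vol B) * vol B +
        sec B i t * Real.log (vol B) := by
    intro t
    rcases eq_or_lt_of_le (sec_nonneg B i t) with h | h
    · rw [← h]; simp
    · rw [Real.log_div h.ne' hV.ne']
      field_simp
      ring
  have J2 : IntegrableOn (fun t => sec B i t * Real.log (sec B i t)) (Ici 0) := by
    have h := (I2.mul_const (vol B)).add (hs.mul_const (Real.log (vol B)))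
    refine h.congr (Filter.Eventually.of_forall fun t => ?_)
    simp only [Pi.add_apply]
    exact (hid t).symm
  refine ⟨hs, J1, J2, ?_⟩
  have e1 : ∫ t in Ici (0 : ℝ), Real.log t * (sec B i t / vol B) =
      (∫ t in Ici (0 : ℝ), Real.log t * sec B i t) / vol B := by
    rw [← integral_div]
    congr 1
    funext t
    ring
  have e2 : ∫ t in Ici (0 : ℝ), sec B i t * Real.log (sec B i t) =
      (∫ t in Ici (0 : ℝ), Real.log (sec B i t / vol B) * (sec B i t / vol B)) * vol B +
        vol B * Real.log (vol B) := by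
    have h3 : ∫ t in Ici (0 : ℝ), sec B i t * Real.log (sec B i t) =
        ∫ t in Ici (0 : ℝ), (Real.log (sec B i t / vol B) * (sec B i t / vol B) * vol B +
          sec B i t * Real.log (vol B)) := by
      congr 1
      funext t
      exact hid t
    rw [h3, integral_add (I2.mul_const (vol B)) (hs.mul_const (Real.log (vol B))),
      integral_mul_const, integral_mul_const, suLogVol_one hB i]
  have I3' : (∫ t in Ici (0 : ℝ), Real.log t * sec B i t) / vol B +
      (∫ t in Ici (0 : ℝ), Real.log (sec B i t / vol B) * (sec B i t / vol B)) ≤ -1 := by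
    rw [← e1]
    exact I3
  have h4 := mul_le_mul_of_nonneg_right I3' hV.le
  rw [add_mul, div_mul_cancel₀ _ hV.ne'] at h4
  rw [e2]
  linarith

theorem log_integrable {d : ℕ} {B : Set (Fin d → ℝ)} (hB : Corner d B) (i : Fin d) :
    IntegrableOn (fun x : Fin d → ℝ => Real.log (x i)) B := by
  rcases d with _ | n
  · exact i.elim0
  · exact (sec_integrable hB i Real.log Real.measurable_log).2 (suLogVol_dens hB i).2.1

private theorem suLogVol_key (d : ℕ) : ∀ B : Set (Fin d → ℝ), Corner d B →
    (d : ℝ) * vol B + ∑ i, ∫ x in B, Real.log (x i) ≤ vol B * Real.log (vol B) := by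
  induction d with
  | zero =>
    intro B hB
    have hne : B.Nonempty := by
      rw [nonempty_iff_ne_empty]
      rintro rfl
      exact absurd hB.pos (by simp)
    obtain ⟨x, hx⟩ := hne
    have hu : B = univ := by
      ext y
      simp only [mem_univ, iff_true]
      rwa [Subsingleton.elim y x]
    have hv : vol B = 1 := by
      rw [hu]
      unfold vol
      rw [volume_pi, Measure.pi_univ]
      simp
    rw [hv]
    simp
  | succ n ih =>
    intro B hB
    have hV := hB.vol_pos
    obtain ⟨hs, J1, J2, J3⟩ := suLogVol_dens hB 0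
    have hfub : ∀ j : Fin n, IntegrableOn (fun t : ℝ => ∫ y in suLogVol_sl B t, Real.log (y j))
          (Ici 0) ∧
        ∫ x in B, Real.log (x j.succ) =
          ∫ t in Ici (0 : ℝ), ∫ y in suLogVol_sl B t, Real.log (y j) := by
      intro j
      have h := suLogVol_fub hB (fun x => Real.log (x j.succ)) (log_integrable hB j.succ)
      have h1 : ∀ (t : ℝ) (y : Fin n → ℝ),
          ((0 : Fin (n + 1)).insertNth t y : Fin (n + 1) → ℝ) j.succ = y j := by
        intro t y
        rw [← Fin.zero_succAbove j, Fin.insertNth_apply_succAbove]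
      simp only [h1] at h
      exact h
    have hslice : ∀ t : ℝ, (n : ℝ) * sec B 0 t +
        ∑ j, ∫ y in suLogVol_sl B t, Real.log (y j) ≤ sec B 0 t * Real.log (sec B 0 t) := by
      intro t
      rcases eq_or_ne (volume (suLogVol_sl B t)) 0 with h | h
      · have h0 : sec B 0 t = 0 := by
          change (volume (suLogVol_sl B t)).toReal = 0
          rw [h]
          rfl
        have h1 : ∀ j : Fin n, ∫ y in suLogVol_sl B t, Real.log (y j) = 0 := fun j =>
          setIntegral_measure_zero _ h
        rw [h0, Finset.sum_congr rfl fun j _ => h1 j]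
        simp
      · exact ih _ (suLogVol_corner hB t (pos_iff_ne_zero.2 h))
    have hsum : IntegrableOn (fun t : ℝ => ∑ j, ∫ y in suLogVol_sl B t, Real.log (y j))
        (Ici 0) := integrable_finsetSum _ fun j _ => (hfub j).1
    have hmono : ∫ t in Ici (0 : ℝ), ((n : ℝ) * sec B 0 t +
        ∑ j, ∫ y in suLogVol_sl B t, Real.log (y j)) ≤
          ∫ t in Ici (0 : ℝ), sec B 0 t * Real.log (sec B 0 t) :=
      integral_mono ((hs.const_mul (n : ℝ)).add hsum) J2 hslice
    rw [integral_add (hs.const_mul (n : ℝ)) hsum, integral_const_mul, suLogVol_one hB 0,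
      integral_finsetSum _ fun j _ => (hfub j).1] at hmono
    have h0 : ∫ x in B, Real.log (x 0) = ∫ t in Ici (0 : ℝ), Real.log t * sec B 0 t :=
      sec_integral hB 0 Real.log Real.measurable_log
    rw [Fin.sum_univ_succ, Finset.sum_congr rfl fun j _ => (hfub j).2, h0]
    push_cast
    linarith

/-- The volume of a corner is at least `exp (d + E log ∏ xᵢ)`. -/
theorem log_vol {d : ℕ} {B : Set (Fin d → ℝ)} (hB : Corner d B) :
    (d : ℝ) + (∑ i, ∫ x in B, Real.log (x i)) / vol B ≤ Real.log (vol B) := by
  have hV := hB.vol_pos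
  have h := suLogVol_key d B hB
  have h1 : (d : ℝ) + (∑ i, ∫ x in B, Real.log (x i)) / vol B =
      ((d : ℝ) * vol B + ∑ i, ∫ x in B, Real.log (x i)) / vol B := by
    field_simp
  rw [h1, div_le_iff₀ hV]
  linarith

end Pool.Agent.Lib.MP_29b1bb_gt.SU
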