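import Pool.Agent.Lib.MP_29b1bb_gt.SU.Defs

/-!
Proof sketch for module SecA (board SU, MP_29b1bb_gt, helper96).
Hints. MeasurableEquiv.piFinSuccAbove (fun _ => R) i and volume_preserving_piFinSuccAbove identify volume on Fin (n+1) -> R with the product; the section
{y : i.insertNth t y in B} is the slice. Sections are compact, contained in a bounded set, empty for t < 0 and for t > R. sec_antitone: B is down-closed.
sec_integral: the map of volume.restrict B by x -> x i has density sec B i with respect to volume on [0,oo); use integral_map and integral_withDensity_eq_integral_toReal_smul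
or Fubini directly; both sides are 0 when not integrable (sec_integrable gives the equivalence).
-/

set_option autoImplicit false

open MeasureTheory Set

namespace Pool.Agent.Lib.MP_29b1bb_gt.SU

theorem sec_nonneg {n : ℕ} (B : Set (Fin (n + 1) → ℝ)) (i : Fin (n + 1)) (t : ℝ) :
    0 ≤ sec B i t := ENNReal.toReal_nonneg

namespace SecA

/-- the section -/
def slice {n : ℕ} (B : Set (Fin (n + 1) → ℝ)) (i : Fin (n + 1)) (t : ℝ) : Set (Fin n → ℝ) :=
  {y : Fin n → ℝ | (i.insertNth t y : Fin (n + 1) → ℝ) ∈ B}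

/-- the measurable equivalence with the product -/
noncomputable def eqv (n : ℕ) (i : Fin (n + 1)) : (Fin (n + 1) → ℝ) ≃ᵐ ℝ × (Fin n → ℝ) :=
  MeasurableEquiv.piFinSuccAbove (fun _ : Fin (n + 1) => ℝ) i

theorem eqv_symm (n : ℕ) (i : Fin (n + 1)) (p : ℝ × (Fin n → ℝ)) :
    (eqv n i).symm p = (i.insertNth p.1 p.2 : Fin (n + 1) → ℝ) := rfl

theorem eqv_apply_fst (n : ℕ) (i : Fin (n + 1)) (x : Fin (n + 1) → ℝ) :
    ((eqv n i) x).1 = x i := rfl

theorem eqv_mp (n : ℕ) (i : Fin (n + 1)) : MeasurePreserving (eqv n i) volume volume :=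
  volume_preserving_piFinSuccAbove (fun _ : Fin (n + 1) => ℝ) i

theorem slice_eq {n : ℕ} (B : Set (Fin (n + 1) → ℝ)) (i : Fin (n + 1)) (t : ℝ) :
    slice B i t = Prod.mk t ⁻¹' ((eqv n i).symm ⁻¹' B) := rfl

theorem continuous_insert {n : ℕ} (i : Fin (n + 1)) (t : ℝ) :
    Continuous fun y : Fin n → ℝ => (i.insertNth t y : Fin (n + 1) → ℝ) := by
  refine continuous_pi fun j => ?_
  rcases Fin.eq_self_or_eq_succAbove i j with h | ⟨k, hk⟩
  · subst h
    simpa using continuous_const
  · subst hk
    simpa using continuous_apply k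

theorem slice_compact {n : ℕ} {B : Set (Fin (n + 1) → ℝ)} (hB : Corner (n + 1) B)
    (i : Fin (n + 1)) (t : ℝ) : IsCompact (slice B i t) := by
  have h1 : IsCompact ((fun x : Fin (n + 1) → ℝ => fun k : Fin n => x (i.succAbove k)) '' B) :=
    hB.compact.image (by fun_prop)
  refine h1.of_isClosed_subset (hB.compact.isClosed.preimage (continuous_insert i t)) ?_
  intro y hy
  refine ⟨_, hy, ?_⟩
  funext k
  simp

theorem slice_lt_top {n : ℕ} {B : Set (Fin (n + 1) → ℝ)} (hB : Corner (n + 1) B)
    (i : Fin (n + 1)) (t : ℝ) : volume (slice B i t) < ⊤ :=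
  (slice_compact hB i t).measure_lt_top

theorem slice_measurable {n : ℕ} {B : Set (Fin (n + 1) → ℝ)} (hB : Corner (n + 1) B)
    (i : Fin (n + 1)) : Measurable fun t => volume (slice B i t) :=
  measurable_measure_prodMk_left ((eqv n i).symm.measurable hB.measurable)

theorem slice_neg {n : ℕ} {B : Set (Fin (n + 1) → ℝ)} (hB : Corner (n + 1) B)
    (i : Fin (n + 1)) {t : ℝ} (ht : t < 0) : slice B i t = ∅ := by
  rw [Set.eq_empty_iff_forall_notMem]
  intro y hy
  have h := hB.nonneg _ hy i
  simp at h
  linarith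

/-- the law of a coordinate -/
theorem map_coord {n : ℕ} {B : Set (Fin (n + 1) → ℝ)} (hB : Corner (n + 1) B)
    (i : Fin (n + 1)) :
    Measure.map (fun x : Fin (n + 1) → ℝ => x i) (volume.restrict B) =
      (volume.restrict (Ici (0 : ℝ))).withDensity fun t => volume (slice B i t) := by
  refine Measure.ext fun A hA => ?_
  have hcoord : Measurable fun x : Fin (n + 1) → ℝ => x i := measurable_pi_apply i
  rw [Measure.map_apply hcoord hA, Measure.restrict_apply (hcoord hA),
    withDensity_apply _ hA]
  have e1 : (fun x : Fin (n + 1) → ℝ => x i) ⁻¹' A ∩ B =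
      (eqv n i) ⁻¹' ((Prod.fst ⁻¹' A) ∩ ((eqv n i).symm ⁻¹' B)) := by
    ext x
    simp only [mem_inter_iff, mem_preimage, MeasurableEquiv.symm_apply_apply, eqv_apply_fst]
  have hm : MeasurableSet ((Prod.fst ⁻¹' A) ∩ ((eqv n i).symm ⁻¹' B) : Set (ℝ × (Fin n → ℝ))) :=
    (measurable_fst hA).inter ((eqv n i).symm.measurable hB.measurable)
  rw [e1, (eqv_mp n i).measure_preimage hm.nullMeasurableSet, Measure.volume_eq_prod,
    Measure.prod_apply hm]
  have e2 : ∀ t : ℝ, volume (Prod.mk t ⁻¹' ((Prod.fst ⁻¹' A) ∩ ((eqv n i).symm ⁻¹' B) :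
      Set (ℝ × (Fin n → ℝ)))) = (A ∩ Ici 0).indicator (fun t => volume (slice B i t)) t := by
    intro t
    by_cases h1 : t ∈ A
    · by_cases h2 : 0 ≤ t
      · rw [indicator_of_mem (show t ∈ A ∩ Ici 0 from ⟨h1, h2⟩)]
        congr 1
        ext y
        simp [slice_eq, h1]
      · rw [indicator_of_notMem (fun h => h2 h.2)]
        refine measure_mono_null (t := slice B i t) ?_ ?_
        · intro y hy
          exact hy.2
        · rw [slice_neg hB i (not_le.1 h2)]
          exact measure_empty
    · rw [indicator_of_notMem (fun h => h1 h.1)]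
      refine measure_mono_null (t := (∅ : Set (Fin n → ℝ))) ?_ measure_empty
      intro y hy
      exact absurd hy.1 h1
  rw [lintegral_congr e2, lintegral_indicator (hA.inter measurableSet_Ici),
    Measure.restrict_restrict hA]

end SecA

open SecA in
theorem sec_measurable {n : ℕ} {B : Set (Fin (n + 1) → ℝ)} (hB : Corner (n + 1) B)
    (i : Fin (n + 1)) : Measurable (sec B i) :=
  (slice_measurable hB i).ennreal_toReal

open SecA in
theorem sec_antitone {n : ℕ} {B : Set (Fin (n + 1) → ℝ)} (hB : Corner (n + 1) B)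
    (i : Fin (n + 1)) : AntitoneOn (sec B i) (Ici 0) := by
  intro s hs t ht hst
  refine ENNReal.toReal_mono (slice_lt_top hB i s).ne (measure_mono ?_)
  intro y hy
  have hy' : (i.insertNth t y : Fin (n + 1) → ℝ) ∈ B := hy
  refine hB.down _ hy' _ ?_ ?_
  · intro j
    rcases Fin.eq_self_or_eq_succAbove i j with h | ⟨k, hk⟩
    · subst h
      simpa using hs
    · subst hk
      have := hB.nonneg _ hy' (i.succAbove k)
      simpa using this
  · intro j
    rcases Fin.eq_self_or_eq_succAbove i j with h | ⟨k, hk⟩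
    · subst h
      simpa using hst
    · subst hk
      simp

open SecA in
theorem sec_bdd {n : ℕ} {B : Set (Fin (n + 1) → ℝ)} (hB : Corner (n + 1) B)
    (i : Fin (n + 1)) : ∃ R : ℝ, 0 < R ∧ ∀ t, R < t → sec B i t = 0 := by
  obtain ⟨C, hC⟩ := hB.compact.exists_bound_of_continuousOn
    (f := fun x : Fin (n + 1) → ℝ => x i) (continuous_apply i).continuousOn
  refine ⟨max C 1, lt_max_of_lt_right one_pos, fun t ht => ?_⟩
  have h : slice B i t = ∅ := by
    rw [Set.eq_empty_iff_forall_notMem]
    intro y hy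
    have h1 := hC _ hy
    simp only [Fin.insertNth_apply_same, Real.norm_eq_abs] at h1
    have h2 := le_abs_self t
    have h3 := le_max_left C 1
    linarith
  have : volume (slice B i t) = 0 := by rw [h]; exact measure_empty
  change (volume (slice B i t)).toReal = 0
  rw [this]
  rfl

open SecA in
/-- Fubini: integrals over `B` of functions of one coordinate. -/
theorem sec_integral {n : ℕ} {B : Set (Fin (n + 1) → ℝ)} (hB : Corner (n + 1) B)
    (i : Fin (n + 1)) (φ : ℝ → ℝ) (hφ : Measurable φ) :
    ∫ x in B, φ (x i) = ∫ t in Ici (0 : ℝ), φ t * sec B i t := by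
  have hcoord : Measurable fun x : Fin (n + 1) → ℝ => x i := measurable_pi_apply i
  rw [← integral_map (φ := fun x : Fin (n + 1) → ℝ => x i) hcoord.aemeasurable
    hφ.aestronglyMeasurable, map_coord hB i,
    integral_withDensity_eq_integral_toReal_smul (slice_measurable hB i)
      (Filter.Eventually.of_forall fun t => slice_lt_top hB i t)]
  refine integral_congr_ae (Filter.Eventually.of_forall fun t => ?_)
  simp only [smul_eq_mul]
  rw [mul_comm]
  rfl

open SecA in
theorem sec_integrable {n : ℕ} {B : Set (Fin (n + 1) → ℝ)} (hB : Corner (n + 1) B)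
    (i : Fin (n + 1)) (φ : ℝ → ℝ) (hφ : Measurable φ) :
    IntegrableOn (fun x : Fin (n + 1) → ℝ => φ (x i)) B ↔
      IntegrableOn (fun t : ℝ => φ t * sec B i t) (Ici 0) := by
  have hcoord : Measurable fun x : Fin (n + 1) → ℝ => x i := measurable_pi_apply i
  have h1 := integrable_map_measure (μ := volume.restrict B)
    (f := fun x : Fin (n + 1) → ℝ => x i) (g := φ) hφ.aestronglyMeasurable hcoord.aemeasurable
  have h2 := integrable_withDensity_iff_integrable_smul' (μ := volume.restrict (Ici (0 : ℝ)))
    (slice_measurable hB i) (Filter.Eventually.of_forall fun t => slice_lt_top hB i t) (g := φ)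
  rw [← map_coord hB i, h1] at h2
  refine h2.trans (iff_of_eq ?_)
  unfold IntegrableOn
  congr 1
  funext t
  simp only [smul_eq_mul]
  rw [mul_comm]
  rfl

end Pool.Agent.Lib.MP_29b1bb_gt.SU
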