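import Pool.Agent.Lib.MP_29b1bb_gt.SU.BM
import Pool.Agent.Lib.MP_29b1bb_gt.SU.SecA
/-!
Proof sketch for module SecB (board SU, MP_29b1bb_gt, helper96).
Proof. sec_concave: the sections B(s), B(t) (s,t >= 0) are compact, nonnegative, down-closed, and (1-l)B(s) + l B(t) is in B((1-l)s + lt) by convexity; bm.
(real powers: ENNReal.toReal_rpow, finiteness.) sec_four: if x = y or u = 0 easy (equality / commutativity); otherwise put l = u/(y+u-x) in (0,1):
x+u = (1-l) x + l (y+u), y = l x + (1-l)(y+u); multiply the two instances of sec_concave.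
sec_two: for a in B(s), b in B(t) the point ((1-l)s+.., ) : with r = sqrt((1-l)s^2+l t^2) the vector (r, sqrt((1-l)a^2+l b^2)) is in B by h2, and (1-l)a+l b <= sqrt((1-l)a^2+l b^2)
coordinatewise, so (1-l)B(s)+lB(t) is in B(r) (down-closed); bm.
-/

set_option autoImplicit false

open MeasureTheory Set

namespace Pool.Agent.Lib.MP_29b1bb_gt.SU

private def suSecB_set {n : ℕ} (B : Set (Fin (n + 1) → ℝ)) (i : Fin (n + 1)) (t : ℝ) :
    Set (Fin n → ℝ) := {y : Fin n → ℝ | (i.insertNth t y : Fin (n + 1) → ℝ) ∈ B}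

private theorem suSecB_compact {n : ℕ} {B : Set (Fin (n + 1) → ℝ)} (hB : Corner (n + 1) B)
    (i : Fin (n + 1)) (t : ℝ) : IsCompact (suSecB_set B i t) := by
  have hc : Continuous fun y : Fin n → ℝ => (i.insertNth t y : Fin (n + 1) → ℝ) :=
    continuous_const.finInsertNth i continuous_id
  have hp : Continuous fun (x : Fin (n + 1) → ℝ) (j : Fin n) => x (i.succAbove j) :=
    continuous_pi fun j => continuous_apply _
  refine (hB.compact.image hp).of_isClosed_subset (hB.compact.isClosed.preimage hc) ?_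
  intro y hy
  refine ⟨i.insertNth t y, hy, ?_⟩
  funext j
  simp

private theorem suSecB_nonneg {n : ℕ} {B : Set (Fin (n + 1) → ℝ)} (hB : Corner (n + 1) B)
    (i : Fin (n + 1)) (t : ℝ) : ∀ y ∈ suSecB_set B i t, ∀ j, 0 ≤ y j := by
  intro y hy j
  have h := hB.nonneg _ hy (i.succAbove j)
  simpa using h

private theorem suSecB_down {n : ℕ} {B : Set (Fin (n + 1) → ℝ)} (hB : Corner (n + 1) B)
    (i : Fin (n + 1)) (t : ℝ) : ∀ y ∈ suSecB_set B i t, ∀ z : Fin n → ℝ,
      (∀ j, 0 ≤ z j) → (∀ j, z j ≤ y j) → z ∈ suSecB_set B i t := by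
  intro y hy z hz hzy
  have ht : 0 ≤ t := by
    have h := hB.nonneg _ hy i
    simpa using h
  refine hB.down _ hy _ ?_ ?_
  · intro k
    refine Fin.succAboveCases i ?_ (fun j => ?_) k
    · simpa using ht
    · simpa using hz j
  · intro k
    refine Fin.succAboveCases i ?_ (fun j => ?_) k
    · simp
    · simpa using hzy j

private theorem suSecB_bm {n : ℕ} {B : Set (Fin (n + 1) → ℝ)} (hB : Corner (n + 1) B)
    (i : Fin (n + 1)) (l : ℝ) (h0 : 0 < l) (h1 : l < 1) (s t r : ℝ)
    (h : ∀ x ∈ suSecB_set B i s, ∀ y ∈ suSecB_set B i t,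
      (1 - l) • x + l • y ∈ suSecB_set B i r) :
    sec B i s ^ (1 - l) * sec B i t ^ l ≤ sec B i r := by
  have hb := bm n l h0 h1 (suSecB_set B i s) (suSecB_set B i t) (suSecB_set B i r)
    (suSecB_compact hB i s) (suSecB_compact hB i t) (suSecB_compact hB i r)
    (suSecB_nonneg hB i s) (suSecB_nonneg hB i t) (suSecB_down hB i s) (suSecB_down hB i t) h
  have hf : volume (suSecB_set B i r) ≠ ⊤ := (suSecB_compact hB i r).measure_lt_top.ne
  have h2 := ENNReal.toReal_mono hf hb
  rw [ENNReal.toReal_mul, ← ENNReal.toReal_rpow, ← ENNReal.toReal_rpow] at h2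
  exact h2

theorem sec_concave {n : ℕ} {B : Set (Fin (n + 1) → ℝ)} (hB : Corner (n + 1) B)
    (i : Fin (n + 1)) (l : ℝ) (h0 : 0 < l) (h1 : l < 1) (s t : ℝ) (hs : 0 ≤ s) (ht : 0 ≤ t) :
    sec B i s ^ (1 - l) * sec B i t ^ l ≤ sec B i ((1 - l) * s + l * t) := by
  refine suSecB_bm hB i l h0 h1 s t _ ?_
  intro x hx y hy
  have h := hB.convex hx hy (by linarith : 0 ≤ 1 - l) h0.le (by ring)
  have e : (i.insertNth ((1 - l) * s + l * t) ((1 - l) • x + l • y) : Fin (n + 1) → ℝ) =
      (1 - l) • (i.insertNth s x : Fin (n + 1) → ℝ) + l • (i.insertNth t y) := by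
    funext k
    refine Fin.succAboveCases i ?_ (fun j => ?_) k
    · simp
    · simp
  show (i.insertNth ((1 - l) * s + l * t) ((1 - l) • x + l • y) : Fin (n + 1) → ℝ) ∈ B
  rw [e]
  exact h

theorem sec_four {n : ℕ} {B : Set (Fin (n + 1) → ℝ)} (hB : Corner (n + 1) B)
    (i : Fin (n + 1)) (x y u : ℝ) (hx : 0 ≤ x) (hxy : x ≤ y) (hu : 0 ≤ u) :
    sec B i x * sec B i (y + u) ≤ sec B i (x + u) * sec B i y := by
  rcases eq_or_lt_of_le hxy with rfl | hlt
  · rw [mul_comm]
  rcases eq_or_lt_of_le hu with rfl | hu0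
  · rw [add_zero, add_zero]
  have hd : 0 < y + u - x := by linarith
  set l : ℝ := u / (y + u - x) with hl
  have hl0 : 0 < l := div_pos hu0 hd
  have hl1 : l < 1 := by
    rw [hl, div_lt_one hd]
    linarith
  have hld : l * (y + u - x) = u := div_mul_cancel₀ u hd.ne'
  have A := sec_concave hB i l hl0 hl1 x (y + u) hx (by linarith)
  have C := sec_concave hB i (1 - l) (by linarith) (by linarith) x (y + u) hx (by linarith)
  have e1 : (1 - l) * x + l * (y + u) = x + u := by
    have : (1 - l) * x + l * (y + u) = x + l * (y + u - x) := by ring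
    rw [this, hld]
  have e2 : (1 - (1 - l)) * x + (1 - l) * (y + u) = y := by
    have : (1 - (1 - l)) * x + (1 - l) * (y + u) = y + u - l * (y + u - x) := by ring
    rw [this, hld]
    ring
  have e3 : (1 : ℝ) - (1 - l) = l := by ring
  rw [e1] at A
  rw [e2, e3] at C
  have hsx := sec_nonneg B i x
  have hsy := sec_nonneg B i (y + u)
  have f1 : sec B i x ^ (1 - l) * sec B i x ^ l = sec B i x := by
    rw [← Real.rpow_add_of_nonneg hsx (by linarith) hl0.le, sub_add_cancel, Real.rpow_one]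
  have f2 : sec B i (y + u) ^ l * sec B i (y + u) ^ (1 - l) = sec B i (y + u) := by
    rw [← Real.rpow_add_of_nonneg hsy hl0.le (by linarith), add_sub_cancel, Real.rpow_one]
  calc sec B i x * sec B i (y + u)
      = (sec B i x ^ (1 - l) * sec B i (y + u) ^ l) *
          (sec B i x ^ l * sec B i (y + u) ^ (1 - l)) := by
        rw [← f1, ← f2, f1, f2]
        conv_lhs => rw [← f1, ← f2]
        ring
    _ ≤ sec B i (x + u) * sec B i y := by
        refine mul_le_mul A C ?_ (sec_nonneg B i _)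
        exact mul_nonneg (Real.rpow_nonneg hsx _) (Real.rpow_nonneg hsy _)

theorem sec_two {n : ℕ} {B : Set (Fin (n + 1) → ℝ)} (hB : Corner (n + 1) B)
    (h2 : ∀ x ∈ B, ∀ y ∈ B, ∀ l ∈ Icc (0 : ℝ) 1,
      (fun j => Real.sqrt ((1 - l) * x j ^ 2 + l * y j ^ 2)) ∈ B)
    (i : Fin (n + 1)) (l : ℝ) (h0 : 0 < l) (h1 : l < 1) (s t : ℝ) (hs : 0 ≤ s) (ht : 0 ≤ t) :
    sec B i s ^ (1 - l) * sec B i t ^ l ≤ sec B i (Real.sqrt ((1 - l) * s ^ 2 + l * t ^ 2)) := by
  refine suSecB_bm hB i l h0 h1 s t _ ?_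
  intro x hx y hy
  have h := h2 _ hx _ hy l ⟨h0.le, h1.le⟩
  refine hB.down _ h _ ?_ ?_
  · intro k
    refine Fin.succAboveCases i ?_ (fun j => ?_) k
    · simp
    · have a := suSecB_nonneg hB i s x hx j
      have b := suSecB_nonneg hB i t y hy j
      have : 0 ≤ (1 - l) * x j + l * y j :=
        add_nonneg (mul_nonneg (by linarith) a) (mul_nonneg h0.le b)
      simpa using this
  · intro k
    refine Fin.succAboveCases i ?_ (fun j => ?_) k
    · simp
    · have : (1 - l) * x j + l * y j ≤ Real.sqrt ((1 - l) * x j ^ 2 + l * y j ^ 2) := by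
        refine Real.le_sqrt_of_sq_le ?_
        nlinarith [mul_nonneg (mul_nonneg h0.le (by linarith : (0 : ℝ) ≤ 1 - l))
          (sq_nonneg (x j - y j))]
      simpa using this

end Pool.Agent.Lib.MP_29b1bb_gt.SU
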