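import Pool.Agent.Lib.MP_29b1bb_gt.SU.Cross
import Pool.Agent.Lib.MP_29b1bb_gt.SU.LogVol
import Pool.Agent.Lib.MP_29b1bb_gt.SU.SecB
/-!
Proof sketch for module TAsm (board SU, MP_29b1bb_gt, helper96).
Proof. d = 0: trivial (vol B = 1). d = n+1: for each i, cross for f = sec B i (sec_two, sec_integral): (1/V) int_B log x_i >= (1/2) log(M2/V) - (gamma+log 2)/2. Sum and log_vol:
log V >= d + sum_i [(1/2) log(M2_i/V) - (gamma + log 2)/2], so log prod (M2/V) <= 2 log V - d (2 - gamma - log 2), gamma < 2/3 (Real.eulerMascheroniConstant_lt_two_thirds), log 2 < 0.6931471808: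
2 - gamma - log 2 > 0.64 and exp(-0.64) < 0.541 (0.5273).
-/

set_option autoImplicit false

open MeasureTheory Set

namespace Pool.Agent.Lib.MP_29b1bb_gt.SU

private theorem suTAsm_exp (c : ℝ) (hc : 64 / 100 ≤ c) : Real.exp (-c) ≤ 541 / 1000 := by
  have h1 : Real.exp (-c) ≤ Real.exp (-(16 * (4 / 100))) := Real.exp_le_exp.2 (by linarith)
  have h2 : (104 / 100 : ℝ) ≤ Real.exp (4 / 100) := by
    have := Real.add_one_le_exp (4 / 100 : ℝ)
    linarith
  have h3 : (104 / 100 : ℝ) ^ 16 ≤ Real.exp (16 * (4 / 100)) := by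
    have h4 : Real.exp (16 * (4 / 100)) = Real.exp (4 / 100) ^ 16 := by
      rw [← Real.exp_nat_mul]
      norm_num
    rw [h4]
    exact pow_le_pow_left₀ (by norm_num) h2 16
  refine h1.trans ?_
  rw [Real.exp_neg]
  have h5 : (1000 / 541 : ℝ) ≤ Real.exp (16 * (4 / 100)) := le_trans (by norm_num) h3
  calc (Real.exp (16 * (4 / 100)))⁻¹ ≤ (1000 / 541 : ℝ)⁻¹ :=
        inv_anti₀ (by norm_num) h5
    _ = 541 / 1000 := by norm_num

private theorem suTAsm_coord {n : ℕ} {B : Set (Fin (n + 1) → ℝ)} (hB : Corner (n + 1) B)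
    (h2 : ∀ x ∈ B, ∀ y ∈ B, ∀ l ∈ Icc (0 : ℝ) 1,
      (fun j => Real.sqrt ((1 - l) * x j ^ 2 + l * y j ^ 2)) ∈ B) (i : Fin (n + 1)) :
    (1 / 2) * Real.log (M2 B i / vol B) - (Real.eulerMascheroniConstant + Real.log 2) / 2 ≤
      (∫ x in B, Real.log (x i)) / vol B := by
  have hV : vol B = ∫ t in Ici (0 : ℝ), sec B i t := by
    have h := sec_integral hB i (fun _ => 1) measurable_const
    simp only [one_mul] at h
    rw [← h]
    simp [vol, Measure.real]
  have hM : M2 B i = ∫ t in Ici (0 : ℝ), t ^ 2 * sec B i t :=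
    sec_integral hB i (fun t => t ^ 2) (by fun_prop)
  have hL : ∫ x in B, Real.log (x i) = ∫ t in Ici (0 : ℝ), Real.log t * sec B i t :=
    sec_integral hB i Real.log Real.measurable_log
  obtain ⟨R, -, hR⟩ := sec_bdd hB i
  have h := cross (sec B i) (sec_measurable hB i) (sec_antitone hB i)
    (fun t _ => sec_nonneg B i t) R hR
    (fun l s t h0 h1 hs ht => sec_two hB h2 i l h0 h1 s t hs ht) (by
      rw [← hV]
      exact hB.vol_pos)
  rw [← hV, ← hM, ← hL] at h
  exact h

theorem two_convex_moments {d : ℕ} {B : Set (Fin d → ℝ)} (hB : Corner d B)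
    (h2 : ∀ x ∈ B, ∀ y ∈ B, ∀ l ∈ Icc (0 : ℝ) 1,
      (fun j => Real.sqrt ((1 - l) * x j ^ 2 + l * y j ^ 2)) ∈ B) :
    ∏ i, (M2 B i / vol B) ≤ (541 / 1000) ^ d * vol B ^ 2 := by
  rcases d with _ | n
  · have hne : B.Nonempty := by
      by_contra h
      rw [Set.not_nonempty_iff_eq_empty] at h
      have h1 := hB.pos
      rw [h, measure_empty] at h1
      exact lt_irrefl _ h1
    have hu : B = Set.univ := by
      obtain ⟨x, hx⟩ := hne
      refine Set.eq_univ_of_forall fun y => ?_
      rw [Subsingleton.elim y x]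
      exact hx
    have hv : vol B = 1 := by
      rw [vol, hu]
      have h1 : (volume : Measure (Fin 0 → ℝ)) Set.univ = 1 := by
        rw [volume_pi, Measure.pi_univ]
        simp
      rw [h1, ENNReal.toReal_one]
    rw [hv]
    simp
  · have hVpos := hB.vol_pos
    have hM0 : ∀ i, 0 ≤ M2 B i := fun i => integral_nonneg fun x => sq_nonneg (x i)
    by_cases hz : ∃ i, M2 B i = 0
    · obtain ⟨i, hi⟩ := hz
      rw [Finset.prod_eq_zero (Finset.mem_univ i) (by rw [hi, zero_div])]
      positivity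
    · push Not at hz
      have hpos : ∀ i, 0 < M2 B i / vol B := fun i =>
        div_pos (lt_of_le_of_ne (hM0 i) (Ne.symm (hz i))) hVpos
      have hsum : ∑ i, ((1 / 2) * Real.log (M2 B i / vol B) -
          (Real.eulerMascheroniConstant + Real.log 2) / 2) ≤
          ∑ i, (∫ x in B, Real.log (x i)) / vol B :=
        Finset.sum_le_sum fun i _ => suTAsm_coord hB h2 i
      have hlv := log_vol hB
      rw [Finset.sum_sub_distrib, ← Finset.mul_sum, Finset.sum_const, Finset.card_univ,
        Fintype.card_fin, nsmul_eq_mul, ← Finset.sum_div] at hsum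
      have hg := Real.eulerMascheroniConstant_lt_two_thirds
      have hl := Real.log_two_lt_d9
      have hc : 64 / 100 ≤ 2 - Real.eulerMascheroniConstant - Real.log 2 := by
        linarith
      have hlog : Real.log (∏ i, (M2 B i / vol B)) ≤
          2 * Real.log (vol B) -
            ((n + 1 : ℕ) : ℝ) * (2 - Real.eulerMascheroniConstant - Real.log 2) := by
        rw [Real.log_prod fun i _ => (hpos i).ne']
        linarith
      have hP : 0 < ∏ i, (M2 B i / vol B) := Finset.prod_pos fun i _ => hpos i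
      calc ∏ i, (M2 B i / vol B) = Real.exp (Real.log (∏ i, (M2 B i / vol B))) :=
            (Real.exp_log hP).symm
        _ ≤ Real.exp (2 * Real.log (vol B) -
            ((n + 1 : ℕ) : ℝ) * (2 - Real.eulerMascheroniConstant - Real.log 2)) :=
            Real.exp_le_exp.2 hlog
        _ = Real.exp (-(2 - Real.eulerMascheroniConstant - Real.log 2)) ^ (n + 1) *
            vol B ^ 2 := by
            rw [← Real.exp_nat_mul, sub_eq_add_neg, Real.exp_add, mul_comm, ← mul_neg]
            congr 1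
            rw [show (2 : ℝ) * Real.log (vol B) = ((2 : ℕ) : ℝ) * Real.log (vol B) by norm_num,
              Real.exp_nat_mul, Real.exp_log hVpos]
        _ ≤ (541 / 1000) ^ (n + 1) * vol B ^ 2 := by
            refine mul_le_mul_of_nonneg_right ?_ (sq_nonneg _)
            exact pow_le_pow_left₀ (Real.exp_pos _).le (suTAsm_exp _ hc) _

end Pool.Agent.Lib.MP_29b1bb_gt.SU
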