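import Pool.Agent.Lib.MP_29b1bb_gt.SU.Crit
import Pool.Agent.Lib.MP_29b1bb_gt.SU.OAsm
import Pool.Agent.Lib.MP_29b1bb_gt.SU.TAsm
import Pool.Agent.Lib.MP_29b1bb_gt.SU.AAsm

set_option autoImplicit false

open MeasureTheory Set

namespace Pool.Agent.Lib.MP_29b1bb_gt.SU

/-- the mean volume of a random simplex in `K` -/
noncomputable def mv (d : ℕ) (K : Set (EuclideanSpace ℝ (Fin d))) : ℝ :=
  (∫ x in Set.pi Set.univ (fun _ : Fin (d + 1) => K),
    (volume (convexHull ℝ (Set.range x))).toReal) / (volume K).toReal ^ (d + 1)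

theorem orlicz_pos {d m : ℕ} (D : OData d m) {K : Set (EuclideanSpace ℝ (Fin d))}
    (hK : K = {x | (∀ i, |x i| ≤ D.a i) ∧ ∀ k, ∑ i, D.f k i |x i| ≤ 1}) :
    posPart K = D.body := by
  subst hK
  ext x
  simp only [posPart, OData.body, OData.box, OData.S, mem_setOf_eq]
  constructor
  · rintro ⟨h0, h1, h2⟩
    refine ⟨fun i => ⟨h0 i, ?_⟩, fun k => ?_⟩
    · have := h1 i
      rwa [abs_of_nonneg (h0 i)] at this
    · have := h2 k
      simpa only [abs_of_nonneg (h0 _)] using this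
  · rintro ⟨h1, h2⟩
    refine ⟨fun i => (h1 i).1, fun i => ?_, fun k => ?_⟩
    · rw [abs_of_nonneg (h1 i).1]
      exact (h1 i).2
    · have := h2 k
      simpa only [abs_of_nonneg (h1 _).1] using this

theorem orlicz_uncond {d m : ℕ} (D : OData d m) {K : Set (EuclideanSpace ℝ (Fin d))}
    (hK : K = {x | (∀ i, |x i| ≤ D.a i) ∧ ∀ k, ∑ i, D.f k i |x i| ≤ 1}) : Uncond K := by
  subst hK
  rintro x ⟨h1, h2⟩ s hs
  have habs : ∀ i, |s i * x i| = |x i| := by
    intro i
    rw [abs_mul]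
    rcases hs i with h | h <;> simp [h]
  refine ⟨fun i => ?_, fun k => ?_⟩
  · show |s i * x i| ≤ D.a i
    rw [habs]
    exact h1 i
  · show ∑ i, D.f k i |s i * x i| ≤ 1
    simp only [habs]
    exact h2 k

theorem orlicz_convex {d m : ℕ} (D : OData d m) {K : Set (EuclideanSpace ℝ (Fin d))}
    (hK : K = {x | (∀ i, |x i| ≤ D.a i) ∧ ∀ k, ∑ i, D.f k i |x i| ≤ 1}) : Convex ℝ K := by
  subst hK
  rintro x ⟨h1, h2⟩ y ⟨h3, h4⟩ u v hu hv huv
  have habs : ∀ i, |(u • x + v • y) i| ≤ u * |x i| + v * |y i| := by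
    intro i
    have : (u • x + v • y) i = u * x i + v * y i := rfl
    rw [this]
    refine (abs_add_le _ _).trans ?_
    rw [abs_mul, abs_mul, abs_of_nonneg hu, abs_of_nonneg hv]
  refine ⟨fun i => ?_, fun k => ?_⟩
  · refine (habs i).trans ?_
    have := D.ha i
    calc u * |x i| + v * |y i| ≤ u * D.a i + v * D.a i :=
          add_le_add (mul_le_mul_of_nonneg_left (h1 i) hu) (mul_le_mul_of_nonneg_left (h3 i) hv)
      _ = D.a i := by rw [← add_mul, huv, one_mul]
  · calc ∑ i, D.f k i |(u • x + v • y) i| ≤ ∑ i, (u * D.f k i |x i| + v * D.f k i |y i|) := by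
          refine Finset.sum_le_sum fun i _ => ?_
          have hpos : 0 ≤ u * |x i| + v * |y i| := by positivity
          refine (D.hmono k i (mem_Ici.2 (abs_nonneg _)) (mem_Ici.2 hpos) (habs i)).trans ?_
          have := (D.hconv k i).2 (mem_Ici.2 (abs_nonneg (x i))) (mem_Ici.2 (abs_nonneg (y i)))
            hu hv huv
          simpa [smul_eq_mul] using this
      _ = u * ∑ i, D.f k i |x i| + v * ∑ i, D.f k i |y i| := by
          rw [Finset.sum_add_distrib, Finset.mul_sum, Finset.mul_sum]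
      _ ≤ u * 1 + v * 1 :=
          add_le_add (mul_le_mul_of_nonneg_left (h2 k) hu) (mul_le_mul_of_nonneg_left (h4 k) hv)
      _ = 1 := by rw [mul_one, mul_one, huv]

theorem orlicz_cont {d m : ℕ} (D : OData d m) (k : Fin m) :
    Continuous (fun x : EuclideanSpace ℝ (Fin d) => ∑ i, D.f k i |x i|) := by
  refine continuous_finset_sum _ fun i _ => ?_
  have h := cf_continuous (D.hconv k i) (D.hmono k i) (D.hzero k i)
  have h2 : Continuous (fun t : ℝ => D.f k i |t|) :=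
    h.comp_continuous continuous_abs (fun t => mem_Ici.2 (abs_nonneg t))
  exact h2.comp (by fun_prop)

theorem orlicz_compact {d m : ℕ} (D : OData d m) {K : Set (EuclideanSpace ℝ (Fin d))}
    (hK : K = {x | (∀ i, |x i| ≤ D.a i) ∧ ∀ k, ∑ i, D.f k i |x i| ≤ 1}) : IsCompact K := by
  have hcl : IsClosed K := by
    rw [hK, setOf_and]
    refine IsClosed.inter ?_ ?_
    · simp only [setOf_forall]
      exact isClosed_iInter fun i => isClosed_le (by fun_prop) continuous_const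
    · simp only [setOf_forall]
      exact isClosed_iInter fun k => isClosed_le (orlicz_cont D k) continuous_const
  refine Metric.isCompact_of_isClosed_isBounded hcl ?_
  refine (Metric.isBounded_iff_subset_closedBall 0).2
    ⟨Real.sqrt (∑ i, D.a i ^ 2), fun x hx => ?_⟩
  rw [hK] at hx
  rw [mem_closedBall_zero_iff, EuclideanSpace.norm_eq]
  refine Real.sqrt_le_sqrt (Finset.sum_le_sum fun i _ => ?_)
  rw [Real.norm_eq_abs]
  exact pow_le_pow_left₀ (abs_nonneg _) (hx.1 i) 2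

theorem orlicz_interior {d m : ℕ} (D : OData d m) {K : Set (EuclideanSpace ℝ (Fin d))}
    (hK : K = {x | (∀ i, |x i| ≤ D.a i) ∧ ∀ k, ∑ i, D.f k i |x i| ≤ 1}) :
    (interior K).Nonempty := by
  refine ⟨0, mem_interior.2 ⟨{x | (∀ i, |x i| < D.a i) ∧ ∀ k, ∑ i, D.f k i |x i| < 1},
    ?_, ?_, ?_⟩⟩
  · rintro x ⟨h1, h2⟩
    rw [hK]
    exact ⟨fun i => (h1 i).le, fun k => (h2 k).le⟩
  · rw [setOf_and]
    refine IsOpen.inter ?_ ?_
    · simp only [setOf_forall]
      exact isOpen_iInter_of_finite fun i => isOpen_lt (by fun_prop) continuous_const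
    · simp only [setOf_forall]
      exact isOpen_iInter_of_finite fun k => isOpen_lt (orlicz_cont D k) continuous_const
  · refine ⟨fun i => ?_, fun k => ?_⟩
    · simpa using D.ha i
    · simp [D.hzero]

theorem orlicz_final : ∃ d₀ : ℕ, ∀ d, d₀ ≤ d → ∀ m : ℕ, (m : ℝ) ≤ (1 / 1000000) * d →
    ∀ (D : OData d m) (K : Set (EuclideanSpace ℝ (Fin d)))
      (p : Fin (d + 1) → EuclideanSpace ℝ (Fin d)),
      K = {x | (∀ i, |x i| ≤ D.a i) ∧ ∀ k, ∑ i, D.f k i |x i| ≤ 1} →
      AffineIndependent ℝ p → volume K = volume (convexHull ℝ (Set.range p)) →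
      mv d K ≤ mv d (convexHull ℝ (Set.range p)) := by
  obtain ⟨d₀, h⟩ := crit_unc
  refine ⟨d₀ + 1, fun d hd m hm D K p hK hp hvol => ?_⟩
  have h1 := orlicz_moments (by omega : 0 < d) D hm
  rw [← orlicz_pos D hK] at h1
  exact h d (by omega) K p (orlicz_compact D hK) (orlicz_convex D hK) (orlicz_interior D hK)
    (orlicz_uncond D hK) h1 hp hvol

theorem two_convex_final : ∃ d₀ : ℕ, ∀ d, d₀ ≤ d → ∀ (K : Set (EuclideanSpace ℝ (Fin d)))
    (p : Fin (d + 1) → EuclideanSpace ℝ (Fin d)),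
    IsCompact K → Convex ℝ K → (interior K).Nonempty → Uncond K →
    (∀ x ∈ K, ∀ y ∈ K, ∀ l ∈ Icc (0 : ℝ) 1,
      (WithLp.toLp 2 (fun i => Real.sqrt ((1 - l) * x i ^ 2 + l * y i ^ 2)) :
        EuclideanSpace ℝ (Fin d)) ∈ K) →
    AffineIndependent ℝ p → volume K = volume (convexHull ℝ (Set.range p)) →
    mv d K ≤ mv d (convexHull ℝ (Set.range p)) := by
  obtain ⟨d₀, h⟩ := crit_unc
  refine ⟨d₀, fun d hd K p hK hc hi hu h2 hp hvol => ?_⟩
  have hB := posPart_corner hK hc hi hu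
  refine h d hd K p hK hc hi hu (two_convex_moments hB ?_) hp hvol
  rintro x ⟨hx0, hx⟩ y ⟨hy0, hy⟩ l hl
  exact ⟨fun i => Real.sqrt_nonneg _, h2 _ hx _ hy l hl⟩

theorem symmetric_final {ι : Type*} : ∃ d₀ : ℕ, ∀ d, d₀ ≤ d →
    ∀ (c : Fin d → ι) (K : Set (EuclideanSpace ℝ (Fin d)))
    (p : Fin (d + 1) → EuclideanSpace ℝ (Fin d)),
    IsCompact K → Convex ℝ K → (interior K).Nonempty → Uncond K →
    (∀ σ : Equiv.Perm (Fin d), Blk c σ → ∀ x ∈ K,
      (WithLp.toLp 2 (fun i => x (σ i)) : EuclideanSpace ℝ (Fin d)) ∈ K) →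
    (∀ i, 128 ≤ (blk c i).card) →
    AffineIndependent ℝ p → volume K = volume (convexHull ℝ (Set.range p)) →
    mv d K ≤ mv d (convexHull ℝ (Set.range p)) := by
  obtain ⟨d₀, h⟩ := crit_unc
  refine ⟨d₀, fun d hd c K p hK hc hi hu hs hcard hp hvol => ?_⟩
  have hB := posPart_corner hK hc hi hu
  refine h d hd K p hK hc hi hu (symmetric_moments c hB ?_ hcard) hp hvol
  rintro σ hσ x ⟨hx0, hx⟩
  exact ⟨fun i => hx0 _, hs σ hσ _ hx⟩

end Pool.Agent.Lib.MP_29b1bb_gt.SU
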