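import Pool.Agent.Lib.MP_29b1bb_gt.SU.Defs

/-!
Proof sketch for module GaussLog (board SU, MP_29b1bb_gt, helper96).
Proof. The Mellin transform of exp(-t^2/2) is s -> (1/2)^(-s/2) (1/2) Gamma(s/2) for real s > 0
(integral_rpow_mul_exp_neg_mul_rpow); it is differentiable with derivative the Mellin transform of log t exp(-t^2/2)
(mellin_hasDerivAt_of_isBigO_rpow); compare the two derivatives at s = 1 with Real.hasDerivAt_Gamma_one_half.
-/

set_option autoImplicit false

open MeasureTheory Set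

namespace Pool.Agent.Lib.MP_29b1bb_gt.SU

open Filter Topology Asymptotics in
private lemma suGaussLog_mellin :
    MellinConvergent (fun t : ℝ => Real.log t • ((Real.exp (-(t ^ 2 / 2)) : ℝ) : ℂ)) 1 ∧
      HasDerivAt (mellin (fun t : ℝ => ((Real.exp (-(t ^ 2 / 2)) : ℝ) : ℂ)))
        (mellin (fun t : ℝ => Real.log t • ((Real.exp (-(t ^ 2 / 2)) : ℝ) : ℂ)) 1) 1 := by
  refine mellin_hasDerivAt_of_isBigO_rpow (a := 2) (b := 0) ?_ ?_ ?_ ?_ ?_
  · refine (Continuous.continuousOn ?_).locallyIntegrableOn measurableSet_Ioi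
    exact Complex.continuous_ofReal.comp (by fun_prop)
  · rw [← isBigO_norm_left]
    simp_rw [Complex.norm_real, isBigO_norm_left]
    have h1 := exp_neg_mul_sq_isLittleO_exp_neg (b := 1 / 2) (by norm_num)
    have h2 := isLittleO_exp_neg_mul_rpow_atTop (zero_lt_one) (-2)
    have h3 := (h1.isBigO.trans (by simpa only [neg_one_mul] using h2.isBigO))
    refine h3.congr_left ?_
    intro x
    congr 1
    ring
  · simp
  · simp_rw [neg_zero, Real.rpow_zero]
    refine isBigO_const_of_tendsto (?_ : Tendsto _ _ (𝓝 (1 : ℂ))) one_ne_zero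
    have : Continuous (fun t : ℝ => ((Real.exp (-(t ^ 2 / 2)) : ℝ) : ℂ)) :=
      Complex.continuous_ofReal.comp (by fun_prop)
    have h := (this.tendsto 0).mono_left (nhdsWithin_le_nhds (s := Ioi (0 : ℝ)))
    simpa using h
  · simp

private lemma suGaussLog_mellin_real (s : ℝ) (hs : 0 < s) :
    mellin (fun t : ℝ => ((Real.exp (-(t ^ 2 / 2)) : ℝ) : ℂ)) (s : ℂ) =
      (((1 / 2 : ℝ) ^ (-s / 2) * (1 / 2) * Real.Gamma (s / 2) : ℝ) : ℂ) := by
  have h := integral_rpow_mul_exp_neg_mul_rpow (p := 2) (q := s - 1) (b := 1 / 2) (by norm_num)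
    (by linarith) (by norm_num)
  rw [show -(s - 1 + 1) / 2 = -s / 2 by ring, show (s - 1 + 1) / 2 = s / 2 by ring] at h
  rw [← h, mellin, ← integral_complex_ofReal]
  refine setIntegral_congr_fun measurableSet_Ioi ?_
  intro t ht
  have ht' : (0 : ℝ) < t := ht
  simp only [smul_eq_mul]
  rw [Complex.ofReal_mul, Complex.ofReal_cpow ht'.le]
  push_cast
  congr 2
  rw [show (2 : ℝ) = ((2 : ℕ) : ℝ) by norm_num, Real.rpow_natCast]
  push_cast
  ring

private lemma suGaussLog_real_deriv :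
    HasDerivAt (fun s : ℝ => (1 / 2 : ℝ) ^ (-s / 2) * (1 / 2) * Real.Gamma (s / 2))
      (-((Real.eulerMascheroniConstant + Real.log 2) / 2) * Real.sqrt (Real.pi / 2)) 1 := by
  have h1 : HasDerivAt (fun s : ℝ => (1 / 2 : ℝ) ^ (-s / 2)) (Real.sqrt 2 * (Real.log 2 / 2)) 1 := by
    have h0 : HasDerivAt (fun s : ℝ => -s / 2) (-1 / 2) 1 := by
      simpa using ((hasDerivAt_id (1 : ℝ)).neg.div_const 2)
    have h := h0.const_rpow (a := (1 / 2 : ℝ)) (by norm_num)
    convert! h using 1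
    rw [show (-1 / 2 : ℝ) = -(1 / 2) by ring, Real.rpow_neg (by norm_num), ← Real.sqrt_eq_rpow]
    rw [show Real.log (1 / 2) = -Real.log 2 by rw [one_div, Real.log_inv]]
    rw [one_div, Real.sqrt_inv, inv_inv]
    ring
  have h2 : HasDerivAt (fun s : ℝ => Real.Gamma (s / 2))
      (-Real.sqrt Real.pi * (Real.eulerMascheroniConstant + 2 * Real.log 2) * (1 / 2)) 1 := by
    have h0 : HasDerivAt (fun s : ℝ => s / 2) (1 / 2) 1 := by
      simpa using ((hasDerivAt_id (1 : ℝ)).div_const 2)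
    have := Real.hasDerivAt_Gamma_one_half.comp (1 : ℝ) h0
    exact this
  have h3 := (h1.mul_const (1 / 2)).mul h2
  convert! h3 using 1
  have e1 : (1 / 2 : ℝ) ^ (-(1 : ℝ) / 2) = Real.sqrt 2 := by
    rw [show (-1 / 2 : ℝ) = -(1 / 2) by ring, Real.rpow_neg (by norm_num), ← Real.sqrt_eq_rpow,
      one_div, Real.sqrt_inv, inv_inv]
  rw [e1, Real.Gamma_one_half_eq, Real.sqrt_div Real.pi_pos.le]
  have h22 : Real.sqrt 2 * Real.sqrt 2 = 2 := Real.mul_self_sqrt (by norm_num)
  have h2p : Real.sqrt 2 ≠ 0 := by positivity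
  field_simp
  rw [show Real.sqrt 2 ^ 2 = 2 by rw [sq]; exact h22]
  ring

/-- the logarithmic moment of the half Gaussian -/
theorem gauss_log : IntegrableOn (fun t : ℝ => Real.log t * Real.exp (-(t ^ 2 / 2))) (Ioi 0) ∧
    ∫ t in Ioi (0 : ℝ), Real.log t * Real.exp (-(t ^ 2 / 2)) =
      -((Real.eulerMascheroniConstant + Real.log 2) / 2) * Real.sqrt (Real.pi / 2) := by
  obtain ⟨hc, hd⟩ := suGaussLog_mellin
  have hcast : ∀ t : ℝ, Real.log t • ((Real.exp (-(t ^ 2 / 2)) : ℝ) : ℂ) =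
      ((Real.log t * Real.exp (-(t ^ 2 / 2)) : ℝ) : ℂ) := by
    intro t
    rw [Complex.ofReal_mul]
    rfl
  constructor
  · have h := hc
    unfold MellinConvergent at h
    simp only [sub_self, Complex.cpow_zero, one_smul, hcast] at h
    have h' := h.re
    exact h'
  · have h1 := hd.comp_ofReal (z := 1) |>.congr_deriv rfl
    have h2 := suGaussLog_real_deriv.ofReal_comp
    have he : (fun s : ℝ => mellin (fun t : ℝ => ((Real.exp (-(t ^ 2 / 2)) : ℝ) : ℂ)) (s : ℂ)) =ᶠ[nhds 1]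
        (fun s : ℝ => (((1 / 2 : ℝ) ^ (-s / 2) * (1 / 2) * Real.Gamma (s / 2) : ℝ) : ℂ)) := by
      filter_upwards [lt_mem_nhds (show (0 : ℝ) < 1 by norm_num)] with s hs
      exact suGaussLog_mellin_real s hs
    have h3 := (h2.congr_of_eventuallyEq he).unique h1
    rw [mellin] at h3
    simp only [sub_self, Complex.cpow_zero, one_smul, hcast] at h3
    rw [integral_complex_ofReal] at h3
    exact (Complex.ofReal_injective h3).symm

end Pool.Agent.Lib.MP_29b1bb_gt.SU
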