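import Pool.Agent.Lib.MP_29b1bb_gt.SU.SecA

/-!
Proof sketch for module LogDens (board SU, MP_29b1bb_gt, helper96).
Proof. Extend f to the antitone function h t = f (max t 0), F t = int_0^t h. Then F is continuous, F 0 = 0, F R = 1, F t >= t h t, F t >= t / R, and F' = h at every point
of continuity of h (all but countably many). The function F log F - F is continuous, is 0 at 0 and -1 at R, and has derivative h log F at all but countably many points
of (0, R); so int_0^R h log F = -1 (integral_eq_of_hasDerivAt_off_countable_of_le), and log(t f t) <= log F t where f t > 0, t > 0.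
-/

set_option autoImplicit false

open MeasureTheory Set

namespace Pool.Agent.Lib.MP_29b1bb_gt.SU

private lemma suLogDens_core (h : ℝ → ℝ) (hh : Antitone h) (h0 : ∀ t, 0 ≤ h t) (R : ℝ) (hR : 0 < R)
    (h1 : ∫ t in (0 : ℝ)..R, h t = 1) :
    IntegrableOn (fun t => Real.log t * h t) (Ioc 0 R) ∧
    IntegrableOn (fun t => Real.log (h t) * h t) (Ioc 0 R) ∧
    (∫ t in Ioc (0 : ℝ) R, Real.log t * h t) + (∫ t in Ioc (0 : ℝ) R, Real.log (h t) * h t) ≤ -1 := by
  have hm : Measurable h := hh.measurable
  have hint : ∀ a b : ℝ, IntervalIntegrable h volume a b := fun a b => hh.antitoneOn _ |>.intervalIntegrable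
  have hlog : IntegrableOn Real.log (Ioc 0 R) := by
    have := (intervalIntegral.intervalIntegrable_log' (a := 0) (b := R))
    rwa [intervalIntegrable_iff_integrableOn_Ioc_of_le hR.le] at this
  have hb : ∀ t, 0 < t → h t ≤ h 0 := fun t ht => hh ht.le
  -- the logarithmic term
  have hA : IntegrableOn (fun t => Real.log t * h t) (Ioc 0 R) := by
    refine Integrable.mul_bdd (c := h 0) hlog hm.aestronglyMeasurable ?_
    filter_upwards [ae_restrict_mem measurableSet_Ioc] with t ht
    rw [Real.norm_of_nonneg (h0 t)]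
    exact hb t ht.1
  -- the entropy term
  have hB : IntegrableOn (fun t => Real.log (h t) * h t) (Ioc 0 R) := by
    obtain ⟨C, hC⟩ : ∃ C : ℝ, ∀ x ∈ Icc 0 (h 0), ‖x * Real.log x‖ ≤ C :=
      (isCompact_Icc.exists_bound_of_continuousOn Real.continuous_mul_log.continuousOn)
    refine Measure.integrableOn_of_bounded (M := C) ?_ ?_ ?_
    · exact measure_Ioc_lt_top.ne
    · exact ((Real.measurable_log.comp hm).mul hm).aestronglyMeasurable
    · filter_upwards [ae_restrict_mem measurableSet_Ioc] with t ht
      have := hC (h t) ⟨h0 t, hb t ht.1⟩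
      rwa [mul_comm] at this
  refine ⟨hA, hB, ?_⟩
  set F : ℝ → ℝ := fun t => ∫ s in (0 : ℝ)..t, h s with hF
  have hFc : Continuous F := intervalIntegral.continuous_primitive hint 0
  have hF0 : F 0 = 0 := by simp [hF]
  have hFR : F R = 1 := h1
  have hlow1 : ∀ t, 0 ≤ t → t * h t ≤ F t := by
    intro t ht
    have : ∫ s in (0 : ℝ)..t, h t ≤ ∫ s in (0 : ℝ)..t, h s := by
      refine intervalIntegral.integral_mono_on ht (by simp) (hint _ _) ?_
      intro s hs
      exact hh hs.2
    simpa using this
  have hup : ∀ t, t ≤ R → 1 - F t ≤ (R - t) * h t := by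
    intro t ht
    have e1 : F t + ∫ s in t..R, h s = 1 := by
      rw [← h1, hF]
      exact intervalIntegral.integral_add_adjacent_intervals (hint _ _) (hint _ _)
    have : ∫ s in t..R, h s ≤ ∫ s in t..R, h t := by
      refine intervalIntegral.integral_mono_on ht (hint _ _) (by simp) ?_
      intro s hs
      exact hh hs.1
    simp only [intervalIntegral.integral_const, smul_eq_mul] at this
    linarith
  have hFlow : ∀ t, 0 ≤ t → t ≤ R → t / R ≤ F t := by
    intro t ht htR
    have e1 := hlow1 t ht
    have e2 := hup t htR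
    rw [div_le_iff₀ hR]
    have : t * (1 - F t) ≤ (R - t) * F t := by
      calc t * (1 - F t) ≤ t * ((R - t) * h t) := mul_le_mul_of_nonneg_left e2 ht
        _ = (R - t) * (t * h t) := by ring
        _ ≤ (R - t) * F t := mul_le_mul_of_nonneg_left e1 (by linarith)
    nlinarith
  have hFpos : ∀ t, 0 < t → t ≤ R → 0 < F t := fun t ht htR =>
    lt_of_lt_of_le (by positivity) (hFlow t ht.le htR)
  have hFle : ∀ t, t ≤ R → F t ≤ 1 := by
    intro t ht
    have e1 : F t + ∫ s in t..R, h s = 1 := by
      rw [← h1, hF]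
      exact intervalIntegral.integral_add_adjacent_intervals (hint _ _) (hint _ _)
    have : 0 ≤ ∫ s in t..R, h s := intervalIntegral.integral_nonneg ht (fun s _ => h0 s)
    linarith
  -- the derivative of F log F - F
  have hint2 : IntegrableOn (fun t => h t * Real.log (F t)) (Ioc 0 R) := by
    have hdom : IntegrableOn (fun t => h 0 * (|Real.log R| + |Real.log t|)) (Ioc 0 R) := by
      refine Integrable.const_mul (Integrable.add ?_ ?_) _
      · exact integrableOn_const (by exact measure_Ioc_lt_top.ne)
      · exact hlog.abs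
    refine Integrable.mono' hdom ?_ ?_
    · exact (hm.mul (Real.measurable_log.comp hFc.measurable)).aestronglyMeasurable
    · filter_upwards [ae_restrict_mem measurableSet_Ioc] with t ht
      rw [norm_mul, Real.norm_of_nonneg (h0 t)]
      refine mul_le_mul (hb t ht.1) ?_ (norm_nonneg _) (h0 0)
      have e1 : Real.log (F t) ≤ 0 := Real.log_nonpos (hFpos t ht.1 ht.2).le (hFle t ht.2)
      have e2 : Real.log (t / R) ≤ Real.log (F t) :=
        Real.log_le_log (div_pos ht.1 hR) (hFlow t ht.1.le ht.2)
      rw [Real.log_div ht.1.ne' hR.ne'] at e2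
      rw [Real.norm_of_nonpos e1]
      have e3 := neg_abs_le (Real.log t)
      have e4 := le_abs_self (Real.log R)
      linarith
  have hftc : ∫ t in (0 : ℝ)..R, h t * Real.log (F t) = -1 := by
    have key := integral_eq_of_hasDerivAt_off_countable_of_le
      (fun t => F t * Real.log (F t) - F t) (fun t => h t * Real.log (F t)) hR.le
      hh.countable_not_continuousAt ?_ ?_ ?_
    · rw [key]
      simp [hF0, hFR]
    · exact ((Real.continuous_mul_log.comp hFc).sub hFc).continuousOn
    · intro x hx
      have hx1 := hx.1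
      have hcont : ContinuousAt h x := by
        by_contra hne
        exact hx.2 hne
      have hder : HasDerivAt F (h x) x :=
        intervalIntegral.integral_hasDerivAt_right (hint 0 x)
          (hm.stronglyMeasurable.stronglyMeasurableAtFilter) hcont
      have hFx : F x ≠ 0 := (hFpos x hx1.1 hx1.2.le).ne'
      have hd2 := (Real.hasDerivAt_mul_log hFx).comp x hder
      have hd3 := hd2.sub hder
      convert! hd3 using 1
      ring
    · rw [intervalIntegrable_iff_integrableOn_Ioc_of_le hR.le]
      exact hint2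
  rw [intervalIntegral.integral_of_le hR.le] at hftc
  rw [← integral_add hA hB, ← hftc]
  refine setIntegral_mono_on (hA.add hB) hint2 measurableSet_Ioc ?_
  intro t ht
  rcases (h0 t).eq_or_lt with h00 | hpos
  · simp [← h00]
  · have e1 : Real.log t + Real.log (h t) ≤ Real.log (F t) := by
      rw [← Real.log_mul ht.1.ne' hpos.ne']
      exact Real.log_le_log (mul_pos ht.1 hpos) (hlow1 t ht.1.le)
    calc Real.log t * h t + Real.log (h t) * h t = h t * (Real.log t + Real.log (h t)) := by ring
      _ ≤ h t * Real.log (F t) := mul_le_mul_of_nonneg_left e1 hpos.le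

/-- for a decreasing density, the logarithm of `t f(t)` has mean at most `-1` -/
theorem log_dens (f : ℝ → ℝ) (hf : AntitoneOn f (Ici 0)) (h0 : ∀ t, 0 ≤ t → 0 ≤ f t) (R : ℝ)
    (hR : ∀ t, R < t → f t = 0) (h1 : ∫ t in Ici (0 : ℝ), f t = 1) :
    IntegrableOn (fun t => Real.log t * f t) (Ici 0) ∧
    IntegrableOn (fun t => Real.log (f t) * f t) (Ici 0) ∧
    (∫ t in Ici (0 : ℝ), Real.log t * f t) + (∫ t in Ici (0 : ℝ), Real.log (f t) * f t) ≤ -1 := by
  set Q : ℝ := max R 1 with hQ
  have hQpos : 0 < Q := lt_of_lt_of_le one_pos (le_max_right _ _)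
  have hQf : ∀ t, Q < t → f t = 0 := fun t ht => hR t (lt_of_le_of_lt (le_max_left _ _) ht)
  have hred : ∀ g : ℝ → ℝ, (∀ t, Q < t → g t = 0) →
      ∫ t in Ici (0 : ℝ), g t = ∫ t in Ioc (0 : ℝ) Q, g t := by
    intro g hg
    rw [integral_Ici_eq_integral_Ioi]
    refine setIntegral_eq_of_subset_of_forall_sdiff_eq_zero measurableSet_Ioi
      Ioc_subset_Ioi_self ?_
    intro t ht
    refine hg t ?_
    by_contra hle
    exact ht.2 ⟨ht.1, not_lt.mp hle⟩
  have hredI : ∀ g : ℝ → ℝ, (∀ t, Q < t → g t = 0) → IntegrableOn g (Ioc 0 Q) →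
      IntegrableOn g (Ici 0) := by
    intro g hg hi
    rw [integrableOn_Ici_iff_integrableOn_Ioi]
    rw [← Ioc_union_Ioi_eq_Ioi hQpos.le]
    refine hi.union ?_
    refine integrableOn_zero.congr_fun ?_ measurableSet_Ioi
    intro t ht
    exact (hg t ht).symm
  set h : ℝ → ℝ := fun t => f (max t 0) with hh
  have hha : Antitone h := by
    intro s t hst
    exact hf (mem_Ici.mpr (le_max_right s 0)) (mem_Ici.mpr (le_max_right t 0))
      (max_le_max_right 0 hst)
  have hhf : ∀ t ∈ Ioc (0 : ℝ) Q, h t = f t := by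
    intro t ht
    simp [hh, max_eq_left ht.1.le]
  have hh1 : ∫ t in (0 : ℝ)..Q, h t = 1 := by
    rw [intervalIntegral.integral_of_le hQpos.le, setIntegral_congr_fun measurableSet_Ioc hhf,
      ← hred f hQf, h1]
  obtain ⟨c1, c2, c3⟩ := suLogDens_core h hha (fun t => h0 _ (le_max_right _ _)) Q hQpos hh1
  have e1 : EqOn (fun t => Real.log t * h t) (fun t => Real.log t * f t) (Ioc 0 Q) := by
    intro t ht
    simp only [hhf t ht]
  have e2 : EqOn (fun t => Real.log (h t) * h t) (fun t => Real.log (f t) * f t) (Ioc 0 Q) := by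
    intro t ht
    simp only [hhf t ht]
  have z1 : ∀ t, Q < t → Real.log t * f t = 0 := fun t ht => by rw [hQf t ht, mul_zero]
  have z2 : ∀ t, Q < t → Real.log (f t) * f t = 0 := fun t ht => by rw [hQf t ht, mul_zero]
  refine ⟨hredI _ z1 (c1.congr_fun e1 measurableSet_Ioc),
    hredI _ z2 (c2.congr_fun e2 measurableSet_Ioc), ?_⟩
  rw [hred _ z1, hred _ z2, ← setIntegral_congr_fun measurableSet_Ioc e1,
    ← setIntegral_congr_fun measurableSet_Ioc e2]
  exact c3

end Pool.Agent.Lib.MP_29b1bb_gt.SU
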