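import Pool.Agent.Lib.MP_29b1bb_gt.SU.Defs

/-!
Proof sketch for module OBody (board SU, MP_29b1bb_gt, helper96).
Hints. cf_continuous: on (0,oo) ConvexOn.continuousOn (interior of Ici 0); at 0: 0 <= f t <= t * f 1 for t in [0,1]. cf_scale: convexity between 0 and t.
small_ball: S k is continuous on the box at 0 with value 0, so a small cube is contained in the set; d may be 0 (volume of a point is 1), m may be 0.
body_corner: compact = closed subset of the box (S k continuous on the box), convex (sum of convex functions), down-closed (monotone), positive volume by small_ball with c = 1.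
-/

set_option autoImplicit false

open MeasureTheory Set

namespace Pool.Agent.Lib.MP_29b1bb_gt.SU

/-- a convex nondecreasing function on `[0, ∞)` vanishing at `0` is nonnegative and continuous -/
theorem cf_nonneg {f : ℝ → ℝ} (hm : MonotoneOn f (Ici 0)) (h0 : f 0 = 0) {t : ℝ} (ht : 0 ≤ t) :
    0 ≤ f t := by
  rw [← h0]
  exact hm (mem_Ici.2 le_rfl) (mem_Ici.2 ht) ht

private theorem suOBody_scale {f : ℝ → ℝ} (hc : ConvexOn ℝ (Ici 0) f) (h0 : f 0 = 0) {l t : ℝ}
    (hl : l ∈ Icc (0 : ℝ) 1) (ht : 0 ≤ t) : f (l * t) ≤ l * f t := by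
  have h := hc.2 (mem_Ici.2 ht) (mem_Ici.2 (le_refl (0 : ℝ))) hl.1 (sub_nonneg.2 hl.2)
    (add_sub_cancel l 1)
  simpa [smul_eq_mul, h0] using h

theorem cf_continuous {f : ℝ → ℝ} (hc : ConvexOn ℝ (Ici 0) f) (hm : MonotoneOn f (Ici 0))
    (h0 : f 0 = 0) : ContinuousOn f (Ici 0) := by
  have h1 : ContinuousOn f (Ioi 0) :=
    (hc.subset Ioi_subset_Ici_self (convex_Ioi 0)).continuousOn isOpen_Ioi
  intro x hx
  rcases eq_or_lt_of_le (mem_Ici.1 hx) with hx0 | hx0
  · subst hx0
    have h2 : Filter.Tendsto (fun t : ℝ => t * f 1) (nhdsWithin 0 (Ici 0)) (nhds 0) := by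
      have h3 : Continuous fun t : ℝ => t * f 1 := by fun_prop
      have h4 := h3.tendsto (0 : ℝ)
      rw [zero_mul] at h4
      exact h4.mono_left nhdsWithin_le_nhds
    unfold ContinuousWithinAt
    rw [h0]
    refine tendsto_of_tendsto_of_tendsto_of_le_of_le' tendsto_const_nhds h2 ?_ ?_
    · filter_upwards [self_mem_nhdsWithin] with t ht
      exact cf_nonneg hm h0 (mem_Ici.1 ht)
    · have h5 : Iic (1 : ℝ) ∈ nhdsWithin (0 : ℝ) (Ici 0) :=
        mem_nhdsWithin_of_mem_nhds (Iic_mem_nhds one_pos)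
      filter_upwards [self_mem_nhdsWithin, h5] with t ht ht1
      have h6 := suOBody_scale hc h0 (l := t) (t := 1) ⟨mem_Ici.1 ht, mem_Iic.1 ht1⟩ zero_le_one
      rwa [mul_one] at h6
  · exact (h1.continuousAt (Ioi_mem_nhds hx0)).continuousWithinAt

theorem cf_scale {f : ℝ → ℝ} (hc : ConvexOn ℝ (Ici 0) f) (h0 : f 0 = 0) {l t : ℝ}
    (hl : l ∈ Icc (0 : ℝ) 1) (ht : 0 ≤ t) : f (l * t) ≤ l * f t :=
  suOBody_scale hc h0 hl ht

namespace OData

variable {d m : ℕ} (D : OData d m)

theorem box_eq : D.box = Set.pi univ (fun i => Icc 0 (D.a i)) := by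
  ext x
  simp only [Set.mem_pi, mem_univ, true_implies, mem_Icc]
  exact Iff.rfl

theorem box_compact : IsCompact D.box := by
  rw [box_eq]
  exact isCompact_univ_pi fun i => isCompact_Icc

theorem S_continuousOn (k : Fin m) : ContinuousOn (D.S k) D.box := by
  unfold S
  refine continuousOn_finsetSum _ fun i _ => ?_
  exact (cf_continuous (D.hconv k i) (D.hmono k i) (D.hzero k i)).comp
    (continuous_apply i).continuousOn fun x hx => mem_Ici.2 (hx i).1

theorem S_nonneg (k : Fin m) {x : Fin d → ℝ} (hx : x ∈ D.box) : 0 ≤ D.S k x :=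
  Finset.sum_nonneg fun i _ => cf_nonneg (D.hmono k i) (D.hzero k i) (hx i).1

theorem Phi_continuousOn (β : Fin m → ℝ) : ContinuousOn (D.Phi β) D.box := by
  unfold Phi
  exact continuousOn_finsetSum _ fun k _ => continuousOn_const.mul (D.S_continuousOn k)

/-- the potential is the sum of the potentials of the coordinates -/
theorem Phi_eq (β : Fin m → ℝ) (x : Fin d → ℝ) : D.Phi β x = ∑ i, D.phi β i (x i) := by
  unfold Phi phi S
  rw [Finset.sum_comm]
  exact Finset.sum_congr rfl fun k _ => Finset.mul_sum _ _ _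

theorem phi_convex {β : Fin m → ℝ} (hβ : ∀ k, 0 ≤ β k) (i : Fin d) :
    ConvexOn ℝ (Ici 0) (D.phi β i) := by
  refine ⟨convex_Ici 0, fun x hx y hy a b ha hb hab => ?_⟩
  unfold phi
  simp only [smul_eq_mul]
  rw [Finset.mul_sum, Finset.mul_sum, ← Finset.sum_add_distrib]
  refine Finset.sum_le_sum fun k _ => ?_
  have h := mul_le_mul_of_nonneg_left ((D.hconv k i).2 hx hy ha hb hab) (hβ k)
  simp only [smul_eq_mul] at h ⊢
  linarith

theorem phi_mono {β : Fin m → ℝ} (hβ : ∀ k, 0 ≤ β k) (i : Fin d) :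
    MonotoneOn (D.phi β i) (Ici 0) := by
  intro x hx y hy hxy
  unfold phi
  exact Finset.sum_le_sum fun k _ => mul_le_mul_of_nonneg_left (D.hmono k i hx hy hxy) (hβ k)

theorem phi_zero (β : Fin m → ℝ) (i : Fin d) : D.phi β i 0 = 0 := by
  unfold phi
  exact Finset.sum_eq_zero fun k _ => by rw [D.hzero, mul_zero]

/-- all the small points of the box satisfy the constraints with room to spare -/
theorem small_ball (c : ℝ) (hc : 0 < c) :
    0 < volume {x : Fin d → ℝ | x ∈ D.box ∧ ∀ k, D.S k x ≤ c} := by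
  have hf : ∀ k i, 0 ≤ D.f k i (D.a i) / D.a i := fun k i =>
    div_nonneg (cf_nonneg (D.hmono k i) (D.hzero k i) (D.ha i).le) (D.ha i).le
  set A : ℝ := ∑ i, 1 / D.a i with hA
  set M : ℝ := ∑ k, ∑ i, D.f k i (D.a i) / D.a i with hM
  have hA0 : 0 ≤ A := Finset.sum_nonneg fun i _ => (one_div_pos.2 (D.ha i)).le
  have hM0 : 0 ≤ M := Finset.sum_nonneg fun k _ => Finset.sum_nonneg fun i _ => hf k i
  have hMc : 0 ≤ M / c := div_nonneg hM0 hc.le
  set ε : ℝ := 1 / (A + M / c + 1) with hε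
  have hden : 0 < A + M / c + 1 := by linarith
  have hε0 : 0 < ε := one_div_pos.2 hden
  have hεa : ∀ i, ε ≤ D.a i := by
    intro i
    have h1 : 1 / D.a i ≤ A :=
      Finset.single_le_sum (f := fun i => 1 / D.a i) (fun j _ => (one_div_pos.2 (D.ha j)).le)
        (Finset.mem_univ i)
    have h2 : 1 / D.a i ≤ A + M / c + 1 := by linarith
    calc ε ≤ 1 / (1 / D.a i) := one_div_le_one_div_of_le (one_div_pos.2 (D.ha i)) h2
      _ = D.a i := by rw [one_div_one_div]
  have hεM : ε * M ≤ c := by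
    have h1 : ε * (A + M / c + 1) = 1 := one_div_mul_cancel hden.ne'
    have h2 : ε * (M / c) ≤ 1 := by nlinarith
    have h3 : ε * M = ε * (M / c) * c := by field_simp
    rw [h3]
    nlinarith
  have hsub : Icc (0 : Fin d → ℝ) (fun _ => ε) ⊆
      {x : Fin d → ℝ | x ∈ D.box ∧ ∀ k, D.S k x ≤ c} := by
    intro x hx
    have hx0 : ∀ i, 0 ≤ x i := fun i => hx.1 i
    have hx1 : ∀ i, x i ≤ ε := fun i => hx.2 i
    refine ⟨fun i => ⟨hx0 i, (hx1 i).trans (hεa i)⟩, fun k => ?_⟩
    have h1 : ∀ i, D.f k i (x i) ≤ ε * (D.f k i (D.a i) / D.a i) := by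
      intro i
      have h2 : D.f k i (x i) ≤ D.f k i ε := D.hmono k i (mem_Ici.2 (hx0 i)) (mem_Ici.2 hε0.le) (hx1 i)
      have h3 := cf_scale (D.hconv k i) (D.hzero k i) (l := ε / D.a i) (t := D.a i)
        ⟨div_nonneg hε0.le (D.ha i).le, (div_le_one (D.ha i)).2 (hεa i)⟩ (D.ha i).le
      rw [div_mul_cancel₀ _ (D.ha i).ne'] at h3
      calc D.f k i (x i) ≤ D.f k i ε := h2
        _ ≤ ε / D.a i * D.f k i (D.a i) := h3
        _ = ε * (D.f k i (D.a i) / D.a i) := by ring
    calc D.S k x ≤ ∑ i, ε * (D.f k i (D.a i) / D.a i) := Finset.sum_le_sum fun i _ => h1 i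
      _ = ε * ∑ i, D.f k i (D.a i) / D.a i := (Finset.mul_sum _ _ _).symm
      _ ≤ ε * M := mul_le_mul_of_nonneg_left
          (Finset.single_le_sum (f := fun k => ∑ i, D.f k i (D.a i) / D.a i)
            (fun j _ => Finset.sum_nonneg fun i _ => hf j i) (Finset.mem_univ k)) hε0.le
      _ ≤ c := hεM
  refine lt_of_lt_of_le ?_ (measure_mono hsub)
  rw [Real.volume_Icc_pi, pos_iff_ne_zero, Finset.prod_ne_zero_iff]
  intro i _
  simp only [Pi.zero_apply, sub_zero]
  exact (ENNReal.ofReal_pos.2 hε0).ne'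

theorem body_corner : Corner d D.body := by
  have hcl : IsClosed D.body := by
    have h1 : ∀ k, IsClosed (D.box ∩ D.S k ⁻¹' Iic 1) := fun k =>
      (D.S_continuousOn k).preimage_isClosed_of_isClosed D.box_compact.isClosed isClosed_Iic
    have h2 : D.body = D.box ∩ ⋂ k, (D.box ∩ D.S k ⁻¹' Iic 1) := by
      ext x
      simp only [body, mem_ofPred_eq, mem_inter_iff, mem_iInter, mem_preimage, mem_Iic]
      constructor
      · rintro ⟨h1, h2⟩
        exact ⟨h1, fun k => ⟨h1, h2 k⟩⟩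
      · rintro ⟨h1, h2⟩
        exact ⟨h1, fun k => (h2 k).2⟩
    rw [h2]
    exact D.box_compact.isClosed.inter (isClosed_iInter h1)
  refine ⟨?_, ?_, ?_, ?_, ?_⟩
  · exact D.box_compact.of_isClosed_subset hcl fun x hx => hx.1
  · rintro x ⟨hx, hx'⟩ y ⟨hy, hy'⟩ a b ha hb hab
    refine ⟨fun i => ⟨?_, ?_⟩, fun k => ?_⟩
    · simp only [Pi.add_apply, Pi.smul_apply, smul_eq_mul]
      have := mul_nonneg ha (hx i).1
      have := mul_nonneg hb (hy i).1
      linarith
    · simp only [Pi.add_apply, Pi.smul_apply, smul_eq_mul]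
      have h1 := mul_le_mul_of_nonneg_left (hx i).2 ha
      have h2 := mul_le_mul_of_nonneg_left (hy i).2 hb
      calc a * x i + b * y i ≤ a * D.a i + b * D.a i := add_le_add h1 h2
        _ = (a + b) * D.a i := by ring
        _ = D.a i := by rw [hab, one_mul]
    · have h1 : D.S k (a • x + b • y) ≤ a * D.S k x + b * D.S k y := by
        unfold S
        rw [Finset.mul_sum, Finset.mul_sum, ← Finset.sum_add_distrib]
        refine Finset.sum_le_sum fun i _ => ?_
        have h := (D.hconv k i).2 (mem_Ici.2 (hx i).1) (mem_Ici.2 (hy i).1) ha hb hab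
        simpa only [smul_eq_mul, Pi.add_apply, Pi.smul_apply] using h
      have h2 := mul_le_mul_of_nonneg_left (hx' k) ha
      have h3 := mul_le_mul_of_nonneg_left (hy' k) hb
      linarith
  · exact fun x hx i => (hx.1 i).1
  · rintro x ⟨hx, hx'⟩ y hy0 hyx
    refine ⟨fun i => ⟨hy0 i, (hyx i).trans (hx i).2⟩, fun k => ?_⟩
    refine le_trans ?_ (hx' k)
    exact Finset.sum_le_sum fun i _ =>
      D.hmono k i (mem_Ici.2 (hy0 i)) (mem_Ici.2 (hx i).1) (hyx i)
  · exact D.small_ball 1 one_pos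

end OData

end Pool.Agent.Lib.MP_29b1bb_gt.SU
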