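import Pool.Agent.Lib.MP_29b1bb_gt.SU.OBody

/-!
Proof sketch for module OProd (board SU, MP_29b1bb_gt, helper96).
Hints. box_eq and Phi_eq turn the integral over the box into an integral over Set.pi of a product of functions of the coordinates: volume restricted to the box is
Measure.pi of the restrictions (Measure.restrict_pi_pi, volume_pi), then integral_fintype_prod_eq_prod. box_mean: sum over i of the product with one modified factor
(Finset.prod_update or Finset.mul_prod_erase), Ei * Zi = int phi exp(-phi).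
-/

set_option autoImplicit false

open MeasureTheory Set

namespace Pool.Agent.Lib.MP_29b1bb_gt.SU

/-- the partition function of one coordinate -/
noncomputable def Zi {d m : ℕ} (D : OData d m) (β : Fin m → ℝ) (i : Fin d) : ℝ :=
  ∫ t in Icc 0 (D.a i), Real.exp (-(D.phi β i t))

/-- the mean of the potential of one coordinate -/
noncomputable def Ei {d m : ℕ} (D : OData d m) (β : Fin m → ℝ) (i : Fin d) : ℝ :=
  (∫ t in Icc 0 (D.a i), D.phi β i t * Real.exp (-(D.phi β i t))) / Zi D β i

private theorem suOProd_phi_cont {d m : ℕ} (D : OData d m) (β : Fin m → ℝ) (i : Fin d) :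
    ContinuousOn (D.phi β i) (Icc 0 (D.a i)) := by
  have h : ContinuousOn (fun t => ∑ k, β k * D.f k i t) (Icc 0 (D.a i)) := by
    refine continuousOn_finsetSum _ (fun k _ => ?_)
    refine ContinuousOn.mul continuousOn_const ?_
    exact (cf_continuous (D.hconv k i) (D.hmono k i) (D.hzero k i)).mono
      (fun t ht => mem_Ici.2 ht.1)
  exact h

private theorem suOProd_exp_cont {d m : ℕ} (D : OData d m) (β : Fin m → ℝ) (i : Fin d) :
    ContinuousOn (fun t => Real.exp (-(D.phi β i t))) (Icc 0 (D.a i)) :=
  (suOProd_phi_cont D β i).neg.rexp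

private theorem suOProd_restrict {d m : ℕ} (D : OData d m) :
    (volume : Measure (Fin d → ℝ)).restrict D.box =
      Measure.pi (fun i => (volume : Measure ℝ).restrict (Icc 0 (D.a i))) := by
  rw [D.box_eq, volume_pi, Measure.restrict_pi_pi]

private theorem suOProd_prod {d m : ℕ} (D : OData d m) (g : Fin d → ℝ → ℝ) :
    ∫ x in D.box, ∏ i, g i (x i) = ∏ i, ∫ t in Icc 0 (D.a i), g i t := by
  rw [suOProd_restrict D]
  exact integral_fintype_prod_eq_prod (fun i => g i)

theorem Zi_pos {d m : ℕ} (D : OData d m) (β : Fin m → ℝ) (i : Fin d) : 0 < Zi D β i := by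
  unfold Zi
  rw [integral_Icc_eq_integral_Ioc, ← intervalIntegral.integral_of_le (D.ha i).le]
  refine intervalIntegral.intervalIntegral_pos_of_pos_on ?_ (fun x _ => Real.exp_pos _) (D.ha i)
  refine ContinuousOn.intervalIntegrable ?_
  rw [uIcc_of_le (D.ha i).le]
  exact suOProd_exp_cont D β i

theorem box_exp {d m : ℕ} (D : OData d m) (β : Fin m → ℝ) (c : ℝ) :
    ∫ x in D.box, Real.exp (-(c * D.Phi β x)) =
      ∏ i, ∫ t in Icc 0 (D.a i), Real.exp (-(c * D.phi β i t)) := by
  rw [← suOProd_prod D (fun i t => Real.exp (-(c * D.phi β i t)))]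
  congr 1
  funext x
  rw [← Real.exp_sum, D.Phi_eq β x, Finset.mul_sum, Finset.sum_neg_distrib]

theorem box_mean {d m : ℕ} (D : OData d m) (β : Fin m → ℝ) :
    ∫ x in D.box, D.Phi β x * Real.exp (-(D.Phi β x)) = (∏ i, Zi D β i) * ∑ i, Ei D β i := by
  classical
  have hexp : ∀ x : Fin d → ℝ,
      Real.exp (-(D.Phi β x)) = ∏ j, Real.exp (-(D.phi β j (x j))) := by
    intro x
    rw [← Real.exp_sum, D.Phi_eq β x, Finset.sum_neg_distrib]
  -- the modified families
  set g : Fin d → Fin d → ℝ → ℝ := fun i j t =>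
    if j = i then D.phi β j t * Real.exp (-(D.phi β j t)) else Real.exp (-(D.phi β j t)) with hg
  have hgprod : ∀ (i : Fin d) (x : Fin d → ℝ),
      ∏ j, g i j (x j) = D.phi β i (x i) * ∏ j, Real.exp (-(D.phi β j (x j))) := by
    intro i x
    rw [← Finset.mul_prod_erase Finset.univ _ (Finset.mem_univ i),
      ← Finset.mul_prod_erase Finset.univ (fun j => Real.exp (-(D.phi β j (x j))))
        (Finset.mem_univ i)]
    have h1 : g i i (x i) = D.phi β i (x i) * Real.exp (-(D.phi β i (x i))) := by
      simp [hg]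
    have h2 : ∏ j ∈ Finset.univ.erase i, g i j (x j) =
        ∏ j ∈ Finset.univ.erase i, Real.exp (-(D.phi β j (x j))) := by
      refine Finset.prod_congr rfl (fun j hj => ?_)
      have hji : j ≠ i := Finset.ne_of_mem_erase hj
      simp [hg, hji]
    rw [h1, h2]
    ring
  have hpt : ∀ x : Fin d → ℝ, D.Phi β x * Real.exp (-(D.Phi β x)) =
      ∑ i, ∏ j, g i j (x j) := by
    intro x
    rw [hexp x, D.Phi_eq β x, Finset.sum_mul]
    exact Finset.sum_congr rfl (fun i _ => (hgprod i x).symm)
  have hgc : ∀ i j, ContinuousOn (g i j) (Icc 0 (D.a j)) := by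
    intro i j
    by_cases hji : j = i
    · have : g i j = fun t => D.phi β j t * Real.exp (-(D.phi β j t)) := by
        funext t
        simp [hg, hji]
      rw [this]
      exact (suOProd_phi_cont D β j).mul (suOProd_exp_cont D β j)
    · have : g i j = fun t => Real.exp (-(D.phi β j t)) := by
        funext t
        simp [hg, hji]
      rw [this]
      exact suOProd_exp_cont D β j
  have hint : ∀ i ∈ Finset.univ,
      Integrable (fun x : Fin d → ℝ => ∏ j, g i j (x j)) (volume.restrict D.box) := by
    intro i _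
    have hc : ContinuousOn (fun x : Fin d → ℝ => ∏ j, g i j (x j)) D.box := by
      refine continuousOn_finsetProd _ (fun j _ => ?_)
      exact (hgc i j).comp (continuous_apply j).continuousOn (fun x hx => ⟨(hx j).1, (hx j).2⟩)
    exact hc.integrableOn_compact D.box_compact
  have hmain : ∫ x in D.box, D.Phi β x * Real.exp (-(D.Phi β x)) =
      ∑ i, ∏ j, ∫ t in Icc 0 (D.a j), g i j t := by
    have h1 : ∫ x in D.box, D.Phi β x * Real.exp (-(D.Phi β x)) =
        ∫ x in D.box, ∑ i, ∏ j, g i j (x j) := by
      congr 1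
      funext x
      exact hpt x
    rw [h1, integral_finsetSum _ hint]
    exact Finset.sum_congr rfl (fun i _ => suOProd_prod D (g i))
  rw [hmain, Finset.mul_sum]
  refine Finset.sum_congr rfl (fun i _ => ?_)
  rw [← Finset.mul_prod_erase Finset.univ _ (Finset.mem_univ i),
    ← Finset.mul_prod_erase Finset.univ (fun j => Zi D β j) (Finset.mem_univ i)]
  have h1 : ∫ t in Icc 0 (D.a i), g i i t = Ei D β i * Zi D β i := by
    have : g i i = fun t => D.phi β i t * Real.exp (-(D.phi β i t)) := by
      funext t
      simp [hg]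
    rw [this]
    unfold Ei
    rw [div_mul_cancel₀ _ (Zi_pos D β i).ne']
  have h2 : ∏ j ∈ Finset.univ.erase i, ∫ t in Icc 0 (D.a j), g i j t =
      ∏ j ∈ Finset.univ.erase i, Zi D β j := by
    refine Finset.prod_congr rfl (fun j hj => ?_)
    have hji : j ≠ i := Finset.ne_of_mem_erase hj
    have : g i j = fun t => Real.exp (-(D.phi β j t)) := by
      funext t
      simp [hg, hji]
    rw [this]
    rfl
  rw [h1, h2]
  ring

end Pool.Agent.Lib.MP_29b1bb_gt.SU
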