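import Pool.Agent.Lib.MP_29b1bb_gt.SU.TwoG
import Pool.Agent.Lib.MP_29b1bb_gt.SU.SecB
set_option autoImplicit false

open MeasureTheory Set

namespace Pool.Agent.Lib.MP_29b1bb_gt.SU

theorem two_g {n : ℕ} {B : Set (Fin (n + 1) → ℝ)} (hB : Corner (n + 1) B) (i : Fin (n + 1)) :
    2 * M1 B i * (∫ t in Ici (0 : ℝ), sec B i t ^ 2) ≤ vol B ^ 3 := by
  obtain ⟨R, hR0, hR⟩ := sec_bdd hB i
  have h := two_g_fun (sec B i) (sec_antitone hB i) (fun t _ => sec_nonneg B i t) R hR
    (fun x y u hx hxy hu => sec_four hB i x y u hx hxy hu)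
  have e1 : M1 B i = ∫ t in Ici (0 : ℝ), t * sec B i t := sec_integral hB i id measurable_id
  have e0 : vol B = ∫ t in Ici (0 : ℝ), sec B i t := by
    have := sec_integral hB i (fun _ => 1) measurable_const
    simp only [one_mul] at this
    rw [← this, setIntegral_const, smul_eq_mul, mul_one]
    rfl
  rw [e1, e0]
  exact h

end Pool.Agent.Lib.MP_29b1bb_gt.SU
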