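import Pool.Agent.Lib.MP_29b1bb_gt.SU.OProd
import Pool.Agent.Lib.MP_29b1bb_gt.SU.TwoGB
/-!
Proof sketch for module OZ (board SU, MP_29b1bb_gt, helper96).
Proof. f = sec B i, V = vol B, phi = D.phi beta i, a = D.a i; f vanishes outside [0,a] up to a null set (B is contained in the box: sec B i t = 0 for t > a). Cauchy-Schwarz:
(int_0^a f exp(-phi/2))^2 <= (int_0^a exp(-phi)) (int_0^a f^2). Jensen: int f exp(-phi/2) >= V exp(-(1/2) int f phi / V). Hence V^2 exp(-(int f phi)/V) <= Zi * int f^2 and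
two_g : 2 M1 int f^2 <= V^3 gives 2 (M1/V) exp(-(int f phi)/V) <= Zi (if int f^2 > 0, true as f <> 0). int_B phi(x i) = int f phi by sec_integral (phi may be replaced by a measurable function equal
to phi on [0,oo), e.g. t -> phi (max t 0), which is monotone).
-/

set_option autoImplicit false

open MeasureTheory Set

namespace Pool.Agent.Lib.MP_29b1bb_gt.SU

private theorem suOZ_cs {μ : Measure ℝ} (g h : ℝ → ℝ) (hg : Integrable (fun t => g t ^ 2) μ)
    (hh : Integrable (fun t => h t ^ 2) μ) (hgh : Integrable (fun t => g t * h t) μ) :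
    (∫ t, g t * h t ∂μ) ^ 2 ≤ (∫ t, g t ^ 2 ∂μ) * ∫ t, h t ^ 2 ∂μ := by
  have key : ∀ x : ℝ, 0 ≤ (∫ t, g t ^ 2 ∂μ) * (x * x) + (-(2 * ∫ t, g t * h t ∂μ)) * x +
      ∫ t, h t ^ 2 ∂μ := by
    intro x
    have h1 : 0 ≤ ∫ t, (x * g t - h t) ^ 2 ∂μ := integral_nonneg fun t => sq_nonneg _
    have h2 : ∫ t, (x * g t - h t) ^ 2 ∂μ =
        ∫ t, ((x * x) * g t ^ 2 + (-(2 * x)) * (g t * h t) + h t ^ 2) ∂μ := by
      congr 1
      funext t
      ring
    have h4 : Integrable (fun t => (x * x) * g t ^ 2 + (-(2 * x)) * (g t * h t)) μ :=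
      (hg.const_mul _).add (hgh.const_mul _)
    have h5 : ∫ t, ((x * x) * g t ^ 2 + (-(2 * x)) * (g t * h t) + h t ^ 2) ∂μ =
        (∫ t, ((x * x) * g t ^ 2 + (-(2 * x)) * (g t * h t)) ∂μ) + ∫ t, h t ^ 2 ∂μ :=
      integral_add h4 hh
    have h6 : ∫ t, ((x * x) * g t ^ 2 + (-(2 * x)) * (g t * h t)) ∂μ =
        (∫ t, (x * x) * g t ^ 2 ∂μ) + ∫ t, (-(2 * x)) * (g t * h t) ∂μ :=
      integral_add (hg.const_mul _) (hgh.const_mul _)
    rw [h2, h5, h6, integral_const_mul, integral_const_mul] at h1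
    nlinarith [h1]
  have h3 := discrim_le_zero key
  unfold discrim at h3
  nlinarith [h3]

theorem Z_lower {n m : ℕ} (D : OData (n + 1) m) (β : Fin m → ℝ) (hβ : ∀ k, 0 ≤ β k)
    (i : Fin (n + 1)) (B : Set (Fin (n + 1) → ℝ)) (hB : Corner (n + 1) B) (hsub : B ⊆ D.box) :
    2 * (M1 B i / vol B) * Real.exp (-((∫ x in B, D.phi β i (x i)) / vol B)) ≤ Zi D β i := by
  have hφ0 := D.phi_zero β i
  have hφm := D.phi_mono hβ i
  obtain ⟨ψ, hψ⟩ : ∃ ψ : ℝ → ℝ, ∀ t, ψ t = D.phi β i (max t 0) := ⟨_, fun _ => rfl⟩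
  have hψmono : Monotone ψ := by
    intro s t hst
    rw [hψ, hψ]
    exact hφm (mem_Ici.2 (le_max_right _ _)) (mem_Ici.2 (le_max_right _ _))
      (max_le_max hst le_rfl)
  have hψmeas : Measurable ψ := hψmono.measurable
  have hψeq : ∀ t, 0 ≤ t → ψ t = D.phi β i t := fun t ht => by rw [hψ, max_eq_left ht]
  have hψ0 : ∀ t, 0 ≤ ψ t := by
    intro t
    have h1 := hφm (mem_Ici.2 le_rfl) (mem_Ici.2 (le_max_right t 0)) (le_max_right t 0)
    rw [hφ0] at h1
    rw [hψ]
    exact h1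
  have hV := hB.vol_pos
  have hbox : ∀ x ∈ B, 0 ≤ x i ∧ x i ≤ D.a i := fun x hx => hsub hx i
  -- replace phi by psi
  have hE : ∫ x in B, D.phi β i (x i) = ∫ x in B, ψ (x i) :=
    setIntegral_congr_fun hB.measurable fun x hx => (hψeq _ (hbox x hx).1).symm
  rw [hE]
  obtain ⟨E, hEd⟩ : ∃ E, E = ∫ x in B, ψ (x i) := ⟨_, rfl⟩
  rw [← hEd]
  have hev : Measurable fun x : Fin (n + 1) → ℝ => x i := measurable_pi_apply i
  have hint1 : IntegrableOn (fun x : Fin (n + 1) → ℝ => ψ (x i)) B := by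
    refine Measure.integrableOn_of_bounded hB.finite (hψmeas.comp hev).aestronglyMeasurable
      (M := ψ (D.a i)) ?_
    refine (ae_restrict_iff' hB.measurable).2 (Filter.Eventually.of_forall fun x hx => ?_)
    rw [Real.norm_eq_abs, abs_of_nonneg (hψ0 _)]
    exact hψmono (hbox x hx).2
  have hemeas : Measurable fun t => Real.exp (-(ψ t / 2)) :=
    Real.measurable_exp.comp (hψmeas.div_const 2).neg
  have hint2 : IntegrableOn (fun x : Fin (n + 1) → ℝ => Real.exp (-(ψ (x i) / 2))) B := by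
    refine Measure.integrableOn_of_bounded hB.finite (hemeas.comp hev).aestronglyMeasurable
      (M := 1) ?_
    refine Filter.Eventually.of_forall fun x => ?_
    rw [Real.norm_eq_abs, abs_of_pos (Real.exp_pos _)]
    exact Real.exp_le_one_iff.2 (by have := hψ0 (x i); linarith)
  have hvol : ∫ _x in B, (1 : ℝ) = vol B := by
    rw [setIntegral_const, smul_eq_mul, mul_one]
    rfl
  have hfin : IsFiniteMeasure ((volume : Measure (Fin (n + 1) → ℝ)).restrict B) :=
    ⟨by rw [Measure.restrict_apply_univ]; exact lt_top_iff_ne_top.2 hB.finite⟩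
  -- Jensen
  have hJ : vol B * Real.exp (-(E / (2 * vol B))) ≤
      ∫ x in B, Real.exp (-(ψ (x i) / 2)) := by
    have h1 : ∫ x in B, Real.exp (-(E / (2 * vol B))) *
        (1 + (-(ψ (x i) / 2) - -(E / (2 * vol B)))) ≤
        ∫ x in B, Real.exp (-(ψ (x i) / 2)) := by
      refine integral_mono ?_ hint2 ?_
      · refine Integrable.const_mul ?_ _
        refine (integrable_const _).add (Integrable.sub ?_ (integrable_const _))
        exact (hint1.div_const 2).neg
      · intro x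
        have h2 := Real.add_one_le_exp (-(ψ (x i) / 2) - -(E / (2 * vol B)))
        have h3 : Real.exp (-(ψ (x i) / 2)) = Real.exp (-(E / (2 * vol B))) *
            Real.exp (-(ψ (x i) / 2) - -(E / (2 * vol B))) := by
          rw [← Real.exp_add]
          congr 1
          ring
        change _ ≤ Real.exp (-(ψ (x i) / 2))
        rw [h3]
        refine mul_le_mul_of_nonneg_left ?_ (Real.exp_pos _).le
        linarith
    have h4 : ∫ x in B, Real.exp (-(E / (2 * vol B))) *
        (1 + (-(ψ (x i) / 2) - -(E / (2 * vol B)))) =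
        vol B * Real.exp (-(E / (2 * vol B))) := by
      rw [integral_const_mul]
      have h5 : ∫ x in B, (1 + (-(ψ (x i) / 2) - -(E / (2 * vol B)))) = vol B := by
        have h6 : (fun x : Fin (n + 1) → ℝ => 1 + (-(ψ (x i) / 2) - -(E / (2 * vol B)))) =
            fun x => (1 + E / (2 * vol B)) * 1 + (-(1 / 2)) * ψ (x i) := by
          funext x
          ring
        rw [h6, integral_add ((integrable_const _).const_mul _) (hint1.const_mul _),
          integral_const_mul, integral_const_mul, hvol, ← hEd]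
        field_simp
        ring
      rw [h5]
      ring
    rw [← h4]
    exact h1
  -- transfer to the line
  have hfz : ∀ t, D.a i < t → sec B i t = 0 := by
    intro t ht
    have h1 : {y : Fin n → ℝ | (i.insertNth t y : Fin (n + 1) → ℝ) ∈ B} = ∅ := by
      rw [Set.eq_empty_iff_forall_notMem]
      intro y hy
      have h2 := (hbox _ hy).2
      rw [Fin.insertNth_apply_same] at h2
      linarith
    rw [sec, h1, measure_empty]
    rfl
  have hsm := sec_measurable hB i
  have hline : ∫ x in B, Real.exp (-(ψ (x i) / 2)) =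
      ∫ t in Icc 0 (D.a i), Real.exp (-(ψ t / 2)) * sec B i t := by
    rw [sec_integral hB i (fun t => Real.exp (-(ψ t / 2))) hemeas]
    refine (setIntegral_eq_of_subset_of_forall_sdiff_eq_zero measurableSet_Ici
      Icc_subset_Ici_self ?_)
    rintro t ⟨ht1, ht2⟩
    have : D.a i < t := by
      by_contra hcon
      exact ht2 ⟨ht1, not_lt.1 hcon⟩
    rw [hfz t this, mul_zero]
  have hfb : ∀ t ∈ Icc 0 (D.a i), sec B i t ≤ sec B i 0 := fun t ht =>
    sec_antitone hB i (mem_Ici.2 le_rfl) (mem_Ici.2 ht.1) ht.1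
  have hIccfin : (volume : Measure ℝ) (Icc 0 (D.a i)) ≠ ⊤ := by
    rw [Real.volume_Icc]
    exact ENNReal.ofReal_ne_top
  have i1 : IntegrableOn (fun t => Real.exp (-(ψ t / 2)) ^ 2) (Icc 0 (D.a i)) := by
    refine Measure.integrableOn_of_bounded hIccfin (hemeas.pow_const 2).aestronglyMeasurable
      (M := 1) ?_
    refine Filter.Eventually.of_forall fun t => ?_
    rw [Real.norm_eq_abs, abs_of_nonneg (sq_nonneg _)]
    have h2 : Real.exp (-(ψ t / 2)) ≤ 1 :=
      Real.exp_le_one_iff.2 (by have := hψ0 t; linarith)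
    exact pow_le_one₀ (Real.exp_pos _).le h2
  have i2 : IntegrableOn (fun t => sec B i t ^ 2) (Icc 0 (D.a i)) := by
    refine Measure.integrableOn_of_bounded hIccfin (hsm.pow_const 2).aestronglyMeasurable
      (M := sec B i 0 ^ 2) ?_
    refine (ae_restrict_iff' measurableSet_Icc).2 (Filter.Eventually.of_forall fun t ht => ?_)
    rw [Real.norm_eq_abs, abs_of_nonneg (sq_nonneg _)]
    exact pow_le_pow_left₀ (sec_nonneg B i t) (hfb t ht) 2
  have i3 : IntegrableOn (fun t => Real.exp (-(ψ t / 2)) * sec B i t) (Icc 0 (D.a i)) := by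
    refine Measure.integrableOn_of_bounded hIccfin (hemeas.mul hsm).aestronglyMeasurable
      (M := sec B i 0) ?_
    refine (ae_restrict_iff' measurableSet_Icc).2 (Filter.Eventually.of_forall fun t ht => ?_)
    rw [Real.norm_eq_abs, abs_of_nonneg (mul_nonneg (Real.exp_pos _).le (sec_nonneg B i t))]
    have h2 : Real.exp (-(ψ t / 2)) ≤ 1 :=
      Real.exp_le_one_iff.2 (by have := hψ0 t; linarith)
    calc Real.exp (-(ψ t / 2)) * sec B i t ≤ 1 * sec B i t :=
          mul_le_mul_of_nonneg_right h2 (sec_nonneg B i t)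
      _ = sec B i t := one_mul _
      _ ≤ _ := hfb t ht
  have hCS := suOZ_cs (μ := volume.restrict (Icc 0 (D.a i))) (fun t => Real.exp (-(ψ t / 2)))
    (sec B i) i1 i2 i3
  have hZ : ∫ t in Icc 0 (D.a i), Real.exp (-(ψ t / 2)) ^ 2 = Zi D β i := by
    rw [Zi]
    refine setIntegral_congr_fun measurableSet_Icc fun t ht => ?_
    change Real.exp (-(ψ t / 2)) ^ 2 = Real.exp (-(D.phi β i t))
    rw [← Real.exp_nat_mul, hψeq t ht.1]
    congr 1
    push_cast
    ring
  have hQ : ∫ t in Icc 0 (D.a i), sec B i t ^ 2 = ∫ t in Ici (0 : ℝ), sec B i t ^ 2 := by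
    symm
    refine (setIntegral_eq_of_subset_of_forall_sdiff_eq_zero measurableSet_Ici
      Icc_subset_Ici_self ?_)
    rintro t ⟨ht1, ht2⟩
    have : D.a i < t := by
      by_contra hcon
      exact ht2 ⟨ht1, not_lt.1 hcon⟩
    rw [hfz t this]
    norm_num
  rw [hZ, hQ] at hCS
  rw [hline] at hJ
  have hG := two_g hB i
  have hZ0 : 0 ≤ Zi D β i := by
    rw [Zi]
    exact integral_nonneg fun t => (Real.exp_pos _).le
  have hM0 : 0 ≤ M1 B i := by
    rw [M1]
    exact setIntegral_nonneg hB.measurable fun x hx => (hbox x hx).1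
  obtain ⟨J, hJd⟩ : ∃ J, J = ∫ t in Icc 0 (D.a i), Real.exp (-(ψ t / 2)) * sec B i t := ⟨_, rfl⟩
  obtain ⟨Q, hQd⟩ : ∃ Q, Q = ∫ t in Ici (0 : ℝ), sec B i t ^ 2 := ⟨_, rfl⟩
  rw [← hJd] at hJ hCS
  rw [← hQd] at hCS hG
  obtain ⟨V, hVd⟩ : ∃ V, V = vol B := ⟨_, rfl⟩
  rw [← hVd] at hJ hG hV ⊢
  obtain ⟨M, hMd⟩ : ∃ M, M = M1 B i := ⟨_, rfl⟩
  rw [← hMd] at hG hM0 ⊢
  have h7 : V ^ 2 * Real.exp (-(E / V)) ≤ Zi D β i * Q := by
    have h8 : (V * Real.exp (-(E / (2 * V)))) ^ 2 ≤ J ^ 2 :=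
      pow_le_pow_left₀ (by positivity) hJ 2
    have h9 : (V * Real.exp (-(E / (2 * V)))) ^ 2 = V ^ 2 * Real.exp (-(E / V)) := by
      rw [mul_pow, ← Real.exp_nat_mul]
      congr 2
      push_cast
      field_simp
    rw [h9] at h8
    exact h8.trans hCS
  have h10 : (2 * M) * (V ^ 2 * Real.exp (-(E / V))) ≤ Zi D β i * V ^ 3 := by
    calc (2 * M) * (V ^ 2 * Real.exp (-(E / V))) ≤ (2 * M) * (Zi D β i * Q) :=
          mul_le_mul_of_nonneg_left h7 (by positivity)
      _ = Zi D β i * (2 * M * Q) := by ring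
      _ ≤ Zi D β i * V ^ 3 := mul_le_mul_of_nonneg_left hG hZ0
  have h11 : 2 * (M / V) * Real.exp (-(E / V)) * V ^ 3 ≤ Zi D β i * V ^ 3 := by
    have h12 : 2 * (M / V) * Real.exp (-(E / V)) * V ^ 3 =
        (2 * M) * (V ^ 2 * Real.exp (-(E / V))) := by
      field_simp
    rw [h12]
    exact h10
  exact le_of_mul_le_mul_right h11 (by positivity)

end Pool.Agent.Lib.MP_29b1bb_gt.SU
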