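import Pool.Agent.Lib.MP_29b1bb_gt.SU.Defs

/-!
Proof sketch for module PL1 (board SU, MP_29b1bb_gt, helper96).
Proof. If a 0 = 0 or b 0 = 0 then a (or b) vanishes on [0,oo) and the left side is 0 (0 < 1-l, 0 < l;
0 * oo = 0). Otherwise, for 0 < u < 1 put A_u = {t >= 0 : a t > u a(0)}, B_u = {t >= 0 : b t > u b(0)}; by antitonicity
they are initial intervals of [0,oo) (contain 0) with lengths alpha(u), beta(u) in [0,oo]. For s in A_u, t in B_u:
c((1-l)s+lt) > u a(0)^(1-l) b(0)^l, and (1-l)A_u + l B_u is an initial interval of length >= (1-l) alpha + l beta.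
Layer cake (lintegral of c over Ici 0 >= a(0)^(1-l) b(0)^l * int_0^1 vol{t >= 0 : c t > u a(0)^(1-l)b(0)^l} du):
int c >= a(0)^(1-l) b(0)^l [ (1-l) int a / a(0) + l int b / b(0) ] >= (int a)^(1-l) (int b)^l by the weighted AM-GM inequality
(ENNReal.inner_le... or Real.geom_mean_le_arith_mean2_weighted; ENNReal version: ENNReal.geom_mean_le_arith_mean2_weighted).
-/

set_option autoImplicit false

open MeasureTheory Set

namespace Pool.Agent.Lib.MP_29b1bb_gt.SU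

private theorem suPL1_len (S : Set ℝ) (hS : ∀ x ∈ S, 0 ≤ x) :
    volume S ≤ ⨆ x : S, ENNReal.ofReal (x : ℝ) := by
  by_cases htop : (⨆ x : S, ENNReal.ofReal (x : ℝ)) = ⊤
  · rw [htop]; exact le_top
  · have hsub : S ⊆ Icc 0 (⨆ x : S, ENNReal.ofReal (x : ℝ)).toReal := by
      intro x hx
      refine ⟨hS x hx, ?_⟩
      have h1 : ENNReal.ofReal x ≤ ⨆ x : S, ENNReal.ofReal (x : ℝ) :=
        le_iSup (fun x : S => ENNReal.ofReal (x : ℝ)) ⟨x, hx⟩
      exact (ENNReal.ofReal_le_iff_le_toReal htop).1 h1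
    refine (measure_mono hsub).trans ?_
    rw [Real.volume_Icc, sub_zero, ENNReal.ofReal_toReal htop]

private theorem suPL1_sum (l : ℝ) (h0 : 0 < l) (h1 : l < 1) (S T U : Set ℝ)
    (hS : ∀ x ∈ S, 0 ≤ x) (hT : ∀ x ∈ T, 0 ≤ x)
    (hSn : S.Nonempty) (hTn : T.Nonempty)
    (hSd : ∀ x ∈ S, ∀ y, 0 ≤ y → y ≤ x → y ∈ S) (hTd : ∀ x ∈ T, ∀ y, 0 ≤ y → y ≤ x → y ∈ T)
    (hU : ∀ s ∈ S, ∀ t ∈ T, (1 - l) * s + l * t ∈ U) :
    ENNReal.ofReal (1 - l) * volume S + ENNReal.ofReal l * volume T ≤ volume U := by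
  have key : ∀ x ∈ S, ∀ y ∈ T, ENNReal.ofReal (1 - l) * ENNReal.ofReal x +
      ENNReal.ofReal l * ENNReal.ofReal y ≤ volume U := by
    intro x hx y hy
    have hx0 := hS x hx
    have hy0 := hT y hy
    have hz0 : 0 ≤ (1 - l) * x + l * y := by
      have := mul_nonneg (sub_nonneg.2 h1.le) hx0
      have := mul_nonneg h0.le hy0
      linarith
    rw [← ENNReal.ofReal_mul (sub_nonneg.2 h1.le), ← ENNReal.ofReal_mul h0.le,
      ← ENNReal.ofReal_add (mul_nonneg (sub_nonneg.2 h1.le) hx0) (mul_nonneg h0.le hy0)]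
    have hsub : Icc 0 ((1 - l) * x + l * y) ⊆ U := by
      intro z hz
      rcases hz0.eq_or_lt with h | h
      · have hzz : z = 0 := le_antisymm (by rw [h]; exact hz.2) hz.1
        have := hU 0 (hSd x hx 0 le_rfl hx0) 0 (hTd y hy 0 le_rfl hy0)
        simpa [hzz] using this
      · set θ := z / ((1 - l) * x + l * y) with hθ
        have hθ0 : 0 ≤ θ := div_nonneg hz.1 h.le
        have hθ1 : θ ≤ 1 := by
          rw [hθ, div_le_one h]; exact hz.2
        have hs : θ * x ∈ S := hSd x hx _ (mul_nonneg hθ0 hx0) (by nlinarith)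
        have ht : θ * y ∈ T := hTd y hy _ (mul_nonneg hθ0 hy0) (by nlinarith)
        have := hU _ hs _ ht
        have e : (1 - l) * (θ * x) + l * (θ * y) = z := by
          have : (1 - l) * (θ * x) + l * (θ * y) = θ * ((1 - l) * x + l * y) := by ring
          rw [this, hθ, div_mul_cancel₀ _ h.ne']
        rwa [e] at this
    calc ENNReal.ofReal ((1 - l) * x + l * y) = volume (Icc 0 ((1 - l) * x + l * y)) := by
          rw [Real.volume_Icc, sub_zero]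
      _ ≤ volume U := measure_mono hsub
  have : Nonempty S := hSn.to_subtype
  have : Nonempty T := hTn.to_subtype
  calc ENNReal.ofReal (1 - l) * volume S + ENNReal.ofReal l * volume T
      ≤ ENNReal.ofReal (1 - l) * (⨆ x : S, ENNReal.ofReal (x : ℝ)) +
        ENNReal.ofReal l * (⨆ x : T, ENNReal.ofReal (x : ℝ)) :=
        add_le_add (mul_le_mul_right (suPL1_len S hS) _) (mul_le_mul_right (suPL1_len T hT) _)
    _ = (⨆ x : S, ENNReal.ofReal (1 - l) * ENNReal.ofReal (x : ℝ)) +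
        (⨆ x : T, ENNReal.ofReal l * ENNReal.ofReal (x : ℝ)) := by
        rw [ENNReal.mul_iSup, ENNReal.mul_iSup]
    _ ≤ volume U := ENNReal.iSup_add_iSup_le (fun x y => key x x.2 y y.2)

private theorem suPL1_amgm (l : ℝ) (h0 : 0 < l) (h1 : l < 1) (x y : ENNReal) :
    x ^ (1 - l) * y ^ l ≤ ENNReal.ofReal (1 - l) * x + ENNReal.ofReal l * y := by
  have h1' : 0 < 1 - l := sub_pos.2 h1
  have hpq : ((1 - l)⁻¹).HolderConjugate (l⁻¹) := by
    rw [Real.holderConjugate_iff]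
    refine ⟨(one_lt_inv₀ h1').2 (by linarith), ?_⟩
    rw [inv_inv, inv_inv]; ring
  have h := ENNReal.young_inequality (x ^ (1 - l)) (y ^ l) hpq
  rw [← ENNReal.rpow_mul, ← ENNReal.rpow_mul, mul_inv_cancel₀ h1'.ne', mul_inv_cancel₀ h0.ne',
    ENNReal.rpow_one, ENNReal.rpow_one, ENNReal.ofReal_inv_of_pos h1', ENNReal.ofReal_inv_of_pos h0,
    div_eq_mul_inv, div_eq_mul_inv, inv_inv, inv_inv, mul_comm x, mul_comm y] at h
  exact h

private theorem suPL1_layer (a : ℝ → ENNReal) (ha : AntitoneOn a (Ici 0)) (hA1 : a 0 = 1) :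
    ∫⁻ t in Ici (0 : ℝ), a t =
      ∫⁻ u in Ioi (0 : ℝ), volume {t : ℝ | 0 ≤ t ∧ ENNReal.ofReal u < a t} := by
  have hle : ∀ t, 0 ≤ t → a t ≤ 1 := fun t ht => hA1 ▸ ha (mem_Ici.2 le_rfl) (mem_Ici.2 ht) ht
  have hfin : ∀ t, 0 ≤ t → a t ≠ ⊤ := fun t ht => ne_top_of_le_ne_top ENNReal.one_ne_top (hle t ht)
  have hanti : AntitoneOn (fun t => (a t).toReal) (Ici 0) := by
    intro x hx y hy hxy
    exact ENNReal.toReal_mono (hfin x hx) (ha hx hy hxy)
  have hmeas : AEMeasurable (fun t => (a t).toReal) (volume.restrict (Ici (0 : ℝ))) :=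
    aemeasurable_restrict_of_antitoneOn measurableSet_Ici hanti
  have h := lintegral_eq_lintegral_meas_lt (volume.restrict (Ici (0 : ℝ)))
    (f := fun t => (a t).toReal) (Filter.Eventually.of_forall fun t => ENNReal.toReal_nonneg) hmeas
  have e1 : ∫⁻ t in Ici (0 : ℝ), a t = ∫⁻ t in Ici (0 : ℝ), ENNReal.ofReal (a t).toReal := by
    refine setLIntegral_congr_fun measurableSet_Ici ?_
    intro t ht
    exact (ENNReal.ofReal_toReal (hfin t ht)).symm
  rw [e1, h]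
  refine setLIntegral_congr_fun measurableSet_Ioi ?_
  intro u hu
  have hset : {t : ℝ | 0 ≤ t ∧ ENNReal.ofReal u < a t} = {t | u < (a t).toReal} ∩ Ici 0 := by
    ext t
    constructor
    · rintro ⟨ht, h2⟩
      exact ⟨(ENNReal.ofReal_lt_iff_lt_toReal (le_of_lt hu) (hfin t ht)).1 h2, ht⟩
    · rintro ⟨h2, ht⟩
      exact ⟨ht, (ENNReal.ofReal_lt_iff_lt_toReal (le_of_lt hu) (hfin t ht)).2 h2⟩
  show (volume.restrict (Ici (0 : ℝ))) {t | u < (a t).toReal} =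
    volume {t : ℝ | 0 ≤ t ∧ ENNReal.ofReal u < a t}
  rw [hset, Measure.restrict_apply' measurableSet_Ici]

private theorem suPL1_layer_c (c : ℝ → ENNReal) (hc : Measurable c) (hle : ∀ t, c t ≤ 1) :
    ∫⁻ t in Ici (0 : ℝ), c t =
      ∫⁻ u in Ioi (0 : ℝ), volume {t : ℝ | 0 ≤ t ∧ ENNReal.ofReal u < c t} := by
  have hfin : ∀ t, c t ≠ ⊤ := fun t => ne_top_of_le_ne_top ENNReal.one_ne_top (hle t)
  have h := lintegral_eq_lintegral_meas_lt (volume.restrict (Ici (0 : ℝ)))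
    (f := fun t => (c t).toReal) (Filter.Eventually.of_forall fun t => ENNReal.toReal_nonneg)
    hc.ennreal_toReal.aemeasurable
  have e1 : ∫⁻ t in Ici (0 : ℝ), c t = ∫⁻ t in Ici (0 : ℝ), ENNReal.ofReal (c t).toReal := by
    refine lintegral_congr fun t => ?_
    exact (ENNReal.ofReal_toReal (hfin t)).symm
  rw [e1, h]
  refine setLIntegral_congr_fun measurableSet_Ioi ?_
  intro u hu
  have hset : {t : ℝ | 0 ≤ t ∧ ENNReal.ofReal u < c t} = {t | u < (c t).toReal} ∩ Ici 0 := by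
    ext t
    constructor
    · rintro ⟨ht, h2⟩
      exact ⟨(ENNReal.ofReal_lt_iff_lt_toReal (le_of_lt hu) (hfin t)).1 h2, ht⟩
    · rintro ⟨h2, ht⟩
      exact ⟨ht, (ENNReal.ofReal_lt_iff_lt_toReal (le_of_lt hu) (hfin t)).2 h2⟩
  show (volume.restrict (Ici (0 : ℝ))) {t | u < (c t).toReal} =
    volume {t : ℝ | 0 ≤ t ∧ ENNReal.ofReal u < c t}
  rw [hset, Measure.restrict_apply' measurableSet_Ici]

private theorem suPL1_norm (l : ℝ) (h0 : 0 < l) (h1 : l < 1) (a b c : ℝ → ENNReal)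
    (ha : AntitoneOn a (Ici 0)) (hb : AntitoneOn b (Ici 0)) (hc : Measurable c)
    (ha0 : a 0 = 1) (hb0 : b 0 = 1) (hc1 : ∀ t, c t ≤ 1)
    (habc : ∀ s t : ℝ, 0 ≤ s → 0 ≤ t → a s ^ (1 - l) * b t ^ l ≤ c ((1 - l) * s + l * t)) :
    ENNReal.ofReal (1 - l) * (∫⁻ t in Ici (0 : ℝ), a t) +
      ENNReal.ofReal l * (∫⁻ t in Ici (0 : ℝ), b t) ≤ ∫⁻ t in Ici (0 : ℝ), c t := by
  rw [suPL1_layer a ha ha0, suPL1_layer b hb hb0, suPL1_layer_c c hc hc1]
  have hmA : Measurable (fun u : ℝ => volume {t : ℝ | 0 ≤ t ∧ ENNReal.ofReal u < a t}) := by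
    refine Antitone.measurable ?_
    intro u v huv
    refine measure_mono ?_
    rintro t ⟨ht, h2⟩
    exact ⟨ht, lt_of_le_of_lt (ENNReal.ofReal_le_ofReal huv) h2⟩
  have hmB : Measurable (fun u : ℝ => volume {t : ℝ | 0 ≤ t ∧ ENNReal.ofReal u < b t}) := by
    refine Antitone.measurable ?_
    intro u v huv
    refine measure_mono ?_
    rintro t ⟨ht, h2⟩
    exact ⟨ht, lt_of_le_of_lt (ENNReal.ofReal_le_ofReal huv) h2⟩
  rw [← lintegral_const_mul _ hmA, ← lintegral_const_mul _ hmB,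
    ← lintegral_add_left (hmA.const_mul _)]
  refine setLIntegral_mono' measurableSet_Ioi ?_
  intro u hu
  have hu0 : 0 < u := hu
  have hle_a : ∀ t, 0 ≤ t → a t ≤ 1 := fun t ht => ha0 ▸ ha (mem_Ici.2 le_rfl) (mem_Ici.2 ht) ht
  have hle_b : ∀ t, 0 ≤ t → b t ≤ 1 := fun t ht => hb0 ▸ hb (mem_Ici.2 le_rfl) (mem_Ici.2 ht) ht
  rcases lt_or_ge u 1 with hu1 | hu1
  · refine suPL1_sum l h0 h1 _ _ _ (fun x hx => hx.1) (fun x hx => hx.1) ?_ ?_ ?_ ?_ ?_
    · refine ⟨0, le_rfl, ?_⟩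
      rw [ha0]
      exact (ENNReal.ofReal_lt_one).2 hu1
    · refine ⟨0, le_rfl, ?_⟩
      rw [hb0]
      exact (ENNReal.ofReal_lt_one).2 hu1
    · rintro x ⟨hx, h2⟩ y hy hyx
      exact ⟨hy, lt_of_lt_of_le h2 (ha (mem_Ici.2 hy) (mem_Ici.2 hx) hyx)⟩
    · rintro x ⟨hx, h2⟩ y hy hyx
      exact ⟨hy, lt_of_lt_of_le h2 (hb (mem_Ici.2 hy) (mem_Ici.2 hx) hyx)⟩
    · rintro s ⟨hs, h2⟩ t ⟨ht, h3⟩
      refine ⟨add_nonneg (mul_nonneg (sub_nonneg.2 h1.le) hs) (mul_nonneg h0.le ht), ?_⟩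
      refine lt_of_lt_of_le ?_ (habc s t hs ht)
      have hu' : ENNReal.ofReal u ≠ 0 := by simpa using hu0
      have hut : ENNReal.ofReal u ≠ ⊤ := ENNReal.ofReal_ne_top
      have e : ENNReal.ofReal u = ENNReal.ofReal u ^ (1 - l) * ENNReal.ofReal u ^ l := by
        rw [← ENNReal.rpow_add _ _ hu' hut]
        simp
      rw [e]
      exact ENNReal.mul_lt_mul (ENNReal.rpow_lt_rpow h2 (sub_pos.2 h1)) (ENNReal.rpow_lt_rpow h3 h0)
  · have hA : {t : ℝ | 0 ≤ t ∧ ENNReal.ofReal u < a t} = ∅ := by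
      ext t
      simp only [mem_ofPred_eq, mem_empty_iff_false, iff_false, not_and, not_lt]
      intro ht
      exact (hle_a t ht).trans (by simpa using hu1)
    have hB : {t : ℝ | 0 ≤ t ∧ ENNReal.ofReal u < b t} = ∅ := by
      ext t
      simp only [mem_ofPred_eq, mem_empty_iff_false, iff_false, not_and, not_lt]
      intro ht
      exact (hle_b t ht).trans (by simpa using hu1)
    rw [hA, hB]
    simp

/-- The one-dimensional Prekopa-Leindler inequality for antitone functions on `[0, ∞)`. -/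
theorem pl_one (l : ℝ) (h0 : 0 < l) (h1 : l < 1) (a b c : ℝ → ENNReal)
    (ha : AntitoneOn a (Ici 0)) (hb : AntitoneOn b (Ici 0)) (hc : Measurable c)
    (ha0 : a 0 ≠ ⊤) (hb0 : b 0 ≠ ⊤)
    (habc : ∀ s t : ℝ, 0 ≤ s → 0 ≤ t → a s ^ (1 - l) * b t ^ l ≤ c ((1 - l) * s + l * t)) :
    (∫⁻ t in Ici (0 : ℝ), a t) ^ (1 - l) * (∫⁻ t in Ici (0 : ℝ), b t) ^ l ≤
      ∫⁻ t in Ici (0 : ℝ), c t := by
  have hint0 : ∀ f : ℝ → ENNReal, AntitoneOn f (Ici 0) → f 0 = 0 →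
      ∫⁻ t in Ici (0 : ℝ), f t = 0 := by
    intro f hf hf0
    have : ∫⁻ t in Ici (0 : ℝ), f t = ∫⁻ t in Ici (0 : ℝ), 0 := by
      refine setLIntegral_congr_fun measurableSet_Ici ?_
      intro t ht
      have := hf (mem_Ici.2 le_rfl) ht ht
      rw [hf0] at this
      exact le_antisymm this bot_le
    rw [this, lintegral_zero]
  by_cases hA : a 0 = 0
  · rw [hint0 a ha hA, ENNReal.zero_rpow_of_pos (sub_pos.2 h1), zero_mul]
    exact bot_le
  by_cases hB : b 0 = 0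
  · rw [hint0 b hb hB, ENNReal.zero_rpow_of_pos h0, mul_zero]
    exact bot_le
  set A := a 0 with hAdef
  set B := b 0 with hBdef
  have hl1 : 0 ≤ 1 - l := sub_nonneg.2 h1.le
  set M := A ^ (1 - l) * B ^ l with hM
  have hA1 : A ^ (1 - l) ≠ 0 := by
    rw [Ne, ENNReal.rpow_eq_zero_iff]
    push Not
    exact ⟨fun h => absurd h hA, fun h => absurd h ha0⟩
  have hB1 : B ^ l ≠ 0 := by
    rw [Ne, ENNReal.rpow_eq_zero_iff]
    push Not
    exact ⟨fun h => absurd h hB, fun h => absurd h hb0⟩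
  have hA2 : A ^ (1 - l) ≠ ⊤ := ENNReal.rpow_ne_top_of_nonneg hl1 ha0
  have hB2 : B ^ l ≠ ⊤ := ENNReal.rpow_ne_top_of_nonneg h0.le hb0
  have hM0 : M ≠ 0 := mul_ne_zero hA1 hB1
  have hMt : M ≠ ⊤ := ENNReal.mul_ne_top hA2 hB2
  have hn := suPL1_norm l h0 h1 (fun t => a t / A) (fun t => b t / B) (fun t => min (c t / M) 1)
    (fun x hx y hy hxy => ENNReal.div_le_div_right (ha hx hy hxy) _)
    (fun x hx y hy hxy => ENNReal.div_le_div_right (hb hx hy hxy) _)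
    ((hc.div_const _).min measurable_const)
    (ENNReal.div_self hA ha0) (ENNReal.div_self hB hb0) (fun t => min_le_right _ _) (by
      intro s t hs ht
      refine le_min ?_ ?_
      · have e : (a s / A) ^ (1 - l) * (b t / B) ^ l = (a s ^ (1 - l) * b t ^ l) / M := by
          rw [ENNReal.div_rpow_of_nonneg _ _ hl1, ENNReal.div_rpow_of_nonneg _ _ h0.le, hM]
          simp only [div_eq_mul_inv]
          rw [ENNReal.mul_inv (Or.inl hA1) (Or.inl hA2)]
          ring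
        show (a s / A) ^ (1 - l) * (b t / B) ^ l ≤ c ((1 - l) * s + l * t) / M
        rw [e]
        exact ENNReal.div_le_div_right (habc s t hs ht) _
      · have h3 : (a s / A) ^ (1 - l) ≤ 1 := by
          refine ENNReal.rpow_le_one ?_ hl1
          exact ENNReal.div_le_of_le_mul (by rw [one_mul]; exact ha (mem_Ici.2 le_rfl) (mem_Ici.2 hs) hs)
        have h4 : (b t / B) ^ l ≤ 1 := by
          refine ENNReal.rpow_le_one ?_ h0.le
          exact ENNReal.div_le_of_le_mul (by rw [one_mul]; exact hb (mem_Ici.2 le_rfl) (mem_Ici.2 ht) ht)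
        exact mul_le_one' h3 h4)
  have hAi : A⁻¹ ≠ ⊤ := ENNReal.inv_ne_top.2 hA
  have hBi : B⁻¹ ≠ ⊤ := ENNReal.inv_ne_top.2 hB
  have hMi : M⁻¹ ≠ ⊤ := ENNReal.inv_ne_top.2 hM0
  have ea : ∫⁻ t in Ici (0 : ℝ), a t / A = (∫⁻ t in Ici (0 : ℝ), a t) / A := by
    simp only [div_eq_mul_inv]
    rw [lintegral_mul_const' _ _ hAi]
  have eb : ∫⁻ t in Ici (0 : ℝ), b t / B = (∫⁻ t in Ici (0 : ℝ), b t) / B := by
    simp only [div_eq_mul_inv]
    rw [lintegral_mul_const' _ _ hBi]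
  have ec : ∫⁻ t in Ici (0 : ℝ), min (c t / M) 1 ≤ (∫⁻ t in Ici (0 : ℝ), c t) / M := by
    refine (lintegral_mono (fun t => min_le_left _ _)).trans ?_
    simp only [div_eq_mul_inv]
    rw [lintegral_mul_const' _ _ hMi]
  rw [ea, eb] at hn
  have hgm := suPL1_amgm l h0 h1 ((∫⁻ t in Ici (0 : ℝ), a t) / A) ((∫⁻ t in Ici (0 : ℝ), b t) / B)
  have hfin := (hgm.trans hn).trans ec
  have e : ((∫⁻ t in Ici (0 : ℝ), a t) / A) ^ (1 - l) * ((∫⁻ t in Ici (0 : ℝ), b t) / B) ^ l =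
      ((∫⁻ t in Ici (0 : ℝ), a t) ^ (1 - l) * (∫⁻ t in Ici (0 : ℝ), b t) ^ l) / M := by
    rw [ENNReal.div_rpow_of_nonneg _ _ hl1, ENNReal.div_rpow_of_nonneg _ _ h0.le, hM]
    simp only [div_eq_mul_inv]
    rw [ENNReal.mul_inv (Or.inl hA1) (Or.inl hA2)]
    ring
  rw [e] at hfin
  have h5 := mul_le_mul_left hfin M
  rwa [ENNReal.div_mul_cancel hM0 hMt, ENNReal.div_mul_cancel hM0 hMt] at h5

end Pool.Agent.Lib.MP_29b1bb_gt.SU
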