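import Pool.Agent.Lib.MP_29b1bb_gt.SU.ADefs

/-!
Proof sketch for module Park (board SU, MP_29b1bb_gt, helper96).
rot_preserving: two translations of [0,L-s) and [L-s,L).
cycle_block: m = size of the block, L = m+1. N(t) = number of j in the block with y j < t (t integer 0..m+1), N 0 = 0, N(m+1) = m. Let t0 in {1..m+1} be the smallest minimizer of N(t) - t on {1..m+1}; k = m+1-t0.
The rotated points z j = rot (m+1) k (y j): for i = 1..m the number of j with z j < i is N(t0+i) - N(t0) if t0+i <= m+1, and m - N(t0) + N(t0+i-m-1) otherwise, and it is >= i in both cases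
(minimality; in the second case strict minimality for the smaller index). So if sigma sorts z in the block, z(sigma j) < rk c j.
-/

set_option autoImplicit false

open MeasureTheory Set

namespace Pool.Agent.Lib.MP_29b1bb_gt.SU

variable {d : ℕ} {ι : Type*}

/-- rotation by `s` of the interval `[0, L)` -/
noncomputable def rot (L s t : ℝ) : ℝ := if t + s < L then t + s else t + s - L

theorem rot_preserving (L s : ℝ) (hL : 0 < L) (hs : 0 ≤ s) (hsL : s ≤ L) :
    MeasurePreserving (rot L s) (volume.restrict (Ico 0 L)) (volume.restrict (Ico 0 L)) := by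
  have hm : Measurable (rot L s) := by
    unfold rot
    refine Measurable.ite ?_ ?_ ?_
    · exact measurableSet_lt (measurable_id.add_const s) measurable_const
    · exact measurable_id.add_const s
    · exact (measurable_id.add_const s).sub_const L
  refine ⟨hm, Measure.ext fun A hA => ?_⟩
  rw [Measure.map_apply hm hA, Measure.restrict_apply (hm hA), Measure.restrict_apply hA]
  have h1 : rot L s ⁻¹' A ∩ Ico 0 L =
      (fun t => t + s) ⁻¹' (A ∩ Ico s L) ∪ (fun t => t + (s - L)) ⁻¹' (A ∩ Ico 0 s) := by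
    ext t
    simp only [mem_inter_iff, mem_preimage, mem_Ico, mem_union]
    constructor
    · rintro ⟨h2, h3, h4⟩
      unfold rot at h2
      by_cases h5 : t + s < L
      · rw [if_pos h5] at h2
        exact Or.inl ⟨h2, by linarith, h5⟩
      · rw [if_neg h5] at h2
        right
        have h6 : t + (s - L) = t + s - L := by ring
        rw [h6]
        exact ⟨h2, by linarith, by linarith⟩
    · rintro (⟨h2, h3, h4⟩ | ⟨h2, h3, h4⟩)
      · refine ⟨?_, by linarith, by linarith⟩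
        unfold rot
        rw [if_pos h4]
        exact h2
      · refine ⟨?_, by linarith, by linarith⟩
        unfold rot
        have h6 : t + (s - L) = t + s - L := by ring
        rw [if_neg (by linarith), ← h6]
        exact h2
  have h2 : A ∩ Ico 0 L = (A ∩ Ico s L) ∪ (A ∩ Ico 0 s) := by
    ext t
    simp only [mem_inter_iff, mem_Ico, mem_union]
    constructor
    · rintro ⟨h3, h4, h5⟩
      rcases lt_or_ge t s with h6 | h6
      · exact Or.inr ⟨h3, h4, h6⟩
      · exact Or.inl ⟨h3, h6, h5⟩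
    · rintro (⟨h3, h4, h5⟩ | ⟨h3, h4, h5⟩)
      · exact ⟨h3, hs.trans h4, h5⟩
      · exact ⟨h3, h4, h5.trans_le hsL⟩
  have hA2 : MeasurableSet (A ∩ Ico 0 s) := hA.inter measurableSet_Ico
  have hd1 : Disjoint ((fun t : ℝ => t + s) ⁻¹' (A ∩ Ico s L))
      ((fun t : ℝ => t + (s - L)) ⁻¹' (A ∩ Ico 0 s)) := by
    rw [Set.disjoint_left]
    rintro t ⟨_, h4, h5⟩ ⟨_, h6, h7⟩
    simp only at h4 h5 h6 h7
    linarith
  have hd2 : Disjoint (A ∩ Ico s L) (A ∩ Ico 0 s) := by
    rw [Set.disjoint_left]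
    rintro t ⟨_, h4, h5⟩ ⟨_, h6, h7⟩
    linarith
  rw [h1, h2, measure_union hd1 ((measurable_id.add_const (s - L)) hA2), measure_union hd2 hA2,
    measure_preimage_add_right, measure_preimage_add_right]

private theorem suPark_sort {m : ℕ} (z : Fin m → ℝ)
    (h : ∀ i : ℕ, 1 ≤ i → i ≤ m → i ≤ (Finset.univ.filter (fun j => z j < i)).card) :
    ∃ τ : Equiv.Perm (Fin m), ∀ j : Fin m, z (τ j) < ((j : ℕ) : ℝ) + 1 := by
  refine ⟨Tuple.sort z, fun j => ?_⟩
  by_contra hj
  push Not at hj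
  have hmono := Tuple.monotone_sort z
  have h1 := h ((j : ℕ) + 1) (by omega) (by have := j.2; omega)
  have h2 : (Finset.univ.filter (fun i => z i < (((j : ℕ) + 1 : ℕ) : ℝ))) ⊆
      (Finset.univ.filter (fun i : Fin m => i < j)).image (Tuple.sort z) := by
    intro i hi
    rw [Finset.mem_filter] at hi
    rw [Finset.mem_image]
    refine ⟨(Tuple.sort z).symm i, ?_, by simp⟩
    rw [Finset.mem_filter]
    refine ⟨Finset.mem_univ _, ?_⟩
    by_contra h3
    push Not at h3
    have h4 := hmono h3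
    simp only [Function.comp_apply, Equiv.apply_symm_apply] at h4
    have h5 := hi.2
    push_cast at h5
    linarith
  have h3 := Finset.card_le_card h2
  have h4 : ((Finset.univ.filter (fun i : Fin m => i < j)).image (Tuple.sort z)).card ≤ j := by
    refine Finset.card_image_le.trans ?_
    have h5 : (Finset.univ.filter (fun i : Fin m => i < j)) = Finset.Iio j := by
      ext i
      simp
    rw [h5, Fin.card_Iio]
  omega

private theorem suPark_min (m : ℕ) (N : ℕ → ℕ) :
    ∃ t₀ : ℕ, 1 ≤ t₀ ∧ t₀ ≤ m + 1 ∧ (∀ t, t₀ ≤ t → t ≤ m + 1 → N t₀ + t ≤ N t + t₀) ∧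
      ∀ t, 1 ≤ t → t < t₀ → N t₀ + t + 1 ≤ N t + t₀ := by
  obtain ⟨t₀, h1, h2⟩ := Finset.exists_min_image (Finset.Icc 1 (m + 1))
    (fun t => ((N t : ℤ) - t) * (m + 2) + t) ⟨1, by simp⟩
  rw [Finset.mem_Icc] at h1
  refine ⟨t₀, h1.1, h1.2, fun t h3 h4 => ?_, fun t h3 h4 => ?_⟩
  · have h5 := h2 t (Finset.mem_Icc.2 ⟨by omega, h4⟩)
    by_contra h6
    push Not at h6
    have h7 : ((N t : ℤ) - t) + 1 ≤ (N t₀ : ℤ) - t₀ := by omega
    have h8 : ((N t : ℤ) - t + 1) * (m + 2) ≤ ((N t₀ : ℤ) - t₀) * (m + 2) :=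
      mul_le_mul_of_nonneg_right h7 (by positivity)
    have h9 : (t : ℤ) ≤ m + 1 := by exact_mod_cast h4
    have h10 : (1 : ℤ) ≤ t₀ := by exact_mod_cast h1.1
    nlinarith
  · have h5 := h2 t (Finset.mem_Icc.2 ⟨h3, by omega⟩)
    by_contra h6
    push Not at h6
    have h7 : ((N t : ℤ) - t) ≤ (N t₀ : ℤ) - t₀ := by omega
    have h8 : ((N t : ℤ) - t) * (m + 2) ≤ ((N t₀ : ℤ) - t₀) * (m + 2) :=
      mul_le_mul_of_nonneg_right h7 (by positivity)
    have h9 : (t : ℤ) < t₀ := by exact_mod_cast h4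
    linarith

/-- the count for the rotated points -/
private theorem suPark_count (B : Finset (Fin d)) (y : Fin d → ℝ)
    (hy : ∀ j ∈ B, 0 ≤ y j ∧ y j < (B.card : ℝ) + 1) :
    ∃ k : ℕ, k ≤ B.card ∧ ∀ i : ℕ, 1 ≤ i → i ≤ B.card →
      i ≤ (B.filter (fun j => rot ((B.card : ℝ) + 1) k (y j) < i)).card := by
  obtain ⟨m, hm⟩ : ∃ m, m = B.card := ⟨_, rfl⟩
  rw [← hm] at hy ⊢
  obtain ⟨t₀, h1, h2, h3, h4⟩ := suPark_min m (fun t => (B.filter (fun j => y j < (t : ℝ))).card)
  refine ⟨m + 1 - t₀, by omega, fun i hi1 him => ?_⟩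
  have hk : ((m + 1 - t₀ : ℕ) : ℝ) = (m : ℝ) + 1 - t₀ := by
    rw [Nat.cast_sub h2]
    push_cast
    ring
  rw [hk]
  have hrot1 : ∀ j, (t₀ : ℝ) ≤ y j → rot ((m : ℝ) + 1) ((m : ℝ) + 1 - t₀) (y j) = y j - t₀ := by
    intro j hj
    unfold rot
    rw [if_neg (by linarith)]
    ring
  have hrot2 : ∀ j, y j < (t₀ : ℝ) → rot ((m : ℝ) + 1) ((m : ℝ) + 1 - t₀) (y j) =
      y j + ((m : ℝ) + 1 - t₀) := by
    intro j hj
    unfold rot
    rw [if_pos (by linarith)]
  rcases Nat.lt_or_ge (m + 1) (t₀ + i) with hc | hc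
  · -- second case
    have h5 := h4 (t₀ + i - (m + 1)) (by omega) (by omega)
    have hcast : ((t₀ + i - (m + 1) : ℕ) : ℝ) = (t₀ : ℝ) + i - (m + 1) := by
      rw [Nat.cast_sub (by omega)]
      push_cast
      ring
    have him' : (i : ℝ) ≤ m := by exact_mod_cast him
    have hc' : (m : ℝ) + 1 < t₀ + i := by exact_mod_cast hc
    have h6 : (B.filter (fun j => y j < ((t₀ + i - (m + 1) : ℕ) : ℝ))) ∪
        (B \ (B.filter (fun j => y j < (t₀ : ℝ)))) ⊆
        B.filter (fun j => rot ((m : ℝ) + 1) ((m : ℝ) + 1 - t₀) (y j) < i) := by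
      intro j hj
      rw [Finset.mem_union, Finset.mem_filter, Finset.mem_sdiff, Finset.mem_filter] at hj
      rw [Finset.mem_filter]
      rcases hj with ⟨ha, hb⟩ | ⟨ha, hb⟩
      · rw [hcast] at hb
        refine ⟨ha, ?_⟩
        rw [hrot2 j (by linarith)]
        linarith
      · have hb' : (t₀ : ℝ) ≤ y j := by
          by_contra hcon
          exact hb ⟨ha, not_le.1 hcon⟩
        refine ⟨ha, ?_⟩
        rw [hrot1 j hb']
        have := (hy j ha).2
        linarith
    have h7 : Disjoint (B.filter (fun j => y j < ((t₀ + i - (m + 1) : ℕ) : ℝ)))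
        (B \ (B.filter (fun j => y j < (t₀ : ℝ)))) := by
      rw [Finset.disjoint_left]
      intro j hj hj'
      rw [Finset.mem_filter] at hj
      rw [Finset.mem_sdiff, Finset.mem_filter] at hj'
      refine hj'.2 ⟨hj.1, ?_⟩
      have := hj.2
      rw [hcast] at this
      linarith
    have h8 := Finset.card_le_card h6
    rw [Finset.card_union_of_disjoint h7, Finset.card_sdiff_of_subset (Finset.filter_subset _ _),
      ← hm] at h8
    have h9 := Finset.card_filter_le B (fun j => y j < (t₀ : ℝ))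
    rw [← hm] at h9
    omega
  · have h5 := h3 (t₀ + i) (by omega) hc
    have h6 : (B.filter (fun j => y j < ((t₀ + i : ℕ) : ℝ))) \
        (B.filter (fun j => y j < (t₀ : ℝ))) ⊆
        B.filter (fun j => rot ((m : ℝ) + 1) ((m : ℝ) + 1 - t₀) (y j) < i) := by
      intro j hj
      rw [Finset.mem_sdiff, Finset.mem_filter, Finset.mem_filter] at hj
      rw [Finset.mem_filter]
      obtain ⟨⟨ha, hb⟩, hc'⟩ := hj
      have hb' : (t₀ : ℝ) ≤ y j := by
        by_contra hcon
        exact hc' ⟨ha, not_le.1 hcon⟩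
      refine ⟨ha, ?_⟩
      rw [hrot1 j hb']
      push_cast at hb
      linarith
    have h8 := Finset.card_le_card h6
    have h9 := Finset.le_card_sdiff (B.filter (fun j => y j < (t₀ : ℝ)))
      (B.filter (fun j => y j < ((t₀ + i : ℕ) : ℝ)))
    omega

/-- The cycle lemma for one block: for every point of `[0, m + 1) ^ m` some rotation by an integer
is a parking configuration. -/
theorem cycle_block (c : Fin d → ι) (i₀ : Fin d) (y : Fin d → ℝ)
    (hy : ∀ j ∈ blk c i₀, 0 ≤ y j ∧ y j < ((blk c i₀).card : ℝ) + 1) :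
    ∃ k : ℕ, k ≤ (blk c i₀).card ∧ ∃ σ : Equiv.Perm (Fin d), Blk c σ ∧
      (∀ j, j ∉ blk c i₀ → σ j = j) ∧
      ∀ j ∈ blk c i₀, rot (((blk c i₀).card : ℝ) + 1) k (y (σ j)) ≤ rk c j := by
  classical
  obtain ⟨B, hB⟩ : ∃ B, B = blk c i₀ := ⟨_, rfl⟩
  have hmem : ∀ j, j ∈ B ↔ c j = c i₀ := by
    intro j
    rw [hB]
    unfold blk
    simp
  rw [← hB] at hy ⊢
  obtain ⟨k, hk, h⟩ := suPark_count B y hy
  refine ⟨k, hk, ?_⟩
  obtain ⟨e, he⟩ : ∃ e : Fin B.card ≃o B, e = B.orderIsoOfFin rfl := ⟨_, rfl⟩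
  obtain ⟨τ, hτ⟩ := suPark_sort (fun i : Fin B.card => rot ((B.card : ℝ) + 1) k (y (e i))) (by
    intro i hi1 hi2
    refine (h i hi1 hi2).trans (le_of_eq ?_)
    refine Finset.card_bij' (fun j hj => e.symm ⟨j, (Finset.mem_filter.1 hj).1⟩)
      (fun i _ => (e i : Fin d)) ?_ ?_ ?_ ?_
    · intro j hj
      rw [Finset.mem_filter] at hj ⊢
      refine ⟨Finset.mem_univ _, ?_⟩
      simp only [OrderIso.apply_symm_apply]
      exact hj.2
    · intro i hi
      rw [Finset.mem_filter] at hi ⊢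
      exact ⟨(e i).2, hi.2⟩
    · intro j hj
      simp
    · intro i hi
      simp)
  obtain ⟨ρ, hρ⟩ : ∃ ρ : Equiv.Perm B, ρ = (e.symm.toEquiv.trans τ).trans e.toEquiv := ⟨_, rfl⟩
  refine ⟨Equiv.Perm.ofSubtype ρ, ?_, ?_, ?_⟩
  · intro j
    by_cases hj : j ∈ B
    · rw [Equiv.Perm.ofSubtype_apply_of_mem ρ hj, (hmem _).1 (ρ ⟨j, hj⟩).2, (hmem _).1 hj]
    · rw [Equiv.Perm.ofSubtype_apply_of_not_mem ρ hj]
  · intro j hj
    exact Equiv.Perm.ofSubtype_apply_of_not_mem ρ hj
  · intro j hj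
    rw [Equiv.Perm.ofSubtype_apply_of_mem ρ hj]
    have h1 := hτ (e.symm ⟨j, hj⟩)
    have h2 : (ρ ⟨j, hj⟩ : B) = e (τ (e.symm ⟨j, hj⟩)) := by
      rw [hρ]
      rfl
    rw [h2]
    refine h1.le.trans ?_
    have h3 : ((e.symm ⟨j, hj⟩ : Fin B.card) : ℕ) + 1 = rk c j := by
      unfold rk
      have h4 : (Finset.univ.filter (fun l => c l = c j ∧ l ≤ j)) =
          (Finset.Iic (e.symm ⟨j, hj⟩)).map
            (e.toEquiv.toEmbedding.trans (Function.Embedding.subtype _)) := by
        ext l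
        simp only [Finset.mem_filter, Finset.mem_univ, true_and, Finset.mem_map, Finset.mem_Iic]
        constructor
        · rintro ⟨h5, h6⟩
          have h7 : l ∈ B := (hmem l).2 (h5.trans ((hmem j).1 hj))
          refine ⟨e.symm ⟨l, h7⟩, ?_, ?_⟩
          · exact e.symm.monotone h6
          · simp
        · rintro ⟨a, h5, h6⟩
          have h7 : (e a : Fin d) = l := h6
          have h8 : e a ≤ ⟨j, hj⟩ := by
            have := e.monotone h5
            rwa [OrderIso.apply_symm_apply] at this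
          rw [← h7]
          exact ⟨((hmem _).1 (e a).2).trans ((hmem j).1 hj).symm, h8⟩
      rw [h4, Finset.card_map, Fin.card_Iic]
    rw [← h3]
    push_cast
    exact le_refl _

end Pool.Agent.Lib.MP_29b1bb_gt.SU
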