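import Pool.Agent.Lib.MP_29b1bb_gt.SU.Park

/-!
Proof sketch for module ParkVol (board SU, MP_29b1bb_gt, helper96).
cycle_all: apply cycle_block in each block to y/h and compose the permutations (they have disjoint supports; or define sigma j by the permutation of the block of j).
under_volume: Q = prod Ico 0 (((blk c i).card+1) h i). For a function k constant on the blocks with k <= card let T_k y = (fun i => rot (..) (k i * h i) (y i)); T_k preserves the volume on Q
(measurePreserving_pi with rot_preserving, Measure.restrict_pi_pi). cycle_all: Q is covered by the sets T_k^-1(under), the number of k's is prod over blocks of (card + 1); note that the parameters of rot for sigma j and j agree.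
So vol Q <= (number of k) * vol(under). under is a finite union of closed boxes images, measurable, bounded.
-/

set_option autoImplicit false

open MeasureTheory Set

namespace Pool.Agent.Lib.MP_29b1bb_gt.SU

variable {d : ℕ} {ι : Type*}

private theorem suParkVol_blk (c : Fin d → ι) (i j : Fin d) : j ∈ blk c i ↔ c j = c i := by
  unfold blk
  simp

private theorem suParkVol_blk_eq (c : Fin d → ι) {i j : Fin d} (h : c i = c j) :
    blk c i = blk c j := by
  ext l
  rw [suParkVol_blk, suParkVol_blk, h]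

private theorem suParkVol_scale (L s t h : ℝ) (hh : 0 < h) :
    rot (L * h) (s * h) (t * h) = rot L s t * h := by
  unfold rot
  have h1 : t * h + s * h < L * h ↔ t + s < L := by
    rw [← add_mul]
    exact mul_lt_mul_iff_left₀ hh
  by_cases h2 : t + s < L
  · rw [if_pos h2, if_pos (h1.2 h2)]
    ring
  · rw [if_neg h2, if_neg (fun h3 => h2 (h1.1 h3))]
    ring

/-- The cycle lemma in all the blocks together; `h i > 0` is the step of the block of `i`. -/
theorem cycle_all (c : Fin d → ι) (h : Fin d → ℝ) (hh : ∀ i, 0 < h i)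
    (hc : ∀ i j, c i = c j → h i = h j) (y : Fin d → ℝ)
    (hy : ∀ j, 0 ≤ y j ∧ y j < (((blk c j).card : ℝ) + 1) * h j) :
    ∃ k : Fin d → ℕ, (∀ i j, c i = c j → k i = k j) ∧ (∀ i, k i ≤ (blk c i).card) ∧
      ∃ σ : Equiv.Perm (Fin d), Blk c σ ∧
      ∀ j, rot ((((blk c j).card : ℝ) + 1) * h j) (k j * h j) (y (σ j)) ≤ rk c j * h j := by
  classical
  have hne : ∀ i, (blk c i).Nonempty := fun i => ⟨i, (suParkVol_blk c i i).2 rfl⟩
  obtain ⟨rep, hrep⟩ : ∃ rep : Fin d → Fin d, rep = fun i => (blk c i).min' (hne i) := ⟨_, rfl⟩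
  have hrc : ∀ i, c (rep i) = c i := by
    intro i
    rw [hrep]
    exact (suParkVol_blk c i _).1 (Finset.min'_mem _ _)
  have hrr : ∀ i j, c i = c j → rep i = rep j := by
    intro i j hij
    rw [hrep]
    simp only [suParkVol_blk_eq c hij]
  have hcb := fun i₀ : Fin d => cycle_block c i₀ (fun j => y j / h j) (by
    intro j hj
    have h1 := hy j
    have h2 := suParkVol_blk_eq c ((suParkVol_blk c i₀ j).1 hj)
    rw [h2] at h1
    exact ⟨div_nonneg h1.1 (hh j).le, (div_lt_iff₀ (hh j)).2 h1.2⟩)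
  choose K hK Sg hS1 hS2 hS3 using hcb
  obtain ⟨f, hf⟩ : ∃ f : Fin d → Fin d, f = fun j => Sg (rep j) j := ⟨_, rfl⟩
  have hfc : ∀ j, c (f j) = c j := by
    intro j
    rw [hf]
    exact hS1 (rep j) j
  have hinj : Function.Injective f := by
    intro a b hab
    have h1 : c a = c b := by rw [← hfc a, ← hfc b, hab]
    have h2 := hrr a b h1
    rw [hf] at hab
    simp only [h2] at hab
    exact (Sg (rep b)).injective hab
  refine ⟨fun i => K (rep i), fun i j hij => by simp only [hrr i j hij], fun i => ?_,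
    Equiv.ofBijective f (Finite.injective_iff_bijective.1 hinj), hfc, fun j => ?_⟩
  · have h1 := hK (rep i)
    rwa [suParkVol_blk_eq c (hrc i)] at h1
  · have h1 := hS3 (rep j) j ((suParkVol_blk c (rep j) j).2 (hrc j).symm)
    rw [suParkVol_blk_eq c (hrc j)] at h1
    have h2 : h (f j) = h j := hc _ _ (hfc j)
    have h3 : y (f j) = y (f j) / h (f j) * h j := by
      rw [h2, div_mul_cancel₀ _ (hh j).ne']
    change rot ((((blk c j).card : ℝ) + 1) * h j) (K (rep j) * h j) (y (f j)) ≤ rk c j * h j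
    rw [h3, suParkVol_scale _ _ _ _ (hh j)]
    refine mul_le_mul_of_nonneg_right ?_ (hh j).le
    rw [hf]
    exact h1

/-- the points which some permutation preserving the blocks moves below `l` -/
def under (c : Fin d → ι) (l : Fin d → ℝ) : Set (Fin d → ℝ) :=
  {y | (∀ i, 0 ≤ y i) ∧ ∃ σ : Equiv.Perm (Fin d), Blk c σ ∧ ∀ i, y (σ i) ≤ l i}

private theorem suParkVol_meas (c : Fin d → ι) (l : Fin d → ℝ) : MeasurableSet (under c l) := by
  have h1 : under c l = (⋂ i, {y : Fin d → ℝ | 0 ≤ y i}) ∩
      ⋃ σ : {σ : Equiv.Perm (Fin d) // Blk c σ}, ⋂ i, {y : Fin d → ℝ | y (σ.1 i) ≤ l i} := by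
    ext y
    simp only [under, mem_ofPred_eq, mem_inter_iff, mem_iInter, mem_iUnion]
    constructor
    · rintro ⟨h2, σ, h3, h4⟩
      exact ⟨h2, ⟨σ, h3⟩, h4⟩
    · rintro ⟨h2, σ, h4⟩
      exact ⟨h2, σ.1, σ.2, h4⟩
  rw [h1]
  refine MeasurableSet.inter (MeasurableSet.iInter fun i => ?_)
    (MeasurableSet.iUnion fun σ => MeasurableSet.iInter fun i => ?_)
  · exact measurableSet_le measurable_const (measurable_pi_apply i)
  · exact measurableSet_le (measurable_pi_apply _) measurable_const

private theorem suParkVol_fin (c : Fin d → ι) (l : Fin d → ℝ) : volume (under c l) < ⊤ := by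
  have h1 : under c l ⊆ Set.Icc (fun _ => 0) (fun _ => ∑ i, |l i|) := by
    rintro y ⟨h2, σ, -, h4⟩
    rw [Set.mem_Icc, Pi.le_def, Pi.le_def]
    refine ⟨h2, fun i => ?_⟩
    have h5 := h4 (σ.symm i)
    rw [Equiv.apply_symm_apply] at h5
    refine h5.trans ((le_abs_self _).trans ?_)
    exact Finset.single_le_sum (f := fun i => |l i|) (fun i _ => abs_nonneg _)
      (Finset.mem_univ (σ.symm i))
  exact (measure_mono h1).trans_lt (isCompact_Icc.measure_lt_top)

private theorem suParkVol_rot_nonneg (L s t : ℝ) (hs : 0 ≤ s) (ht : 0 ≤ t) : 0 ≤ rot L s t := by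
  unfold rot
  split_ifs with h
  · linarith
  · linarith [not_lt.1 h]

private theorem suParkVol_le (c : Fin d → ι) (l : Fin d → ℝ) (L : Fin d → ℝ) (hL : ∀ i, 0 < L i)
    (s : Fin d → ℝ) (hs : ∀ i, 0 ≤ s i) (hsL : ∀ i, s i ≤ L i) :
    (volume.restrict (Set.univ.pi fun i => Ico 0 (L i)))
      ((fun (y : Fin d → ℝ) i => rot (L i) (s i) (y i)) ⁻¹' under c l) ≤ volume (under c l) := by
  have h1 : (volume.restrict (Set.univ.pi fun i => Ico 0 (L i)) : Measure (Fin d → ℝ)) =
      Measure.pi fun i => volume.restrict (Ico 0 (L i)) := by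
    rw [volume_pi, Measure.restrict_pi_pi]
  have h2 : MeasurePreserving (fun (y : Fin d → ℝ) i => rot (L i) (s i) (y i))
      (Measure.pi fun i => volume.restrict (Ico 0 (L i)))
      (Measure.pi fun i => volume.restrict (Ico 0 (L i))) :=
    measurePreserving_pi _ _ fun i => rot_preserving (L i) (s i) (hL i) (hs i) (hsL i)
  rw [h1, h2.measure_preimage (suParkVol_meas c l).nullMeasurableSet, ← h1]
  exact Measure.restrict_apply_le _ _

open Classical in
/-- the volume of the set of parking configurations -/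
theorem under_volume (c : Fin d → ι) (h : Fin d → ℝ) (hh : ∀ i, 0 < h i)
    (hc : ∀ i j, c i = c j → h i = h j) :
    ∏ i, ((((blk c i).card : ℝ) + 1) * h i) ≤
      (∏ b ∈ Finset.univ.image c, (((Finset.univ.filter (fun j => c j = b)).card : ℝ) + 1)) *
        (volume (under c (fun i => rk c i * h i))).toReal := by
  obtain ⟨U, hU⟩ : ∃ U, U = under c (fun i => rk c i * h i) := ⟨_, rfl⟩
  obtain ⟨L, hLdef⟩ : ∃ L : Fin d → ℝ, L = fun i => (((blk c i).card : ℝ) + 1) * h i := ⟨_, rfl⟩
  have hL : ∀ i, 0 < L i := by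
    intro i
    rw [hLdef]
    exact mul_pos (by positivity) (hh i)
  have hLc : ∀ i j, c i = c j → L i = L j := by
    intro i j hij
    rw [hLdef]
    simp only [suParkVol_blk_eq c hij, hc i j hij]
  obtain ⟨𝒦, h𝒦⟩ : ∃ 𝒦 : Finset ((b : ι) → b ∈ Finset.univ.image c → ℕ),
      𝒦 = (Finset.univ.image c).pi
        (fun b => Finset.range ((Finset.univ.filter (fun j => c j = b)).card + 1)) := ⟨_, rfl⟩
  have hcard : 𝒦.card = ∏ b ∈ Finset.univ.image c,
      ((Finset.univ.filter (fun j => c j = b)).card + 1) := by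
    rw [h𝒦, Finset.card_pi]
    simp only [Finset.card_range]
  have hmem : ∀ i, c i ∈ Finset.univ.image c := fun i => Finset.mem_image_of_mem c (Finset.mem_univ i)
  obtain ⟨T, hT⟩ : ∃ T : ((b : ι) → b ∈ Finset.univ.image c → ℕ) → (Fin d → ℝ) → (Fin d → ℝ),
      T = fun κ y i => rot (L i) ((κ (c i) (hmem i) : ℝ) * h i) (y i) := ⟨_, rfl⟩
  have hblkf : ∀ i, (Finset.univ.filter (fun j => c j = c i)) = blk c i := by
    intro i
    ext j
    rw [suParkVol_blk]
    simp
  have hcover : (Set.univ.pi fun i => Ico 0 (L i)) ⊆ ⋃ κ ∈ 𝒦, (T κ) ⁻¹' U := by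
    intro y hy
    have hy' : ∀ j, 0 ≤ y j ∧ y j < (((blk c j).card : ℝ) + 1) * h j := by
      intro j
      have := hy j (Set.mem_univ j)
      rw [hLdef] at this
      exact this
    obtain ⟨k, hk1, hk2, σ, hσ, hk3⟩ := cycle_all c h hh hc y hy'
    have hex : ∀ b ∈ Finset.univ.image c, ∃ i, c i = b := by
      intro b hb
      obtain ⟨i, -, hi⟩ := Finset.mem_image.1 hb
      exact ⟨i, hi⟩
    refine Set.mem_biUnion (x := fun b hb => k (hex b hb).choose) ?_ ?_
    · rw [h𝒦]
      change _ ∈ Finset.pi _ _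
      rw [Finset.mem_pi]
      intro b hb
      rw [Finset.mem_range]
      have h1 := hk2 (hex b hb).choose
      rw [← hblkf, (hex b hb).choose_spec] at h1
      omega
    · have hTy : ∀ i, T (fun b hb => k (hex b hb).choose) y i = rot (L i) ((k i : ℝ) * h i) (y i) := by
        intro i
        rw [hT]
        simp only
        rw [hk1 _ i (hex (c i) (hmem i)).choose_spec]
      rw [Set.mem_preimage, hU]
      refine ⟨fun i => ?_, σ, hσ, fun j => ?_⟩
      · rw [hTy]
        exact suParkVol_rot_nonneg _ _ _ (mul_nonneg (Nat.cast_nonneg _) (hh i).le) (hy' i).1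
      · rw [hTy, hLc _ _ (hσ j), hk1 _ _ (hσ j), hc _ _ (hσ j)]
        have h1 := hk3 j
        rw [hLdef]
        exact h1
  have hvol : volume (Set.univ.pi fun i => Ico 0 (L i)) ≤ (𝒦.card : ENNReal) * volume U := by
    have h1 : volume (Set.univ.pi fun i => Ico 0 (L i)) =
        (volume.restrict (Set.univ.pi fun i => Ico 0 (L i))) (Set.univ.pi fun i => Ico 0 (L i)) := by
      rw [Measure.restrict_apply_self]
    rw [h1]
    refine (measure_mono hcover).trans ((measure_biUnion_finset_le _ _).trans ?_)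
    rw [← nsmul_eq_mul]
    refine Finset.sum_le_card_nsmul _ _ _ fun κ hκ => ?_
    rw [hT, hU]
    refine suParkVol_le c _ L hL (fun i => (κ (c i) (hmem i) : ℝ) * h i)
      (fun i => mul_nonneg (Nat.cast_nonneg _) (hh i).le) (fun i => ?_)
    have h2 : κ (c i) (hmem i) < (Finset.univ.filter (fun j => c j = c i)).card + 1 := by
      rw [h𝒦, Finset.mem_pi] at hκ
      exact Finset.mem_range.1 (hκ (c i) (hmem i))
    rw [hblkf] at h2
    rw [hLdef]
    refine mul_le_mul_of_nonneg_right ?_ (hh i).le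
    exact_mod_cast h2.le
  have hfin : volume U ≠ ⊤ := by
    rw [hU]
    exact (suParkVol_fin c _).ne
  have h2 := ENNReal.toReal_mono (ENNReal.mul_ne_top (ENNReal.natCast_ne_top _) hfin) hvol
  rw [ENNReal.toReal_mul, ENNReal.toReal_natCast, hcard] at h2
  have h3 : (volume (Set.univ.pi fun i => Ico 0 (L i))).toReal = ∏ i, L i := by
    rw [Real.volume_pi_Ico_toReal (fun i => (hL i).le)]
    refine Finset.prod_congr rfl fun i _ => ?_
    rw [sub_zero]
  rw [h3, hLdef, hU] at h2
  push_cast at h2
  exact h2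

end Pool.Agent.Lib.MP_29b1bb_gt.SU
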