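import Pool.Agent.Lib.MP_29b1bb_gt.SU.Chamber

/-!
Rank convexity of the centroid of the part of a corner in the chamber
(board SU, MP_29b1bb_gt, module Rank).

The proof uses the reflection of the coordinate `j` in the midpoint of its neighbours, an involution
preserving the volume which maps the part of `C` above the midpoint into `C`.
-/

set_option autoImplicit false

open MeasureTheory Set

namespace Pool.Agent.Lib.MP_29b1bb_gt.SU

variable {d : ℕ} {ι : Type*}

private theorem suRank_mp (R : (Fin d → ℝ) →ₗ[ℝ] (Fin d → ℝ)) (hR : ∀ x, R (R x) = x) :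
    MeasurePreserving R volume volume := by
  have h1 : R * R = 1 := LinearMap.ext hR
  have h2 : LinearMap.det R * LinearMap.det R = 1 := by
    rw [← map_mul, h1, map_one]
  have h3 : LinearMap.det R ≠ 0 := fun h => by simp [h] at h2
  have h4 : |(LinearMap.det R)⁻¹| = 1 := by
    rw [abs_inv]
    have h5 : |LinearMap.det R| * |LinearMap.det R| = 1 := by rw [← abs_mul, h2, abs_one]
    have h6 : |LinearMap.det R| = 1 := by
      have h7 := abs_nonneg (LinearMap.det R)
      nlinarith
    rw [h6, inv_one]
  refine ⟨(LinearMap.continuous_of_finiteDimensional R).measurable, ?_⟩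
  rw [Real.map_linearMap_volume_pi_eq_smul_volume_pi h3, h4, ENNReal.ofReal_one, one_smul]

private theorem suRank_refl (R : (Fin d → ℝ) →ₗ[ℝ] (Fin d → ℝ)) (hR : ∀ x, R (R x) = x)
    {C : Set (Fin d → ℝ)} (hC : IsCompact C) {g : (Fin d → ℝ) → ℝ} (hg : Continuous g)
    (hgR : ∀ x, g (R x) = - g x) (h : ∀ x ∈ C, 0 < g x → R x ∈ C) :
    ∫ x in C, g x ≤ 0 := by
  have hcR : Continuous R := LinearMap.continuous_of_finiteDimensional R
  have hemb : MeasurableEmbedding R := by
    have h1 : (⟨⟨R, R, hR, hR⟩, hcR.measurable, hcR.measurable⟩ :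
      (Fin d → ℝ) ≃ᵐ (Fin d → ℝ)) = (R : (Fin d → ℝ) → (Fin d → ℝ)) := rfl
    rw [← h1]
    exact MeasurableEquiv.measurableEmbedding _
  set P : Set (Fin d → ℝ) := C ∩ {x | 0 < g x} with hP
  have hPm : MeasurableSet P :=
    hC.measurableSet.inter (isOpen_lt continuous_const hg).measurableSet
  have hint : IntegrableOn g C := hg.continuousOn.integrableOn_compact hC
  have hsub : R ⁻¹' P ⊆ C \ P := by
    intro x hx
    have h1 : R (R x) ∈ C := h _ hx.1 hx.2
    rw [hR] at h1
    refine ⟨h1, fun hxP => ?_⟩
    have h2 : 0 < g (R x) := hx.2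
    rw [hgR] at h2
    have h3 : 0 < g x := hxP.2
    linarith
  have hsplit : ∫ x in C, g x = (∫ x in P, g x) + ∫ x in C \ P, g x := by
    rw [← setIntegral_union disjoint_sdiff_right (hC.measurableSet.diff hPm)
      (hint.mono_set inter_subset_left) (hint.mono_set sdiff_subset),
      union_sdiff_cancel inter_subset_left]
  have h5 : ∫ x in C \ P, g x ≤ ∫ x in R ⁻¹' P, g x := by
    have h6 : ∫ x in R ⁻¹' P, -g x ≤ ∫ x in C \ P, -g x := by
      refine setIntegral_mono_set ((hint.mono_set sdiff_subset).neg) ?_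
        (Filter.Eventually.of_forall hsub)
      refine (ae_restrict_mem (hC.measurableSet.diff hPm)).mono fun x hx => ?_
      have : ¬ 0 < g x := fun h0 => hx.2 ⟨hx.1, h0⟩
      simp only [Pi.zero_apply]
      linarith
    rw [integral_neg, integral_neg] at h6
    linarith
  have h7 : ∫ x in R ⁻¹' P, g x = - ∫ x in P, g x := by
    have h8 := (suRank_mp R hR).setIntegral_preimage_emb hemb g P
    rw [← h8, ← integral_neg]
    refine integral_congr_ae (Filter.Eventually.of_forall fun x => ?_)
    simp only [hgR, neg_neg]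
  rw [hsplit]
  linarith

private noncomputable def suRank_R (j : Fin d) (l : (Fin d → ℝ) →ₗ[ℝ] ℝ) :
    (Fin d → ℝ) →ₗ[ℝ] (Fin d → ℝ) :=
  LinearMap.id + (LinearMap.single ℝ (fun _ : Fin d => ℝ) j) ∘ₗ
    (l - (2 : ℝ) • LinearMap.proj j)

private theorem suRank_R_apply (j : Fin d) (l : (Fin d → ℝ) →ₗ[ℝ] ℝ) (x : Fin d → ℝ) :
    suRank_R j l x = x + Pi.single j (l x - 2 * x j) := by
  simp [suRank_R]

private theorem suRank_R_self (j : Fin d) (l : (Fin d → ℝ) →ₗ[ℝ] ℝ) (x : Fin d → ℝ) :
    suRank_R j l x j = l x - x j := by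
  rw [suRank_R_apply, Pi.add_apply, Pi.single_eq_same]
  ring

private theorem suRank_R_ne (j : Fin d) (l : (Fin d → ℝ) →ₗ[ℝ] ℝ) (x : Fin d → ℝ) {a : Fin d}
    (ha : a ≠ j) : suRank_R j l x a = x a := by
  rw [suRank_R_apply, Pi.add_apply, Pi.single_eq_of_ne ha, add_zero]

private theorem suRank_R_l (j : Fin d) (l : (Fin d → ℝ) →ₗ[ℝ] ℝ) (hl : ∀ t, l (Pi.single j t) = 0)
    (x : Fin d → ℝ) : l (suRank_R j l x) = l x := by
  rw [suRank_R_apply, map_add, hl, add_zero]

private theorem suRank_R_R (j : Fin d) (l : (Fin d → ℝ) →ₗ[ℝ] ℝ) (hl : ∀ t, l (Pi.single j t) = 0)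
    (x : Fin d → ℝ) : suRank_R j l (suRank_R j l x) = x := by
  ext a
  rcases eq_or_ne a j with rfl | ha
  · rw [suRank_R_self, suRank_R_l a l hl, suRank_R_self]
    ring
  · rw [suRank_R_ne _ _ _ ha, suRank_R_ne _ _ _ ha]

/-- the reflection of the part above the midpoint is in the chamber part of `B` -/
private theorem suRank_main (c : Fin d → ι) {B : Set (Fin d → ℝ)} (hB : Corner d B)
    (j : Fin d) (l : (Fin d → ℝ) →ₗ[ℝ] ℝ) (hl : ∀ t, l (Pi.single j t) = 0)
    (h0 : ∀ x ∈ B ∩ chamber c, 0 ≤ l x - x j)
    (h1 : ∀ x ∈ B ∩ chamber c, ∀ a, a < j → c a = c j → x a ≤ l x - x j) :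
    ∫ x in B ∩ chamber c, (2 * x j - l x) ≤ 0 := by
  have hcl : Continuous l := LinearMap.continuous_of_finiteDimensional l
  refine suRank_refl (suRank_R j l) (suRank_R_R j l hl)
    (hB.compact.inter_right (chamber_closed c)) ?_ ?_ ?_
  · exact (continuous_const.mul (continuous_apply j)).sub hcl
  · intro x
    rw [suRank_R_self, suRank_R_l j l hl]
    ring
  · intro x hx hg
    have hlt : l x - x j < x j := by linarith
    have hle : ∀ a, suRank_R j l x a ≤ x a := by
      intro a
      rcases eq_or_ne a j with rfl | ha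
      · rw [suRank_R_self]
        exact hlt.le
      · rw [suRank_R_ne _ _ _ ha]
    refine ⟨hB.down x hx.1 _ ?_ hle, ?_⟩
    · intro a
      rcases eq_or_ne a j with rfl | ha
      · rw [suRank_R_self]
        exact h0 x hx
      · rw [suRank_R_ne _ _ _ ha]
        exact hB.nonneg x hx.1 a
    · intro a b hab hc
      rcases eq_or_ne b j with rfl | hb
      · rw [suRank_R_self, suRank_R_ne _ _ _ hab.ne]
        exact h1 x hx a hab hc
      · rw [suRank_R_ne _ _ _ hb]
        exact (hle a).trans (hx.2 a b hab hc)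

private theorem suRank_int {c : Fin d → ι} {B : Set (Fin d → ℝ)} (hB : Corner d B) (i : Fin d) :
    IntegrableOn (fun x : Fin d → ℝ => x i) (B ∩ chamber c) :=
  (continuous_apply i).continuousOn.integrableOn_compact
    (hB.compact.inter_right (chamber_closed c))

/-- Rank convexity, first index of a block: `j` is first and `k` is second. -/
theorem rank_first (c : Fin d → ι) {B : Set (Fin d → ℝ)} (hB : Corner d B) (hI : Inv c B)
    {j k : Fin d} (hjk : j < k) (hc : c j = c k) (hj : rk c j = 1) (hk : rk c k = 2) :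
    2 * xb c B j ≤ xb c B k := by
  classical
  have hno : ∀ a, a < j → c a = c j → False := by
    intro a ha hca
    have h1 : ({a, j} : Finset (Fin d)) ⊆
        Finset.univ.filter (fun b => c b = c j ∧ b ≤ j) := by
      intro b hb
      rw [Finset.mem_insert, Finset.mem_singleton] at hb
      rw [Finset.mem_filter]
      rcases hb with rfl | rfl
      · exact ⟨Finset.mem_univ _, hca, ha.le⟩
      · exact ⟨Finset.mem_univ _, rfl, le_refl _⟩
    have h2 := Finset.card_le_card h1
    rw [Finset.card_pair ha.ne] at h2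
    unfold rk at hj
    have h3 : (Finset.univ.filter (fun b => c b = c j ∧ b ≤ j)).card = 1 := by
      rw [← hj]
    omega
  have hmain := suRank_main c hB j (LinearMap.proj k : (Fin d → ℝ) →ₗ[ℝ] ℝ) (by
      intro t
      rw [LinearMap.proj_apply, Pi.single_eq_of_ne hjk.ne'])
    (by
      intro x hx
      have := hx.2 j k hjk hc
      rw [LinearMap.proj_apply]
      linarith)
    (by
      intro x _ a ha hca
      exact (hno a ha hca).elim)
  simp only [LinearMap.proj_apply] at hmain
  rw [integral_sub ((suRank_int hB j).const_mul 2) (suRank_int hB k), integral_const_mul] at hmain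
  unfold xb
  rw [← mul_div_assoc]
  have hV : 0 ≤ vol (B ∩ chamber c) := ENNReal.toReal_nonneg
  exact div_le_div_of_nonneg_right (by linarith) hV

/-- Rank convexity for three consecutive indices `i < j < k` of a block. -/
theorem rank_convex (c : Fin d → ι) {B : Set (Fin d → ℝ)} (hB : Corner d B) (hI : Inv c B)
    {i j k : Fin d} (hij : i < j) (hjk : j < k) (hci : c i = c j) (hck : c j = c k)
    (hr1 : rk c j = rk c i + 1) (hr2 : rk c k = rk c j + 1) :
    2 * xb c B j ≤ xb c B i + xb c B k := by
  classical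
  have hno : ∀ a, a < j → c a = c j → a ≤ i := by
    intro a ha hca
    by_contra hia
    have hia' : i < a := not_le.mp hia
    have h1 : insert a (insert j (Finset.univ.filter (fun b => c b = c i ∧ b ≤ i))) ⊆
        Finset.univ.filter (fun b => c b = c j ∧ b ≤ j) := by
      intro b hb
      rw [Finset.mem_insert, Finset.mem_insert, Finset.mem_filter] at hb
      rw [Finset.mem_filter]
      rcases hb with rfl | rfl | ⟨_, hb1, hb2⟩
      · exact ⟨Finset.mem_univ _, hca, ha.le⟩
      · exact ⟨Finset.mem_univ _, rfl, le_refl _⟩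
      · exact ⟨Finset.mem_univ _, hb1.trans hci, hb2.trans hij.le⟩
    have h2 := Finset.card_le_card h1
    rw [Finset.card_insert_of_notMem, Finset.card_insert_of_notMem] at h2
    · have h3 : (Finset.univ.filter (fun b => c b = c j ∧ b ≤ j)).card =
          (Finset.univ.filter (fun b => c b = c i ∧ b ≤ i)).card + 1 := by
        unfold rk at hr1
        convert hr1 using 2
      omega
    · rw [Finset.mem_filter]
      rintro ⟨_, _, h⟩
      exact absurd h (not_le.mpr hij)
    · rw [Finset.mem_insert, Finset.mem_filter]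
      rintro (h | ⟨_, _, h⟩)
      · exact ha.ne h
      · exact hia h
  have hmain := suRank_main c hB j ((LinearMap.proj i : (Fin d → ℝ) →ₗ[ℝ] ℝ) +
      (LinearMap.proj k : (Fin d → ℝ) →ₗ[ℝ] ℝ)) (by
      intro t
      rw [LinearMap.add_apply, LinearMap.proj_apply, LinearMap.proj_apply,
        Pi.single_eq_of_ne hjk.ne', Pi.single_eq_of_ne hij.ne, add_zero])
    (by
      intro x hx
      have h1 := hx.2 j k hjk hck
      have h2 := hB.nonneg x hx.1 i
      rw [LinearMap.add_apply, LinearMap.proj_apply, LinearMap.proj_apply]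
      linarith)
    (by
      intro x hx a ha hca
      have h1 := hx.2 j k hjk hck
      have h2 : x a ≤ x i := by
        rcases eq_or_lt_of_le (hno a ha hca) with h | h
        · rw [h]
        · exact hx.2 a i h (hca.trans hci.symm)
      rw [LinearMap.add_apply, LinearMap.proj_apply, LinearMap.proj_apply]
      linarith)
  simp only [LinearMap.add_apply, LinearMap.proj_apply] at hmain
  have hik : IntegrableOn (fun x : Fin d → ℝ => x i + x k) (B ∩ chamber c) :=
    (suRank_int hB i).add (suRank_int hB k)
  rw [integral_sub ((suRank_int hB j).const_mul 2) hik, integral_const_mul,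
    integral_add (suRank_int hB i) (suRank_int hB k)] at hmain
  unfold xb
  rw [← mul_div_assoc, ← add_div]
  have hV : 0 ≤ vol (B ∩ chamber c) := ENNReal.toReal_nonneg
  exact div_le_div_of_nonneg_right (by linarith) hV

end Pool.Agent.Lib.MP_29b1bb_gt.SU
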