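import Pool.Agent.Lib.MP_29b1bb_gt.SU.BM

/-!
Proof sketch for module Tail (board SU, MP_29b1bb_gt, helper96).
Proof. For u >= 0 put B_u = {x : (all i, 0 <= x i) and x + u e_i in B} (Function.update or x + Pi.single i u): compact, nonnegative, down-closed, and
translation by u e_i maps it onto {x in B : u <= x i}, so the volumes agree (B_0 = B). If s + t = 0 trivial. Otherwise l = s/(s+t); if s = 0 or t = 0 trivial.
(1-l) B_0 + l B_(s+t) is contained in B_s, l B_0 + (1-l) B_(s+t) in B_t (convexity). bm twice: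
vol B_s >= vol B_0^(1-l) vol B_(s+t)^l, vol B_t >= vol B_0^l vol B_(s+t)^(1-l); multiply (all volumes are finite).
-/

set_option autoImplicit false

open MeasureTheory Set

namespace Pool.Agent.Lib.MP_29b1bb_gt.SU

/-- the translated part of `B` beyond `u` in the direction `i` -/
private def suTail_sh {n : ℕ} (B : Set (Fin n → ℝ)) (i : Fin n) (u : ℝ) : Set (Fin n → ℝ) :=
  {x | (∀ j, 0 ≤ x j) ∧ x + (Pi.single i u : Fin n → ℝ) ∈ B}

private theorem suTail_sh_sub {n : ℕ} {B : Set (Fin n → ℝ)} (hB : Corner n B) (i : Fin n) {u : ℝ}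
    (hu : 0 ≤ u) : suTail_sh B i u ⊆ B := by
  rintro x ⟨hx, hxB⟩
  refine hB.down _ hxB x hx fun j => ?_
  have h : (0 : ℝ) ≤ (Pi.single i u : Fin n → ℝ) j := by
    rcases eq_or_ne j i with rfl | hji
    · rw [Pi.single_eq_same]; exact hu
    · rw [Pi.single_eq_of_ne hji]
  rw [Pi.add_apply]
  linarith

private theorem suTail_sh_compact {n : ℕ} {B : Set (Fin n → ℝ)} (hB : Corner n B) (i : Fin n)
    {u : ℝ} (hu : 0 ≤ u) : IsCompact (suTail_sh B i u) := by
  refine hB.compact.of_isClosed_subset ?_ (suTail_sh_sub hB i hu)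
  have h1 : IsClosed {x : Fin n → ℝ | ∀ j, 0 ≤ x j} := by
    rw [setOf_forall]
    exact isClosed_iInter fun j => isClosed_le continuous_const (continuous_apply j)
  have h2 : IsClosed ((fun x : Fin n → ℝ => x + (Pi.single i u : Fin n → ℝ)) ⁻¹' B) :=
    hB.compact.isClosed.preimage (continuous_id.add continuous_const)
  exact h1.inter h2

private theorem suTail_sh_down {n : ℕ} {B : Set (Fin n → ℝ)} (hB : Corner n B) (i : Fin n)
    {u : ℝ} (hu : 0 ≤ u) : ∀ x ∈ suTail_sh B i u, ∀ y : Fin n → ℝ, (∀ j, 0 ≤ y j) →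
      (∀ j, y j ≤ x j) → y ∈ suTail_sh B i u := by
  rintro x ⟨_, hxB⟩ y hy hyx
  refine ⟨hy, hB.down _ hxB _ (fun j => ?_) fun j => ?_⟩
  · have h : (0 : ℝ) ≤ (Pi.single i u : Fin n → ℝ) j := by
      rcases eq_or_ne j i with rfl | hji
      · rw [Pi.single_eq_same]; exact hu
      · rw [Pi.single_eq_of_ne hji]
    have := hy j
    rw [Pi.add_apply]
    linarith
  · rw [Pi.add_apply, Pi.add_apply]
    have := hyx j
    linarith

private theorem suTail_sh_vol {n : ℕ} {B : Set (Fin n → ℝ)} (hB : Corner n B) (i : Fin n)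
    (u : ℝ) : volume (suTail_sh B i u) = volume {x | x ∈ B ∧ u ≤ x i} := by
  have h : suTail_sh B i u =
      (fun x : Fin n → ℝ => x + (Pi.single i u : Fin n → ℝ)) ⁻¹' {x | x ∈ B ∧ u ≤ x i} := by
    ext x
    simp only [suTail_sh, mem_setOf_eq, mem_preimage]
    constructor
    · rintro ⟨hx, hxB⟩
      refine ⟨hxB, ?_⟩
      rw [Pi.add_apply, Pi.single_eq_same]
      have := hx i
      linarith
    · rintro ⟨hxB, hu⟩
      refine ⟨fun j => ?_, hxB⟩
      rcases eq_or_ne j i with rfl | hji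
      · rw [Pi.add_apply, Pi.single_eq_same] at hu
        linarith
      · have := hB.nonneg _ hxB j
        rw [Pi.add_apply, Pi.single_eq_of_ne hji, add_zero] at this
        exact this
  rw [h, measure_preimage_add_right]

private theorem suTail_zero {n : ℕ} {B : Set (Fin n → ℝ)} (hB : Corner n B) (i : Fin n) :
    {x | x ∈ B ∧ 0 ≤ x i} = B := by
  ext x
  exact ⟨fun h => h.1, fun h => ⟨h, hB.nonneg x h i⟩⟩

private theorem suTail_step {n : ℕ} {B : Set (Fin n → ℝ)} (hB : Corner n B) (i : Fin n)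
    (s r l : ℝ) (hs : 0 ≤ s) (hr : 0 ≤ r) (h0 : 0 < l) (h1 : l < 1) (hl : l * r = s) :
    volume B ^ (1 - l) * volume {x | x ∈ B ∧ r ≤ x i} ^ l ≤ volume {x | x ∈ B ∧ s ≤ x i} := by
  have hb := bm n l h0 h1 (suTail_sh B i 0) (suTail_sh B i r) (suTail_sh B i s)
    (suTail_sh_compact hB i le_rfl) (suTail_sh_compact hB i hr) (suTail_sh_compact hB i hs)
    (fun x hx => hx.1) (fun x hx => hx.1) (suTail_sh_down hB i le_rfl) (suTail_sh_down hB i hr)
    (by
      rintro x ⟨hx, hxB⟩ y ⟨hy, hyB⟩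
      refine ⟨fun j => ?_, ?_⟩
      · rw [Pi.add_apply, Pi.smul_apply, Pi.smul_apply, smul_eq_mul, smul_eq_mul]
        have := mul_nonneg (sub_nonneg.2 h1.le) (hx j)
        have := mul_nonneg h0.le (hy j)
        linarith
      · rw [Pi.single_zero, add_zero] at hxB
        have hc := hB.convex hxB hyB (sub_nonneg.2 h1.le) h0.le (sub_add_cancel 1 l)
        have he : (1 - l) • x + l • y + (Pi.single i s : Fin n → ℝ) =
            (1 - l) • x + l • (y + (Pi.single i r : Fin n → ℝ)) := by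
          rw [smul_add, ← add_assoc, ← Pi.single_smul, smul_eq_mul, hl]
        rw [he]
        exact hc)
  rw [suTail_sh_vol hB, suTail_sh_vol hB, suTail_sh_vol hB, suTail_zero hB] at hb
  exact hb

/-- The tails of a coordinate are log-concave. -/
theorem tail_mul {n : ℕ} {B : Set (Fin n → ℝ)} (hB : Corner n B) (i : Fin n) (s t : ℝ)
    (hs : 0 ≤ s) (ht : 0 ≤ t) :
    volume B * volume {x | x ∈ B ∧ s + t ≤ x i} ≤
      volume {x | x ∈ B ∧ s ≤ x i} * volume {x | x ∈ B ∧ t ≤ x i} := by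
  rcases hs.eq_or_lt with rfl | hs'
  · rw [zero_add, suTail_zero hB]
  rcases ht.eq_or_lt with rfl | ht'
  · rw [add_zero, suTail_zero hB, mul_comm]
  have hst : 0 < s + t := by linarith
  set l : ℝ := s / (s + t) with hl
  have h0 : 0 < l := by positivity
  have h1 : l < 1 := by rw [hl, div_lt_one hst]; linarith
  have e1 := suTail_step hB i s (s + t) l hs hst.le h0 h1 (by rw [hl]; field_simp)
  have e2 := suTail_step hB i t (s + t) (1 - l) ht hst.le (by linarith) (by linarith)
    (by rw [hl]; field_simp; ring)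
  rw [sub_sub_cancel] at e2
  have e3 := mul_le_mul' e1 e2
  refine le_trans (le_of_eq ?_) e3
  set V := volume B
  set W := volume {x | x ∈ B ∧ s + t ≤ x i}
  have f1 : V ^ (1 - l) * V ^ l = V := by
    rw [← ENNReal.rpow_add_of_nonneg _ _ (by linarith) h0.le, sub_add_cancel, ENNReal.rpow_one]
  have f2 : W ^ l * W ^ (1 - l) = W := by
    rw [← ENNReal.rpow_add_of_nonneg _ _ h0.le (by linarith), add_sub_cancel, ENNReal.rpow_one]
  calc V * W = (V ^ (1 - l) * V ^ l) * (W ^ l * W ^ (1 - l)) := by rw [f1, f2]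
    _ = V ^ (1 - l) * W ^ l * (V ^ l * W ^ (1 - l)) := by
      rw [mul_mul_mul_comm]

end Pool.Agent.Lib.MP_29b1bb_gt.SU
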