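import Pool.Agent.Lib.MP_29b1bb_gt.SU.Defs

/-!
Proof sketch for module TwoG (board SU, MP_29b1bb_gt, helper96).
Proof. f is bounded (by f 0), antitone, zero beyond R: everything is integrable. G(x) = int_x^oo f. For 0 <= x <= y integrate h4 over u >= 0:
f x * G y <= G x * f y. Hence for ALL x,y >= 0: (f x - f y) * (G x * f y - G y * f x) >= 0 (both factors are >= 0 when x <= y, both <= 0 when y <= x).
Integrate over x,y in [0,oo)^2: 2 (int f G)(int f) - 2 (int f^2)(int G) >= 0. int G = int t f t (Fubini), int f G = (int f)^2/2 (Fubini, symmetry of f x f y).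
So 2 (int t f)(int f^2) <= 2 (int f G)(int f) = (int f)^3.
-/

set_option autoImplicit false

open MeasureTheory Set

namespace Pool.Agent.Lib.MP_29b1bb_gt.SU

/-- everywhere antitone version, on a compact interval -/
private theorem twoG_core (h : ℝ → ℝ) (hh : Antitone h) (h0 : ∀ t, 0 ≤ h t) (R : ℝ) (hR0 : 0 ≤ R)
    (hR : ∀ t, R < t → h t = 0)
    (h4 : ∀ x y u : ℝ, 0 ≤ x → x ≤ y → 0 ≤ u → h x * h (y + u) ≤ h (x + u) * h y) :
    2 * (∫ t in Icc (0 : ℝ) R, t * h t) * (∫ t in Icc (0 : ℝ) R, h t ^ 2) ≤
      (∫ t in Icc (0 : ℝ) R, h t) ^ 3 := by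
  set ν : Measure ℝ := volume.restrict (Icc (0 : ℝ) R) with hν
  have hfin : IsFiniteMeasure ν := by
    rw [hν]; constructor
    rw [Measure.restrict_apply MeasurableSet.univ, univ_inter, Real.volume_Icc]
    exact ENNReal.ofReal_lt_top
  have hm : Measurable h := hh.measurable
  set B : ℝ := h 0 with hB
  have hB0 : 0 ≤ B := h0 0
  have hbd : ∀ t, 0 ≤ t → h t ≤ B := fun t ht => hh ht
  -- integrability on half lines
  have hint : ∀ x, 0 ≤ x → IntegrableOn h (Ioi x) := by
    intro x hx
    have h1 : IntegrableOn h (Icc 0 R) := by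
      apply Measure.integrableOn_of_bounded (M := B)
      · rw [Real.volume_Icc]; exact ENNReal.ofReal_ne_top
      · exact hm.aestronglyMeasurable
      · filter_upwards [ae_restrict_mem measurableSet_Icc] with t ht
        rw [Real.norm_eq_abs, abs_of_nonneg (h0 t)]
        exact hbd t ht.1
    have h2 : IntegrableOn h (Ioi R) := by
      have h7 : IntegrableOn (fun _ : ℝ => (0 : ℝ)) (Ioi R) := integrableOn_zero
      exact h7.congr_fun (fun t ht => (hR t ht).symm) measurableSet_Ioi
    apply (h1.union h2).mono_set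
    intro t ht
    rcases le_or_gt t R with h3 | h3
    · exact Or.inl ⟨hx.trans (le_of_lt ht), h3⟩
    · exact Or.inr h3
  set G : ℝ → ℝ := fun x => ∫ t, (Ioi x).indicator h t ∂ν with hG
  -- G as a translate
  have hGt : ∀ x, 0 ≤ x → G x = ∫ u in Ioi (0 : ℝ), h (x + u) := by
    intro x hx
    have e1 : G x = ∫ t in Ioi x, h t := by
      rw [hG]
      simp only
      rw [integral_indicator measurableSet_Ioi, hν, Measure.restrict_restrict measurableSet_Ioi]
      symm
      apply setIntegral_eq_of_subset_of_forall_sdiff_eq_zero measurableSet_Ioi inter_subset_left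
      intro t ht
      apply hR
      by_contra h5
      exact ht.2 ⟨ht.1, ⟨hx.trans (le_of_lt ht.1), not_lt.1 h5⟩⟩
    rw [e1, ← integral_indicator measurableSet_Ioi, ← integral_indicator measurableSet_Ioi]
    rw [← integral_add_left_eq_self (μ := volume) (fun t => (Ioi x).indicator h t) x]
    apply integral_congr_ae
    refine Filter.Eventually.of_forall (fun u => ?_)
    simp only
    by_cases hu : 0 < u
    · rw [indicator_of_mem (by simpa using hu), indicator_of_mem (by simpa using hu)]
    · rw [indicator_of_notMem (by simpa using hu), indicator_of_notMem (by simpa using hu)]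
  have hinu : ∀ x, 0 ≤ x → IntegrableOn (fun u => h (x + u)) (Ioi 0) := by
    intro x hx
    have h1 := hint x hx
    rw [← integrable_indicator_iff measurableSet_Ioi] at h1 ⊢
    have h2 := h1.comp_add_left x
    refine h2.congr (Filter.Eventually.of_forall (fun u => ?_))
    simp only
    by_cases hu : 0 < u
    · rw [indicator_of_mem (by simpa using hu), indicator_of_mem (by simpa using hu)]
    · rw [indicator_of_notMem (by simpa using hu), indicator_of_notMem (by simpa using hu)]
  have key1 : ∀ x y, 0 ≤ x → x ≤ y → h x * G y ≤ G x * h y := by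
    intro x y hx hxy
    rw [hGt x hx, hGt y (hx.trans hxy), ← integral_const_mul, ← integral_mul_const]
    apply setIntegral_mono_on
    · exact (hinu y (hx.trans hxy)).const_mul _
    · exact (hinu x hx).mul_const _
    · exact measurableSet_Ioi
    · intro u hu
      exact h4 x y u hx hxy (le_of_lt hu)
  have key2 : ∀ x y, 0 ≤ x → 0 ≤ y → 0 ≤ (h x - h y) * (G x * h y - G y * h x) := by
    intro x y hx hy
    rcases le_total x y with hxy | hxy
    · apply mul_nonneg
      · linarith [hh hxy]
      · linarith [key1 x y hx hxy, mul_comm (h x) (G y)]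
    · apply mul_nonneg_of_nonpos_of_nonpos
      · linarith [hh hxy]
      · linarith [key1 y x hy hxy, mul_comm (h y) (G x)]
  -- G is antitone, bounded
  have hi : Integrable h ν := by
    apply Integrable.of_bound hm.aestronglyMeasurable B
    filter_upwards [ae_restrict_mem measurableSet_Icc] with t ht
    rw [Real.norm_eq_abs, abs_of_nonneg (h0 t)]
    exact hbd t ht.1
  have hGa : Antitone G := by
    intro x y hxy
    rw [hG]
    apply integral_mono (hi.indicator measurableSet_Ioi) (hi.indicator measurableSet_Ioi)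
    intro t
    exact indicator_le_indicator_of_subset (Ioi_subset_Ioi hxy) (fun a => h0 a) t
  have hGm : Measurable G := hGa.measurable
  have hG0 : ∀ x, 0 ≤ G x := fun x => integral_nonneg (fun t => indicator_nonneg (fun a _ => h0 a) t)
  set C : ℝ := G 0 with hC
  have hGb : ∀ x, 0 ≤ x → G x ≤ C := fun x hx => hGa hx
  have hC0 : 0 ≤ C := hG0 0
  have bdI : ∀ (F : ℝ → ℝ) (M : ℝ), Measurable F → (∀ t, 0 ≤ t → |F t| ≤ M) → Integrable F ν := by
    intro F M hF hM
    apply Integrable.of_bound hF.aestronglyMeasurable M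
    filter_upwards [ae_restrict_mem measurableSet_Icc] with t ht
    exact hM t ht.1
  have iG : Integrable G ν := bdI G C hGm (fun t ht => by rw [abs_of_nonneg (hG0 t)]; exact hGb t ht)
  have i2 : Integrable (fun t => h t ^ 2) ν := bdI _ (B ^ 2) (hm.pow_const 2) (fun t ht => by
    rw [abs_of_nonneg (by positivity)]
    exact pow_le_pow_left₀ (h0 t) (hbd t ht) 2)
  have ihG : Integrable (fun t => h t * G t) ν := bdI _ (B * C) (hm.mul hGm) (fun t ht => by
    rw [abs_of_nonneg (mul_nonneg (h0 t) (hG0 t))]
    exact mul_le_mul (hbd t ht) (hGb t ht) (hG0 t) hB0)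
  have main : 0 ≤ ∫ x, ∫ y, (h x - h y) * (G x * h y - G y * h x) ∂ν ∂ν := by
    apply integral_nonneg_of_ae
    filter_upwards [ae_restrict_mem measurableSet_Icc] with x hx
    apply integral_nonneg_of_ae
    filter_upwards [ae_restrict_mem measurableSet_Icc] with y hy
    exact key2 x y hx.1 hy.1
  have inner : ∀ x, ∫ y, (h x - h y) * (G x * h y - G y * h x) ∂ν =
      h x * G x * (∫ y, h y ∂ν) - h x ^ 2 * (∫ y, G y ∂ν) - G x * (∫ y, h y ^ 2 ∂ν)
        + h x * (∫ y, h y * G y ∂ν) := by
    intro x
    have e : (fun y => (h x - h y) * (G x * h y - G y * h x)) = fun y =>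
        ((h x * G x) * h y - (h x ^ 2) * G y - (G x) * (h y ^ 2)) + (h x) * (h y * G y) := by
      funext y; ring
    rw [e, integral_add, integral_sub, integral_sub, integral_const_mul, integral_const_mul,
      integral_const_mul, integral_const_mul]
    · exact hi.const_mul _
    · exact iG.const_mul _
    · exact (hi.const_mul _).sub (iG.const_mul _)
    · exact i2.const_mul _
    · exact ((hi.const_mul _).sub (iG.const_mul _)).sub (i2.const_mul _)
    · exact ihG.const_mul _
  have outer : ∫ x, ∫ y, (h x - h y) * (G x * h y - G y * h x) ∂ν ∂ν =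
      2 * ((∫ y, h y * G y ∂ν) * (∫ y, h y ∂ν) - (∫ y, h y ^ 2 ∂ν) * (∫ y, G y ∂ν)) := by
    simp_rw [inner]
    rw [integral_add, integral_sub, integral_sub, integral_mul_const, integral_mul_const,
      integral_mul_const, integral_mul_const]
    · ring
    · exact ihG.mul_const _
    · exact i2.mul_const _
    · exact (ihG.mul_const _).sub (i2.mul_const _)
    · exact iG.mul_const _
    · exact ((ihG.mul_const _).sub (i2.mul_const _)).sub (iG.mul_const _)
    · exact hi.mul_const _
  -- Fubini
  have hsm : MeasurableSet {p : ℝ × ℝ | p.1 < p.2} := measurableSet_lt measurable_fst measurable_snd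
  have swapG : ∫ x, G x ∂ν = ∫ t, t * h t ∂ν := by
    have s1 : ∫ x, G x ∂ν = ∫ t, ∫ x, (Ioi x).indicator h t ∂ν ∂ν := by
      rw [hG]
      apply integral_integral_swap
      apply Integrable.of_bound (C := B)
      · apply Measurable.aestronglyMeasurable
        have : (Function.uncurry fun x t => (Ioi x).indicator h t) =
            {p : ℝ × ℝ | p.1 < p.2}.indicator (fun p => h p.2) := by
          funext p
          rcases p with ⟨x, t⟩
          simp only [Function.uncurry, indicator, mem_Ioi, mem_ofPred_eq]
        rw [this]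
        exact (hm.comp measurable_snd).indicator hsm
      · have hprod : ν.prod ν = (volume.prod volume).restrict (Icc (0:ℝ) R ×ˢ Icc (0:ℝ) R) := by
          rw [hν, Measure.prod_restrict]
        rw [hprod]
        filter_upwards [ae_restrict_mem (measurableSet_Icc.prod measurableSet_Icc)] with p hp
        simp only [Function.uncurry]
        rw [Real.norm_eq_abs, abs_of_nonneg (indicator_nonneg (fun a _ => h0 a) _)]
        by_cases h5 : p.2 ∈ Ioi p.1
        · rw [indicator_of_mem h5]; exact hbd _ hp.2.1
        · rw [indicator_of_notMem h5]; exact hB0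
    rw [s1]
    apply integral_congr_ae
    filter_upwards [ae_restrict_mem measurableSet_Icc] with t ht
    have e2 : (fun x => (Ioi x).indicator h t) = (Iio t).indicator (fun _ => h t) := by
      funext x
      simp only [indicator, mem_Ioi, mem_Iio]
    rw [e2, integral_indicator measurableSet_Iio, hν, Measure.restrict_restrict measurableSet_Iio,
      setIntegral_const]
    have e3 : Iio t ∩ Icc 0 R = Ico 0 t := by
      ext x
      simp only [mem_inter_iff, mem_Iio, mem_Icc, mem_Ico]
      constructor
      · rintro ⟨a, b, c⟩; exact ⟨b, a⟩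
      · rintro ⟨a, b⟩; exact ⟨b, a, (le_of_lt b).trans ht.2⟩
    rw [e3, Measure.real, Real.volume_Ico, ENNReal.toReal_ofReal (by linarith [ht.1]), smul_eq_mul, sub_zero]
  have swaphG : 2 * ∫ x, h x * G x ∂ν = (∫ x, h x ∂ν) ^ 2 := by
    have s0 : ∫ x, h x * G x ∂ν = ∫ x, ∫ t, h x * (Ioi x).indicator h t ∂ν ∂ν := by
      congr 1; funext x
      rw [integral_const_mul]
    have s1 : ∫ x, ∫ t, h x * (Ioi x).indicator h t ∂ν ∂ν =
        ∫ t, ∫ x, h x * (Ioi x).indicator h t ∂ν ∂ν := by
      apply integral_integral_swap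
      apply Integrable.of_bound (C := B * B)
      · apply Measurable.aestronglyMeasurable
        have : (Function.uncurry fun x t => h x * (Ioi x).indicator h t) =
            fun p => h p.1 * {p : ℝ × ℝ | p.1 < p.2}.indicator (fun p => h p.2) p := by
          funext p
          rcases p with ⟨x, t⟩
          simp only [Function.uncurry, indicator, mem_Ioi, mem_ofPred_eq]
        rw [this]
        exact (hm.comp measurable_fst).mul ((hm.comp measurable_snd).indicator hsm)
      · have hprod : ν.prod ν = (volume.prod volume).restrict (Icc (0:ℝ) R ×ˢ Icc (0:ℝ) R) := by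
          rw [hν, Measure.prod_restrict]
        rw [hprod]
        filter_upwards [ae_restrict_mem (measurableSet_Icc.prod measurableSet_Icc)] with p hp
        simp only [Function.uncurry]
        rw [Real.norm_eq_abs, abs_of_nonneg (mul_nonneg (h0 _) (indicator_nonneg (fun a _ => h0 a) _))]
        apply mul_le_mul (hbd _ hp.1.1) _ (indicator_nonneg (fun a _ => h0 a) _) hB0
        by_cases h5 : p.2 ∈ Ioi p.1
        · rw [indicator_of_mem h5]; exact hbd _ hp.2.1
        · rw [indicator_of_notMem h5]; exact hB0
    -- the swapped inner integral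
    have s2 : ∫ t, ∫ x, h x * (Ioi x).indicator h t ∂ν ∂ν =
        ∫ t, h t * ((∫ x, h x ∂ν) - G t) ∂ν := by
      apply integral_congr_ae
      refine Filter.Eventually.of_forall (fun t => ?_)
      simp only
      have e2 : (fun x => h x * (Ioi x).indicator h t) = fun x => h t * (Iio t).indicator h x := by
        funext x
        simp only [indicator, mem_Ioi, mem_Iio]
        split_ifs <;> ring
      rw [e2, integral_const_mul]
      congr 1
      rw [hG]
      simp only
      rw [← integral_sub hi (hi.indicator measurableSet_Ioi)]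
      apply integral_congr_ae
      have hne : ∀ᵐ x ∂ν, x ≠ t := by
        rw [hν]
        apply ae_restrict_of_ae
        simp [ae_iff]
      filter_upwards [hne] with x hx
      rcases lt_or_gt_of_ne hx with h6 | h6
      · rw [indicator_of_mem (by simpa using h6), indicator_of_notMem (by simpa using le_of_lt h6)]
        ring
      · rw [indicator_of_notMem (by simpa using le_of_lt h6), indicator_of_mem (by simpa using h6)]
        ring
    have s3 : ∫ t, h t * ((∫ x, h x ∂ν) - G t) ∂ν = (∫ x, h x ∂ν) ^ 2 - ∫ x, h x * G x ∂ν := by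
      have e4 : (fun t => h t * ((∫ x, h x ∂ν) - G t)) = fun t => h t * (∫ x, h x ∂ν) - h t * G t := by
        funext t; ring
      rw [e4, integral_sub (hi.mul_const _) ihG, integral_mul_const]
      ring
    have := s0.trans (s1.trans (s2.trans s3))
    linarith
  rw [outer] at main
  rw [swapG] at main
  have hI0 : 0 ≤ ∫ y, h y ∂ν := integral_nonneg h0
  have e5 : (∫ y, h y * G y ∂ν) = (∫ x, h x ∂ν) ^ 2 / 2 := by linarith
  rw [e5] at main
  have : 2 * (∫ t, t * h t ∂ν) * (∫ t, h t ^ 2 ∂ν) ≤ (∫ t, h t ∂ν) ^ 2 * (∫ t, h t ∂ν) := by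
    nlinarith [main]
  calc _ ≤ (∫ t, h t ∂ν) ^ 2 * (∫ t, h t ∂ν) := this
    _ = _ := by ring

/-- For a log-concave decreasing function the product of the mean and of the integral of the square
is at most one half of the (normalized) mass. -/
theorem two_g_fun (f : ℝ → ℝ) (hf : AntitoneOn f (Ici 0)) (h0 : ∀ t, 0 ≤ t → 0 ≤ f t) (R : ℝ)
    (hR : ∀ t, R < t → f t = 0)
    (h4 : ∀ x y u : ℝ, 0 ≤ x → x ≤ y → 0 ≤ u → f x * f (y + u) ≤ f (x + u) * f y) :
    2 * (∫ t in Ici (0 : ℝ), t * f t) * (∫ t in Ici (0 : ℝ), f t ^ 2) ≤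
      (∫ t in Ici (0 : ℝ), f t) ^ 3 := by
  set R' : ℝ := max R 0 with hR'
  have hR'0 : 0 ≤ R' := le_max_right _ _
  set h : ℝ → ℝ := fun t => f (max t 0) with hh
  have hfh : ∀ t, 0 ≤ t → h t = f t := by
    intro t ht
    rw [hh]; simp only; rw [max_eq_left ht]
  have hz : ∀ t, R' < t → f t = 0 := fun t ht => hR t (lt_of_le_of_lt (le_max_left _ _) ht)
  have core := twoG_core h (by
      intro a b hab
      rw [hh]
      exact hf (mem_Ici.2 (le_max_right _ _)) (mem_Ici.2 (le_max_right _ _)) (max_le_max hab le_rfl))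
    (fun t => h0 _ (le_max_right _ _)) R' hR'0
    (fun t ht => by rw [hfh t (hR'0.trans (le_of_lt ht))]; exact hz t ht)
    (by
      intro x y u hx hxy hu
      rw [hfh x hx, hfh y (hx.trans hxy), hfh (y + u) (by linarith), hfh (x + u) (by linarith)]
      exact h4 x y u hx hxy hu)
  have conv : ∀ F : ℝ → ℝ, (∀ t, R' < t → F t = 0) →
      ∫ t in Ici (0 : ℝ), F t = ∫ t in Icc (0 : ℝ) R', F t := by
    intro F hF
    apply setIntegral_eq_of_subset_of_forall_sdiff_eq_zero measurableSet_Ici Icc_subset_Ici_self
    intro t ht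
    apply hF
    by_contra h5
    exact ht.2 ⟨ht.1, not_lt.1 h5⟩
  rw [conv (fun t => t * f t) (fun t ht => by rw [hz t ht, mul_zero]),
    conv (fun t => f t ^ 2) (fun t ht => by rw [hz t ht]; norm_num),
    conv f hz]
  have c1 : ∫ t in Icc (0 : ℝ) R', t * h t = ∫ t in Icc (0 : ℝ) R', t * f t :=
    setIntegral_congr_fun measurableSet_Icc (fun t ht => by rw [hfh t ht.1])
  have c2 : ∫ t in Icc (0 : ℝ) R', h t ^ 2 = ∫ t in Icc (0 : ℝ) R', f t ^ 2 :=
    setIntegral_congr_fun measurableSet_Icc (fun t ht => by rw [hfh t ht.1])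
  have c3 : ∫ t in Icc (0 : ℝ) R', h t = ∫ t in Icc (0 : ℝ) R', f t :=
    setIntegral_congr_fun measurableSet_Icc (fun t ht => hfh t ht.1)
  rw [c1, c2, c3] at core
  exact core

end Pool.Agent.Lib.MP_29b1bb_gt.SU
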