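import Pool.Agent.Lib.MP_29b1bb_gt.SU.Defs

/-!
Proof sketch for module Unc (board SU, MP_29b1bb_gt, helper96).
posPart K is the part of an unconditional body in the orthant. posPart_corner: compact (closed subset, preimage under the
homeomorphism WithLp.toLp 2), convex; down-closed: if x in K, 0 <= y <= x, change the coordinates one at a time: replacing x i by y i stays in K since y i is a
convex combination of x i and -(x i); positive volume by volume_posPart and the interior of K.
volume_posPart / integral_posPart: up to null sets (hyperplanes x i = 0) K is the disjoint union over the 2^d sign vectors s of the images of posPart K under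
x -> s x (coordinatewise), which preserve the volume (PiLp.volume_preserving_toLp, EuclideanSpace.volume_preserving_...). For F even in every coordinate all the pieces have the same integral.
moment_cross: the reflection of the coordinate i preserves K and the volume and changes the sign of x i * x j (i <> j) and of x i.
-/

set_option autoImplicit false

open MeasureTheory Set

namespace Pool.Agent.Lib.MP_29b1bb_gt.SU

/-- the part of `K` in the orthant -/
def posPart {d : ℕ} (K : Set (EuclideanSpace ℝ (Fin d))) : Set (Fin d → ℝ) :=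
  {x | (∀ i, 0 ≤ x i) ∧ WithLp.toLp 2 x ∈ K}

/-- `K` is unconditional: closed under changes of signs of the coordinates -/
def Uncond {d : ℕ} (K : Set (EuclideanSpace ℝ (Fin d))) : Prop :=
  ∀ x ∈ K, ∀ s : Fin d → ℝ, (∀ i, s i = 1 ∨ s i = -1) →
    (WithLp.toLp 2 (fun i => s i * x i) : EuclideanSpace ℝ (Fin d)) ∈ K

variable {d : ℕ} {K : Set (EuclideanSpace ℝ (Fin d))}

/-- sign changes preserve the volume -/
private theorem suUnc_mp (s : Fin d → ℝ) (hs : ∀ i, s i = 1 ∨ s i = -1) :
    MeasurePreserving (fun (x : Fin d → ℝ) i => s i * x i) volume volume := by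
  refine volume_preserving_pi (f := fun i (t : ℝ) => s i * t) ?_
  intro i
  rcases hs i with h | h
  · rw [h]
    have h1 := MeasurePreserving.id (volume : Measure ℝ)
    simp only [one_mul]
    exact h1
  · rw [h]
    simpa using Measure.measurePreserving_neg (volume : Measure ℝ)

private theorem suUnc_emb (s : Fin d → ℝ) (hs : ∀ i, s i = 1 ∨ s i = -1) :
    MeasurableEmbedding (fun (x : Fin d → ℝ) i => s i * x i) := by
  have hinv : Function.Involutive (fun (x : Fin d → ℝ) i => s i * x i) := by
    intro x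
    funext i
    show s i * (s i * x i) = x i
    rcases hs i with h | h <;> rw [h] <;> ring
  exact (MeasurableEquiv.ofInvolutive _ hinv (suUnc_mp s hs).measurable).measurableEmbedding

/-- the sign vector changing one coordinate -/
private noncomputable def suUnc_s (i : Fin d) : Fin d → ℝ := Function.update (fun _ => 1) i (-1)

private theorem suUnc_s_sign (i : Fin d) (j : Fin d) : suUnc_s i j = 1 ∨ suUnc_s i j = -1 := by
  unfold suUnc_s
  by_cases h : j = i
  · subst h; right; simp
  · left; simp [h]

private theorem suUnc_s_same (i : Fin d) : suUnc_s i i = -1 := by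
  unfold suUnc_s; simp

private theorem suUnc_s_ne {i j : Fin d} (h : j ≠ i) : suUnc_s i j = 1 := by
  unfold suUnc_s; simp [h]

/-- closed under sign changes -/
private def suUnc_Inv (A : Set (Fin d → ℝ)) : Prop :=
  ∀ x ∈ A, ∀ s : Fin d → ℝ, (∀ i, s i = 1 ∨ s i = -1) → (fun i => s i * x i) ∈ A

private theorem suUnc_inv_iff {A : Set (Fin d → ℝ)} (hA : suUnc_Inv A) (s : Fin d → ℝ)
    (hs : ∀ i, s i = 1 ∨ s i = -1) (x : Fin d → ℝ) : (fun i => s i * x i) ∈ A ↔ x ∈ A := by
  refine ⟨fun h => ?_, fun h => hA x h s hs⟩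
  have h1 := hA _ h s hs
  have h2 : (fun i => s i * (s i * x i)) = x := by
    funext i
    rcases hs i with h | h <;> rw [h] <;> ring
  rw [h2] at h1
  exact h1

private def suUnc_Q (t : Finset (Fin d)) : Set (Fin d → ℝ) := {x | ∀ i ∈ t, 0 ≤ x i}

private theorem suUnc_Q_meas (t : Finset (Fin d)) : MeasurableSet (suUnc_Q t) := by
  have h : suUnc_Q t = ⋂ i ∈ t, {x : Fin d → ℝ | 0 ≤ x i} := by
    ext x; simp [suUnc_Q]
  rw [h]
  exact Finset.measurableSet_biInter _ fun i _ => measurableSet_le measurable_const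
    (measurable_pi_apply i)

private theorem suUnc_ae (i : Fin d) : ∀ᵐ x : Fin d → ℝ, x i ≠ 0 := by
  have h : volume {x : Fin d → ℝ | x i = 0} = 0 := by
    rw [volume_pi]
    exact Measure.pi_hyperplane (fun _ : Fin d => (volume : Measure ℝ)) i 0
  rw [ae_iff]
  simpa using h

private theorem suUnc_aeset (i : Fin d) (B : Set (Fin d → ℝ)) :
    (B ∩ {x | 0 < x i} : Set (Fin d → ℝ)) =ᵐ[volume] (B ∩ {x | 0 ≤ x i} : Set (Fin d → ℝ)) := by
  filter_upwards [suUnc_ae i] with x hx
  refine propext ⟨fun h => ⟨h.1, le_of_lt (show (0 : ℝ) < x i from h.2)⟩, fun h => ⟨h.1, ?_⟩⟩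
  have h2 : (0 : ℝ) ≤ x i := h.2
  exact lt_of_le_of_ne h2 (Ne.symm hx)

private theorem suUnc_pre {A : Set (Fin d → ℝ)} (hA : suUnc_Inv A) (t : Finset (Fin d)) (i : Fin d)
    (hi : i ∉ t) : (fun (x : Fin d → ℝ) j => suUnc_s i j * x j) ⁻¹'
      ((A ∩ suUnc_Q t) ∩ {x | 0 < x i}) = (A ∩ suUnc_Q t) \ {x | 0 ≤ x i} := by
  ext x
  have h1 := suUnc_inv_iff hA (suUnc_s i) (suUnc_s_sign i) x
  have h2 : (fun j => suUnc_s i j * x j) ∈ suUnc_Q t ↔ x ∈ suUnc_Q t := by
    unfold suUnc_Q
    simp only [mem_setOf_eq]
    refine forall_congr' fun j => forall_congr' fun hj => ?_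
    have hji : j ≠ i := by
      intro h
      rw [h] at hj
      exact hi hj
    rw [suUnc_s_ne hji, one_mul]
  simp only [mem_preimage, mem_inter_iff, mem_diff, mem_setOf_eq, h1, h2, suUnc_s_same]
  refine and_congr_right fun _ => ?_
  rw [not_le]
  constructor <;> intro h <;> linarith

private theorem suUnc_insert (A : Set (Fin d → ℝ)) (t : Finset (Fin d)) (i : Fin d) :
    A ∩ suUnc_Q (insert i t) = (A ∩ suUnc_Q t) ∩ {x | 0 ≤ x i} := by
  ext x
  simp only [suUnc_Q, mem_inter_iff, mem_setOf_eq, Finset.mem_insert, forall_eq_or_imp]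
  tauto

private theorem suUnc_half (i : Fin d) : MeasurableSet {x : Fin d → ℝ | 0 ≤ x i} :=
  measurableSet_le measurable_const (measurable_pi_apply i)

private theorem suUnc_half' (i : Fin d) : MeasurableSet {x : Fin d → ℝ | 0 < x i} :=
  measurableSet_lt measurable_const (measurable_pi_apply i)

private theorem suUnc_vol {A : Set (Fin d → ℝ)} (hA : MeasurableSet A) (hs : suUnc_Inv A)
    (t : Finset (Fin d)) : volume A = 2 ^ t.card * volume (A ∩ suUnc_Q t) := by
  classical
  induction t using Finset.induction_on with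
  | empty => simp [suUnc_Q]
  | insert i t hi ih =>
    have h1 : volume (A ∩ suUnc_Q t) = 2 * volume (A ∩ suUnc_Q (insert i t)) := by
      rw [suUnc_insert, ← measure_inter_add_diff (A ∩ suUnc_Q t) (suUnc_half i),
        ← suUnc_pre hs t i hi, (suUnc_mp (suUnc_s i) (suUnc_s_sign i)).measure_preimage
          ((hA.inter (suUnc_Q_meas t)).inter (suUnc_half' i)).nullMeasurableSet,
        measure_congr (suUnc_aeset i (A ∩ suUnc_Q t)), two_mul]
    rw [ih, h1, Finset.card_insert_of_notMem hi, pow_succ, mul_assoc]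

private theorem suUnc_int {A : Set (Fin d → ℝ)} (hA : MeasurableSet A) (hs : suUnc_Inv A)
    (F : (Fin d → ℝ) → ℝ) (hF : IntegrableOn F A)
    (he : ∀ (x : Fin d → ℝ) (s : Fin d → ℝ), (∀ i, s i = 1 ∨ s i = -1) →
      F (fun i => s i * x i) = F x)
    (t : Finset (Fin d)) : ∫ x in A, F x = 2 ^ t.card * ∫ x in A ∩ suUnc_Q t, F x := by
  classical
  induction t using Finset.induction_on with
  | empty => simp [suUnc_Q]
  | insert i t hi ih =>
    have h0 := (suUnc_mp (suUnc_s i) (suUnc_s_sign i)).setIntegral_preimage_emb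
      (suUnc_emb (suUnc_s i) (suUnc_s_sign i)) F ((A ∩ suUnc_Q t) ∩ {x | 0 < x i})
    rw [suUnc_pre hs t i hi] at h0
    have h2 : ∫ x in (A ∩ suUnc_Q t) \ {x | 0 ≤ x i}, F x =
        ∫ x in (A ∩ suUnc_Q t) ∩ {x | 0 ≤ x i}, F x := by
      rw [← setIntegral_congr_set (suUnc_aeset i (A ∩ suUnc_Q t)), ← h0]
      refine integral_congr_ae (Filter.Eventually.of_forall fun x => ?_)
      exact (he x (suUnc_s i) (suUnc_s_sign i)).symm
    have h1 : ∫ x in A ∩ suUnc_Q t, F x = 2 * ∫ x in A ∩ suUnc_Q (insert i t), F x := by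
      rw [suUnc_insert, ← integral_inter_add_diff (suUnc_half i)
        (hF.mono_set Set.inter_subset_left), h2, two_mul]
    rw [ih, h1, Finset.card_insert_of_notMem hi, pow_succ, mul_assoc]

/-- `K` in the coordinates -/
private def suUnc_K (K : Set (EuclideanSpace ℝ (Fin d))) : Set (Fin d → ℝ) :=
  (WithLp.toLp 2) ⁻¹' K

private theorem suUnc_K_inv (hu : Uncond K) : suUnc_Inv (suUnc_K K) := by
  intro x hx s hs
  exact hu _ hx s hs

private theorem suUnc_K_meas (hK : MeasurableSet K) : MeasurableSet (suUnc_K K) :=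
  (MeasurableEquiv.toLp 2 (Fin d → ℝ)).measurable hK

private theorem suUnc_K_vol (hK : MeasurableSet K) : volume (suUnc_K K) = volume K :=
  (PiLp.volume_preserving_toLp (Fin d)).measure_preimage hK.nullMeasurableSet

private theorem suUnc_K_pos : posPart K = suUnc_K K ∩ suUnc_Q Finset.univ := by
  ext x
  simp only [posPart, suUnc_K, suUnc_Q, mem_setOf_eq, mem_inter_iff, mem_preimage,
    Finset.mem_univ, true_imp_iff]
  tauto

private theorem suUnc_K_int (g : (Fin d → ℝ) → ℝ) :
    ∫ x in K, g (fun i => x i) = ∫ x in suUnc_K K, g x := by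
  have h := (PiLp.volume_preserving_toLp (Fin d)).setIntegral_preimage_emb
    (MeasurableEquiv.toLp 2 (Fin d → ℝ)).measurableEmbedding
    (fun x : EuclideanSpace ℝ (Fin d) => g (fun i => x i)) K
  exact h.symm

private theorem suUnc_K_compact (hK : IsCompact K) : IsCompact (suUnc_K K) := by
  have h : suUnc_K K = WithLp.ofLp '' K := by
    ext x
    constructor
    · intro hx
      exact ⟨WithLp.toLp 2 x, hx, rfl⟩
    · rintro ⟨y, hy, rfl⟩
      exact hy
  rw [h]
  exact hK.image (PiLp.continuous_ofLp 2 (fun _ : Fin d => ℝ))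

theorem volume_posPart (hK : MeasurableSet K) (hu : Uncond K) :
    volume K = 2 ^ d * volume (posPart K) := by
  have h := suUnc_vol (suUnc_K_meas hK) (suUnc_K_inv hu) Finset.univ
  rw [suUnc_K_vol hK, Finset.card_univ, Fintype.card_fin] at h
  rw [suUnc_K_pos, h]

theorem integral_posPart (hK : IsCompact K) (hu : Uncond K) (F : (Fin d → ℝ) → ℝ)
    (hF : Continuous F) (he : ∀ x, F (fun i => |x i|) = F x) :
    ∫ x in K, F (fun i => x i) = 2 ^ d * ∫ x in posPart K, F x := by
  have h := suUnc_int (suUnc_K_meas hK.measurableSet) (suUnc_K_inv hu) F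
    (hF.continuousOn.integrableOn_compact (suUnc_K_compact hK)) (fun x s hs => by
      rw [← he, ← he x]
      congr 1
      funext i
      rcases hs i with h | h <;> rw [h] <;> simp) Finset.univ
  rw [Finset.card_univ, Fintype.card_fin] at h
  rw [suUnc_K_int, suUnc_K_pos, h]

private theorem suUnc_down (hc : Convex ℝ K) (hu : Uncond K) (x y : Fin d → ℝ)
    (hx : WithLp.toLp 2 x ∈ K) (hy : ∀ i, 0 ≤ y i) (hyx : ∀ i, y i ≤ x i) (t : Finset (Fin d)) :
    (WithLp.toLp 2 (fun i => if i ∈ t then y i else x i) : EuclideanSpace ℝ (Fin d)) ∈ K := by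
  classical
  induction t using Finset.induction_on with
  | empty => simpa using hx
  | insert i t hi ih =>
    by_cases h0 : x i = 0
    · have h1 : (fun j => if j ∈ insert i t then y j else x j) =
          (fun j => if j ∈ t then y j else x j) := by
        funext j
        by_cases hj : j = i
        · subst hj
          have h2 : y j = 0 := le_antisymm ((hyx j).trans_eq h0) (hy j)
          simp [hi, h0, h2]
        · simp [hj]
      rw [h1]
      exact ih
    · have hxi : 0 < x i := lt_of_le_of_ne ((hy i).trans (hyx i)) (Ne.symm h0)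
      have h2 := hu _ ih (suUnc_s i) (suUnc_s_sign i)
      have ha : 0 ≤ (1 + y i / x i) / 2 := by
        have : 0 ≤ y i / x i := div_nonneg (hy i) hxi.le
        linarith
      have hb : 0 ≤ (1 - y i / x i) / 2 := by
        have : y i / x i ≤ 1 := (div_le_one hxi).mpr (hyx i)
        linarith
      have h3 := hc ih h2 ha hb (by ring)
      convert h3 using 1
      apply (WithLp.equiv 2 (Fin d → ℝ)).injective
      funext j
      show (if j ∈ insert i t then y j else x j) =
        (1 + y i / x i) / 2 * (if j ∈ t then y j else x j) +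
        (1 - y i / x i) / 2 * (suUnc_s i j * (if j ∈ t then y j else x j))
      by_cases hj : j = i
      · subst hj
        rw [suUnc_s_same, if_pos (Finset.mem_insert_self j t), if_neg hi]
        field_simp
        ring
      · rw [suUnc_s_ne hj]
        simp only [Finset.mem_insert, hj, false_or]
        ring

theorem posPart_corner (hK : IsCompact K) (hc : Convex ℝ K) (hi : (interior K).Nonempty)
    (hu : Uncond K) : Corner d (posPart K) := by
  refine ⟨?_, ?_, fun x hx i => hx.1 i, ?_, ?_⟩
  · rw [suUnc_K_pos]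
    refine (suUnc_K_compact hK).inter_right ?_
    have h : suUnc_Q (Finset.univ : Finset (Fin d)) =
        ⋂ i : Fin d, {x : Fin d → ℝ | 0 ≤ x i} := by
      ext x; simp [suUnc_Q]
    rw [h]
    exact isClosed_iInter fun i => isClosed_le continuous_const (continuous_apply i)
  · intro x hx y hy a b ha hb hab
    refine ⟨fun i => ?_, ?_⟩
    · show 0 ≤ a * x i + b * y i
      exact add_nonneg (mul_nonneg ha (hx.1 i)) (mul_nonneg hb (hy.1 i))
    · exact hc hx.2 hy.2 ha hb hab
  · intro x hx y hy hyx
    refine ⟨hy, ?_⟩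
    have h := suUnc_down hc hu x y hx.2 hy hyx Finset.univ
    simpa using h
  · rw [pos_iff_ne_zero]
    intro h0
    have h := volume_posPart hK.measurableSet hu
    rw [h0, mul_zero] at h
    have h1 : 0 < volume K :=
      (isOpen_interior.measure_pos volume hi).trans_le (measure_mono interior_subset)
    exact h1.ne' h

/-- odd functions have mean zero -/
private theorem suUnc_odd (hu : Uncond K) (i : Fin d) (g : (Fin d → ℝ) → ℝ)
    (hg : ∀ x : Fin d → ℝ, g (fun j => suUnc_s i j * x j) = -g x) :
    ∫ x in K, g (fun i => x i) = 0 := by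
  rw [suUnc_K_int]
  have h := (suUnc_mp (suUnc_s i) (suUnc_s_sign i)).setIntegral_preimage_emb
    (suUnc_emb (suUnc_s i) (suUnc_s_sign i)) g (suUnc_K K)
  have h1 : (fun (x : Fin d → ℝ) j => suUnc_s i j * x j) ⁻¹' (suUnc_K K) = suUnc_K K := by
    ext x
    exact suUnc_inv_iff (suUnc_K_inv hu) (suUnc_s i) (suUnc_s_sign i) x
  rw [h1] at h
  have h2 : ∫ x in suUnc_K K, g (fun j => suUnc_s i j * x j) = -∫ x in suUnc_K K, g x := by
    rw [← integral_neg]
    exact integral_congr_ae (Filter.Eventually.of_forall fun x => hg x)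
  rw [h2] at h
  linarith

theorem moment_one (hK : IsCompact K) (hu : Uncond K) (i : Fin d) : ∫ x in K, x i = 0 := by
  refine suUnc_odd hu i (fun x => x i) (fun x => ?_)
  show suUnc_s i i * x i = -x i
  rw [suUnc_s_same]
  ring

theorem moment_cross (hK : IsCompact K) (hu : Uncond K) {i j : Fin d} (hij : i ≠ j) :
    ∫ x in K, x i * x j = 0 := by
  refine suUnc_odd hu i (fun x => x i * x j) (fun x => ?_)
  show suUnc_s i i * x i * (suUnc_s i j * x j) = -(x i * x j)
  rw [suUnc_s_same, suUnc_s_ne (Ne.symm hij)]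
  ring

theorem moment_two (hK : IsCompact K) (hu : Uncond K) (i : Fin d) :
    ∫ x in K, (x i) ^ 2 = 2 ^ d * M2 (posPart K) i := by
  have h := integral_posPart hK hu (fun x => (x i) ^ 2) (by fun_prop) (fun x => by
    simp [sq_abs])
  exact h

end Pool.Agent.Lib.MP_29b1bb_gt.SU
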